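import Pool.Agent.Lib.TUK.Defs2
import Pool.Agent.Lib.TU.V1

/-!
# TUK row VK: the converse for nilsequences (helper71)
-/

set_option autoImplicit false
open Finset Polynomial MeasureTheory

namespace Pool.Agent.TUK

open Pool.Agent.Lib.MP_663568_nt Pool.Agent.Lib.MP_663568_nt.Katai
  Pool.Agent.Lib.MP_663568_nt.Nul Pool.Agent.TU

namespace RVK

open Pool.Agent.TU.RV1

/-- finite Fourier expansion of a periodic function -/
theorem fourier (q : ℕ) (hq : 1 ≤ q) (g : ℕ → ℂ) (hg : ∀ h, g (h + q) = g h) :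
    ∃ c : ℕ → ℂ, ∀ h : ℕ, g h = ∑ b ∈ range q, c b * ee ((b : ℝ) * ((h : ℝ) / q)) := by
  have hq0 : (q : ℂ) ≠ 0 := by
    have : q ≠ 0 := by omega
    exact_mod_cast this
  have hmod : ∀ h : ℕ, g h = g (h % q) := by
    intro h
    have key : ∀ m r : ℕ, g (r + q * m) = g r := by
      intro m r
      induction m with
      | zero => simp
      | succ m ih =>
        rw [show r + q * (m + 1) = (r + q * m) + q by ring, hg, ih]
    conv_lhs => rw [← Nat.mod_add_div h q]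
    exact key _ _
  refine ⟨fun b => (1 / (q : ℂ)) * ∑ k ∈ range q, g k * ee (-((b : ℝ) * ((k : ℝ) / q))),
    fun h => ?_⟩
  have h1 : ∑ b ∈ range q, ((1 / (q : ℂ)) * ∑ k ∈ range q, g k * ee (-((b : ℝ) * ((k : ℝ) / q)))) *
      ee ((b : ℝ) * ((h : ℝ) / q)) =
      (1 / (q : ℂ)) * ∑ k ∈ range q, g k * ∑ b ∈ range q,
        ee ((b : ℝ) * ((((h : ℤ) - (k : ℤ) : ℤ) : ℝ) / q)) := by
    simp_rw [mul_sum, sum_mul]
    rw [sum_comm]
    refine sum_congr rfl fun k _ => sum_congr rfl fun b _ => ?_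
    have e : ee ((b : ℝ) * ((((h : ℤ) - (k : ℤ) : ℤ) : ℝ) / q)) =
        ee (-((b : ℝ) * ((k : ℝ) / q))) * ee ((b : ℝ) * ((h : ℝ) / q)) := by
      rw [← ee_add]
      congr 1
      push_cast
      ring
    rw [e]
    ring
  rw [h1]
  simp_rw [RF.orth q hq]
  rw [sum_eq_single (h % q)]
  · rw [if_pos, ← hmod h]
    · field_simp
    · have := Nat.mod_add_div h q
      refine ⟨((h / q : ℕ) : ℤ), ?_⟩
      have h2 : (h : ℤ) = ((h % q : ℕ) : ℤ) + (q : ℤ) * ((h / q : ℕ) : ℤ) := by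
        exact_mod_cast this.symm
      linarith
  · intro k hk hne
    rw [if_neg, mul_zero]
    intro hd
    apply hne
    rw [mem_range] at hk
    have h3 : (k : ℤ) ≡ (h : ℤ) [ZMOD (q : ℤ)] := (Int.modEq_iff_dvd).2 hd
    have h4 : k ≡ h [MOD q] := (Int.natCast_modEq_iff).1 h3
    have h5 : k % q = h % q := h4
    rwa [Nat.mod_eq_of_lt hk] at h5
  · intro hh
    exact absurd (mem_range.2 (Nat.mod_lt h (by omega))) hh

/-- removal of a periodic factor in a sum -/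
theorem window (q : ℕ) (g : ℕ → ℂ) (c : ℕ → ℂ)
    (hc : ∀ h : ℕ, g h = ∑ b ∈ range q, c b * ee ((b : ℝ) * ((h : ℝ) / q)))
    (a : ℕ → ℂ) (H : ℕ) :
    ‖∑ h ∈ Icc 1 H, a h * g h‖ ≤
      ∑ b ∈ range q, ‖c b‖ * ‖∑ h ∈ Icc 1 H, a h * ee ((b : ℝ) * ((h : ℝ) / q))‖ := by
  have h1 : ∑ h ∈ Icc 1 H, a h * g h =
      ∑ b ∈ range q, c b * ∑ h ∈ Icc 1 H, a h * ee ((b : ℝ) * ((h : ℝ) / q)) := by
    simp_rw [hc, mul_sum]
    rw [sum_comm]
    refine sum_congr rfl fun b _ => sum_congr rfl fun h _ => ?_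
    ring
  rw [h1]
  refine (norm_sum_le _ _).trans (sum_le_sum fun b _ => ?_)
  rw [norm_mul]

theorem conj_mul_self_of_norm {z : ℂ} (hz : ‖z‖ = 1) : z * (starRingEnd ℂ) z = 1 := by
  rw [Complex.mul_conj, Complex.normSq_eq_norm_sq, hz]
  norm_num

theorem norm_psi {t : ℕ} (r : Fin t → ℚ) (h : ℕ) : ‖psi r h‖ = 1 := norm_ee _

/-- a bound for one sum -/
theorem term_le {a : ℕ → ℂ} (ha : ∀ m, ‖a m‖ ≤ 1) (H n : ℕ) :
    ‖∑ h ∈ Icc 1 H, muC (n + h) * a h‖ ≤ H := by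
  refine (norm_sum_le _ _).trans ?_
  calc ∑ h ∈ Icc 1 H, ‖muC (n + h) * a h‖ ≤ ∑ h ∈ Icc 1 H, (1 : ℝ) := by
        refine sum_le_sum fun h _ => ?_
        rw [norm_mul]
        exact mul_le_one₀ (norm_muC _) (norm_nonneg _) (ha _)
    _ = H := by simp

end RVK

open RVK Pool.Agent.TU.RV1 in
theorem rowVK : VK_stmt := by
  intro k t F hk hkt hF B hfree r hr
  set q := dn r with hqdef
  have hq : 1 ≤ q := dn_pos r
  have ht : 1 ≤ t := by omega
  obtain ⟨c, hc⟩ := fourier q hq (fun h => (starRingEnd ℂ) (psi r h)) (fun h => by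
    show (starRingEnd ℂ) (psi r (h + q)) = _
    rw [hqdef, psi_per])
  refine ⟨1 + ∑ b ∈ range q, ‖c b‖, by positivity, fun N H => ?_⟩
  unfold SBK
  rw [mul_sum]
  refine sum_le_sum fun n _ => ?_
  rw [mul_left_comm]
  refine mul_le_mul_of_nonneg_left ?_ (by positivity)
  set S : ℝ := ⨆ p : {p : (Fin t → ℝ) × (ℕ → ℂ) // p.1 ∈ B ∧ p.2 ∈ F},
      ‖∑ h ∈ Icc 1 H, muC (n + h) * (p.1.2 h * ee (ph p.1.1 (h : ℝ)))‖ with hS
  have hS0 : 0 ≤ S := Real.iSup_nonneg fun _ => norm_nonneg _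
  have hbdd : BddAbove (Set.range fun p : {p : (Fin t → ℝ) × (ℕ → ℂ) // p.1 ∈ B ∧ p.2 ∈ F} =>
      ‖∑ h ∈ Icc 1 H, muC (n + h) * (p.1.2 h * ee (ph p.1.1 (h : ℝ)))‖) := by
    refine ⟨H, ?_⟩
    rintro _ ⟨p, rfl⟩
    refine RVK.term_le (a := fun h => p.1.2 h * ee (ph p.1.1 (h : ℝ))) (fun m => ?_) H n
    rw [norm_mul, norm_ee, mul_one]
    exact hF _ p.2.2 _
  refine Real.iSup_le (fun p => ?_) (by positivity)
  obtain ⟨⟨y, u⟩, -, hu⟩ := p
  replace hu : u ∈ F := hu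
  show ‖∑ h ∈ Icc 1 H, muC (n + h) * (u h * ee (ph y (h : ℝ)))‖ ≤ _
  have hy : ∀ h : ℕ, ph y (h : ℝ) = y 0 * h := by
    intro h
    unfold ph
    simp
  have h1 : ∑ h ∈ Icc 1 H, muC (n + h) * (u h * ee (ph y (h : ℝ))) =
      ∑ h ∈ Icc 1 H, (muC (n + h) * (u h * (psi r h * ee (y 0 * h)))) *
        (starRingEnd ℂ) (psi r h) := by
    refine sum_congr rfl fun h _ => ?_
    rw [hy]
    have e := conj_mul_self_of_norm (norm_psi r h)
    linear_combination (-(muC (n + h) * (u h * ee (y 0 * h)))) * e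
  rw [h1]
  refine (window q _ c hc (fun h => muC (n + h) * (u h * (psi r h * ee (y 0 * h)))) H).trans ?_
  have h2 : ∀ b ∈ range q, ‖∑ h ∈ Icc 1 H, (muC (n + h) * (u h * (psi r h * ee (y 0 * h)))) *
      ee ((b : ℝ) * ((h : ℝ) / q))‖ ≤ S := by
    intro b _
    set α : Fin t → ℝ := fun i : Fin t => if i.val = 0 then y 0 + b / q else ((r i : ℚ) : ℝ)
      with hα
    have hαB : α ∈ B := by
      refine hfree _ hr α fun i hi => ?_
      have : i.val ≠ 0 := by omega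
      rw [hα]
      simp [this]
    have h3 : ∑ h ∈ Icc 1 H, (muC (n + h) * (u h * (psi r h * ee (y 0 * h)))) *
        ee ((b : ℝ) * ((h : ℝ) / q)) =
        ∑ h ∈ Icc 1 H, muC (n + h) * (u h * ee (ph α (h : ℝ))) := by
      refine sum_congr rfl fun h _ => ?_
      rw [hα, ph_glue ht r (y 0 + b / q) h]
      have e : ee ((y 0 + b / q) * h) = ee (y 0 * h) * ee ((b : ℝ) * ((h : ℝ) / q)) := by
        rw [← ee_add]
        congr 1
        ring
      rw [e]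
      ring
    rw [h3]
    exact le_ciSup hbdd ⟨(α, u), hαB, hu⟩
  calc ∑ b ∈ range q, ‖c b‖ * ‖∑ h ∈ Icc 1 H, (muC (n + h) * (u h * (psi r h * ee (y 0 * h)))) *
      ee ((b : ℝ) * ((h : ℝ) / q))‖ ≤ ∑ b ∈ range q, ‖c b‖ * S :=
        sum_le_sum fun b hb => mul_le_mul_of_nonneg_left (h2 b hb) (norm_nonneg _)
    _ = (∑ b ∈ range q, ‖c b‖) * S := by rw [sum_mul]
    _ ≤ (1 + ∑ b ∈ range q, ‖c b‖) * S :=
        mul_le_mul_of_nonneg_right (by linarith) hS0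

end Pool.Agent.TUK
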