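import Pool.Agent.Lib.TUK.Defs4
import Pool.Agent.Lib.TUK.VK

/-!
# TE row E10: the converse for all the phases of degree at most `k` (helper71)
-/

set_option autoImplicit false
open Finset Polynomial MeasureTheory

namespace Pool.Agent.TUK

open Pool.Agent.Lib.MP_663568_nt Pool.Agent.Lib.MP_663568_nt.Katai
  Pool.Agent.Lib.MP_663568_nt.Nul Pool.Agent.TU

namespace RE10

open Pool.Agent.TU.RV1

/-- the phase of the rational coefficients of degree larger than `k` -/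
noncomputable def psiK {t : ℕ} (k : ℕ) (r : Fin t → ℚ) (h : ℕ) : ℂ :=
  ee (∑ i : Fin t, if i.val < k then 0 else ((r i : ℚ) : ℝ) * (h : ℝ) ^ (i.val + 1))

theorem psiK_per {t : ℕ} (k : ℕ) (r : Fin t → ℚ) (h : ℕ) :
    psiK k r (h + dn r) = psiK k r h := by
  unfold psiK
  have hz : ∀ i : Fin t, ∃ z : ℤ, (if i.val < k then (0 : ℝ) else
      ((r i : ℚ) : ℝ) * ((h + dn r : ℕ) : ℝ) ^ (i.val + 1)) =
      (if i.val < k then 0 else ((r i : ℚ) : ℝ) * (h : ℝ) ^ (i.val + 1)) + (z : ℝ) := by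
    intro i
    by_cases hi : i.val < k
    · refine ⟨0, ?_⟩
      rw [if_pos hi, if_pos hi]
      simp
    · rw [if_neg hi, if_neg hi]
      have hdvd : ((dn r : ℕ) : ℤ) ∣ ((h : ℤ) + dn r) ^ (i.val + 1) - (h : ℤ) ^ (i.val + 1) := by
        have := sub_dvd_pow_sub_pow ((h : ℤ) + dn r) (h : ℤ) (i.val + 1)
        rwa [add_sub_cancel_left] at this
      have hdi : (r i).den ∣ dn r := dvd_prod_of_mem _ (mem_univ i)
      have hdi' : ((r i).den : ℤ) ∣ ((dn r : ℕ) : ℤ) := by exact_mod_cast hdi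
      obtain ⟨w, hw⟩ := hdi'.trans hdvd
      refine ⟨(r i).num * w, ?_⟩
      have hrd : ((r i : ℚ) : ℝ) * ((r i).den : ℝ) = ((r i).num : ℝ) := by
        have := Rat.mul_den_eq_num (r i)
        exact_mod_cast this
      have hw' : ((h : ℝ) + dn r) ^ (i.val + 1) - (h : ℝ) ^ (i.val + 1) = ((r i).den : ℝ) * w := by
        exact_mod_cast hw
      push_cast
      rw [← hrd]
      linear_combination ((r i : ℚ) : ℝ) * hw'
  choose z hz using hz
  rw [sum_congr rfl fun i _ => hz i, sum_add_distrib]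
  have : ∑ i : Fin t, ((z i : ℤ) : ℝ) = ((∑ i : Fin t, z i : ℤ) : ℝ) := by push_cast; rfl
  rw [this, ee_add, ee_int, mul_one]

theorem norm_psiK {t : ℕ} (k : ℕ) (r : Fin t → ℚ) (h : ℕ) : ‖psiK k r h‖ = 1 := norm_ee _

theorem ph_glueK {k t : ℕ} (hkt : k ≤ t) (r : Fin t → ℚ) (y : Fin k → ℝ) (h : ℕ) :
    ee (ph (glue k y (fun i : Fin t => ((r i : ℚ) : ℝ))) (h : ℝ)) =
      psiK k r h * ee (ph y (h : ℝ)) := by
  unfold psiK
  rw [← ee_add]
  congr 1
  unfold ph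
  have h1 : ∑ i : Fin k, y i * (h : ℝ) ^ (i.val + 1) =
      ∑ i : Fin t, (if hi : i.val < k then y ⟨i.val, hi⟩ * (h : ℝ) ^ (i.val + 1) else 0) := by
    refine Fintype.sum_of_injective (Fin.castLE hkt) (Fin.castLE_injective hkt) _ _ ?_ ?_
    · intro i hi
      rw [dif_neg]
      intro h0
      exact hi ⟨⟨i.val, h0⟩, Fin.ext rfl⟩
    · intro i
      have : (Fin.castLE hkt i).val < k := i.2
      rw [dif_pos this]
      rfl
  rw [h1, ← sum_add_distrib]
  refine sum_congr rfl fun i _ => ?_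
  unfold glue
  by_cases hi : i.val < k
  · rw [dif_pos hi, dif_pos hi, if_pos hi, zero_add]
  · rw [dif_neg hi, dif_neg hi, if_neg hi, add_zero]

/-- a change of the coefficient of degree `1` -/
theorem ph_shift {k : ℕ} (hk : 1 ≤ k) (y : Fin k → ℝ) (b h : ℝ) :
    ph (fun i : Fin k => y i + if i.val = 0 then b else 0) h = ph y h + b * h := by
  unfold ph
  have h1 : b * h = ∑ i : Fin k, (if i.val = 0 then b else 0) * h ^ (i.val + 1) := by
    rw [sum_eq_single (⟨0, by omega⟩ : Fin k)]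
    · simp
    · intro i _ hi
      rw [if_neg, zero_mul]
      intro h0
      exact hi (Fin.ext h0)
    · intro h0
      exact absurd (mem_univ _) h0
  rw [h1, ← sum_add_distrib]
  refine sum_congr rfl fun i _ => ?_
  ring

end RE10

open RVK RE10 Pool.Agent.TU.RV1 in
/-- **E10**. -/
theorem rowE10 : E10_stmt := by
  intro k t F hk hkt hF B hfree r hr
  set q := dn r with hqdef
  have hq : 1 ≤ q := dn_pos r
  obtain ⟨c, hc⟩ := fourier q hq (fun h => (starRingEnd ℂ) (psiK k r h)) (fun h => by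
    show (starRingEnd ℂ) (psiK k r (h + q)) = _
    rw [hqdef, psiK_per])
  refine ⟨1 + ∑ b ∈ range q, ‖c b‖, by positivity, fun N H => ?_⟩
  unfold SBK
  rw [mul_sum]
  refine sum_le_sum fun n _ => ?_
  rw [mul_left_comm]
  refine mul_le_mul_of_nonneg_left ?_ (by positivity)
  set S : ℝ := ⨆ p : {p : (Fin t → ℝ) × (ℕ → ℂ) // p.1 ∈ B ∧ p.2 ∈ F},
      ‖∑ h ∈ Icc 1 H, muC (n + h) * (p.1.2 h * ee (ph p.1.1 (h : ℝ)))‖ with hS
  have hS0 : 0 ≤ S := Real.iSup_nonneg fun _ => norm_nonneg _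
  have hbdd : BddAbove (Set.range fun p : {p : (Fin t → ℝ) × (ℕ → ℂ) // p.1 ∈ B ∧ p.2 ∈ F} =>
      ‖∑ h ∈ Icc 1 H, muC (n + h) * (p.1.2 h * ee (ph p.1.1 (h : ℝ)))‖) := by
    refine ⟨H, ?_⟩
    rintro _ ⟨p, rfl⟩
    refine RVK.term_le (a := fun h => p.1.2 h * ee (ph p.1.1 (h : ℝ))) (fun m => ?_) H n
    rw [norm_mul, norm_ee, mul_one]
    exact hF _ p.2.2 _
  refine Real.iSup_le (fun p => ?_) (by positivity)
  obtain ⟨⟨y, u⟩, -, hu⟩ := p
  replace hu : u ∈ F := hu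
  show ‖∑ h ∈ Icc 1 H, muC (n + h) * (u h * ee (ph y (h : ℝ)))‖ ≤ _
  have h1 : ∑ h ∈ Icc 1 H, muC (n + h) * (u h * ee (ph y (h : ℝ))) =
      ∑ h ∈ Icc 1 H, (muC (n + h) * (u h * (psiK k r h * ee (ph y (h : ℝ))))) *
        (starRingEnd ℂ) (psiK k r h) := by
    refine sum_congr rfl fun h _ => ?_
    have e := conj_mul_self_of_norm (norm_psiK k r h)
    linear_combination (-(muC (n + h) * (u h * ee (ph y (h : ℝ))))) * e
  rw [h1]
  refine (window q _ c hc (fun h => muC (n + h) * (u h * (psiK k r h * ee (ph y (h : ℝ)))))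
    H).trans ?_
  have h2 : ∀ b ∈ range q, ‖∑ h ∈ Icc 1 H, (muC (n + h) * (u h * (psiK k r h *
      ee (ph y (h : ℝ))))) * ee ((b : ℝ) * ((h : ℝ) / q))‖ ≤ S := by
    intro b _
    set y' : Fin k → ℝ := fun i => y i + if i.val = 0 then (b : ℝ) / q else 0 with hy'
    set α : Fin t → ℝ := glue k y' (fun i : Fin t => ((r i : ℚ) : ℝ)) with hα
    have hαB : α ∈ B := by
      refine hfree _ hr α fun i hi => ?_
      have : ¬ i.val < k := by omega
      rw [hα]
      unfold glue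
      rw [dif_neg this]
    have h3 : ∑ h ∈ Icc 1 H, (muC (n + h) * (u h * (psiK k r h * ee (ph y (h : ℝ))))) *
        ee ((b : ℝ) * ((h : ℝ) / q)) =
        ∑ h ∈ Icc 1 H, muC (n + h) * (u h * ee (ph α (h : ℝ))) := by
      refine sum_congr rfl fun h _ => ?_
      rw [hα, ph_glueK hkt.le r y' h, hy', ph_shift hk y ((b : ℝ) / q) (h : ℝ), ee_add]
      have e : ((b : ℝ) / q) * h = (b : ℝ) * ((h : ℝ) / q) := by ring
      rw [e]
      ring
    rw [h3]
    exact le_ciSup hbdd ⟨(α, u), hαB, hu⟩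
  calc ∑ b ∈ range q, ‖c b‖ * ‖∑ h ∈ Icc 1 H, (muC (n + h) * (u h * (psiK k r h *
      ee (ph y (h : ℝ))))) * ee ((b : ℝ) * ((h : ℝ) / q))‖ ≤ ∑ b ∈ range q, ‖c b‖ * S :=
        sum_le_sum fun b hb => mul_le_mul_of_nonneg_left (h2 b hb) (norm_nonneg _)
    _ = (∑ b ∈ range q, ‖c b‖) * S := by rw [sum_mul]
    _ ≤ (1 + ∑ b ∈ range q, ‖c b‖) * S :=
        mul_le_mul_of_nonneg_right (by linarith) hS0

end Pool.Agent.TUK
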