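import Pool.Agent.Lib.TUK.Defs4
import Pool.Agent.Lib.TU.C3
import Pool.Agent.Lib.TU.S2

/-!
# TUK, row E4: equidistribution and a closed null set (helper16)
-/

set_option autoImplicit false
open Finset Polynomial MeasureTheory

namespace Pool.Agent.TUK

open Pool.Agent.Lib.MP_663568_nt Pool.Agent.Lib.MP_663568_nt.Katai
  Pool.Agent.Lib.MP_663568_nt.Nul Pool.Agent.TU

namespace E4x

/-- the cylinder over `T` -/
def Cyl (T : Set ℝ) : Set (Fin 2 → ℝ) := {α | α 0 ∈ T}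

theorem fib_le (T : Set ℝ) (r : ℝ) (α : Fin 2 → ℝ) :
    fib 2 (Nb (Cyl T) r) α ≤ volume {y : ℝ | y ∈ Set.Icc 0 1 ∧ ∃ x ∈ T, |x - y| ≤ r} := by
  have hmp := volume_preserving_funUnique (Fin 1) ℝ
  have hsub : {z : Fin (2 - 1) → ℝ | (∀ i, z i ∈ Set.Icc (0 : ℝ) 1) ∧
      glue (2 - 1) z α ∈ Nb (Cyl T) r} ⊆
      (MeasurableEquiv.funUnique (Fin 1) ℝ) ⁻¹'
        {y : ℝ | y ∈ Set.Icc 0 1 ∧ ∃ x ∈ T, |x - y| ≤ r} := by
    rintro z ⟨hz, β, hβ, hb⟩
    have h0 := hb 0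
    have e : glue (2 - 1) z α 0 = z 0 := by simp [glue]
    rw [e] at h0
    exact ⟨hz 0, β 0, hβ, by rw [abs_sub_comm]; exact h0⟩
  unfold fib
  refine (measure_mono hsub).trans (le_of_eq ?_)
  exact hmp.measure_preimage_equiv _

end E4x

open E4x in
open Classical in
theorem rowE4 : E4_stmt := by
  intro T hT h0 hP η hη
  obtain ⟨R, hR, hvol⟩ := S2x.null_nbhd T hT h0 (η / 4) (by positivity)
  have hR0 : 0 < R := by linarith
  obtain ⟨ρ, hρ⟩ : ∃ ρ : ℝ, ρ = 1 / (2 * R) := ⟨_, rfl⟩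
  have hρ0 : 0 < ρ := by rw [hρ]; positivity
  have h2ρ : 2 * ρ = 1 / R := by rw [hρ]; field_simp
  have hcl : IsClosed (Cyl T) := hT.preimage (continuous_apply (0 : Fin 2))
  have hper : Per (Cyl T) := fun α hα z => hP _ hα (z 0)
  obtain ⟨Λ, w, hw0, hw1, hw2⟩ := rowC3 2 (Cyl T) hcl hper 2 (by norm_num) le_rfl ρ (η / 4) hρ0
    (by positivity)
  obtain ⟨S, hS⟩ : ∃ S : ℝ, S = ∑ l ∈ Λ, ‖w l‖ := ⟨_, rfl⟩
  have hS0 : 0 ≤ S := by rw [hS]; exact sum_nonneg fun _ _ => norm_nonneg _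
  refine ⟨ρ, hρ0, ∑ l ∈ Λ, (l 0).natAbs, η / (2 * (1 + S)), by positivity, ?_⟩
  intro H x hx
  have hcard : Nat.card {y : ℕ // y ∈ Icc 1 H ∧ ∃ c ∈ T, |x y - c| ≤ ρ} =
      ((Icc 1 H).filter fun y => ∃ c ∈ T, |x y - c| ≤ ρ).card :=
    Nat.subtype_card _ fun y => by rw [mem_filter]
  rw [hcard]
  set α : ℕ → Fin 2 → ℝ := fun y => ![x y, 0] with hα
  have hα0 : ∀ y, α y 0 = x y := fun y => rfl
  have hα1 : ∀ y, α y 1 = 0 := fun y => rfl
  -- the count is at most the sum of the majorant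
  have h1 : ((((Icc 1 H).filter fun y => ∃ c ∈ T, |x y - c| ≤ ρ).card : ℕ) : ℝ) ≤
      ∑ y ∈ Icc 1 H, (TP Λ w (α y)).re := by
    rw [card_eq_sum_ones, sum_filter, Nat.cast_sum]
    refine sum_le_sum fun y _ => ?_
    split_ifs with h
    · obtain ⟨c, hc, hxc⟩ := h
      have hmem : α y ∈ Nb (Cyl T) ρ := by
        refine ⟨![c, 0], hc, fun i => ?_⟩
        fin_cases i
        · exact hxc
        · simp [hα, hρ0.le]
      simpa using hw1 _ hmem
    · simpa using hw0 (α y)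
  have h2 : ∀ y, TP Λ w (α y) = TP (Λ.filter fun l => Low 2 l) w (α y) +
      TP (Λ.filter fun l => ¬ Low 2 l) w (α y) := by
    intro y
    unfold TP
    rw [sum_filter_add_sum_filter_not]
  have h3 : ∀ y, (TP (Λ.filter fun l => Low 2 l) w (α y)).re ≤ η / 2 := by
    intro y
    refine (hw2 (α y)).trans ?_
    have h4 : fib 2 (Nb (Cyl T) (2 * ρ)) (α y) ≤ ENNReal.ofReal (η / 4) :=
      (fib_le T (2 * ρ) (α y)).trans (by rw [h2ρ]; exact hvol)
    have h5 := ENNReal.toReal_le_of_le_ofReal (by positivity) h4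
    linarith
  have h6 : ‖∑ y ∈ Icc 1 H, TP (Λ.filter fun l => ¬ Low 2 l) w (α y)‖ ≤ η / 2 * H := by
    unfold TP
    rw [sum_comm]
    have h7 : ∀ l ∈ Λ.filter (fun l => ¬ Low 2 l),
        ‖∑ y ∈ Icc 1 H, w l * ee (∑ i, (l i : ℝ) * α y i)‖ ≤
          ‖w l‖ * (η / (2 * (1 + S)) * H) := by
      intro l hl
      rw [mem_filter] at hl
      have hl0 : l 0 ≠ 0 := by
        intro h
        apply hl.2
        intro i hi
        fin_cases i
        · exact h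
        · simp at hi
      have hlJ : |l 0| ≤ ((∑ l ∈ Λ, (l 0).natAbs : ℕ) : ℤ) := by
        rw [Int.abs_eq_natAbs]
        exact_mod_cast single_le_sum (f := fun l : Fin 2 → ℤ => (l 0).natAbs)
          (fun _ _ => Nat.zero_le _) hl.1
      have h8 := hx (l 0) hl0 hlJ
      rw [← mul_sum, norm_mul]
      refine mul_le_mul_of_nonneg_left ?_ (norm_nonneg _)
      refine le_trans (le_of_eq ?_) h8
      congr 1
      refine sum_congr rfl fun y _ => ?_
      rw [Fin.sum_univ_two, hα0, hα1, mul_zero, add_zero]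
    refine (norm_sum_le _ _).trans ((sum_le_sum h7).trans ?_)
    rw [← sum_mul]
    have h9 : ∑ l ∈ Λ.filter (fun l => ¬ Low 2 l), ‖w l‖ ≤ S := by
      rw [hS]
      exact sum_le_sum_of_subset_of_nonneg (filter_subset _ _) fun _ _ _ => norm_nonneg _
    have hH : (0 : ℝ) ≤ H := Nat.cast_nonneg _
    calc (∑ l ∈ Λ.filter (fun l => ¬ Low 2 l), ‖w l‖) * (η / (2 * (1 + S)) * H)
        ≤ (1 + S) * (η / (2 * (1 + S)) * H) := by
          gcongr
          linarith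
      _ = η / 2 * H := by
          have : (1 + S) ≠ 0 := by positivity
          field_simp
  have h10 : ∑ y ∈ Icc 1 H, (TP Λ w (α y)).re ≤ ∑ y ∈ Icc 1 H, (η / 2 : ℝ) +
      ‖∑ y ∈ Icc 1 H, TP (Λ.filter fun l => ¬ Low 2 l) w (α y)‖ := by
    have h11 : ∑ y ∈ Icc 1 H, (TP Λ w (α y)).re =
        ∑ y ∈ Icc 1 H, (TP (Λ.filter fun l => Low 2 l) w (α y)).re +
          (∑ y ∈ Icc 1 H, TP (Λ.filter fun l => ¬ Low 2 l) w (α y)).re := by
      rw [Complex.re_sum, ← sum_add_distrib]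
      refine sum_congr rfl fun y _ => ?_
      rw [h2 y, Complex.add_re]
    rw [h11]
    exact add_le_add (sum_le_sum fun y _ => h3 y) (Complex.re_le_norm _)
  rw [sum_const, Nat.card_Icc, nsmul_eq_mul, Nat.add_sub_cancel] at h10
  linarith

end Pool.Agent.TUK
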