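import Pool.Agent.Lib.TUK.Defs4
import Pool.Agent.Lib.TUK.VK

/-!
# TE row E5: a polynomial whose top coefficient is near a rational number (helper71)
-/

set_option autoImplicit false
open Finset Polynomial MeasureTheory

namespace Pool.Agent.TUK

open Pool.Agent.Lib.MP_663568_nt Pool.Agent.Lib.MP_663568_nt.Katai
  Pool.Agent.Lib.MP_663568_nt.Nul Pool.Agent.TU

namespace RE5

open Pool.Agent.TU.RV1

/-- finite Fourier expansion of a bounded periodic function, with a bound of the coefficients -/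
theorem fourierB (q : ℕ) (hq : 1 ≤ q) (g : ℕ → ℂ) (hg : ∀ h, g (h + q) = g h)
    (hg1 : ∀ h, ‖g h‖ ≤ 1) :
    ∃ c : ℕ → ℂ, (∀ b, ‖c b‖ ≤ 1) ∧
      ∀ h : ℕ, g h = ∑ b ∈ range q, c b * ee ((b : ℝ) * ((h : ℝ) / q)) := by
  have hq0 : (q : ℂ) ≠ 0 := by
    have : q ≠ 0 := by omega
    exact_mod_cast this
  have hqr : (0 : ℝ) < q := by exact_mod_cast hq
  have hmod : ∀ h : ℕ, g h = g (h % q) := by
    intro h
    have key : ∀ m r : ℕ, g (r + q * m) = g r := by
      intro m r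
      induction m with
      | zero => simp
      | succ m ih =>
        rw [show r + q * (m + 1) = (r + q * m) + q by ring, hg, ih]
    conv_lhs => rw [← Nat.mod_add_div h q]
    exact key _ _
  refine ⟨fun b => (1 / (q : ℂ)) * ∑ k ∈ range q, g k * ee (-((b : ℝ) * ((k : ℝ) / q))),
    fun b => ?_, fun h => ?_⟩
  · show ‖(1 / (q : ℂ)) * ∑ k ∈ range q, g k * ee (-((b : ℝ) * ((k : ℝ) / q)))‖ ≤ 1
    rw [norm_mul]
    have h1 : ‖∑ k ∈ range q, g k * ee (-((b : ℝ) * ((k : ℝ) / q)))‖ ≤ q := by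
      refine (norm_sum_le _ _).trans ?_
      calc ∑ k ∈ range q, ‖g k * ee (-((b : ℝ) * ((k : ℝ) / q)))‖ ≤ ∑ k ∈ range q, (1 : ℝ) := by
            refine sum_le_sum fun k _ => ?_
            rw [norm_mul, norm_ee, mul_one]
            exact hg1 k
        _ = q := by simp
    have h2 : ‖(1 / (q : ℂ))‖ = 1 / (q : ℝ) := by
      rw [norm_div, norm_one, Complex.norm_natCast]
    rw [h2]
    calc 1 / (q : ℝ) * ‖∑ k ∈ range q, g k * ee (-((b : ℝ) * ((k : ℝ) / q)))‖
        ≤ 1 / (q : ℝ) * q := mul_le_mul_of_nonneg_left h1 (by positivity)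
      _ = 1 := by field_simp
  have h1 : ∑ b ∈ range q, ((1 / (q : ℂ)) * ∑ k ∈ range q, g k * ee (-((b : ℝ) * ((k : ℝ) / q)))) *
      ee ((b : ℝ) * ((h : ℝ) / q)) =
      (1 / (q : ℂ)) * ∑ k ∈ range q, g k * ∑ b ∈ range q,
        ee ((b : ℝ) * ((((h : ℤ) - (k : ℤ) : ℤ) : ℝ) / q)) := by
    simp_rw [mul_sum, sum_mul]
    rw [sum_comm]
    refine sum_congr rfl fun k _ => sum_congr rfl fun b _ => ?_
    have e : ee ((b : ℝ) * ((((h : ℤ) - (k : ℤ) : ℤ) : ℝ) / q)) =
        ee (-((b : ℝ) * ((k : ℝ) / q))) * ee ((b : ℝ) * ((h : ℝ) / q)) := by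
      rw [← ee_add]
      congr 1
      push_cast
      ring
    rw [e]
    ring
  rw [h1]
  simp_rw [RF.orth q hq]
  rw [sum_eq_single (h % q)]
  · rw [if_pos, ← hmod h]
    · field_simp
    · have := Nat.mod_add_div h q
      refine ⟨((h / q : ℕ) : ℤ), ?_⟩
      have h2 : (h : ℤ) = ((h % q : ℕ) : ℤ) + (q : ℤ) * ((h / q : ℕ) : ℤ) := by
        exact_mod_cast this.symm
      linarith
  · intro k hk hne
    rw [if_neg, mul_zero]
    intro hd
    apply hne
    rw [mem_range] at hk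
    have h3 : (k : ℤ) ≡ (h : ℤ) [ZMOD (q : ℤ)] := (Int.modEq_iff_dvd).2 hd
    have h4 : k ≡ h [MOD q] := (Int.natCast_modEq_iff).1 h3
    have h5 : k % q = h % q := h4
    rwa [Nat.mod_eq_of_lt hk] at h5
  · intro hh
    exact absurd (mem_range.2 (Nat.mod_lt h (by omega))) hh

theorem norm_ee_sub_one (x : ℝ) : ‖ee x - 1‖ ≤ 2 * Real.pi * |x| := by
  have h := Real.norm_exp_I_mul_ofReal_sub_one_le (x := 2 * Real.pi * x)
  have e : ee x = Complex.exp (Complex.I * ((2 * Real.pi * x : ℝ) : ℂ)) := by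
    unfold ee
    congr 1
    push_cast
    ring
  rw [e]
  refine h.trans ?_
  rw [Real.norm_eq_abs, abs_mul, abs_of_nonneg (by positivity : (0 : ℝ) ≤ 2 * Real.pi)]

theorem per_pow (q n : ℕ) (hq : 1 ≤ q) (b : ℤ) (h : ℕ) :
    ee ((b : ℝ) / q * ((h + q : ℕ) : ℝ) ^ n) = ee ((b : ℝ) / q * (h : ℝ) ^ n) := by
  have hdvd : (q : ℤ) ∣ ((h : ℤ) + q) ^ n - (h : ℤ) ^ n := by
    have := sub_dvd_pow_sub_pow ((h : ℤ) + q) (h : ℤ) n
    rwa [add_sub_cancel_left] at this
  obtain ⟨w, hw⟩ := hdvd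
  have hq0 : (q : ℝ) ≠ 0 := by
    have : q ≠ 0 := by omega
    exact_mod_cast this
  have hw' : ((h : ℝ) + q) ^ n - (h : ℝ) ^ n = (q : ℝ) * w := by exact_mod_cast hw
  have e : (b : ℝ) / q * ((h + q : ℕ) : ℝ) ^ n = (b : ℝ) / q * (h : ℝ) ^ n + ((b * w : ℤ) : ℝ) := by
    push_cast
    have : (b : ℝ) / q * (((h : ℝ) + q) ^ n - (h : ℝ) ^ n) = b * w := by
      rw [hw']
      field_simp
    linear_combination this
  rw [e, ee_add, ee_int, mul_one]

end RE5

open RVK RE5 in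
/-- **E5**. -/
theorem rowE5 : E5_stmt := by
  intro q s l ρ hq hs hρ a ha P hP hc Z hZ
  obtain ⟨b, hb⟩ := hc
  set c : ℝ := P.coeff (s + 1) with hcdef
  set P0 : ℝ[X] := P - C c * X ^ (s + 1) with hP0
  have hev : ∀ h : ℝ, P.eval h = P0.eval h + c * h ^ (s + 1) := by
    intro h
    rw [hP0]
    simp
  have hco : ∀ j, P0.coeff j = P.coeff j - if j = s + 1 then c else 0 := by
    intro j
    rw [hP0, coeff_sub, coeff_C_mul, coeff_X_pow]
    split_ifs <;> simp
  have hdeg : P0.natDegree ≤ s := by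
    rw [natDegree_le_iff_coeff_eq_zero]
    intro N hN
    rw [hco]
    by_cases h1 : N = s + 1
    · rw [if_pos h1, h1]
      simp [hcdef]
    · rw [if_neg h1, sub_zero]
      exact coeff_eq_zero_of_natDegree_lt (by omega)
  -- the Fourier expansion
  obtain ⟨d, hd1, hd⟩ := fourierB q hq (fun h => ee ((b : ℝ) / q * (h : ℝ) ^ (s + 1)))
    (fun h => per_pow q (s + 1) hq b h) (fun h => (norm_ee _).le)
  have hmain : ‖∑ h ∈ Icc 1 l, (a h * ee (P0.eval (h : ℝ))) * ee ((b : ℝ) / q * (h : ℝ) ^ (s + 1))‖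
      ≤ q * Z := by
    refine (window q _ d hd (fun h => a h * ee (P0.eval (h : ℝ))) l).trans ?_
    calc ∑ j ∈ range q, ‖d j‖ * ‖∑ h ∈ Icc 1 l, (a h * ee (P0.eval (h : ℝ))) *
          ee ((j : ℝ) * ((h : ℝ) / q))‖ ≤ ∑ j ∈ range q, Z := by
          refine sum_le_sum fun j _ => ?_
          have h1 : ‖∑ h ∈ Icc 1 l, (a h * ee (P0.eval (h : ℝ))) *
              ee ((j : ℝ) * ((h : ℝ) / q))‖ ≤ Z := by
            have h2 : ∑ h ∈ Icc 1 l, (a h * ee (P0.eval (h : ℝ))) * ee ((j : ℝ) * ((h : ℝ) / q)) =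
                ∑ h ∈ Icc 1 l, a h * ee ((P0 + C ((j : ℝ) / q) * X).eval (h : ℝ)) := by
              refine sum_congr rfl fun h _ => ?_
              rw [mul_assoc, ← ee_add]
              congr 2
              simp
              ring
            rw [h2]
            refine hZ _ ?_ ?_ ?_
            · refine (natDegree_add_le _ _).trans (max_le hdeg ?_)
              refine (natDegree_C_mul_le _ _).trans ?_
              rw [natDegree_X]
              exact hs
            · intro i hi2 his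
              rw [coeff_add, hco, if_neg (by omega), sub_zero, coeff_C_mul, coeff_X,
                if_neg (by omega), mul_zero, add_zero]
            · refine ⟨(j : ℤ), ?_⟩
              rw [coeff_add, hco, if_neg (by omega), sub_zero, coeff_C_mul, coeff_X_one, mul_one]
              push_cast
              rfl
          calc ‖d j‖ * _ ≤ 1 * Z :=
                mul_le_mul (hd1 j) h1 (norm_nonneg _) zero_le_one
            _ = Z := one_mul _
      _ = q * Z := by simp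
  have hsplit : ∑ h ∈ Icc 1 l, a h * ee (P.eval (h : ℝ)) =
      ∑ h ∈ Icc 1 l, (a h * ee (P0.eval (h : ℝ))) * ee ((b : ℝ) / q * (h : ℝ) ^ (s + 1)) +
      ∑ h ∈ Icc 1 l, (a h * ee (P0.eval (h : ℝ))) * ee ((b : ℝ) / q * (h : ℝ) ^ (s + 1)) *
        (ee ((c - (b : ℝ) / q) * (h : ℝ) ^ (s + 1)) - 1) := by
    rw [← sum_add_distrib]
    refine sum_congr rfl fun h _ => ?_
    have e : ee (P.eval (h : ℝ)) = ee (P0.eval (h : ℝ)) * ee ((b : ℝ) / q * (h : ℝ) ^ (s + 1)) *
        ee ((c - (b : ℝ) / q) * (h : ℝ) ^ (s + 1)) := by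
      rw [← ee_add, ← ee_add, hev]
      congr 1
      ring
    rw [e]
    ring
  rw [hsplit]
  refine (norm_add_le _ _).trans (add_le_add hmain ?_)
  refine (norm_sum_le _ _).trans ?_
  calc ∑ h ∈ Icc 1 l, ‖(a h * ee (P0.eval (h : ℝ))) * ee ((b : ℝ) / q * (h : ℝ) ^ (s + 1)) *
        (ee ((c - (b : ℝ) / q) * (h : ℝ) ^ (s + 1)) - 1)‖
      ≤ ∑ h ∈ Icc 1 l, 2 * Real.pi * ρ * (l : ℝ) ^ (s + 1) := by
        refine sum_le_sum fun h hh => ?_
        rw [mem_Icc] at hh
        rw [norm_mul, norm_mul, norm_mul, norm_ee, norm_ee, mul_one, mul_one]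
        have h1 := norm_ee_sub_one ((c - (b : ℝ) / q) * (h : ℝ) ^ (s + 1))
        have h2 : |(c - (b : ℝ) / q) * (h : ℝ) ^ (s + 1)| ≤ ρ * (l : ℝ) ^ (s + 1) := by
          rw [abs_mul, abs_of_nonneg (by positivity : (0 : ℝ) ≤ (h : ℝ) ^ (s + 1))]
          have h3 : (h : ℝ) ≤ l := by exact_mod_cast hh.2
          exact mul_le_mul hb (pow_le_pow_left₀ (Nat.cast_nonneg _) h3 _) (by positivity) hρ
        calc ‖a h‖ * ‖ee ((c - (b : ℝ) / q) * (h : ℝ) ^ (s + 1)) - 1‖
            ≤ 1 * (2 * Real.pi * (ρ * (l : ℝ) ^ (s + 1))) := by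
              refine mul_le_mul (ha h) (h1.trans ?_) (norm_nonneg _) zero_le_one
              exact mul_le_mul_of_nonneg_left h2 (by positivity)
          _ = 2 * Real.pi * ρ * (l : ℝ) ^ (s + 1) := by ring
    _ = 2 * Real.pi * ρ * (l : ℝ) ^ (s + 2) := by
        rw [sum_const, Nat.card_Icc, Nat.add_sub_cancel, nsmul_eq_mul]
        ring

end Pool.Agent.TUK
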