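import Mathlib
import Pool.Agent.Lib.TU.Defs
import Pool.Agent.Lib.MP_663568_nt_h86.Dual
import Pool.Agent.Lib.MP_663568_nul.SepDef

/-!
# Closed sets of polynomial phases and nilsequences (MP_663568_nt): definitions and row statements

The version of Theorem U (`Pool.Agent.Lib.TU.Defs`) for the products of a nilsequence of step at most
`k` and of a polynomial phase, for sets of phases which do not depend on the coefficients of degree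
at most `k`.
-/

set_option autoImplicit false
open Finset Polynomial MeasureTheory

namespace Pool.Agent.TUK

open Pool.Agent.Lib.MP_663568_nt Pool.Agent.Lib.MP_663568_nt.Katai
  Pool.Agent.Lib.MP_663568_nt.Nul Pool.Agent.TU

/-- A class of sequences bounded by one and closed under dilations and shifts in both directions. -/
structure Cls (F : Set (ℕ → ℂ)) : Prop where
  bdd : ∀ u ∈ F, ∀ m, ‖u m‖ ≤ 1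
  shift : ∀ u ∈ F, ∀ a : ℕ, (fun m => u (a + m)) ∈ F
  back : ∀ u ∈ F, ∀ a : ℕ, ∃ v ∈ F, ∀ m, v (a + m) = u m
  dil : ∀ u ∈ F, ∀ q : ℕ, (fun m => u (q * m)) ∈ F

/-- The class consists, uniformly, of dual functions of order `n`. -/
def DualLaw (n : ℕ) (F : Set (ℕ → ℂ)) : Prop :=
  ∀ ε : ℝ, 0 < ε → ∃ M : ℝ, 1 ≤ M ∧ ∀ u ∈ F, Tw.Dual n M ε u

/-- `B` does not depend on the coordinates of degree at most `k`. -/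
def Free {t : ℕ} (k : ℕ) (B : Set (Fin t → ℝ)) : Prop :=
  ∀ α ∈ B, ∀ β : Fin t → ℝ, (∀ i : Fin t, k ≤ i.val → β i = α i) → β ∈ B

/-- The law of small sets: top coefficients of degree `s > k` near a closed null set without
rational points. -/
def SLaw (k : ℕ) (F : Set (ℕ → ℂ)) : Prop :=
  ∀ s : ℕ, k < s → ∀ T : Set ℝ, IsClosed T → volume T = 0 →
  (∀ x ∈ T, ∀ z : ℤ, x + (z : ℝ) ∈ T) → (∀ x ∈ T, Irrational x) →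
  ∀ ε : ℝ, 0 < ε → ∃ ρ : ℝ, 0 < ρ ∧ ∃ l₀ : ℕ, ∀ l N : ℕ, l₀ ≤ l → l ≤ N →
  ∑ n ∈ Icc 1 N, (1 / (n : ℝ)) * ⨆ p : {p : ℝ[X] × (ℕ → ℂ) // p.1.natDegree ≤ s ∧
      (∃ x ∈ T, |p.1.coeff s - x| ≤ ρ) ∧ p.2 ∈ F},
    ‖∑ h ∈ Icc 1 l, muC (n + h) * (p.1.2 h * ee (p.1.1.eval (h : ℝ)))‖ ≤ ε * l * Real.log N

/-! ### The rows -/

/-- Row AK1: polynomial phases are small on long boxes. -/
def AK1_stmt : Prop := ∀ n : ℕ, 1 ≤ n → ∀ t : ℕ, n ≤ t → ∀ η : ℝ, 0 < η → η ≤ 1 →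
  ∃ C : ℕ, 1 ≤ C ∧ ∃ K₀ : ℕ, ∀ K : ℕ, K₀ ≤ K → ∀ P : ℝ[X], P.natDegree ≤ t →
  Nul.Sep C ((C : ℝ) / (K : ℝ) ^ t) (P.coeff t) →
  Tw.BoxSmall n (fun _ => K) η (fun m => ee (P.eval (m : ℝ)))

/-- Row AK2: the top coefficient. -/
def AK2_stmt : Prop := ∀ (k : ℕ) (F : Set (ℕ → ℂ)), Cls F → DualLaw (k + 1) F →
  ∀ t : ℕ, k < t → ∀ ρ : ℝ, 0 < ρ → ∃ C : ℕ, 1 ≤ C ∧ ∃ M₀ : ℕ, ∀ M : ℕ, M₀ ≤ M →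
  ∀ P : ℝ[X], P.natDegree ≤ t → ∀ u ∈ F, ∀ v ∈ F,
  ρ * M ≤ ‖∑ m ∈ Icc 1 M, u m * (starRingEnd ℂ) (v m) * ee (P.eval (m : ℝ))‖ →
  ∃ q : ℕ, 1 ≤ q ∧ q ≤ C ∧ nd ((q : ℝ) * P.coeff t) ≤ C / (M : ℝ) ^ t

/-- Row AK: inverse theorem for all coefficients of degree `> k`. -/
def AK_stmt : Prop := ∀ (k : ℕ) (F : Set (ℕ → ℂ)), Cls F → DualLaw (k + 1) F →
  ∀ t : ℕ, ∀ ρ : ℝ, 0 < ρ → ∃ C : ℕ, 1 ≤ C ∧ ∃ M₀ : ℕ, ∀ M : ℕ, M₀ ≤ M →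
  ∀ P : ℝ[X], P.natDegree ≤ t → ∀ u ∈ F, ∀ v ∈ F,
  ρ * M ≤ ‖∑ m ∈ Icc 1 M, u m * (starRingEnd ℂ) (v m) * ee (P.eval (m : ℝ))‖ →
  ∃ q : ℕ, 1 ≤ q ∧ q ≤ C ∧ ∀ j, k < j → j ≤ t → nd ((q : ℝ) * P.coeff j) ≤ C / (M : ℝ) ^ j

/-- Row B2K: one polynomial for many windows. -/
def B2K_stmt : Prop := ∀ (k : ℕ) (F : Set (ℕ → ℂ)), Cls F → DualLaw (k + 1) F →
  ∀ t : ℕ, k < t → ∀ c : ℝ, 0 < c → c ≤ 1 →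
  ∃ c₄ : ℝ, 0 < c₄ ∧ ∃ D : ℕ, 1 ≤ D ∧ ∃ K : ℝ, 0 < K ∧ ∃ H₀ : ℕ, ∀ H M : ℕ, H₀ ≤ H → M ≤ H →
  ∀ B : Set (Fin t → ℝ), Free k B → ∀ a : ℕ → ℂ, (∀ n, ‖a n‖ ≤ 1) →
  ∀ (G : Finset ℕ) (α : ℕ → Fin t → ℝ) (u : ℕ → ℕ → ℂ), G ⊆ Icc 1 M → G.Nonempty →
  (∀ k ∈ G, α k ∈ B) → (∀ k ∈ G, u k ∈ F) →
  (∀ k ∈ G, c * H ≤ ‖∑ y ∈ Icc 1 H, a y * (u k y * ee (ph (α k) ((y : ℝ) - (k : ℝ))))‖) →
  ∃ v ∈ F, ∃ R : ℝ[X], R.natDegree ≤ t ∧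
    c * H ≤ ‖∑ y ∈ Icc 1 H, a y * (v y * ee (R.eval (y : ℝ)))‖ ∧
    ∃ G' ⊆ G, c₄ * (#G : ℝ) ≤ #G' ∧ ∀ k ∈ G', tv t R (k : ℝ) ∈ Nb (Sh D B) (K / H)

/-- Row NR: no point near `B` has almost rational coordinates of degree `> k`. -/
def NR_stmt : Prop := ∀ (k t : ℕ) (B : Set (Fin t → ℝ)), 1 ≤ k → k < t → IsClosed B → Per B →
  Free k B → NullSec B → ∀ D : ℕ, 1 ≤ D →
  ∃ δ : ℝ, 0 < δ ∧ ∀ α ∈ Nb B δ, ¬ ∀ i : Fin t, k ≤ i.val → nd ((D : ℝ) * α i) ≤ δ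

/-- Row HK: the beginning of the sum. -/
def HK_stmt : Prop := ∀ (k : ℕ) (F : Set (ℕ → ℂ)), 1 ≤ k → Cls F → DualLaw (k + 1) F →
  ∀ t : ℕ, k < t → ∀ B : Set (Fin t → ℝ), IsClosed B → Per B → Free k B → NullSec B →
  ∀ c : ℝ, 0 < c → ∃ H₀ : ℕ, ∀ H : ℕ, H₀ ≤ H → ∀ n : ℕ, n ≤ 2 * H → ∀ α ∈ B, ∀ u ∈ F,
    ‖∑ h ∈ Icc 1 H, muC (n + h) * (u h * ee (ph α (h : ℝ)))‖ ≤ c * H

/-- The clusters of windows. -/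
def ClK (t s D : ℕ) (B : Set (Fin t → ℝ)) (F : Set (ℕ → ℂ)) (Q c c₄ : ℝ) (e : ℕ) (K : ℝ)
    (H m : ℕ) : Prop :=
  H ≤ m ∧ ∃ R : ℝ[X], R.natDegree ≤ t ∧ Near t s D Q H R ∧
    (∃ u ∈ F, c * H ≤ ‖∑ y ∈ Icc 1 H, muC (m + y) * (u y * ee (R.eval (y : ℝ)))‖) ∧
    c₄ * H ≤ Nat.card {k : ℕ // k ∈ Icc 1 (H / e) ∧ tv t R (k : ℝ) ∈ Nb B (K / H)}

open Classical in
/-- Row GK: the clusters have small density. -/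
def GK_stmt : Prop := ∀ (k : ℕ) (F : Set (ℕ → ℂ)), 1 ≤ k → Cls F → SLaw k F →
  ∀ (t : ℕ) (B : Set (Fin t → ℝ)), k < t → IsClosed B → Per B → Free k B → NullSec B →
  ∀ (c c₄ : ℝ) (e : ℕ) (K : ℝ), 0 < c → c ≤ 1 → 0 < c₄ → 1 ≤ e → 0 < K →
  ∀ s : ℕ, k ≤ s → s ≤ t → ∀ (D : ℕ) (Q ε : ℝ), 1 ≤ D → 1 ≤ Q → 0 < ε →
  ∃ H₀ : ℕ, ∀ H N : ℕ, H₀ ≤ H → H ≤ N →
    ∑ m ∈ Icc 1 N with ClK t s D B F Q c c₄ e K H m, (1 / (m : ℝ)) ≤ ε * Real.log N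

/-- The average over the windows of the supremum over the phases of `B` and the sequences of
`F`. -/
noncomputable def SBK {t : ℕ} (B : Set (Fin t → ℝ)) (F : Set (ℕ → ℂ)) (N H : ℕ) : ℝ :=
  ∑ n ∈ Icc 1 N, (1 / (n : ℝ)) * ⨆ p : {p : (Fin t → ℝ) × (ℕ → ℂ) // p.1 ∈ B ∧ p.2 ∈ F},
      ‖∑ h ∈ Icc 1 H, muC (n + h) * (p.1.2 h * ee (ph p.1.1 (h : ℝ)))‖

/-- **Theorem U for a class of sequences.** -/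
def UK_stmt : Prop := ∀ (k : ℕ) (F : Set (ℕ → ℂ)), 1 ≤ k → Cls F → DualLaw (k + 1) F →
  SLaw k F → ∀ (t : ℕ) (B : Set (Fin t → ℝ)), k < t → IsClosed B → Per B → Free k B →
  NullSec B → ∀ ε : ℝ, 0 < ε → ∃ H₀ : ℕ, ∀ H N : ℕ, H₀ ≤ H → H ≤ N →
    SBK B F N H ≤ ε * H * Real.log N

/-- Row U2K: the neighbourhoods of `B`. -/
def U2K_stmt : Prop := ∀ (k : ℕ) (F : Set (ℕ → ℂ)), 1 ≤ k → Cls F → DualLaw (k + 1) F →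
  SLaw k F → ∀ (t : ℕ) (B : Set (Fin t → ℝ)), k < t → IsClosed B → Per B → Free k B →
  NullSec B → ∀ ε : ℝ, 0 < ε → ∃ ρ : ℝ, 0 < ρ ∧ ∃ H₀ : ℕ, ∀ H N : ℕ, H₀ ≤ H → H ≤ N →
    SBK (Nb B ρ) F N H ≤ ε * H * Real.log N

/-- The nilsequences `f(g^m x)`. -/
def NS {G : Type} [Group G] (Γ : Subgroup G) (f : G ⧸ Γ → ℂ) : Set (ℕ → ℂ) :=
  {u | ∃ g x : G, ∀ m, u m = f (QuotientGroup.mk (g ^ m * x))}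

/-- Row SK: the law of small sets for the nilsequences of step at most `k`. -/
def SK_stmt : Prop := ∀ (G : Type) [Group G] [TopologicalSpace G] [IsTopologicalGroup G]
  (k : ℕ) (A : ℕ → Subgroup G), Antitone A → (∀ i j, ⁅A i, A j⁆ ≤ A (i + j)) → A 1 = ⊤ →
  A (k + 1) = ⊥ → ∀ Γ : Subgroup G, IsClosed (Γ : Set G) →
  (∀ i, ∃ C : Set G, IsCompact C ∧ (∀ c ∈ C, c ∈ A i) ∧ ∀ x ∈ A i, ∃ c ∈ C, ∃ γ ∈ Γ, x = c * γ) →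
  ∀ f : G ⧸ Γ → ℂ, Continuous f → (∀ x, ‖f x‖ ≤ 1) →
  Cls (NS Γ f) ∧ DualLaw (k + 1) (NS Γ f) ∧ (1 ≤ k → SLaw k (NS Γ f))

end Pool.Agent.TUK
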