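import Mathlib
import Pool.Agent.Lib.TUK.Defs

/-!
# Closed sets of polynomial phases and nilsequences (MP_663568_nt): the converse
-/

set_option autoImplicit false
open Finset Polynomial MeasureTheory

namespace Pool.Agent.TUK

open Pool.Agent.Lib.MP_663568_nt Pool.Agent.Lib.MP_663568_nt.Katai
  Pool.Agent.Lib.MP_663568_nt.Nul Pool.Agent.TU

/-- Row VK: if `B` contains a rational point, the average for `B` bounds the average for all linear
phases. -/
def VK_stmt : Prop := ∀ (k t : ℕ) (F : Set (ℕ → ℂ)), 1 ≤ k → k < t →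
  (∀ u ∈ F, ∀ m, ‖u m‖ ≤ 1) → ∀ B : Set (Fin t → ℝ), Free k B → ∀ r : Fin t → ℚ,
  (fun i => ((r i : ℚ) : ℝ)) ∈ B → ∃ C : ℝ, 0 < C ∧ ∀ N H : ℕ,
    SBK (Set.univ : Set (Fin 1 → ℝ)) F N H ≤ C * SBK B F N H

end Pool.Agent.TUK
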