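import Mathlib
import Pool.Agent.Lib.TUK.Defs2
import Pool.Agent.Lib.TU.C3

/-!
# Closed sets of polynomial phases and nilsequences (MP_663568_nt): the dichotomy

Rows of the converse for the rational sections of every dimension.
-/

set_option autoImplicit false
open Finset Polynomial MeasureTheory

namespace Pool.Agent.TUK

open Pool.Agent.Lib.MP_663568_nt Pool.Agent.Lib.MP_663568_nt.Katai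
  Pool.Agent.Lib.MP_663568_nt.Nul Pool.Agent.TU

/-- The numbers at distance at least `δ / q` from the rationals of denominator `q ≤ Q`. -/
def Mn (Q : ℕ) (δ : ℝ) : Set ℝ :=
  {x | ∀ q : ℕ, 1 ≤ q → q ≤ Q → ∀ b : ℤ, δ ≤ |(q : ℝ) * x - b|}

/-- The neighbourhood of a set of numbers. -/
def Nr (K : Set ℝ) (δ : ℝ) : Set ℝ := {x | ∃ c ∈ K, |x - c| ≤ δ}

/-- One window: all the polynomials of degree at most `s` with top coefficient in `A`, with the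
weight `ψ`. -/
noncomputable def TopS (s : ℕ) (A : Set ℝ) (F : Set (ℕ → ℂ)) (ψ : ℕ → ℂ) (H n : ℕ) : ℝ :=
  ⨆ p : {p : ℝ[X] × (ℕ → ℂ) // p.1.natDegree ≤ s ∧ p.1.coeff s ∈ A ∧ p.2 ∈ F},
    ‖∑ h ∈ Icc 1 H, muC (n + h) * (p.1.2 h * (ψ h * ee (p.1.1.eval (h : ℝ))))‖

/-- The average over the windows. -/
noncomputable def AT (s : ℕ) (A : Set ℝ) (F : Set (ℕ → ℂ)) (ψ : ℕ → ℂ) (N H : ℕ) : ℝ :=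
  ∑ n ∈ Icc 1 N, (1 / (n : ℝ)) * TopS s A F ψ H n

/-- Row W0: the beginning of the sum. -/
def W0_stmt : Prop := ∀ (k : ℕ) (F : Set (ℕ → ℂ)), Cls F → DualLaw (k + 1) F → ∀ s : ℕ, k < s →
  ∀ ε : ℝ, 0 < ε → ∃ Q : ℕ, 1 ≤ Q ∧ ∀ δ : ℝ, 0 < δ → ∃ H₀ : ℕ, ∀ H : ℕ, H₀ ≤ H →
    ∀ n : ℕ, n ≤ 2 * H → TopS s (Mn Q δ) F (fun _ => 1) H n ≤ ε * H

/-- Row W1: the zero-one law for the top coefficient. -/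
def W1_stmt : Prop := ∀ K : Set ℝ, (∀ x ∈ K, ∀ z : ℤ, x + (z : ℝ) ∈ K) → volume K ≠ 0 →
  ∃ w : ℝ, 0 < w ∧ ∀ F : Set (ℕ → ℂ), Cls F → ∀ s : ℕ, 1 ≤ s → ∀ δ₁ ε : ℝ, 0 < δ₁ → 0 < ε →
  ∃ Q : ℕ, 1 ≤ Q ∧ ∀ δ : ℝ, 0 < δ → ∃ H₀ : ℕ, ∀ H N : ℕ, H₀ ≤ H → H ≤ N → ∀ κ : ℝ,
    (∀ L : ℕ, (H : ℝ) ^ (1 - ε) ≤ L → L ≤ H →
      AT s (Nr K δ₁) F (fun _ => 1) N L ≤ κ * L * Real.log N) →
    w * AT s (Mn Q δ) F (fun _ => 1) N H ≤ (κ + ε) * H * Real.log N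

/-- Row W2: change of the periodic weight. -/
def W2_stmt : Prop := ∀ q : ℕ, 1 ≤ q → ∀ ψ ψ' : ℕ → ℂ, (∀ h, ψ (h + q) = ψ h) →
  (∀ h, ψ' (h + q) = ψ' h) → (∀ h, ‖ψ h‖ = 1) → (∀ h, ‖ψ' h‖ = 1) →
  ∃ C : ℝ, 0 < C ∧ ∀ F : Set (ℕ → ℂ), (∀ u ∈ F, ∀ m, ‖u m‖ ≤ 1) → ∀ (s : ℕ) (A : Set ℝ), 2 ≤ s →
    ∀ H n : ℕ, TopS s A F ψ H n ≤ C * TopS s A F ψ' H n

/-- Row W3: a section of positive measure. -/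
def W3_stmt : Prop := ∀ (s : ℕ), 1 ≤ s → ∀ C : Set (Fin s → ℝ), IsClosed C → Per C →
  volume C ≠ 0 → ∃ w₁ : ℝ, 0 < w₁ ∧ ∃ K : Set ℝ, IsClosed K ∧
  (∀ x ∈ K, ∀ z : ℤ, x + (z : ℝ) ∈ K) ∧ (∀ x ∈ K, Irrational x) ∧ volume K ≠ 0 ∧
  ∀ δ' : ℝ, 0 < δ' → ∃ g : (Fin s → ℝ) → ℝ, Continuous g ∧
    (∀ (x : Fin s → ℝ) (z : Fin s → ℤ), g (x + fun i => (z i : ℝ)) = g x) ∧
    (∀ x, 0 ≤ g x) ∧ (∀ x, g x ≤ 1) ∧ (∀ x, g x ≠ 0 → x ∈ Nb C δ') ∧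
    ∃ δ₁ : ℝ, 0 < δ₁ ∧ ∀ α : Fin s → ℝ, (∀ i : Fin s, i.val + 1 = s → α i ∈ Nr K δ₁) →
      w₁ ≤ ∫ z in C3aux.box (s - 1), g (glue (s - 1) z α)

/-- Row W4: equidistribution of the Taylor coefficients along a progression. -/
def W4_stmt : Prop := ∀ (s : ℕ), 1 ≤ s → ∀ g : (Fin s → ℝ) → ℝ, Continuous g →
  (∀ (x : Fin s → ℝ) (z : Fin s → ℤ), g (x + fun i => (z i : ℝ)) = g x) →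
  ∀ η : ℝ, 0 < η → ∀ l : ℕ, 1 ≤ l → ∃ Q : ℕ, 1 ≤ Q ∧ ∀ δ : ℝ, 0 < δ → ∃ M₀ : ℕ,
  ∀ M : ℕ, M₀ ≤ M → ∀ P : ℝ[X], P.natDegree ≤ s → P.coeff s ∈ Mn Q δ → ∀ j₀ : ℕ,
    |∑ j ∈ range M, g (tv s P ((l * (j₀ + j) : ℕ) : ℝ)) -
      M * ∫ z in C3aux.box (s - 1), g (glue (s - 1) z (tv s P 0))| ≤ η * M

/-- Row W5: the energy of the averages over blocks. -/
def W5_stmt : Prop := ∀ (J : ℕ) (l : ℕ → ℕ), (∀ i, 1 ≤ l i) → (∀ i < J, l i ∣ l (i + 1)) →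
  ∀ (B : ℕ) (x : ℕ → ℂ), (∀ m, ‖x m‖ ≤ 1) → ∀ w : ℝ, 0 ≤ w → ∀ γ : ℕ → ℕ → ℝ,
  (∀ i j, 0 ≤ γ i j) → (∀ i j, γ i j ≤ 1) →
  (∀ i < J, ∀ b < B * (l J / l (i + 1)), w * ((l (i + 1) / l i : ℕ) : ℝ) ≤
    ∑ j ∈ range (l (i + 1) / l i), γ i (b * (l (i + 1) / l i) + j)) →
  w * J * ‖∑ m ∈ range (B * l J), x m‖ ≤
    ∑ i ∈ range J, ∑ j ∈ range (B * (l J / l i)), γ i j * ‖∑ h ∈ range (l i), x (j * l i + h)‖ +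
      Real.sqrt J * ((B * l J : ℕ) : ℝ)

/-- Row W7: short windows do not see a small neighbourhood. -/
def W7_stmt : Prop := ∀ (t l : ℕ) (ε : ℝ), 0 < ε → ∃ δ' : ℝ, 0 < δ' ∧
  ∀ (B : Set (Fin t → ℝ)) (F : Set (ℕ → ℂ)), (∀ u ∈ F, ∀ m, ‖u m‖ ≤ 1) → ∀ N : ℕ,
    SBK (Nb B δ') F N l ≤ SBK B F N l + ε * (1 + Real.log N)

/-- Row W6: polynomials with top coefficient near `K` from the phases of `B`. -/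
def W6_stmt : Prop := ∀ (k : ℕ) (F : Set (ℕ → ℂ)), Cls F → DualLaw (k + 1) F →
  ∀ s t : ℕ, k < s → 2 ≤ s → s ≤ t → ∀ B : Set (Fin t → ℝ), IsClosed B → Per B →
  ∀ r : Fin t → ℚ, volume {y : Fin s → ℝ | glue s y (fun i => ((r i : ℚ) : ℝ)) ∈ B} ≠ 0 →
  (∀ ε : ℝ, 0 < ε → ∃ H₀ : ℕ, ∀ H N : ℕ, H₀ ≤ H → H ≤ N → SBK B F N H ≤ ε * H * Real.log N) →
  ∃ K : Set ℝ, (∀ x ∈ K, ∀ z : ℤ, x + (z : ℝ) ∈ K) ∧ volume K ≠ 0 ∧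
  ∀ ε : ℝ, 0 < ε → ∃ δ₁ : ℝ, 0 < δ₁ ∧ ∃ L₀ : ℕ, ∀ L N : ℕ, L₀ ≤ L → L ≤ N →
    AT s (Nr K δ₁) F (fun _ => 1) N L ≤ ε * L * Real.log N

/-- Row W: minor arc uniformity of degree `s` from the phases of `B`. -/
def W_stmt : Prop := ∀ (k : ℕ) (F : Set (ℕ → ℂ)), Cls F → DualLaw (k + 1) F →
  ∀ s t : ℕ, k < s → 2 ≤ s → s ≤ t → ∀ B : Set (Fin t → ℝ), IsClosed B → Per B →
  ∀ r : Fin t → ℚ, volume {y : Fin s → ℝ | glue s y (fun i => ((r i : ℚ) : ℝ)) ∈ B} ≠ 0 →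
  (∀ ε : ℝ, 0 < ε → ∃ H₀ : ℕ, ∀ H N : ℕ, H₀ ≤ H → H ≤ N → SBK B F N H ≤ ε * H * Real.log N) →
  ∀ ε : ℝ, 0 < ε → ∃ Q : ℕ, 1 ≤ Q ∧ ∀ δ : ℝ, 0 < δ → ∃ H₀ : ℕ, ∀ H N : ℕ, H₀ ≤ H → H ≤ N →
    AT s (Mn Q δ) F (fun _ => 1) N H ≤ ε * H * Real.log N

end Pool.Agent.TUK
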