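import Mathlib
import Pool.Agent.Lib.TUK.Defs3

/-!
# Closed sets of polynomial phases and nilsequences (MP_663568_nt): the classification

Rows of the theorem: the average for a closed set `B` is small if and only if the basic averages
of the levels of `B` are small.
-/

set_option autoImplicit false
open Finset Polynomial MeasureTheory

namespace Pool.Agent.TUK

open Pool.Agent.Lib.MP_663568_nt Pool.Agent.Lib.MP_663568_nt.Katai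
  Pool.Agent.Lib.MP_663568_nt.Nul Pool.Agent.TU

/-- Some section of dimension `s` of `B` over a rational point is not a null set. -/
def PS {t : ℕ} (s : ℕ) (B : Set (Fin t → ℝ)) : Prop :=
  ∃ r : Fin t → ℚ, volume {y : Fin s → ℝ | glue s y (fun i => ((r i : ℚ) : ℝ)) ∈ B} ≠ 0

/-- The average for `A` is small, outside of the major arcs. -/
def MUA (s : ℕ) (A : Set ℝ) (F : Set (ℕ → ℂ)) (ε : ℝ) (Q : ℕ) : Prop :=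
  ∀ δ : ℝ, 0 < δ → ∃ H₀ : ℕ, ∀ H N : ℕ, H₀ ≤ H → H ≤ N →
    AT s {x | x ∈ A ∧ x ∈ Mn Q δ} F (fun _ => 1) N H ≤ ε * H * Real.log N

/-- Uniformity of degree `s` outside of the major arcs. -/
def MU (s : ℕ) (F : Set (ℕ → ℂ)) : Prop :=
  ∀ ε : ℝ, 0 < ε → ∃ Q : ℕ, ∀ δ : ℝ, 0 < δ → ∃ H₀ : ℕ, ∀ H N : ℕ, H₀ ≤ H → H ≤ N →
    AT s (Mn Q δ) F (fun _ => 1) N H ≤ ε * H * Real.log N

/-- Uniformity for all the phases of degree at most `b`. -/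
def FU (b : ℕ) (F : Set (ℕ → ℂ)) : Prop :=
  ∀ ε : ℝ, 0 < ε → ∃ H₀ : ℕ, ∀ H N : ℕ, H₀ ≤ H → H ≤ N →
    SBK (Set.univ : Set (Fin b → ℝ)) F N H ≤ ε * H * Real.log N

/-- The law of small sets of degree `1`. -/
def Base1 (F : Set (ℕ → ℂ)) : Prop :=
  ∀ T : Set ℝ, IsClosed T → volume T = 0 → (∀ x ∈ T, ∀ z : ℤ, x + (z : ℝ) ∈ T) →
  ∀ ε : ℝ, 0 < ε → ∃ ρ : ℝ, 0 < ρ ∧ ∃ l₀ : ℕ, ∀ l N : ℕ, l₀ ≤ l → l ≤ N →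
    ∑ n ∈ Icc 1 N, (1 / (n : ℝ)) * ⨆ p : {p : ℝ[X] × (ℕ → ℂ) // p.1.natDegree ≤ 1 ∧
      (∃ x ∈ T, |p.1.coeff 1 - x| ≤ ρ) ∧ p.2 ∈ F},
    ‖∑ h ∈ Icc 1 l, muC (n + h) * (p.1.2 h * ee (p.1.1.eval (h : ℝ)))‖ ≤ ε * l * Real.log N

/-- The law of small sets outside of the major arcs, for all closed null sets. -/
def SLawM (k : ℕ) (F : Set (ℕ → ℂ)) : Prop :=
  ∀ s : ℕ, k < s → 2 ≤ s → ∀ T : Set ℝ, IsClosed T → volume T = 0 →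
  (∀ x ∈ T, ∀ z : ℤ, x + (z : ℝ) ∈ T) →
  ∀ ε : ℝ, 0 < ε → ∃ (Q : ℕ) (ρ : ℝ), 0 < ρ ∧ MUA s (Nr T ρ) F ε Q

/-- The rational numbers `b / (D q)`, `1 ≤ q ≤ Q`. -/
def TR (D Q : ℕ) : Set ℝ := {x | ∃ q : ℕ, 1 ≤ q ∧ q ≤ Q ∧ ∃ b : ℤ, (D : ℝ) * q * x = b}

/-- Row E3: the law of small sets outside of the major arcs for nilsequences; and of degree `1` for
the trivial group. -/
def E3_stmt : Prop := ∀ (G : Type) [Group G] [TopologicalSpace G] [IsTopologicalGroup G]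
  (k : ℕ) (A : ℕ → Subgroup G), Antitone A → (∀ i j, ⁅A i, A j⁆ ≤ A (i + j)) → A 1 = ⊤ →
  A (k + 1) = ⊥ → ∀ Γ : Subgroup G, IsClosed (Γ : Set G) →
  (∀ i, ∃ C : Set G, IsCompact C ∧ (∀ c ∈ C, c ∈ A i) ∧ ∀ x ∈ A i, ∃ c ∈ C, ∃ γ ∈ Γ, x = c * γ) →
  ∀ f : G ⧸ Γ → ℂ, Continuous f → (∀ x, ‖f x‖ ≤ 1) →
  SLawM k (NS Γ f) ∧ (k = 0 → Base1 (NS Γ f))

open Classical in
/-- Row E1: the bad set `T` of the `s`-th coefficient and the trigonometric majorant. -/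
def E1_stmt : Prop := ∀ (t : ℕ) (B : Set (Fin t → ℝ)), IsClosed B → Per B →
  ∀ s : ℕ, 1 ≤ s → s ≤ t → ∀ D : ℕ, 1 ≤ D → ∀ κ : ℝ, 0 < κ → κ ≤ 1 →
  ∃ T : Set ℝ, IsClosed T ∧ (∀ x ∈ T, ∀ z : ℤ, x + (z : ℝ) / D ∈ T) ∧
    (¬ PS s B → volume T = 0) ∧ (2 ≤ s → ¬ PS (s - 1) B → ∀ x ∈ T, Irrational x) ∧
    ∀ ρ : ℝ, 0 < ρ → ∃ ρ' : ℝ, 0 < ρ' ∧ ∃ (Λ : Finset (Fin t → ℤ)) (w : (Fin t → ℤ) → ℂ),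
      (∀ α, 0 ≤ (TP Λ w α).re) ∧
      (∀ α ∈ Nb B ρ', 1 ≤ (TP Λ w α).re) ∧
      (∀ α, (TP (Λ.filter fun l => Low s l) w α).re ≤ 2) ∧
      (∀ α : Fin t → ℝ, (∀ i : Fin t, s ≤ i.val → ∃ z : ℤ, |α i - (z : ℝ) / D| ≤ ρ') →
        (∀ i : Fin t, i.val + 1 = s → ∀ x ∈ T, ρ < |α i - x|) →
        (TP (Λ.filter fun l => Low s l) w α).re ≤ κ)

/-- Row E2: subwindows of fixed length, with all the coefficients. -/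
def E2_stmt : Prop := ∀ t s D l : ℕ, 1 ≤ s → s ≤ t → 1 ≤ D → 1 ≤ l → ∀ Q c : ℝ, 1 ≤ Q → 0 < c →
  c ≤ 1 → ∃ H₀ : ℕ, ∀ H : ℕ, H₀ ≤ H → ∀ a : ℕ → ℂ, (∀ n, ‖a n‖ ≤ 1) →
  ∀ R : ℝ[X], R.natDegree ≤ t → Near t s D Q H R →
  c * H ≤ ‖∑ y ∈ Icc 1 H, a y * ee (R.eval (y : ℝ))‖ →
  ∃ P : ℕ → ℝ[X], (∀ y, (P y).natDegree ≤ s ∧ ∀ j, 1 ≤ j → j ≤ s →
      ∃ z : ℤ, (P y).coeff j = (taylor (y : ℝ) R).coeff j + (z : ℝ) / D) ∧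
    c / 2 * H * l ≤ D * ∑ y ∈ Icc 1 H, ‖∑ h ∈ Icc 1 l, a (y + h) * ee ((P y).eval (h : ℝ))‖

/-- Row E4: equidistribution and a closed null set. -/
def E4_stmt : Prop := ∀ T : Set ℝ, IsClosed T → volume T = 0 →
  (∀ x ∈ T, ∀ z : ℤ, x + (z : ℝ) ∈ T) → ∀ η : ℝ, 0 < η →
  ∃ δ₁ : ℝ, 0 < δ₁ ∧ ∃ J : ℕ, ∃ δ₂ : ℝ, 0 < δ₂ ∧ ∀ (H : ℕ) (x : ℕ → ℝ),
    (∀ j : ℤ, j ≠ 0 → |j| ≤ (J : ℤ) → ‖∑ y ∈ Icc 1 H, ee ((j : ℝ) * x y)‖ ≤ δ₂ * H) →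
    (Nat.card {y : ℕ // y ∈ Icc 1 H ∧ ∃ c ∈ T, |x y - c| ≤ δ₁} : ℝ) ≤ η * H

/-- Row E5: a polynomial whose top coefficient is near a rational number of denominator `q`. -/
def E5_stmt : Prop := ∀ (q s l : ℕ) (ρ : ℝ), 1 ≤ q → 1 ≤ s → 0 ≤ ρ → ∀ a : ℕ → ℂ,
  (∀ n, ‖a n‖ ≤ 1) → ∀ P : ℝ[X], P.natDegree ≤ s + 1 →
  (∃ b : ℤ, |P.coeff (s + 1) - (b : ℝ) / q| ≤ ρ) → ∀ Z : ℝ,
  (∀ P' : ℝ[X], P'.natDegree ≤ s → (∀ j, 2 ≤ j → j ≤ s → P'.coeff j = P.coeff j) →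
    (∃ b : ℤ, P'.coeff 1 = P.coeff 1 + (b : ℝ) / q) →
    ‖∑ h ∈ Icc 1 l, a h * ee (P'.eval (h : ℝ))‖ ≤ Z) →
  ‖∑ h ∈ Icc 1 l, a h * ee (P.eval (h : ℝ))‖ ≤ q * Z + 2 * Real.pi * ρ * (l : ℝ) ^ (s + 2)

/-- Row E11: the rational numbers of bounded denominator. -/
def E11_stmt : Prop := ∀ D Q : ℕ, 1 ≤ D → IsClosed (TR D Q) ∧ volume (TR D Q) = 0 ∧
  (∀ x ∈ TR D Q, ∀ z : ℤ, x + (z : ℝ) / D ∈ TR D Q) ∧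
  (∀ x ∈ TR D Q, ∀ z : ℤ, x + (z : ℝ) ∈ TR D Q) ∧
  ∀ T : Set ℝ, IsClosed T → (∀ x ∈ T, ∀ z : ℤ, x + (z : ℝ) ∈ T) → (∀ x ∈ T, Irrational x) →
    ∃ d : ℝ, 0 < d ∧ ∀ x ∈ T, ∀ y ∈ TR D Q, d ≤ |x - y|

/-- Row E7: the rational translates. -/
def E7_stmt : Prop := ∀ (t D : ℕ), 1 ≤ D → ∀ B : Set (Fin t → ℝ), IsClosed B → Per B →
  IsClosed (Sh D B) ∧ Per (Sh D B) ∧ ∀ s : ℕ, s ≤ t → PS s (Sh D B) → PS s B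

/-- Row E8: the beginning of the sum. -/
def E8_stmt : Prop := ∀ (k : ℕ) (F : Set (ℕ → ℂ)), 1 ≤ k → Cls F → DualLaw (k + 1) F →
  ∀ t : ℕ, k < t → ∀ B : Set (Fin t → ℝ), IsClosed B → Per B → Free k B →
  (PS k B → FU k F) →
  ∀ c : ℝ, 0 < c → ∃ H₀ : ℕ, ∀ H : ℕ, H₀ ≤ H → ∀ n : ℕ, n ≤ 2 * H → ∀ α ∈ B, ∀ u ∈ F,
    ‖∑ h ∈ Icc 1 H, muC (n + h) * (u h * ee (ph α (h : ℝ)))‖ ≤ c * H

/-- The hypotheses about the levels. -/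
def Lv {t : ℕ} (k : ℕ) (B : Set (Fin t → ℝ)) (F : Set (ℕ → ℂ)) : Prop :=
  (PS (max k 1) B → FU (max k 1) F) ∧ ∀ s : ℕ, max k 1 < s → s ≤ t → PS s B → MU s F

open Classical in
/-- Row E6: the clusters have small density. -/
def E6_stmt : Prop := ∀ (k : ℕ) (F : Set (ℕ → ℂ)), Cls F → SLawM k F → (k = 0 → Base1 F) →
  ∀ (t : ℕ) (B : Set (Fin t → ℝ)), k < t → IsClosed B → Per B → Free k B → Lv k B F →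
  ∀ (c c₄ : ℝ) (e : ℕ) (K : ℝ), 0 < c → c ≤ 1 → 0 < c₄ → 1 ≤ e → 0 < K →
  ∀ s : ℕ, max k 1 ≤ s → s ≤ t → ∀ (D : ℕ) (Q ε : ℝ), 1 ≤ D → 1 ≤ Q → 0 < ε →
  ∃ H₀ : ℕ, ∀ H N : ℕ, H₀ ≤ H → H ≤ N →
    ∑ m ∈ Icc 1 N with ClK t s D B F Q c c₄ e K H m, (1 / (m : ℝ)) ≤ ε * Real.log N

/-- Row E6b: the lowest level. -/
def E6b_stmt : Prop := ∀ (k : ℕ) (F : Set (ℕ → ℂ)), Cls F → (k = 0 → Base1 F) →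
  ∀ (t : ℕ) (B : Set (Fin t → ℝ)), k < t → IsClosed B → Per B → Free k B →
  (PS (max k 1) B → FU (max k 1) F) →
  ∀ (c c₄ : ℝ) (e : ℕ) (K : ℝ), 0 < c → c ≤ 1 → 0 < c₄ → 1 ≤ e → 0 < K →
  ∀ (D : ℕ) (Q ε : ℝ), 1 ≤ D → 1 ≤ Q → 0 < ε →
  ∃ H₀ : ℕ, ∀ H N : ℕ, H₀ ≤ H → H ≤ N → ∀ W : Finset ℕ,
    (∀ m ∈ W, m ∈ Icc 1 N ∧ ClK t (max k 1) D B F Q c c₄ e K H m) →
    ∑ m ∈ W, (1 / (m : ℝ)) ≤ ε * Real.log N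

/-- Row E10: if `B` contains a rational point, the average for `B` bounds the average for all the
phases of degree at most `k`. -/
def E10_stmt : Prop := ∀ (k t : ℕ) (F : Set (ℕ → ℂ)), 1 ≤ k → k < t →
  (∀ u ∈ F, ∀ m, ‖u m‖ ≤ 1) → ∀ B : Set (Fin t → ℝ), Free k B → ∀ r : Fin t → ℚ,
  (fun i => ((r i : ℚ) : ℝ)) ∈ B → ∃ C : ℝ, 0 < C ∧ ∀ N H : ℕ,
    SBK (Set.univ : Set (Fin k → ℝ)) F N H ≤ C * SBK B F N H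

/-- Row E9: the assembly. -/
def E9_stmt : Prop := ∀ (k : ℕ) (F : Set (ℕ → ℂ)), Cls F → DualLaw (k + 1) F →
  SLawM k F → (k = 0 → Base1 F) → ∀ (t : ℕ) (B : Set (Fin t → ℝ)), k < t → IsClosed B → Per B →
  Free k B → Lv k B F →
  (∀ c : ℝ, 0 < c → ∃ H₀ : ℕ, ∀ H : ℕ, H₀ ≤ H → ∀ n : ℕ, n ≤ 2 * H → ∀ α ∈ B, ∀ u ∈ F,
    ‖∑ h ∈ Icc 1 H, muC (n + h) * (u h * ee (ph α (h : ℝ)))‖ ≤ c * H) →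
  ∀ ε : ℝ, 0 < ε → ∃ H₀ : ℕ, ∀ H N : ℕ, H₀ ≤ H → H ≤ N → SBK B F N H ≤ ε * H * Real.log N

end Pool.Agent.TUK
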