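import Pool.Agent.Lib.TUK.RowHK
import Pool.Agent.Lib.TUK.Defs4
import Pool.Agent.Lib.TU.F

/-!
# Row E8: the beginning of the sum (helper1)
-/

set_option autoImplicit false
open Finset Polynomial MeasureTheory

namespace Pool.Agent.TUK

open Pool.Agent.Lib.MP_663568_nt Pool.Agent.Lib.MP_663568_nt.Katai
  Pool.Agent.Lib.MP_663568_nt.Nul Pool.Agent.TU Pool.Agent.TU.HxK

namespace E8x

theorem term_le {F : Set (ℕ → ℂ)} (hF : Cls F) {u : ℕ → ℂ} (hu : u ∈ F) (n m : ℕ) (x : ℝ) :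
    ‖muC n * (u m * ee x)‖ ≤ 1 := by
  rw [norm_mul, norm_mul]
  exact mul_le_one₀ (norm_muC _) (by positivity)
    (mul_le_one₀ (hF.bdd u hu m) (norm_nonneg _) (norm_ee _).le)

/-- one window in the supremum -/
theorem le_supW {t : ℕ} {B : Set (Fin t → ℝ)} {F : Set (ℕ → ℂ)} (hF : Cls F) (n H : ℕ)
    {α : Fin t → ℝ} (hα : α ∈ B) {u : ℕ → ℂ} (hu : u ∈ F) :
    ‖∑ h ∈ Icc 1 H, muC (n + h) * (u h * ee (ph α (h : ℝ)))‖ ≤
      ⨆ p : {p : (Fin t → ℝ) × (ℕ → ℂ) // p.1 ∈ B ∧ p.2 ∈ F},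
        ‖∑ h ∈ Icc 1 H, muC (n + h) * (p.1.2 h * ee (ph p.1.1 (h : ℝ)))‖ := by
  refine le_ciSup (f := fun p : {p : (Fin t → ℝ) × (ℕ → ℂ) // p.1 ∈ B ∧ p.2 ∈ F} =>
    ‖∑ h ∈ Icc 1 H, muC (n + h) * (p.1.2 h * ee (ph p.1.1 (h : ℝ)))‖) ⟨(H : ℝ), ?_⟩
    ⟨(α, u), hα, hu⟩
  rintro _ ⟨p, rfl⟩
  exact ZZ.norm_sum_le_card (g := fun h => muC (n + h) * (p.1.2 h * ee (ph p.1.1 (h : ℝ))))
    (fun h => term_le hF p.2.2 _ _ _) H

theorem log_le_sum (m Y : ℕ) (hY : 1 ≤ Y) (h : Y < (m + 1) * (m + 1)) :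
    Real.log Y / 2 ≤ ∑ n ∈ Icc 1 m, (1 / (n : ℝ)) := by
  have h1 := log_add_one_le_harmonic m
  rw [harmonic_eq_sum_Icc] at h1
  push_cast at h1
  have h2 : Real.log Y ≤ 2 * Real.log ((m : ℝ) + 1) := by
    have h3 : (Y : ℝ) ≤ ((m : ℝ) + 1) ^ 2 := by
      have : (Y : ℝ) < (((m + 1) * (m + 1) : ℕ) : ℝ) := by exact_mod_cast h
      push_cast at this
      nlinarith
    have h4 : Real.log Y ≤ Real.log (((m : ℝ) + 1) ^ 2) :=
      Real.log_le_log (by exact_mod_cast hY) h3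
    rwa [Real.log_pow, Nat.cast_ofNat] at h4
  have h5 : ∑ n ∈ Icc 1 m, (1 / (n : ℝ)) = ∑ n ∈ Icc 1 m, ((n : ℝ))⁻¹ := by
    simp only [one_div]
  rw [h5]
  linarith

/-- the average for the phases of degree at most `k` controls the beginning of the sum -/
theorem star {k : ℕ} {F : Set (ℕ → ℂ)} (hF : Cls F) (hFU : FU k F) (η : ℝ) (hη : 0 < η) :
    ∃ Y₀ : ℕ, ∀ Y : ℕ, Y₀ ≤ Y → ∀ P : ℝ[X], P.natDegree ≤ k → ∀ u ∈ F,
      ‖∑ x ∈ Icc 1 Y, muC x * (u x * ee (P.eval (x : ℝ)))‖ ≤ η * Y := by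
  obtain ⟨H₀, hH₀⟩ := hFU (η / 8) (by positivity)
  refine ⟨max (max H₀ 2) ⌈16 / η ^ 2⌉₊, fun Y hY P hP u hu => ?_⟩
  by_contra hcon
  push Not at hcon
  have hY1 : H₀ ≤ Y := (le_max_left _ _).trans ((le_max_left _ _).trans hY)
  have hY2 : 2 ≤ Y := (le_max_right _ _).trans ((le_max_left _ _).trans hY)
  have hYr : (2 : ℝ) ≤ Y := by exact_mod_cast hY2
  have hY3 : 16 ≤ η ^ 2 * Y := by
    have h1 : 16 / η ^ 2 ≤ (Y : ℝ) :=
      (Nat.le_ceil _).trans (by exact_mod_cast (le_max_right _ _).trans hY)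
    rw [div_le_iff₀ (by positivity)] at h1
    linarith
  set m : ℕ := Nat.sqrt Y with hm
  have hmY : m * m ≤ Y := Nat.sqrt_le Y
  have hYm : Y < (m + 1) * (m + 1) := Nat.lt_succ_sqrt Y
  have key : ∀ n ∈ Icc 1 m, η / 2 * Y ≤
      ⨆ p : {p : (Fin k → ℝ) × (ℕ → ℂ) // p.1 ∈ (Set.univ : Set (Fin k → ℝ)) ∧ p.2 ∈ F},
        ‖∑ h ∈ Icc 1 Y, muC (n + h) * (p.1.2 h * ee (ph p.1.1 (h : ℝ)))‖ := by
    intro n hn
    rw [mem_Icc] at hn
    set T : ℝ[X] := taylor (n : ℝ) P with hT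
    have hTd : T.natDegree ≤ k := by rw [hT, natDegree_taylor]; exact hP
    set α : Fin k → ℝ := fun i => T.coeff (i.val + 1) with hα
    have hPe : ∀ h : ℕ, P.eval ((h + n : ℕ) : ℝ) = T.coeff 0 + ph α (h : ℝ) := by
      intro h
      have e1 : P.eval ((h + n : ℕ) : ℝ) = T.eval (h : ℝ) := by
        rw [hT, taylor_eval]
        push_cast
        rfl
      rw [e1, eval_eq_sum_range' (n := k + 1) (by omega), sum_range_succ', ph, hα,
        ← Fin.sum_univ_eq_sum_range (fun i => T.coeff (i + 1) * (h : ℝ) ^ (i + 1))]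
      simp only [pow_zero, mul_one]
      ring
    have h1 := RF.shift1 (fun x => muC x * (u x * ee (P.eval (x : ℝ)))) (fun x => term_le hF hu _ _ _)
      Y n
    have h2 : ∑ y ∈ Icc 1 Y, muC (y + n) * (u (y + n) * ee (P.eval ((y + n : ℕ) : ℝ))) =
        ee (T.coeff 0) * ∑ h ∈ Icc 1 Y, muC (n + h) * (u (n + h) * ee (ph α (h : ℝ))) := by
      rw [mul_sum]
      refine sum_congr rfl fun h _ => ?_
      rw [hPe, ee_add, add_comm n h]
      ring
    rw [h2] at h1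
    have h3 := norm_sub_norm_le (∑ x ∈ Icc 1 Y, muC x * (u x * ee (P.eval (x : ℝ))))
      (ee (T.coeff 0) * ∑ h ∈ Icc 1 Y, muC (n + h) * (u (n + h) * ee (ph α (h : ℝ))))
    rw [norm_sub_rev] at h1
    rw [norm_mul, norm_ee, one_mul] at h3
    have h4 := le_supW (B := (Set.univ : Set (Fin k → ℝ))) hF n Y (Set.mem_univ α)
      (hF.shift u hu n)
    have h5 : 2 * (n : ℝ) ≤ η / 2 * Y := by
      have h6 : (n : ℝ) ^ 2 ≤ Y := by
        have : n * n ≤ Y := (Nat.mul_le_mul hn.2 hn.2).trans hmY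
        have : ((n * n : ℕ) : ℝ) ≤ Y := by exact_mod_cast this
        push_cast at this
        nlinarith
      have h7 : (2 * (n : ℝ)) ^ 2 ≤ (η / 2 * Y) ^ 2 := by
        have : 4 * (Y : ℝ) ≤ η ^ 2 / 4 * Y * Y := by nlinarith
        nlinarith
      exact (pow_le_pow_iff_left₀ (by positivity) (by positivity) two_ne_zero).1 h7
    linarith
  have h1 := hH₀ Y Y hY1 le_rfl
  have h2 : η / 2 * Y * (Real.log Y / 2) ≤ SBK (Set.univ : Set (Fin k → ℝ)) F Y Y := by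
    unfold SBK
    have hm2 : m ≤ Y := by nlinarith [Nat.sqrt_le_self Y]
    calc η / 2 * Y * (Real.log Y / 2) ≤ η / 2 * Y * ∑ n ∈ Icc 1 m, (1 / (n : ℝ)) :=
          mul_le_mul_of_nonneg_left (log_le_sum m Y (by omega) hYm) (by positivity)
      _ = ∑ n ∈ Icc 1 m, (1 / (n : ℝ)) * (η / 2 * Y) := by
          rw [mul_sum]
          exact sum_congr rfl fun n _ => mul_comm _ _
      _ ≤ ∑ n ∈ Icc 1 m, (1 / (n : ℝ)) *
          ⨆ p : {p : (Fin k → ℝ) × (ℕ → ℂ) // p.1 ∈ (Set.univ : Set (Fin k → ℝ)) ∧ p.2 ∈ F},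
          ‖∑ h ∈ Icc 1 Y, muC (n + h) * (p.1.2 h * ee (ph p.1.1 (h : ℝ)))‖ :=
          sum_le_sum fun n hn => mul_le_mul_of_nonneg_left (key n hn) (by positivity)
      _ ≤ _ := by
          refine sum_le_sum_of_subset_of_nonneg (Icc_subset_Icc_right hm2) fun n _ _ => ?_
          exact mul_nonneg (by positivity) (Real.iSup_nonneg fun p => norm_nonneg _)
  have hlog : 0 < Real.log Y := Real.log_pos (by linarith)
  have h3 : 0 < η * Y * Real.log Y := by positivity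
  nlinarith

/-- the sum over a block -/
theorem block {k t : ℕ} (hk : 1 ≤ k) {F : Set (ℕ → ℂ)} (hF : Cls F) (P : ℝ[X])
    (hP : P.natDegree ≤ t) (b : ℕ) (hb : 1 ≤ b) (K : ℝ) (hK : 0 ≤ K) (X : ℕ) (hX : 1 ≤ X)
    (hnd : ∀ i, k < i → i ≤ t → nd ((b : ℝ) * P.coeff i) ≤ K / (X : ℝ) ^ i) (Z : ℝ)
    (hZ : ∀ m ≤ X, ∀ Q : ℝ[X], Q.natDegree ≤ k → ∀ u ∈ F,
      ‖∑ x ∈ Icc 1 m, muC x * (u x * ee (Q.eval (x : ℝ)))‖ ≤ Z)
    (a a' : ℕ) (haa : a ≤ a') (ha' : a' ≤ X) {u : ℕ → ℂ} (hu : u ∈ F) :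
    ‖∑ x ∈ Ioc a a', muC x * (u x * ee (P.eval (x : ℝ)))‖ ≤
      b * (2 * Z) + ((a' : ℝ) - a) * (2 * Real.pi * ((t + 1) * (K / X * t * ((a' : ℝ) - a)))) := by
  have hXr : (1 : ℝ) ≤ X := by exact_mod_cast hX
  have hX0 : (0 : ℝ) < X := by linarith
  have hbr : (1 : ℝ) ≤ b := by exact_mod_cast hb
  have hb0 : (b : ℝ) ≠ 0 := by positivity
  have hda : (0 : ℝ) ≤ (a' : ℝ) - a := by
    have : (a : ℝ) ≤ a' := by exact_mod_cast haa
    linarith
  set I : Finset ℕ := (range (t + 1)).filter (k < ·) with hI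
  set P0 : ℝ[X] := ∑ j ∈ (range (t + 1)).filter (· ≤ k), C (P.coeff j) * Polynomial.X ^ j with hP0
  set β : ℕ → ℤ := fun j => round ((b : ℝ) * P.coeff j) with hβ
  set θ : ℕ → ℝ := fun j => P.coeff j - (β j : ℝ) / b with hθ
  set f : ℕ → ℂ := fun h => ee (∑ j ∈ I, (β j : ℝ) / b * (h : ℝ) ^ j) with hf
  have hfper : ∀ h, f (h + b) = f h := by
    intro h
    simp only [hf]
    have : ∑ j ∈ I, (β j : ℝ) / b * ((h + b : ℕ) : ℝ) ^ j =
        ∑ j ∈ I, (β j : ℝ) / b * (h : ℝ) ^ j +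
          ((∑ j ∈ I, β j * ((((h : ℤ) + b) ^ j - (h : ℤ) ^ j) / b) : ℤ) : ℝ) := by
      push_cast
      rw [← sum_add_distrib]
      refine sum_congr rfl fun j _ => ?_
      have hdvd : (b : ℤ) ∣ ((h : ℤ) + b) ^ j - (h : ℤ) ^ j := by
        have := sub_dvd_pow_sub_pow ((h : ℤ) + b) (h : ℤ) j
        rwa [add_sub_cancel_left] at this
      rw [Int.cast_div hdvd (by exact_mod_cast hb0)]
      push_cast
      field_simp
      ring
    rw [this, ee_add, ee_int, mul_one]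
  have hf1 : ∀ h, ‖f h‖ ≤ 1 := fun h => (norm_ee _).le
  obtain ⟨c, hc⟩ := RF.per_expand b hb f hfper hf1
    (fun x => muC x * (u x * ee (P0.eval (x : ℝ)))) (Ioc a a')
  -- the low part
  have hQd : (P0 + C ((c : ℝ) / b) * Polynomial.X).natDegree ≤ k := by
    refine (natDegree_add_le _ _).trans (max_le ?_ ?_)
    · refine natDegree_sum_le_of_forall_le _ _ fun j hj => ?_
      exact (natDegree_C_mul_X_pow_le _ _).trans (mem_filter.1 hj).2
    · have := natDegree_C_mul_X_pow_le ((c : ℝ) / b) 1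
      rw [pow_one] at this
      exact this.trans hk
  have hsplit : ∀ g : ℕ → ℂ, ∑ x ∈ Ioc a a', g x = ∑ x ∈ Icc 1 a', g x - ∑ x ∈ Icc 1 a, g x := by
    intro g
    have e0 : ∀ m : ℕ, Icc 1 m = Ioc 0 m := fun m => by
      ext x
      simp only [mem_Icc, mem_Ioc]
      omega
    rw [e0, e0, ← sum_Ioc_consecutive g (Nat.zero_le a) haa]
    ring
  have hlow : ‖∑ x ∈ Ioc a a', muC x * (u x * ee (P0.eval (x : ℝ))) * ee ((c : ℝ) * ((x : ℝ) / b))‖ ≤
      2 * Z := by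
    have e1 : ∀ x : ℕ, muC x * (u x * ee (P0.eval (x : ℝ))) * ee ((c : ℝ) * ((x : ℝ) / b)) =
        muC x * (u x * ee ((P0 + C ((c : ℝ) / b) * Polynomial.X).eval (x : ℝ))) := by
      intro x
      have e2 : (P0 + C ((c : ℝ) / b) * Polynomial.X).eval (x : ℝ) =
          P0.eval (x : ℝ) + (c : ℝ) * ((x : ℝ) / b) := by
        simp only [eval_add, eval_mul, eval_C, eval_X]
        ring
      rw [e2, ee_add]
      ring
    rw [sum_congr rfl fun x _ => e1 x, hsplit]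
    refine (norm_sub_le _ _).trans ?_
    have h1 := hZ a' ha' _ hQd u hu
    have h2 := hZ a (haa.trans ha') _ hQd u hu
    linarith
  -- the approximation
  set c₀ : ℝ := ∑ j ∈ I, θ j * (a : ℝ) ^ j with hc₀
  have hPe : ∀ x : ℕ, P.eval (x : ℝ) = P0.eval (x : ℝ) + ∑ j ∈ I, P.coeff j * (x : ℝ) ^ j := by
    intro x
    rw [eval_eq_sum_range' (n := t + 1) (by omega), hP0, eval_finsetSum]
    simp only [eval_mul, eval_C, eval_pow, eval_X]
    rw [← sum_filter_add_sum_filter_not (range (t + 1)) (· ≤ k)]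
    simp only [not_le]
    rfl
  have hE : ∀ x ∈ Ioc a a', ‖ee (P.eval (x : ℝ)) - ee c₀ * (ee (P0.eval (x : ℝ)) * f x)‖ ≤
      2 * Real.pi * ((t + 1) * (K / X * t * ((a' : ℝ) - a))) := by
    intro x hx
    rw [mem_Ioc] at hx
    simp only [hf]
    rw [← ee_add, ← ee_add, hPe]
    refine (norm_ee_sub_ee_le _ _).trans ?_
    refine mul_le_mul_of_nonneg_left ?_ (by positivity)
    have e1 : P0.eval (x : ℝ) + ∑ j ∈ I, P.coeff j * (x : ℝ) ^ j -
        (c₀ + (P0.eval (x : ℝ) + ∑ j ∈ I, (β j : ℝ) / b * (x : ℝ) ^ j)) =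
        ∑ j ∈ I, θ j * ((x : ℝ) ^ j - (a : ℝ) ^ j) := by
      have e2 : ∑ j ∈ I, θ j * ((x : ℝ) ^ j - (a : ℝ) ^ j) =
          ∑ j ∈ I, (P.coeff j * (x : ℝ) ^ j - (β j : ℝ) / b * (x : ℝ) ^ j - θ j * (a : ℝ) ^ j) := by
        refine sum_congr rfl fun j _ => ?_
        rw [hθ]
        ring
      rw [e2, sum_sub_distrib, sum_sub_distrib, ← hc₀]
      ring
    rw [e1]
    refine (abs_sum_le_sum_abs _ _).trans ?_
    calc ∑ j ∈ I, |θ j * ((x : ℝ) ^ j - (a : ℝ) ^ j)| ≤ ∑ j ∈ I, K / X * t * ((a' : ℝ) - a) := by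
          refine sum_le_sum fun j hj => ?_
          rw [hI, mem_filter, mem_range] at hj
          have hj1 : 1 ≤ j := by omega
          rw [abs_mul]
          have h1 : |θ j| ≤ K / (X : ℝ) ^ j := by
            have e3 : θ j = ((b : ℝ) * P.coeff j - β j) / b := by
              rw [hθ]
              field_simp
            rw [e3, abs_div, abs_of_pos (by positivity : (0 : ℝ) < b)]
            have e4 : |(b : ℝ) * P.coeff j - β j| ≤ K / (X : ℝ) ^ j := hnd j hj.2 (by omega)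
            have e5 : 0 ≤ K / (X : ℝ) ^ j := by positivity
            calc |(b : ℝ) * P.coeff j - β j| / b ≤ (K / (X : ℝ) ^ j) / b := by gcongr
              _ ≤ K / (X : ℝ) ^ j := div_le_self e5 hbr
          have h2 : |(x : ℝ) ^ j - (a : ℝ) ^ j| ≤ ((a' : ℝ) - a) * t * (X : ℝ) ^ (j - 1) := by
            refine (abs_pow_sub_pow_le (x : ℝ) (a : ℝ) j).trans ?_
            have hxa : (a : ℝ) ≤ x := by exact_mod_cast hx.1.le
            have hxa' : (x : ℝ) ≤ a' := by exact_mod_cast hx.2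
            have hxX : (x : ℝ) ≤ X := hxa'.trans (by exact_mod_cast ha')
            have haX : (a : ℝ) ≤ X := hxa.trans hxX
            have hjt : (j : ℝ) ≤ t := by exact_mod_cast (by omega : j ≤ t)
            rw [abs_of_nonneg (by linarith : (0 : ℝ) ≤ (x : ℝ) - a), Nat.abs_cast, Nat.abs_cast]
            have h3 : max (x : ℝ) (a : ℝ) ^ (j - 1) ≤ (X : ℝ) ^ (j - 1) :=
              pow_le_pow_left₀ (by positivity) (max_le hxX haX) _
            have h4 : (x : ℝ) - a ≤ (a' : ℝ) - a := by linarith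
            have h5 : (0 : ℝ) ≤ (x : ℝ) - a := by linarith
            gcongr
          calc |θ j| * |(x : ℝ) ^ j - (a : ℝ) ^ j| ≤
              (K / (X : ℝ) ^ j) * (((a' : ℝ) - a) * t * (X : ℝ) ^ (j - 1)) :=
                mul_le_mul h1 h2 (abs_nonneg _) (by positivity)
            _ = K / X * t * ((a' : ℝ) - a) := by
                have e6 : (X : ℝ) ^ j = X * (X : ℝ) ^ (j - 1) := by
                  rw [← pow_succ']
                  congr 1
                  omega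
                rw [e6]
                field_simp
      _ = #I * (K / X * t * ((a' : ℝ) - a)) := by rw [sum_const, nsmul_eq_mul]
      _ ≤ (t + 1) * (K / X * t * ((a' : ℝ) - a)) := by
          refine mul_le_mul_of_nonneg_right ?_ (by positivity)
          have : #I ≤ t + 1 := (card_le_card (filter_subset _ _)).trans (by simp)
          exact_mod_cast this
  have e2 : ‖∑ x ∈ Ioc a a', muC x * (u x * ee (P.eval (x : ℝ))) -
      ee c₀ * ∑ x ∈ Ioc a a', muC x * (u x * ee (P0.eval (x : ℝ))) * f x‖ ≤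
      ((a' : ℝ) - a) * (2 * Real.pi * ((t + 1) * (K / X * t * ((a' : ℝ) - a)))) := by
    rw [mul_sum, ← sum_sub_distrib]
    refine (norm_sum_le _ _).trans ?_
    calc ∑ x ∈ Ioc a a', ‖muC x * (u x * ee (P.eval (x : ℝ))) -
          ee c₀ * (muC x * (u x * ee (P0.eval (x : ℝ))) * f x)‖
        ≤ ∑ x ∈ Ioc a a', 2 * Real.pi * ((t + 1) * (K / X * t * ((a' : ℝ) - a))) := by
          refine sum_le_sum fun x hx => ?_
          have e3 : muC x * (u x * ee (P.eval (x : ℝ))) -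
              ee c₀ * (muC x * (u x * ee (P0.eval (x : ℝ))) * f x) =
              muC x * u x * (ee (P.eval (x : ℝ)) - ee c₀ * (ee (P0.eval (x : ℝ)) * f x)) := by ring
          rw [e3, norm_mul]
          have h1 : ‖muC x * u x‖ ≤ 1 := by
            rw [norm_mul]
            exact mul_le_one₀ (norm_muC _) (norm_nonneg _) (hF.bdd u hu x)
          calc _ ≤ 1 * ‖ee (P.eval (x : ℝ)) - ee c₀ * (ee (P0.eval (x : ℝ)) * f x)‖ :=
                mul_le_mul_of_nonneg_right h1 (norm_nonneg _)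
            _ ≤ _ := by rw [one_mul]; exact hE x hx
      _ = _ := by
          rw [sum_const, Nat.card_Ioc, nsmul_eq_mul, Nat.cast_sub haa]
  have h1 := norm_sub_norm_le (∑ x ∈ Ioc a a', muC x * (u x * ee (P.eval (x : ℝ))))
    (ee c₀ * ∑ x ∈ Ioc a a', muC x * (u x * ee (P0.eval (x : ℝ))) * f x)
  rw [norm_mul, norm_ee, one_mul] at h1
  have h2 : (b : ℝ) * ‖∑ x ∈ Ioc a a', muC x * (u x * ee (P0.eval (x : ℝ))) *
      ee ((c : ℝ) * ((x : ℝ) / b))‖ ≤ b * (2 * Z) := mul_le_mul_of_nonneg_left hlow (by positivity)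
  linarith

/-- the decomposition into blocks -/
theorem blocks (f : ℕ → ℂ) (X C : ℕ) (hC : 1 ≤ C) :
    ∑ x ∈ Icc 1 X, f x = ∑ j ∈ range C, ∑ x ∈ Ioc (j * X / C) ((j + 1) * X / C), f x := by
  have e0 : Icc 1 X = Ioc 0 X := by
    ext x
    simp only [mem_Icc, mem_Ioc]
    omega
  have h1 : ∀ j ∈ range C, ∑ x ∈ Ioc (j * X / C) ((j + 1) * X / C), f x =
      ∑ x ∈ Ioc 0 ((j + 1) * X / C), f x - ∑ x ∈ Ioc 0 (j * X / C), f x := by
    intro j _
    rw [← sum_Ioc_consecutive f (Nat.zero_le (j * X / C))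
      (Nat.div_le_div_right (Nat.mul_le_mul_right X (Nat.le_succ j)))]
    ring
  rw [sum_congr rfl h1, sum_range_sub (fun j => ∑ x ∈ Ioc 0 (j * X / C), f x), e0,
    Nat.mul_div_cancel_left X (by omega), Nat.zero_mul, Nat.zero_div, Ioc_self, sum_empty, sub_zero]

theorem block_len (X C j : ℕ) (hC : 1 ≤ C) (hCX : C ≤ X) :
    (((j + 1) * X / C : ℕ) : ℝ) - ((j * X / C : ℕ) : ℝ) ≤ 2 * X / C := by
  have hC0 : (0 : ℝ) < C := by exact_mod_cast hC
  have h1 : (((j + 1) * X / C : ℕ) : ℝ) ≤ ((j : ℝ) + 1) * X / C := by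
    have := Nat.cast_div_le (α := ℝ) (m := (j + 1) * X) (n := C)
    push_cast at this
    exact this
  have h2 : (j : ℝ) * X / C - 1 ≤ ((j * X / C : ℕ) : ℝ) := by
    have h3 : j * X < C * (j * X / C + 1) := Nat.lt_mul_div_succ _ (by omega)
    have h4 : ((j : ℝ) * X) < C * (((j * X / C : ℕ) : ℝ) + 1) := by exact_mod_cast h3
    rw [sub_le_iff_le_add, div_le_iff₀ hC0]
    linarith
  have h5 : (1 : ℝ) ≤ (X : ℝ) / C := by
    rw [le_div_iff₀ hC0, one_mul]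
    exact_mod_cast hCX
  have h6 : ((j : ℝ) + 1) * X / C = (j : ℝ) * X / C + X / C := by ring
  have h7 : 2 * (X : ℝ) / C = X / C + X / C := by ring
  linarith

/-- If the phases of degree at most `k` are good then all are good. -/
theorem all_small {k t : ℕ} (hk : 1 ≤ k) {F : Set (ℕ → ℂ)} (hF : Cls F) (hFU : FU k F)
    (hW : Weyl t k (WW F)) (ε : ℝ) (hε : 0 < ε) :
    ∃ X₀ : ℕ, ∀ X : ℕ, X₀ ≤ X → ∀ P : ℝ[X], P.natDegree ≤ t → ∀ u ∈ F,
      ‖∑ x ∈ Icc 1 X, muC x * (u x * ee (P.eval (x : ℝ)))‖ ≤ ε * X := by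
  obtain ⟨Pr, hPr, η, hη, hη1, X₁, hX₁1, hX₁⟩ := Hx.katai ε hε
  obtain ⟨Z, hZ⟩ : ∃ Z : ℕ, ∀ p ∈ Pr, p ≤ Z := ⟨Pr.sup id, fun p hp => le_sup (f := id) hp⟩
  obtain ⟨Bd, K, X₂, hK, hX₂1, hX₂⟩ := rat t k (WW F) hW Z η hη hη1
  obtain ⟨A, hA⟩ : ∃ A : ℝ, A = 8 * Real.pi * (t + 1) * t * K := ⟨_, rfl⟩
  have hA0 : 0 ≤ A := by rw [hA]; positivity
  obtain ⟨C, hC⟩ : ∃ C : ℕ, C = ⌈2 * A / ε⌉₊ + 1 := ⟨_, rfl⟩
  have hC1 : 1 ≤ C := by omega
  have hCr : (1 : ℝ) ≤ C := by exact_mod_cast hC1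
  have hCA : A / C ≤ ε / 2 := by
    rw [div_le_iff₀ (by linarith)]
    have h1 : 2 * A / ε ≤ (C : ℝ) := by
      rw [hC]
      push_cast
      linarith [Nat.le_ceil (2 * A / ε)]
    rw [div_le_iff₀ hε] at h1
    linarith
  obtain ⟨D, hD⟩ : ∃ D : ℝ, D = 2 * C * (Bd + 1) := ⟨_, rfl⟩
  have hD0 : 0 < D := by rw [hD]; positivity
  obtain ⟨Y₀, hY₀⟩ := star hF hFU (ε / (4 * D)) (by positivity)
  refine ⟨X₁ + X₂ + C + ⌈4 * D * Y₀ / ε⌉₊, fun X hX P hPd u hu => ?_⟩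
  by_contra hcon
  push Not at hcon
  have hX0 : (1 : ℝ) ≤ X := by exact_mod_cast (by omega : 1 ≤ X)
  have hcon' : ε * X < ‖∑ x ∈ Icc 1 X, muC x * (ee (P.eval (x : ℝ)) * u x)‖ := by
    refine hcon.trans_le (le_of_eq ?_)
    congr 1
    exact sum_congr rfl fun x _ => by ring
  obtain ⟨p, hp, q, hq, hpq, j, L, hj, hL, hS⟩ := hX₁ X (by omega)
    (fun x => ee (P.eval (x : ℝ)) * u x) (fun n => by
      rw [norm_mul]
      exact mul_le_one₀ (norm_ee _).le (norm_nonneg _) (hF.bdd u hu n)) hcon'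
  obtain ⟨b, hb1, hbB, hb⟩ := hX₂ X (by omega) P hPd p q hpq (hZ p hp) (hZ q hq) j L hj hL
    (fun l => u (p * (j + l)) * (starRingEnd ℂ) (u (q * (j + l))))
    ⟨fun l => u (p * j + p * l), hF.prog hu (p * j) p, fun l => u (q * j + q * l),
      hF.prog hu (q * j) q, by funext l; rw [mul_add, mul_add]⟩ (by
      refine hS.trans (le_of_eq ?_)
      congr 1
      refine sum_congr rfl fun l _ => ?_
      simp only [map_mul]
      ring)
  obtain ⟨Zr, hZr⟩ : ∃ Zr : ℝ, Zr = ε / (4 * D) * X + Y₀ := ⟨_, rfl⟩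
  have hZr0 : 0 ≤ Zr := by rw [hZr]; positivity
  have hsm : ∀ m ≤ X, ∀ Q : ℝ[X], Q.natDegree ≤ k → ∀ u ∈ F,
      ‖∑ x ∈ Icc 1 m, muC x * (u x * ee (Q.eval (x : ℝ)))‖ ≤ Zr := by
    intro m hm Q hQ u hu
    by_cases hmY : Y₀ ≤ m
    · have h1 := hY₀ m hmY Q hQ u hu
      have h2 : (m : ℝ) ≤ X := by exact_mod_cast hm
      have h3 : ε / (4 * D) * (m : ℝ) ≤ ε / (4 * D) * X := by gcongr
      have h4 : (0 : ℝ) ≤ Y₀ := by positivity
      rw [hZr]
      linarith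
    · have h1 := ZZ.norm_sum_le_card (g := fun x => muC x * (u x * ee (Q.eval (x : ℝ))))
        (fun x => term_le hF hu _ _ _) m
      have h2 : (m : ℝ) ≤ Y₀ := by exact_mod_cast (not_le.1 hmY).le
      have h3 : 0 ≤ ε / (4 * D) * (X : ℝ) := by positivity
      rw [hZr]
      linarith
  have hbl : ∀ j ∈ range C, ‖∑ x ∈ Ioc (j * X / C) ((j + 1) * X / C),
      muC x * (u x * ee (P.eval (x : ℝ)))‖ ≤ b * (2 * Zr) + A * X / C ^ 2 := by
    intro j hj
    rw [mem_range] at hj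
    have hle : j * X / C ≤ (j + 1) * X / C :=
      Nat.div_le_div_right (Nat.mul_le_mul_right X (Nat.le_succ j))
    have hle2 : (j + 1) * X / C ≤ X := by
      calc (j + 1) * X / C ≤ C * X / C := Nat.div_le_div_right (Nat.mul_le_mul_right X (by omega))
        _ = X := Nat.mul_div_cancel_left X (by omega)
    have h1 := block hk hF P hPd b hb1 K hK X (by omega) hb Zr hsm _ _ hle hle2 hu
    have h2 := block_len X C j hC1 (by omega)
    set d : ℝ := (((j + 1) * X / C : ℕ) : ℝ) - ((j * X / C : ℕ) : ℝ) with hd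
    have hd0 : 0 ≤ d := by
      have : ((j * X / C : ℕ) : ℝ) ≤ (((j + 1) * X / C : ℕ) : ℝ) := by exact_mod_cast hle
      linarith
    have h3 : d * (2 * Real.pi * ((t + 1) * (K / X * t * d))) ≤ A * X / C ^ 2 := by
      have e1 : d * (2 * Real.pi * ((t + 1) * (K / X * t * d))) = A / (4 * X) * d ^ 2 := by
        rw [hA]
        field_simp
        ring
      have e2 : A * X / C ^ 2 = A / (4 * X) * (2 * X / C) ^ 2 := by
        field_simp
        ring
      rw [e1, e2]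
      gcongr
    linarith
  have htot : ‖∑ x ∈ Icc 1 X, muC x * (u x * ee (P.eval (x : ℝ)))‖ ≤
      C * (b * (2 * Zr) + A * X / C ^ 2) := by
    rw [blocks _ X C hC1]
    refine (norm_sum_le _ _).trans ?_
    refine (sum_le_sum hbl).trans ?_
    rw [sum_const, card_range, nsmul_eq_mul]
  have h1 : (C : ℝ) * (b * (2 * Zr) + A * X / C ^ 2) = 2 * C * b * Zr + A / C * X := by
    field_simp
  have h2 : 2 * (C : ℝ) * b * Zr ≤ D * Zr := by
    refine mul_le_mul_of_nonneg_right ?_ hZr0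
    rw [hD]
    have : (b : ℝ) ≤ (Bd : ℝ) + 1 := by
      have : (b : ℝ) ≤ Bd := by exact_mod_cast hbB
      linarith
    gcongr
  have h3 : D * Zr ≤ ε / 2 * X := by
    have h4 : 4 * D * Y₀ / ε ≤ (X : ℝ) :=
      (Nat.le_ceil _).trans (by exact_mod_cast (by omega : ⌈4 * D * Y₀ / ε⌉₊ ≤ X))
    rw [div_le_iff₀ hε] at h4
    have h5 : D * Zr = ε / 4 * X + D * Y₀ := by
      rw [hZr]
      field_simp
    rw [h5]
    linarith
  have h4 : A / C * X ≤ ε / 2 * X := mul_le_mul_of_nonneg_right hCA (by linarith)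
  linarith

end E8x

/-- **Row E8.** -/
theorem rowE8 (hA : AK_stmt) : E8_stmt := by
  intro k F hk hF hD t hkt B hB hP hfree hPS c hc
  have hW : Weyl t k (WW F) := by
    intro ρ hρ
    obtain ⟨Q, hQ, M₀, hM₀⟩ := hA k F hF hD t ρ hρ
    refine ⟨Q, M₀, hQ, ?_⟩
    rintro M hM P hP w ⟨u, hu, v, hv, rfl⟩ hS
    exact hM₀ M hM P hP u hu v hv (by rw [WW_sum]; exact hS)
  obtain ⟨X₀, hX⟩ : ∃ X₀ : ℕ, ∀ X : ℕ, X₀ ≤ X → ∀ P : ℝ[X], P.natDegree ≤ t → ∀ n : ℕ,
      n ≤ 1 * X → tv t P (n : ℝ) ∈ B → ∀ u ∈ F,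
      ‖∑ x ∈ Icc 1 X, muC x * (ee (P.eval (x : ℝ)) * u x)‖ ≤ c / 6 * X := by
    by_cases hps : PS k B
    · obtain ⟨X₀, h⟩ := E8x.all_small (t := t) hk hF (hPS hps) hW (c / 6) (by positivity)
      refine ⟨X₀, fun X hXX P hPd n _ _ u hu => ?_⟩
      refine (le_of_eq ?_).trans (h X hXX P hPd u hu)
      congr 1
      exact sum_congr rfl fun x _ => by ring
    · refine core t k (WW F) F hW hF.bdd (fun u hu p q j => by
        refine ⟨fun l => u (p * j + p * l), hF.prog hu (p * j) p, fun l => u (q * j + q * l),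
          hF.prog hu (q * j) q, ?_⟩
        funext l
        rw [mul_add, mul_add]) B hB hP ?_ 1 (c / 6) (by positivity)
      intro α hα
      by_contra hcon
      push Not at hcon
      apply hps
      have h1 : ∀ i : Fin t, ∃ r : ℚ, k ≤ i.val → (r : ℝ) = α i := by
        intro i
        by_cases hi : k ≤ i.val
        · have h2 := hcon i hi
          rw [Irrational, not_not] at h2
          obtain ⟨r, hr⟩ := h2
          exact ⟨r, fun _ => hr⟩
        · exact ⟨0, fun h => absurd h hi⟩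
      choose r hr using h1
      refine ⟨r, ?_⟩
      have h3 : {y : Fin k → ℝ | glue k y (fun i => ((r i : ℚ) : ℝ)) ∈ B} = Set.univ := by
        ext y
        simp only [Set.mem_ofPred_eq, Set.mem_univ, iff_true]
        refine hfree α hα _ fun i hi => ?_
        rw [glue, dif_neg (by omega)]
        exact hr i hi
      rw [h3]
      exact isOpen_univ.measure_ne_zero volume ⟨0, Set.mem_univ _⟩
  refine ⟨max X₀ ⌈(X₀ : ℝ) / (c / 6)⌉₊, fun H hHH n hn α hα u hu => ?_⟩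
  have hHX : X₀ ≤ H := le_trans (le_max_left _ _) hHH
  have hHc : (X₀ : ℝ) ≤ c / 6 * H := by
    have h1 : (X₀ : ℝ) / (c / 6) ≤ (H : ℝ) :=
      le_trans (Nat.le_ceil _) (by exact_mod_cast le_trans (le_max_right _ _) hHH)
    rw [div_le_iff₀ (by positivity)] at h1
    linarith
  obtain ⟨v, hv, hvu⟩ := hF.back u hu n
  have htv : tv t (ZZ.shp α (n : ℝ)) (n : ℝ) ∈ B := by rw [tv_shp]; exact hα
  have e : ∑ h ∈ Icc 1 H, muC (n + h) * (u h * ee (ph α (h : ℝ))) =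
      ∑ x ∈ Icc 1 (n + H), muC x * (ee ((ZZ.shp α n).eval (x : ℝ)) * v x) -
        ∑ x ∈ Icc 1 n, muC x * (ee ((ZZ.shp α n).eval (x : ℝ)) * v x) := by
    rw [← ZZ.sum_shift (fun x => muC x * (ee ((ZZ.shp α n).eval (x : ℝ)) * v x)) n H]
    refine Finset.sum_congr rfl fun h _ => ?_
    rw [ZZ.shp_eval, hvu]
    push_cast
    rw [add_sub_cancel_left]
    ring
  have h1 := hX (n + H) (by omega) (ZZ.shp α n) (ZZ.shp_natDegree α n) n (by omega) htv v hv
  have hn' : (n : ℝ) ≤ 2 * H := by exact_mod_cast hn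
  have h2 : ‖∑ x ∈ Icc 1 n, muC x * (ee ((ZZ.shp α n).eval (x : ℝ)) * v x)‖ ≤
      c / 6 * H + c / 6 * (2 * H) := by
    by_cases hnX : X₀ ≤ n
    · have := hX n hnX (ZZ.shp α n) (ZZ.shp_natDegree α n) n (by omega) htv v hv
      have h3 : c / 6 * (n : ℝ) ≤ c / 6 * (2 * H) := by gcongr
      have h4 : 0 ≤ c / 6 * (H : ℝ) := by positivity
      linarith
    · have := ZZ.norm_sum_le_card
        (g := fun x => muC x * (ee ((ZZ.shp α n).eval (x : ℝ)) * v x))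
        (fun x => by
          rw [norm_mul, norm_mul]
          exact mul_le_one₀ (norm_muC _) (by positivity)
            (mul_le_one₀ (norm_ee _).le (norm_nonneg _) (hF.bdd v hv x))) n
      have h3 : (n : ℝ) ≤ X₀ := by exact_mod_cast (not_le.1 hnX).le
      have h4 : 0 ≤ c / 6 * (2 * (H : ℝ)) := by positivity
      linarith
  rw [e]
  refine (norm_sub_le _ _).trans ?_
  push_cast at h1
  have h5 : c / 6 * ((n : ℝ) + H) ≤ c / 6 * (2 * H + H) := by gcongr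
  nlinarith

end Pool.Agent.TUK
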