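import Mathlib
import Pool.Agent.Lib.TU.HRat

/-!
# Rational coefficients of degree greater than `k` (helper31)
-/

set_option autoImplicit false
open Finset Polynomial

namespace Pool.Agent.TU.HxK

open Pool.Agent.Lib.MP_663568_nt Pool.Agent.Lib.MP_663568_nt.Katai
  Pool.Agent.Lib.MP_663568_nt.Nul Pool.Agent.TU Pool.Agent.TU.Hx

/-- The coefficients after a shift by at most `X`. -/
lemma shift_back (t k₀ : ℕ) (G : ℝ[X]) (hG : G.natDegree ≤ t) (j X Q : ℕ) (hX : 1 ≤ X) (hj : j ≤ X)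
    (Y : ℝ) (hY : 0 ≤ Y)
    (h : ∀ i, k₀ < i → i ≤ t → nd ((Q : ℝ) * (G.comp (Polynomial.X + C (j : ℝ))).coeff i) ≤
      Y / (X : ℝ) ^ i) (i : ℕ) (hi : k₀ < i) (hit : i ≤ t) :
    nd ((Q : ℝ) * G.coeff i) ≤ (t + 1) * 2 ^ t * Y / (X : ℝ) ^ i := by
  have hX0 : (0 : ℝ) < X := by exact_mod_cast hX
  set R := G.comp (Polynomial.X + C (j : ℝ)) with hR
  have hRd : R.natDegree ≤ t := by
    rw [hR, natDegree_comp, natDegree_X_add_C, mul_one]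
    exact hG
  have hGR : G = R.comp (Polynomial.X + C (-(j : ℝ))) := by
    rw [hR, comp_assoc]
    simp
  have h1 := coeff_shift_split R t hRd (-(j : ℝ)) i hit
  rw [← hGR] at h1
  have h2 : (Q : ℝ) * G.coeff i = (Q : ℝ) * R.coeff i + ∑ k ∈ Ioc i t,
      ((((-(j : ℤ)) ^ (k - i) * (k.choose i : ℤ) : ℤ) : ℝ) * ((Q : ℝ) * R.coeff k)) := by
    rw [h1, mul_add, mul_sum]
    congr 1
    refine sum_congr rfl fun k _ => ?_
    push_cast
    ring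
  rw [h2]
  refine (nd_add_le _ _).trans ?_
  have h3 : ∀ k ∈ Ioc i t, nd ((((-(j : ℤ)) ^ (k - i) * (k.choose i : ℤ) : ℤ) : ℝ) *
      ((Q : ℝ) * R.coeff k)) ≤ 2 ^ t * Y / (X : ℝ) ^ i := by
    intro k hk
    rw [mem_Ioc] at hk
    refine (nd_int_mul_le _ _).trans ?_
    have h4 : |(((-(j : ℤ)) ^ (k - i) * (k.choose i : ℤ) : ℤ) : ℝ)| ≤
        (X : ℝ) ^ (k - i) * 2 ^ t := by
      push_cast
      rw [abs_mul, abs_pow, abs_neg, Nat.abs_cast, Nat.abs_cast]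
      have h7 : (k.choose i : ℝ) ≤ 2 ^ t := by
        have h8 : k.choose i ≤ 2 ^ t := (Nat.choose_le_two_pow k i).trans
          (Nat.pow_le_pow_right (by norm_num) hk.2)
        exact_mod_cast h8
      have h9 : (j : ℝ) ^ (k - i) ≤ (X : ℝ) ^ (k - i) :=
        pow_le_pow_left₀ (Nat.cast_nonneg _) (by exact_mod_cast hj) _
      exact mul_le_mul h9 h7 (Nat.cast_nonneg _) (by positivity)
    have h5 := h k (by omega) hk.2
    calc _ ≤ ((X : ℝ) ^ (k - i) * 2 ^ t) * (Y / (X : ℝ) ^ k) := by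
          gcongr
          exact nd_nonneg _
      _ = 2 ^ t * Y / (X : ℝ) ^ i := by
          have : (X : ℝ) ^ k = (X : ℝ) ^ (k - i) * (X : ℝ) ^ i := by
            rw [← pow_add]; congr 1; omega
          rw [this]; field_simp
  refine (add_le_add (h i hi hit) ((nd_sum_le _ _).trans (sum_le_sum h3))).trans ?_
  rw [sum_const, Nat.card_Ioc, nsmul_eq_mul]
  have h6 : Y / (X : ℝ) ^ i ≤ 2 ^ t * Y / (X : ℝ) ^ i := by
    gcongr
    have : (1 : ℝ) ≤ 2 ^ t := one_le_pow₀ (by norm_num)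
    nlinarith
  have h7 : ((t - i : ℕ) : ℝ) ≤ t := by exact_mod_cast Nat.sub_le _ _
  have h8 : 0 ≤ 2 ^ t * Y / (X : ℝ) ^ i := by positivity
  calc Y / (X : ℝ) ^ i + ((t - i : ℕ) : ℝ) * (2 ^ t * Y / (X : ℝ) ^ i) ≤
      2 ^ t * Y / (X : ℝ) ^ i + (t : ℝ) * (2 ^ t * Y / (X : ℝ) ^ i) := by gcongr
    _ = _ := by ring

/-- Weyl's inverse theorem in a family of twisting sequences, for the coefficients of degree
greater than `k`. -/
def Weyl (t k : ℕ) (W : Set (ℕ → ℂ)) : Prop := ∀ c : ℝ, 0 < c → ∃ (Q M₀ : ℕ), 1 ≤ Q ∧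
  ∀ M : ℕ, M₀ ≤ M → ∀ P : ℝ[X], P.natDegree ≤ t → ∀ w ∈ W,
  c * M ≤ ‖∑ m ∈ Icc 1 M, ee (P.eval (m : ℝ)) * w m‖ →
  ∃ q : ℕ, 1 ≤ q ∧ q ≤ Q ∧ ∀ i, k < i → i ≤ t → nd ((q : ℝ) * P.coeff i) ≤ Q / (M : ℝ) ^ i

/-- Two dilates of the same phase correlate only if the coefficients of degree greater than `k`
are close to rational numbers with bounded denominators. -/
lemma rat (t k : ℕ) (W : Set (ℕ → ℂ)) (hA : Weyl t k W) (Z : ℕ) (η : ℝ) (hη : 0 < η)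
    (hη1 : η ≤ 1 / 2) :
    ∃ (B : ℕ) (K : ℝ) (X₀ : ℕ), 0 ≤ K ∧ 1 ≤ X₀ ∧ ∀ X : ℕ, X₀ ≤ X → ∀ P : ℝ[X], P.natDegree ≤ t →
      ∀ p q : ℕ, p ≠ q → p ≤ Z → q ≤ Z → ∀ j L : ℕ, j ≤ X → η * X ≤ L → ∀ w ∈ W,
      η * L ≤ ‖∑ l ∈ Icc 1 L, (ee (P.eval ((p * (j + l) : ℕ) : ℝ)) *
        (starRingEnd ℂ) (ee (P.eval ((q * (j + l) : ℕ) : ℝ)))) * w l‖ →
      ∃ b : ℕ, 1 ≤ b ∧ b ≤ B ∧ ∀ i, k < i → i ≤ t →
        nd ((b : ℝ) * P.coeff i) ≤ K / (X : ℝ) ^ i := by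
  obtain ⟨Y₀, M₀, hY₀1, hCw⟩ := hA η hη
  obtain ⟨Y, hY⟩ : ∃ Y : ℝ, Y = Y₀ := ⟨_, rfl⟩
  have hη0 : (0 : ℝ) < 1 / η := by positivity
  have hY0 : 0 < Y := by rw [hY]; exact_mod_cast hY₀1
  obtain ⟨K₁, hK₁⟩ : ∃ K₁ : ℝ, K₁ = Y * (1 / η) ^ t := ⟨_, rfl⟩
  have hK₁0 : 0 < K₁ := by rw [hK₁]; positivity
  refine ⟨Y₀ * (Z ^ t) ^ t, (Z ^ t : ℕ) ^ t * ((t + 1) * 2 ^ t * K₁), ⌈(M₀ + 1 : ℝ) / η⌉₊ + 1,
    by positivity, by omega, ?_⟩
  intro X hX P hP p q hpq hp hq j L hj hL w hw hS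
  have hX0 : (0 : ℝ) < X := by exact_mod_cast (by omega : 0 < X)
  have hYX : (M₀ + 1 : ℝ) / η ≤ X :=
    (Nat.le_ceil _).trans (by exact_mod_cast (by omega : ⌈(M₀ + 1 : ℝ) / η⌉₊ ≤ X))
  have hYL : (M₀ + 1 : ℝ) ≤ L := by
    rw [div_le_iff₀ hη] at hYX
    linarith [mul_comm η (X : ℝ)]
  have hL0 : (0 : ℝ) < L := lt_of_lt_of_le (by positivity) hYL
  have hL1 : M₀ ≤ L := by
    have : (M₀ : ℝ) ≤ L := by linarith
    exact_mod_cast this
  set G : ℝ[X] := P.comp (C (p : ℝ) * Polynomial.X) - P.comp (C (q : ℝ) * Polynomial.X) with hG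
  have hGd : G.natDegree ≤ t := by
    rw [hG]
    refine (natDegree_sub_le _ _).trans (max_le ?_ ?_)
    · refine natDegree_comp_le.trans ?_
      have : (C (p : ℝ) * Polynomial.X : ℝ[X]).natDegree ≤ 1 := (natDegree_C_mul_le _ _).trans natDegree_X_le
      nlinarith
    · refine natDegree_comp_le.trans ?_
      have : (C (q : ℝ) * Polynomial.X : ℝ[X]).natDegree ≤ 1 := (natDegree_C_mul_le _ _).trans natDegree_X_le
      nlinarith
  have hGc : ∀ i, G.coeff i = ((p : ℝ) ^ i - (q : ℝ) ^ i) * P.coeff i := by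
    intro i
    rw [hG, coeff_sub, comp_C_mul_X_coeff, comp_C_mul_X_coeff]
    ring
  have hRd : (G.comp (Polynomial.X + C (j : ℝ))).natDegree ≤ t := by
    rw [natDegree_comp, natDegree_X_add_C, mul_one]
    exact hGd
  have hS2 : η * L ≤ ‖∑ l ∈ Icc 1 L, ee ((G.comp (Polynomial.X + C (j : ℝ))).eval (l : ℝ)) * w l‖ := by
    refine hS.trans (le_of_eq ?_)
    congr 1
    refine sum_congr rfl fun l _ => ?_
    rw [← ee_sub]
    congr 2
    rw [hG]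
    simp only [eval_comp, eval_add, eval_sub, eval_mul, eval_X, eval_C]
    push_cast
    congr 2 <;> ring
  obtain ⟨Q, hQ1, hQ2, hQ3⟩ := hCw L hL1 _ hRd w hw hS2
  rw [← hY] at hQ3
  have hL2 : ∀ i, i ≤ t → Y / (L : ℝ) ^ i ≤ K₁ / (X : ℝ) ^ i := by
    intro i hi
    have h1 : (η * X) ^ i ≤ (L : ℝ) ^ i := pow_le_pow_left₀ (by positivity) hL _
    have h2 : (1 / η) ^ i ≤ (1 / η) ^ t := by
      refine pow_le_pow_right₀ ?_ hi
      rw [le_div_iff₀ hη]; linarith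
    calc Y / (L : ℝ) ^ i ≤ Y / (η * X) ^ i := by gcongr
      _ = Y * (1 / η) ^ i / (X : ℝ) ^ i := by rw [mul_pow, one_div, inv_pow]; field_simp
      _ ≤ Y * (1 / η) ^ t / (X : ℝ) ^ i := by gcongr
      _ = _ := by rw [hK₁]
  have hback := shift_back t k G hGd j X Q (by omega) hj K₁ hK₁0.le
    (fun i hi hit => (hQ3 i hi hit).trans (hL2 i hit))
  -- the denominator
  obtain ⟨m, hm⟩ : ∃ m : ℕ → ℕ, m = fun i => ((p : ℤ) ^ i - (q : ℤ) ^ i).natAbs := ⟨_, rfl⟩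
  have hm1 : ∀ i, 1 ≤ i → 1 ≤ m i := by
    intro i hi
    rw [hm]
    refine Nat.one_le_iff_ne_zero.2 ?_
    rw [Ne, Int.natAbs_eq_zero, sub_eq_zero]
    intro h
    have h' : p ^ i = q ^ i := by exact_mod_cast h
    exact hpq (Nat.pow_left_injective (by omega : i ≠ 0) h')
  have hmZ : ∀ i ∈ Icc 1 t, m i ≤ Z ^ t := by
    intro i hi
    rw [mem_Icc] at hi
    rw [hm]
    have hZ : 1 ≤ Z := by
      rcases Nat.eq_zero_or_pos Z with h | h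
      · omega
      · exact h
    have h1 : (p : ℤ) ^ i ≤ (Z : ℤ) ^ t := by
      have : p ^ i ≤ Z ^ t := (Nat.pow_le_pow_left hp i).trans (Nat.pow_le_pow_right hZ hi.2)
      exact_mod_cast this
    have h2 : (q : ℤ) ^ i ≤ (Z : ℤ) ^ t := by
      have : q ^ i ≤ Z ^ t := (Nat.pow_le_pow_left hq i).trans (Nat.pow_le_pow_right hZ hi.2)
      exact_mod_cast this
    have h3 : (0 : ℤ) ≤ (p : ℤ) ^ i := by positivity
    have h4 : (0 : ℤ) ≤ (q : ℤ) ^ i := by positivity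
    have h5 : |(p : ℤ) ^ i - (q : ℤ) ^ i| ≤ (Z : ℤ) ^ t := by
      rw [abs_le]; constructor <;> linarith
    have h6 : ((((p : ℤ) ^ i - (q : ℤ) ^ i).natAbs : ℕ) : ℤ) ≤ ((Z ^ t : ℕ) : ℤ) := by
      rw [Int.natCast_natAbs]; push_cast; exact h5
    exact_mod_cast h6
  refine ⟨Q * ∏ i ∈ Icc 1 t, m i, ?_, ?_, ?_⟩
  · refine Nat.mul_pos hQ1 (prod_pos fun i hi => ?_)
    rw [mem_Icc] at hi
    exact hm1 i hi.1
  · refine Nat.mul_le_mul hQ2 ?_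
    calc ∏ i ∈ Icc 1 t, m i ≤ ∏ i ∈ Icc 1 t, Z ^ t := prod_le_prod' hmZ
      _ = (Z ^ t) ^ t := by simp
  · intro i hi hit
    have hit' : i ∈ Icc 1 t := mem_Icc.2 ⟨by omega, hit⟩
    have h1 : ∏ i ∈ Icc 1 t, m i = m i * ∏ k ∈ (Icc 1 t).erase i, m k :=
      (mul_prod_erase _ _ hit').symm
    have h2 : ∏ k ∈ (Icc 1 t).erase i, m k ≤ (Z ^ t) ^ t := by
      have hZ : 1 ≤ Z ^ t := (hm1 i (by omega)).trans (hmZ i hit')
      calc ∏ k ∈ (Icc 1 t).erase i, m k ≤ ∏ k ∈ (Icc 1 t).erase i, Z ^ t :=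
            prod_le_prod' fun k hk => hmZ k (mem_of_mem_erase hk)
        _ = (Z ^ t) ^ (#((Icc 1 t).erase i)) := by simp
        _ ≤ (Z ^ t) ^ t := by
            refine Nat.pow_le_pow_right hZ ?_
            refine (card_le_card (erase_subset _ _)).trans ?_
            simp
    have h3 : nd ((m i : ℝ) * ((Q : ℝ) * P.coeff i)) ≤ (t + 1) * 2 ^ t * K₁ / (X : ℝ) ^ i := by
      have h4 := hback i hi hit
      rw [hGc i] at h4
      have h6 : (m i : ℝ) = |(p : ℝ) ^ i - (q : ℝ) ^ i| := by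
        rw [hm]
        simp only [Nat.cast_natAbs]
        push_cast
        rfl
      rcases abs_choice ((p : ℝ) ^ i - (q : ℝ) ^ i) with h5 | h5
      · rw [h6, h5]
        refine le_trans (le_of_eq ?_) h4
        congr 1; ring
      · rw [h6, h5]
        refine le_trans (le_of_eq ?_) h4
        rw [← nd_neg]
        congr 1; ring
    have h4 : (((Q * ∏ i ∈ Icc 1 t, m i : ℕ) : ℝ)) * P.coeff i =
        ((∏ k ∈ (Icc 1 t).erase i, m k : ℕ) : ℝ) * ((m i : ℝ) * ((Q : ℝ) * P.coeff i)) := by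
      rw [h1]; push_cast; ring
    rw [h4]
    refine (nd_nat_mul_le _ _).trans ?_
    have h5 : ((∏ k ∈ (Icc 1 t).erase i, m k : ℕ) : ℝ) ≤ ((Z ^ t : ℕ) : ℝ) ^ t := by
      exact_mod_cast h2
    calc _ ≤ ((Z ^ t : ℕ) : ℝ) ^ t * ((t + 1) * 2 ^ t * K₁ / (X : ℝ) ^ i) := by
          gcongr
          exact nd_nonneg _
      _ = _ := by ring

end Pool.Agent.TU.HxK
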