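import Mathlib
import Pool.Agent.Lib.TUK.HRatK

/-!
# The inverse theorem for all coefficients of degree greater than `k`, abstract form (helper31)

From a weak bound `B / M` for the top coefficient (`TopW`) to the bound `B / M ^ t` (`boost`) and
to all coefficients of degree greater than `k` (`weyl_of_top`).
-/

set_option autoImplicit false
open Finset Polynomial

namespace Pool.Agent.TU.HxK

open Pool.Agent.Lib.MP_663568_nt Pool.Agent.Lib.MP_663568_nt.Katai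
  Pool.Agent.Lib.MP_663568_nt.Nul Pool.Agent.TU Pool.Agent.TU.Hx

/-- The class is closed under the restriction to progressions. -/
def Prog (W : Set (ℕ → ℂ)) : Prop := ∀ w ∈ W, ∀ a q : ℕ, (fun y => w (a + q * y)) ∈ W

/-- The weak inverse theorem for the top coefficient. -/
def TopW (d : ℕ) (W : Set (ℕ → ℂ)) : Prop := ∀ c : ℝ, 0 < c → ∃ (C : ℕ) (B : ℝ), 1 ≤ C ∧ 1 ≤ B ∧
  ∀ M : ℕ, B ≤ M → ∀ P : ℝ[X], P.natDegree ≤ d → ∀ w ∈ W,
  c * M ≤ ‖∑ m ∈ Icc 1 M, ee (P.eval (m : ℝ)) * w m‖ →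
  ∃ q : ℕ, 1 ≤ q ∧ q ≤ C ∧ nd ((q : ℝ) * P.coeff d) ≤ B / M

/-- The inverse theorem for the top coefficient at full resolution. -/
def TopS (d : ℕ) (W : Set (ℕ → ℂ)) : Prop := ∀ c : ℝ, 0 < c → ∃ (C M₀ : ℕ), 1 ≤ C ∧
  ∀ M : ℕ, M₀ ≤ M → ∀ P : ℝ[X], P.natDegree ≤ d → ∀ w ∈ W,
  c * M ≤ ‖∑ m ∈ Icc 1 M, ee (P.eval (m : ℝ)) * w m‖ →
  ∃ q : ℕ, 1 ≤ q ∧ q ≤ C ∧ nd ((q : ℝ) * P.coeff d) ≤ C / (M : ℝ) ^ d

/-- The largest dilation for which the top coefficient stays small. -/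
lemma exists_dil (t : ℕ) (ht : 1 ≤ t) (A : ℝ) (hA : 0 < A) (hA1 : A ≤ 1) :
    ∃ s : ℕ, 1 ≤ s ∧ A * (s : ℝ) ^ t ≤ 1 ∧ 1 < A * (2 * (s : ℝ)) ^ t := by
  classical
  have hex : ∃ n : ℕ, 1 < A * (n : ℝ) ^ t := by
    obtain ⟨n, hn⟩ := exists_nat_gt (1 / A)
    refine ⟨n + 1, ?_⟩
    rw [div_lt_iff₀ hA] at hn
    have h1 : ((n + 1 : ℕ) : ℝ) ≤ ((n + 1 : ℕ) : ℝ) ^ t :=
      le_self_pow₀ (by push_cast; linarith [Nat.cast_nonneg (α := ℝ) n]) (by omega)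
    have h2 : A * ((n + 1 : ℕ) : ℝ) ≤ A * ((n + 1 : ℕ) : ℝ) ^ t := by gcongr
    push_cast at h2 ⊢
    nlinarith
  obtain ⟨n, hn⟩ : ∃ n, n = Nat.find hex := ⟨_, rfl⟩
  have h1 : 1 < A * (n : ℝ) ^ t := by rw [hn]; exact Nat.find_spec hex
  have hn2 : 2 ≤ n := by
    by_contra hcon
    have : n = 0 ∨ n = 1 := by omega
    rcases this with h | h
    · rw [h] at h1
      simp only [Nat.cast_zero] at h1
      rw [zero_pow (by omega)] at h1
      linarith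
    · rw [h] at h1
      simp only [Nat.cast_one, one_pow, mul_one] at h1
      linarith
  refine ⟨n - 1, by omega, ?_, ?_⟩
  · have := Nat.find_min hex (m := n - 1) (by rw [← hn]; omega)
    push Not at this
    exact this
  · refine lt_of_lt_of_le h1 ?_
    have h3 : (n : ℝ) ≤ 2 * ((n - 1 : ℕ) : ℝ) := by
      have : n ≤ 2 * (n - 1) := by omega
      exact_mod_cast this
    gcongr

/-- **The bound for the top coefficient improves itself.** -/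
theorem boost (t : ℕ) (ht : 1 ≤ t) (W : Set (ℕ → ℂ)) (hW1 : ∀ w ∈ W, ∀ n, ‖w n‖ ≤ 1)
    (hprog : Prog W) (hT : TopW t W) : TopS t W := by
  intro c hc
  obtain ⟨C, B, hC, hB, h⟩ := hT (c / 2) (by positivity)
  have hC0 : (1 : ℝ) ≤ C := by exact_mod_cast hC
  obtain ⟨K, hK⟩ : ∃ K : ℝ, K = 2 ^ (t + 4) * B * C ^ 2 / c := ⟨_, rfl⟩
  have hK0 : 0 < K := by rw [hK]; positivity
  refine ⟨max C ⌈K ^ t⌉₊, ⌈B⌉₊ + ⌈2 * (C : ℝ) ^ (t + 1) * B⌉₊ + 1, le_max_of_le_left hC,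
    fun M hM P hP w hw hS => ?_⟩
  have hMB : B ≤ M := (Nat.le_ceil _).trans (by exact_mod_cast (by omega : ⌈B⌉₊ ≤ M))
  have hMC : 2 * (C : ℝ) ^ (t + 1) * B ≤ M :=
    (Nat.le_ceil _).trans (by exact_mod_cast (by omega : ⌈2 * (C : ℝ) ^ (t + 1) * B⌉₊ ≤ M))
  have hM1 : 1 ≤ M := by omega
  have hM0 : (1 : ℝ) ≤ M := by exact_mod_cast hM1
  have hS' : c / 2 * M ≤ ‖∑ m ∈ Icc 1 M, ee (P.eval (m : ℝ)) * w m‖ := by
    refine le_trans ?_ hS
    have : 0 ≤ c * M := by positivity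
    linarith
  obtain ⟨q, hq1, hqC, hq⟩ := h M hMB P hP w hw hS'
  refine ⟨q, hq1, hqC.trans (le_max_left _ _), ?_⟩
  have hq0 : (1 : ℝ) ≤ q := by exact_mod_cast hq1
  have hqC' : (q : ℝ) ≤ C := by exact_mod_cast hqC
  obtain ⟨b, hb⟩ := nd_exists ((q : ℝ) * P.coeff t)
  obtain ⟨θ, hθ⟩ : ∃ θ : ℝ, θ = (q : ℝ) * P.coeff t - b := ⟨_, rfl⟩
  rw [← hθ] at hb
  obtain ⟨ψ, hψ⟩ : ∃ ψ : ℝ, ψ = (q : ℝ) ^ (t - 1) * θ := ⟨_, rfl⟩
  have hθψ : |θ| ≤ |ψ| := by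
    rw [hψ, abs_mul, abs_of_nonneg (by positivity : (0 : ℝ) ≤ (q : ℝ) ^ (t - 1))]
    exact le_mul_of_one_le_left (abs_nonneg _) (one_le_pow₀ hq0)
  have hψle : |ψ| ≤ (C : ℝ) ^ t * (B / M) := by
    rw [hψ, abs_mul, abs_of_nonneg (by positivity : (0 : ℝ) ≤ (q : ℝ) ^ (t - 1))]
    rw [hb] at hq
    have h1 : (q : ℝ) ^ (t - 1) ≤ (C : ℝ) ^ t := by
      calc (q : ℝ) ^ (t - 1) ≤ (C : ℝ) ^ (t - 1) := by gcongr
        _ ≤ (C : ℝ) ^ t := pow_le_pow_right₀ hC0 (by omega)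
    exact mul_le_mul h1 hq (abs_nonneg _) (by positivity)
  -- it is enough to bound `ψ`
  suffices hmain : |ψ| ≤ K ^ t / (M : ℝ) ^ t by
    rw [hb]
    refine hθψ.trans (hmain.trans ?_)
    gcongr
    refine (Nat.le_ceil _).trans ?_
    exact_mod_cast le_max_right _ _
  rcases eq_or_lt_of_le (abs_nonneg ψ) with h0 | hpos
  · rw [← h0]; positivity
  obtain ⟨A, hA⟩ : ∃ A : ℝ, A = 2 * C * |ψ| := ⟨_, rfl⟩
  have hA0 : 0 < A := by rw [hA]; positivity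
  have hA1 : A ≤ 1 := by
    rw [hA]
    calc 2 * C * |ψ| ≤ 2 * C * ((C : ℝ) ^ t * (B / M)) := by gcongr
      _ = 2 * (C : ℝ) ^ (t + 1) * B / M := by rw [pow_succ]; ring
      _ ≤ 1 := by rw [div_le_one (by linarith)]; exact hMC
  obtain ⟨s, hs1, hs2, hs3⟩ := exists_dil t ht A hA0 hA1
  have hs0 : (1 : ℝ) ≤ s := by exact_mod_cast hs1
  -- the key inequality
  have key : (M : ℝ) ≤ K * s := by
    obtain ⟨x, hx⟩ : ∃ x : ℝ, x = c * M / (4 * (q * s)) := ⟨_, rfl⟩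
    have hqs : (0 : ℝ) < q * s := by positivity
    have hxM : c * M = x * (4 * (q * s)) := by rw [hx]; field_simp
    rw [hK]
    rcases lt_or_ge x (2 * B) with hxB | hxB
    · have h1 : c * M ≤ 2 * B * (4 * (q * s)) := by
        rw [hxM]; gcongr
      rw [div_mul_eq_mul_div, le_div_iff₀ hc]
      calc (M : ℝ) * c = c * M := mul_comm _ _
        _ ≤ 2 * B * (4 * (q * s)) := h1
        _ ≤ 2 * B * (4 * (C * s)) := by gcongr
        _ = 2 ^ 3 * B * C * s := by ring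
        _ ≤ 2 ^ (t + 4) * B * C ^ 2 * s := by
            have h2 : (2 : ℝ) ^ 3 ≤ 2 ^ (t + 4) := pow_le_pow_right₀ (by norm_num) (by omega)
            have h3 : (C : ℝ) ≤ C ^ 2 := by nlinarith
            gcongr
    · obtain ⟨L, hL⟩ : ∃ L : ℕ, L = ⌊x⌋₊ := ⟨_, rfl⟩
      have hx0 : 0 ≤ x := by linarith
      have hLx : (L : ℝ) ≤ x := by rw [hL]; exact Nat.floor_le hx0
      have hLx2 : x < L + 1 := by rw [hL]; exact Nat.lt_floor_add_one _
      have hxL : x / 2 ≤ L := by linarith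
      have hBL : B ≤ L := by linarith
      have hL1 : 1 ≤ L := by
        have : (1 : ℝ) ≤ L := hB.trans hBL
        exact_mod_cast this
      have hL0 : (0 : ℝ) < L := by exact_mod_cast hL1
      obtain ⟨a, haM, hS2⟩ := exists_sub (fun m => ee (P.eval (m : ℝ)) * w m)
        (fun m => by
          rw [norm_mul]
          exact mul_le_one₀ (norm_ee _).le (norm_nonneg _) (hW1 w hw m)) M (q * s) L
        (Nat.mul_pos hq1 hs1) hL1 hM1 c (by
          push_cast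
          rw [hxM]
          nlinarith) hS
      obtain ⟨hd1, hd2⟩ := comp_dilate P t hP ((q * s : ℕ) : ℝ) ((a : ℝ) / ((q * s : ℕ) : ℝ))
      obtain ⟨q₂, hq₂1, hq₂C, hq₂⟩ := h L hBL _ hd1 _ (hprog w hw a (q * s)) (by
        refine hS2.trans (le_of_eq ?_)
        congr 1
        refine sum_congr rfl fun y _ => ?_
        congr 2
        simp only [eval_comp, eval_mul, eval_add, eval_X, eval_C]
        congr 1
        have : ((q * s : ℕ) : ℝ) ≠ 0 := by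
          have := Nat.mul_pos hq1 hs1
          positivity
        field_simp
        push_cast
        ring)
      rw [hd2] at hq₂
      have hq₂0 : (1 : ℝ) ≤ q₂ := by exact_mod_cast hq₂1
      have hq₂C' : (q₂ : ℝ) ≤ C := by exact_mod_cast hq₂C
      have e1 : (q₂ : ℝ) * (((q * s : ℕ) : ℝ) ^ t * P.coeff t) =
          ((q₂ : ℝ) * (s : ℝ) ^ t * ψ) + (((q₂ : ℤ) * (s : ℤ) ^ t * (q : ℤ) ^ (t - 1) * b : ℤ) : ℝ) := by
        have e2 : (q : ℝ) ^ t = (q : ℝ) ^ (t - 1) * q := by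
          rw [← pow_succ]; congr 1; omega
        rw [hψ, hθ]
        push_cast
        rw [mul_pow, e2]
        ring
      rw [e1, nd_add_int] at hq₂
      have h2 : |(q₂ : ℝ) * (s : ℝ) ^ t * ψ| = (q₂ : ℝ) * ((s : ℝ) ^ t * |ψ|) := by
        rw [abs_mul, abs_of_nonneg (by positivity : (0 : ℝ) ≤ (q₂ : ℝ) * (s : ℝ) ^ t)]
        ring
      have h3 : (q₂ : ℝ) * ((s : ℝ) ^ t * |ψ|) ≤ 1 / 2 := by
        rw [hA] at hs2
        calc (q₂ : ℝ) * ((s : ℝ) ^ t * |ψ|) ≤ C * ((s : ℝ) ^ t * |ψ|) := by gcongr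
          _ = (2 * C * |ψ| * (s : ℝ) ^ t) / 2 := by ring
          _ ≤ 1 / 2 := by linarith
      rw [nd_eq_of_abs_le (by rw [h2]; exact h3), h2] at hq₂
      have h4 : (s : ℝ) ^ t * |ψ| ≤ B / L := by
        refine le_trans ?_ hq₂
        exact le_mul_of_one_le_left (by positivity) hq₂0
      have h5 : 1 < 2 ^ (t + 1) * C * ((s : ℝ) ^ t * |ψ|) := by
        refine lt_of_lt_of_eq hs3 ?_
        rw [hA, mul_pow, pow_succ]; ring
      have h6 : (L : ℝ) < 2 ^ (t + 1) * C * B := by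
        rw [le_div_iff₀ hL0] at h4
        have h7 : 1 * (L : ℝ) < 2 ^ (t + 1) * C * ((s : ℝ) ^ t * |ψ|) * L := by gcongr
        calc (L : ℝ) = 1 * L := (one_mul _).symm
          _ < 2 ^ (t + 1) * C * ((s : ℝ) ^ t * |ψ|) * L := h7
          _ = 2 ^ (t + 1) * C * ((s : ℝ) ^ t * |ψ| * L) := by ring
          _ ≤ 2 ^ (t + 1) * C * B := by gcongr
      have h8 : x ≤ 2 * (2 ^ (t + 1) * C * B) := by linarith
      rw [div_mul_eq_mul_div, le_div_iff₀ hc]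
      calc (M : ℝ) * c = x * (4 * (q * s)) := by rw [← hxM]; ring
        _ ≤ 2 * (2 ^ (t + 1) * C * B) * (4 * (C * s)) := by gcongr
        _ = 2 ^ (t + 4) * B * C ^ 2 * s := by rw [show t + 4 = t + 1 + 3 by ring, pow_add]; ring
  -- conclusion
  have h1 : |ψ| * (s : ℝ) ^ t ≤ 1 := by
    rw [hA] at hs2
    have h2 : 0 ≤ |ψ| * (s : ℝ) ^ t := by positivity
    nlinarith
  rw [le_div_iff₀ (by positivity)]
  calc |ψ| * (M : ℝ) ^ t ≤ |ψ| * (K * s) ^ t := by gcongr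
    _ = K ^ t * (|ψ| * (s : ℝ) ^ t) := by rw [mul_pow]; ring
    _ ≤ K ^ t * 1 := by gcongr
    _ = K ^ t := mul_one _

/-- One step: from a large sum of degree `t + 1` to a large sum of degree `t` on a progression. -/
lemma step_down_w (t : ℕ) (P : ℝ[X]) (hP : P.natDegree ≤ t + 1) (ρ Y : ℝ) (M q L : ℕ)
    (w : ℕ → ℂ) (hw : ∀ m, ‖w m‖ ≤ 1)
    (hρ : 0 < ρ) (hM : 1 ≤ M) (hq : 1 ≤ q) (hL : 1 ≤ L)
    (hY : nd ((q : ℝ) * P.coeff (t + 1)) ≤ Y / (M : ℝ) ^ (t + 1))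
    (h1 : 4 * ((q : ℝ) * L) ≤ ρ * M) (hρ1 : ρ ≤ 1)
    (h2 : 2 * Real.pi * ((t + 1) * 2 ^ t) * Y * L ≤ ρ / 4 * M)
    (hS : ρ * M ≤ ‖∑ m ∈ Icc 1 M, ee (P.eval (m : ℝ)) * w m‖) :
    ∃ a < M, ρ / 4 * L ≤ ‖∑ y ∈ Icc 1 L,
      ee (((((P - C (P.coeff (t + 1)) * X ^ (t + 1)).comp (X + C (a : ℝ))).comp
        (C (q : ℝ) * X))).eval (y : ℝ)) * w (a + q * y)‖ := by
  set α := P.coeff (t + 1) with hα
  set P₀ := P - C α * X ^ (t + 1) with hP₀
  have hM0 : (0 : ℝ) < M := by exact_mod_cast hM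
  obtain ⟨a, ha, hS2⟩ := exists_sub (fun m => ee (P.eval (m : ℝ)) * w m) (fun m => by
    rw [norm_mul]
    exact mul_le_one₀ (norm_ee _).le (norm_nonneg _) (hw m)) M q L
    hq hL hM ρ h1 hS
  refine ⟨a, ha, ?_⟩
  obtain ⟨b, hb⟩ := nd_exists ((q : ℝ) * α)
  have hqL : q * L ≤ M := by
    have : (q : ℝ) * L ≤ M := by nlinarith
    exact_mod_cast this
  have hterm : ∀ y ∈ Icc 1 L, ‖ee (P.eval ((a + q * y : ℕ) : ℝ)) * w (a + q * y) -
      ee (α * (a : ℝ) ^ (t + 1)) *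
      (ee (((P₀.comp (X + C (a : ℝ))).comp (C (q : ℝ) * X)).eval (y : ℝ)) * w (a + q * y))‖ ≤
        ρ / 4 := by
    intro y hy
    rw [mem_Icc] at hy
    have e1 : ((P₀.comp (X + C (a : ℝ))).comp (C (q : ℝ) * X)).eval (y : ℝ) =
        P₀.eval ((a + q * y : ℕ) : ℝ) := by
      simp only [eval_comp, eval_add, eval_mul, eval_X, eval_C]
      push_cast
      congr 1; ring
    have e2 : P.eval ((a + q * y : ℕ) : ℝ) = α * ((a + q * y : ℕ) : ℝ) ^ (t + 1) +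
        P₀.eval ((a + q * y : ℕ) : ℝ) := by
      rw [hP₀]; simp
    rw [e1, e2, ee_add, ← mul_assoc, ← sub_mul, ← sub_mul, norm_mul, norm_mul, norm_ee, mul_one]
    refine (mul_le_of_le_one_right (norm_nonneg _) (hw _)).trans ?_
    refine (top_term t α q a y L M hy.2 ha.le hqL b).trans ?_
    rw [← hb]
    have h3 : nd ((q : ℝ) * α) * (L * ((t + 1) * (2 * M : ℝ) ^ t)) ≤
        Y / (M : ℝ) ^ (t + 1) * (L * ((t + 1) * (2 * M : ℝ) ^ t)) :=
      mul_le_mul_of_nonneg_right hY (by positivity)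
    have h4 : Y / (M : ℝ) ^ (t + 1) * (L * ((t + 1) * (2 * M : ℝ) ^ t)) =
        ((t + 1) * 2 ^ t) * Y * L / M := by
      rw [mul_pow, pow_succ]; field_simp
    have h5 : 2 * Real.pi * (((t + 1) * 2 ^ t) * Y * L / M) ≤ ρ / 4 := by
      rw [← mul_div_assoc, div_le_iff₀ hM0]
      calc 2 * Real.pi * (((t + 1) * 2 ^ t) * Y * L) = 2 * Real.pi * ((t + 1) * 2 ^ t) * Y * L := by
            ring
        _ ≤ _ := h2
    have hpi := Real.pi_pos
    calc _ ≤ 2 * Real.pi * (Y / (M : ℝ) ^ (t + 1) * (L * ((t + 1) * (2 * M : ℝ) ^ t))) := by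
          gcongr
      _ ≤ ρ / 4 := by rw [h4]; exact h5
  have h6 : ‖∑ y ∈ Icc 1 L, ee (P.eval ((a + q * y : ℕ) : ℝ)) * w (a + q * y)‖ ≤
      ‖∑ y ∈ Icc 1 L, ee (((P₀.comp (X + C (a : ℝ))).comp (C (q : ℝ) * X)).eval (y : ℝ)) *
        w (a + q * y)‖ + ρ / 4 * L := by
    have e3 : ∑ y ∈ Icc 1 L, ee (P.eval ((a + q * y : ℕ) : ℝ)) * w (a + q * y) =
        ee (α * (a : ℝ) ^ (t + 1)) * ∑ y ∈ Icc 1 L,
          ee (((P₀.comp (X + C (a : ℝ))).comp (C (q : ℝ) * X)).eval (y : ℝ)) * w (a + q * y) +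
        ∑ y ∈ Icc 1 L, (ee (P.eval ((a + q * y : ℕ) : ℝ)) * w (a + q * y) -
          ee (α * (a : ℝ) ^ (t + 1)) *
          (ee (((P₀.comp (X + C (a : ℝ))).comp (C (q : ℝ) * X)).eval (y : ℝ)) *
            w (a + q * y))) := by
      rw [mul_sum, ← sum_add_distrib]
      exact sum_congr rfl fun y _ => by ring
    rw [e3]
    refine (norm_add_le _ _).trans ?_
    rw [norm_mul, norm_ee, one_mul]
    gcongr
    refine (norm_sum_le _ _).trans ((sum_le_sum hterm).trans (le_of_eq ?_))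
    simp; ring
  have hL' : (0 : ℝ) < L := by exact_mod_cast hL
  linarith

/-- **All coefficients of degree greater than `k`.** -/
theorem weyl_of_top (k : ℕ) (W : Set (ℕ → ℂ)) (hW1 : ∀ w ∈ W, ∀ n, ‖w n‖ ≤ 1)
    (hprog : Prog W) (hT : ∀ d, k < d → TopS d W) (t : ℕ) : Weyl t k W := by
  induction t with
  | zero =>
    intro c hc
    exact ⟨1, 0, le_rfl, fun M _ P _ w _ _ => ⟨1, le_rfl, le_rfl, fun i h1 h2 => by omega⟩⟩
  | succ t ih =>
    intro c hc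
    rcases Nat.lt_or_ge k (t + 1) with hkt | hkt
    swap
    · exact ⟨1, 0, le_rfl, fun M _ P _ w _ _ => ⟨1, le_rfl, le_rfl, fun i h1 h2 => by omega⟩⟩
    obtain ⟨ρ, hρd⟩ : ∃ ρ : ℝ, ρ = min 1 c := ⟨_, rfl⟩
    have hρ : 0 < ρ := by rw [hρd]; exact lt_min one_pos hc
    have hρ1 : ρ ≤ 1 := by rw [hρd]; exact min_le_left _ _
    have hρc : ρ ≤ c := by rw [hρd]; exact min_le_right _ _
    obtain ⟨C₁, M₁, hC₁, h₁⟩ := hT (t + 1) hkt ρ hρ
    obtain ⟨Q₂, M₂, hQ₂, h₂⟩ := ih (ρ / 4) (by positivity)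
    have hC₁0 : (1 : ℝ) ≤ C₁ := by exact_mod_cast hC₁
    have hQ₂0 : (1 : ℝ) ≤ Q₂ := by exact_mod_cast hQ₂
    obtain ⟨K, hK⟩ : ∃ K : ℝ, K = 4 * C₁ / ρ + 8 * Real.pi * ((t + 1) * 2 ^ t) * C₁ / ρ + 1 :=
      ⟨_, rfl⟩
    have hpi := Real.pi_pos
    have hKa : 0 < 4 * C₁ / ρ := by positivity
    have hKb : 0 < 8 * Real.pi * ((t + 1) * 2 ^ t) * C₁ / ρ := by positivity
    have hK1 : 1 ≤ K := by rw [hK]; linarith
    have hK0 : 0 < K := by linarith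
    obtain ⟨Y, hY⟩ : ∃ Y : ℝ, Y = (C₁ : ℝ) ^ (t + 1) * Q₂ * (2 * K) ^ t := ⟨_, rfl⟩
    have hY0 : 0 ≤ Y := by rw [hY]; positivity
    obtain ⟨Z, hZ⟩ : ∃ Z : ℝ, Z = (t + 1) * 2 ^ t * Y + (C₁ : ℝ) ^ (t + 1) * Q₂ := ⟨_, rfl⟩
    have hZ0 : 0 ≤ Z := by rw [hZ]; positivity
    refine ⟨⌈Z⌉₊ + Q₂ * C₁ ^ (t + 1), M₁ + ⌈2 * K * (M₂ + 1)⌉₊ + 1, by
      have := Nat.mul_pos hQ₂ (pow_pos hC₁ (t + 1)); omega, ?_⟩
    intro M hM P hP w hw hS
    have hM1 : 1 ≤ M := by omega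
    have hM0 : (0 : ℝ) < M := by exact_mod_cast hM1
    have hMK : 2 * K * (M₂ + 1) ≤ M :=
      (Nat.le_ceil _).trans (by exact_mod_cast (by omega : ⌈2 * K * (M₂ + 1 : ℝ)⌉₊ ≤ M))
    have hSρ : ρ * M ≤ ‖∑ m ∈ Icc 1 M, ee (P.eval (m : ℝ)) * w m‖ := by
      refine le_trans ?_ hS
      gcongr
    obtain ⟨q₁, hq₁1, hq₁C, hq₁⟩ := h₁ M (by omega) P hP w hw hSρ
    have hq₁0 : (1 : ℝ) ≤ q₁ := by exact_mod_cast hq₁1
    have hq₁C' : (q₁ : ℝ) ≤ C₁ := by exact_mod_cast hq₁C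
    obtain ⟨L, hL⟩ : ∃ L : ℕ, L = ⌊(M : ℝ) / K⌋₊ := ⟨_, rfl⟩
    have hLK : (L : ℝ) * K ≤ M := by
      have := Nat.floor_le (show (0 : ℝ) ≤ M / K by positivity)
      rw [← hL] at this
      rwa [le_div_iff₀ hK0] at this
    have h2M : 2 * (M₂ + 1 : ℝ) ≤ M / K := by
      rw [le_div_iff₀ hK0]
      calc 2 * (M₂ + 1 : ℝ) * K = 2 * K * (M₂ + 1) := by ring
        _ ≤ M := hMK
    have hLlt : (M : ℝ) / K < L + 1 := by rw [hL]; exact Nat.lt_floor_add_one _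
    have hLM₂ : M₂ + 1 ≤ L := by
      have hm : (0 : ℝ) ≤ M₂ := Nat.cast_nonneg _
      have : ((M₂ + 1 : ℕ) : ℝ) < L + 1 := by push_cast; linarith
      have h3 : M₂ + 1 < L + 1 := by exact_mod_cast this
      omega
    have hL1 : 1 ≤ L := by omega
    have hL0 : (1 : ℝ) ≤ L := by exact_mod_cast hL1
    have hM2KL : (M : ℝ) ≤ 2 * K * L := by
      have h3 : (M : ℝ) / K ≤ 2 * L := by linarith
      rw [div_le_iff₀ hK0] at h3
      linarith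
    obtain ⟨a, haM, hS2⟩ := step_down_w t P hP ρ C₁ M q₁ L w (hW1 w hw) hρ hM1 hq₁1 hL1 hq₁ (by
        have h3 : 4 * C₁ / ρ * L ≤ M := by
          refine le_trans ?_ hLK
          rw [mul_comm (L : ℝ) K]
          refine mul_le_mul_of_nonneg_right ?_ (by positivity)
          rw [hK]; linarith
        rw [div_mul_eq_mul_div, div_le_iff₀ hρ] at h3
        calc 4 * ((q₁ : ℝ) * L) ≤ 4 * (C₁ * L) := by gcongr
          _ = 4 * C₁ * L := by ring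
          _ ≤ M * ρ := h3
          _ = ρ * M := mul_comm _ _) hρ1 (by
        have h3 : 8 * Real.pi * ((t + 1) * 2 ^ t) * C₁ / ρ * L ≤ M := by
          refine le_trans ?_ hLK
          rw [mul_comm (L : ℝ) K]
          refine mul_le_mul_of_nonneg_right ?_ (by positivity)
          rw [hK]; linarith
        rw [div_mul_eq_mul_div, div_le_iff₀ hρ] at h3
        linarith) hSρ
    set α := P.coeff (t + 1) with hα
    set P₀ := P - C α * X ^ (t + 1) with hP₀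
    set R := P₀.comp (X + C (a : ℝ)) with hR
    have hP₀c : ∀ i, i ≤ t → P₀.coeff i = P.coeff i := by
      intro i hi
      rw [hP₀, coeff_sub, coeff_C_mul, coeff_X_pow, if_neg (by omega)]
      ring
    have hP₀d : P₀.natDegree ≤ t := by
      rw [natDegree_le_iff_coeff_eq_zero]
      intro i hi
      rcases Nat.eq_or_lt_of_le (Nat.succ_le_of_lt hi) with h | h
      · rw [hP₀, ← h, coeff_sub, coeff_C_mul, coeff_X_pow, if_pos rfl, hα]; simp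
      · rw [hP₀, coeff_sub, coeff_C_mul, coeff_X_pow, if_neg (by omega),
          coeff_eq_zero_of_natDegree_lt (lt_of_le_of_lt hP h)]
        ring
    have hRd : R.natDegree ≤ t := by
      rw [hR]
      refine (natDegree_comp_le).trans ?_
      refine (Nat.mul_le_mul hP₀d (le_refl _)).trans ?_
      have : (X + C (a : ℝ)).natDegree ≤ 1 := (natDegree_X_add_C _).le
      nlinarith
    have hQd : (R.comp (C (q₁ : ℝ) * X)).natDegree ≤ t := by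
      refine (natDegree_comp_le).trans ?_
      have : (C (q₁ : ℝ) * X).natDegree ≤ 1 :=
        (natDegree_C_mul_le _ _).trans natDegree_X_le
      nlinarith
    obtain ⟨q₂, hq₂1, hq₂Q, hq₂⟩ := h₂ L (by omega) _ hQd _ (hprog w hw a q₁) hS2
    have hq₂0 : (1 : ℝ) ≤ q₂ := by exact_mod_cast hq₂1
    have hq₂Q' : (q₂ : ℝ) ≤ Q₂ := by exact_mod_cast hq₂Q
    have hcoef : ∀ j, (R.comp (C (q₁ : ℝ) * X)).coeff j = (q₁ : ℝ) ^ j * R.coeff j := by
      intro j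
      rw [comp_C_mul_X_coeff]; ring
    have hmid : ∀ i, k < i → i ≤ t →
        nd (((q₂ * q₁ ^ (t + 1) : ℕ) : ℝ) * R.coeff i) ≤ Y / (M : ℝ) ^ i := by
      intro i hi hit
      have h3 := hq₂ i hi hit
      rw [hcoef] at h3
      have e : ((q₂ * q₁ ^ (t + 1) : ℕ) : ℝ) * R.coeff i =
          ((q₁ ^ (t + 1 - i) : ℕ) : ℝ) * ((q₂ : ℝ) * ((q₁ : ℝ) ^ i * R.coeff i)) := by
        have e2 : (q₁ : ℝ) ^ (t + 1) = (q₁ : ℝ) ^ (t + 1 - i) * (q₁ : ℝ) ^ i := by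
          rw [← pow_add]; congr 1; omega
        push_cast
        rw [e2]; ring
      rw [e]
      refine (nd_nat_mul_le _ _).trans ?_
      have h4 : ((q₁ ^ (t + 1 - i) : ℕ) : ℝ) ≤ (C₁ : ℝ) ^ (t + 1) := by
        push_cast
        calc (q₁ : ℝ) ^ (t + 1 - i) ≤ (C₁ : ℝ) ^ (t + 1 - i) := by gcongr
          _ ≤ (C₁ : ℝ) ^ (t + 1) := pow_le_pow_right₀ hC₁0 (by omega)
      have h5 : (Q₂ : ℝ) / (L : ℝ) ^ i ≤ Q₂ * (2 * K) ^ t / (M : ℝ) ^ i := by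
        rw [div_le_div_iff₀ (by positivity) (by positivity)]
        calc (Q₂ : ℝ) * (M : ℝ) ^ i ≤ Q₂ * (2 * K * L) ^ i := by gcongr
          _ = Q₂ * (2 * K) ^ i * (L : ℝ) ^ i := by rw [mul_pow]; ring
          _ ≤ Q₂ * (2 * K) ^ t * (L : ℝ) ^ i := by
              have : (2 * K) ^ i ≤ (2 * K) ^ t := pow_le_pow_right₀ (by linarith) hit
              gcongr
      calc _ ≤ (C₁ : ℝ) ^ (t + 1) * (Q₂ * (2 * K) ^ t / (M : ℝ) ^ i) :=
            mul_le_mul h4 (h3.trans h5) (nd_nonneg _) (by positivity)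
        _ = Y / (M : ℝ) ^ i := by rw [hY]; ring
    have hback := shift_back t k P₀ hP₀d a M (q₂ * q₁ ^ (t + 1)) hM1 haM.le Y hY0 hmid
    refine ⟨q₂ * q₁ ^ (t + 1), Nat.mul_pos hq₂1 (pow_pos hq₁1 _), ?_, fun i hi hit => ?_⟩
    · have : q₂ * q₁ ^ (t + 1) ≤ Q₂ * C₁ ^ (t + 1) :=
        Nat.mul_le_mul hq₂Q (Nat.pow_le_pow_left hq₁C _)
      omega
    · have hZQ : Z ≤ ((⌈Z⌉₊ + Q₂ * C₁ ^ (t + 1) : ℕ) : ℝ) := by
        push_cast
        have h3 := Nat.le_ceil Z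
        have h4 : (0 : ℝ) ≤ (Q₂ : ℝ) * (C₁ : ℝ) ^ (t + 1) := by positivity
        linarith
      have hfin : nd (((q₂ * q₁ ^ (t + 1) : ℕ) : ℝ) * P.coeff i) ≤ Z / (M : ℝ) ^ i := by
        rcases Nat.eq_or_lt_of_le hit with h | h
        · rw [h]
          have e : ((q₂ * q₁ ^ (t + 1) : ℕ) : ℝ) * P.coeff (t + 1) =
              ((q₂ * q₁ ^ t : ℕ) : ℝ) * ((q₁ : ℝ) * α) := by
            rw [hα]; push_cast; rw [pow_succ]; ring
          rw [e]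
          refine (nd_nat_mul_le _ _).trans ?_
          push_cast
          calc (q₂ : ℝ) * (q₁ : ℝ) ^ t * nd ((q₁ : ℝ) * α) ≤
              Q₂ * (C₁ : ℝ) ^ t * (C₁ / (M : ℝ) ^ (t + 1)) := by
                gcongr
                exact nd_nonneg _
            _ = ((C₁ : ℝ) ^ (t + 1) * Q₂) / (M : ℝ) ^ (t + 1) := by rw [pow_succ]; ring
            _ ≤ Z / (M : ℝ) ^ (t + 1) := by
                gcongr
                rw [hZ]
                have : 0 ≤ ((t : ℝ) + 1) * 2 ^ t * Y := by positivity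
                linarith
        · have h3 := hback i hi (by omega)
          rw [hP₀c i (by omega)] at h3
          refine h3.trans ?_
          gcongr
          rw [hZ]
          have : (0 : ℝ) ≤ (C₁ : ℝ) ^ (t + 1) * Q₂ := by positivity
          linarith
      refine hfin.trans ?_
      gcongr

end Pool.Agent.TU.HxK
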