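import Mathlib
import Pool.Agent.Lib.TUK.Defs
import Pool.Agent.Lib.TUK.AKa

/-!
# Rows AK2, AK3 of the nilsequence version of Theorem U: the products of a class (helper31)
-/

set_option autoImplicit false
open Finset Polynomial

namespace Pool.Agent.TUK

open Pool.Agent.Lib.MP_663568_nt Pool.Agent.Lib.MP_663568_nt.Katai
  Pool.Agent.Lib.MP_663568_nt.Nul Pool.Agent.TU Pool.Agent.TU.HxK

/-- The products `u * conj v`. -/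
def WW (F : Set (ℕ → ℂ)) : Set (ℕ → ℂ) :=
  {w | ∃ u ∈ F, ∃ v ∈ F, w = fun m => u m * (starRingEnd ℂ) (v m)}

lemma WW_bdd {F : Set (ℕ → ℂ)} (hF : Cls F) : ∀ w ∈ WW F, ∀ n, ‖w n‖ ≤ 1 := by
  rintro w ⟨u, hu, v, hv, rfl⟩ n
  rw [norm_mul, RCLike.norm_conj]
  exact mul_le_one₀ (hF.bdd u hu n) (norm_nonneg _) (hF.bdd v hv n)

lemma Cls.prog {F : Set (ℕ → ℂ)} (hF : Cls F) {u : ℕ → ℂ} (hu : u ∈ F) (a q : ℕ) :
    (fun y => u (a + q * y)) ∈ F := hF.dil _ (hF.shift u hu a) q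

lemma WW_prog {F : Set (ℕ → ℂ)} (hF : Cls F) : Prog (WW F) := by
  rintro w ⟨u, hu, v, hv, rfl⟩ a q
  exact ⟨_, hF.prog hu a q, _, hF.prog hv a q, rfl⟩

lemma WW_sum (u v : ℕ → ℂ) (P : ℝ[X]) (M : ℕ) :
    ∑ m ∈ Icc 1 M, u m * (starRingEnd ℂ) (v m) * ee (P.eval (m : ℝ)) =
      ∑ m ∈ Icc 1 M, ee (P.eval (m : ℝ)) * (fun m => u m * (starRingEnd ℂ) (v m)) m :=
  sum_congr rfl fun m _ => by ring

theorem topS_of (h : AK2_stmt) {k : ℕ} {F : Set (ℕ → ℂ)} (hF : Cls F) (hD : DualLaw (k + 1) F)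
    (d : ℕ) (hd : k < d) : TopS d (WW F) := by
  intro c hc
  obtain ⟨C, hC, M₀, hM₀⟩ := h k F hF hD d hd c hc
  refine ⟨C, M₀, hC, ?_⟩
  rintro M hM P hP w ⟨u, hu, v, hv, rfl⟩ hS
  exact hM₀ M hM P hP u hu v hv (by rw [WW_sum]; exact hS)

theorem weyl_WW (h : AK2_stmt) {k : ℕ} {F : Set (ℕ → ℂ)} (hF : Cls F) (hD : DualLaw (k + 1) F)
    (t : ℕ) : Weyl t k (WW F) :=
  weyl_of_top k (WW F) (WW_bdd hF) (WW_prog hF) (fun d hd => topS_of h hF hD d hd) t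

/-- **Row AK.** -/
theorem rowAK (h : AK2_stmt) : AK_stmt := by
  intro k F hF hD t ρ hρ
  obtain ⟨Q, M₀, hQ, hM₀⟩ := weyl_WW h hF hD t ρ hρ
  refine ⟨Q, hQ, M₀, fun M hM P hP u hu v hv hS => ?_⟩
  exact hM₀ M hM P hP _ ⟨u, hu, v, hv, rfl⟩ (by rw [← WW_sum]; exact hS)

end Pool.Agent.TUK
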