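import Mathlib
import Pool.Agent.Lib.TUK.Defs
import Pool.Agent.Lib.TUK.AK3
import Pool.Agent.Lib.MP_663568_h6.BoxSepQ

/-!
# Row AK2 of the nilsequence version of Theorem U: the top coefficient (helper31)
-/

set_option autoImplicit false
open Finset Polynomial

namespace Pool.Agent.TUK

open Pool.Agent.Lib.MP_663568_nt Pool.Agent.Lib.MP_663568_nt.Katai
  Pool.Agent.Lib.MP_663568_nt.Nul Pool.Agent.TU Pool.Agent.TU.HxK
  Pool.Agent.Lib.MP_663568_nt.Tw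

/-- A function on the cube given on the two faces. -/
def cuE {n : ℕ} (f g : Cu n → ℂ) (w : Cu (n + 1)) : ℂ := Sum.elim f g w

lemma cuE_lo {n : ℕ} (f g : Cu n → ℂ) (v : Cu n) : cuE f g (lo v) = f v := rfl

lemma cuE_up {n : ℕ} (f g : Cu n → ℂ) (v : Cu n) : cuE f g (up v) = g v := rfl

/-- Dual functions of order `n` are dual functions of order `n + 1`. -/
lemma dual_succ {n : ℕ} {M ε : ℝ} {D : ℕ → ℂ} (h : Tw.Dual n M ε D) : Tw.Dual (n + 1) M ε D := by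
  classical
  obtain ⟨ι, i1, a, b, hc, hb, happ⟩ := h
  refine ⟨ι, i1, a, fun i w m => cuE (fun _ => 1) (fun v => b i v m) w, hc, ?_, fun l k => ?_⟩
  · intro i w m
    rcases cu_cases w with ⟨v, rfl⟩ | ⟨v, rfl⟩
    · simp only [cuE_lo]
      simp
    · simp only [cuE_up]
      exact hb i v m
  · have h1 := happ (l + k n) k
    have e0 : shifts k (n + 1) (last (n + 1)) = k n + shifts k n (last n) := rfl
    have e : ∀ v : Cu n, l + (k n + shifts k n v) = l + k n + shifts k n v := fun v => by ring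
    rw [e0, e]
    refine le_trans (le_of_eq ?_) h1
    congr 2
    refine sum_congr rfl fun i _ => ?_
    rw [prod_cu_succ]
    simp only [cuE_lo, cuE_up, prod_const_one, one_mul, shifts_up, e]

lemma dual_le {n m : ℕ} (hnm : n ≤ m) {M ε : ℝ} {D : ℕ → ℂ} (h : Tw.Dual n M ε D) :
    Tw.Dual m M ε D := by
  induction m, hnm using Nat.le_induction with
  | base => exact h
  | succ m _ ih => exact dual_succ ih

/-- The weak inverse theorem for the top coefficient. -/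
theorem weak_top {k : ℕ} {F : Set (ℕ → ℂ)} (hF : Cls F) (hD : DualLaw (k + 1) F) (t : ℕ)
    (hkt : k < t) : TopW t (WW F) := by
  intro c hc
  obtain ⟨ε, hεd⟩ : ∃ ε : ℝ, ε = c / 2 := ⟨_, rfl⟩
  have hε : 0 < ε := by rw [hεd]; positivity
  obtain ⟨d, rfl⟩ : ∃ d, t = d + 1 := ⟨t - 1, by omega⟩
  set ε₁ : ℝ := min 1 (ε / 12) with hε₁
  have hε₁0 : 0 < ε₁ := lt_min one_pos (by positivity)
  have hε₁1 : ε₁ ≤ 1 := min_le_left _ _
  have hε₁2 : ε₁ ≤ ε / 12 := min_le_right _ _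
  obtain ⟨M, hM1, hM⟩ := hD ε₁ hε₁0
  have hM0 : 0 < M := by linarith
  set ε₂ : ℝ := min 1 (ε / (4 * (M * M))) with hε₂
  have hε₂0 : 0 < ε₂ := lt_min one_pos (by positivity)
  obtain ⟨C₀, hC₀1, B₀, hB₀, hC₀⟩ := H6.box_sepQ d ε₂ hε₂0 (min_le_left _ _)
  refine ⟨C₀, 4 * ((d + 1 : ℕ) * B₀) / ε + 1, hC₀1, by
    have : 0 < 4 * (((d + 1 : ℕ) : ℝ) * B₀) / ε := by positivity
    linarith, ?_⟩
  rintro L hBL P hP w ⟨u, hu, v, hv, rfl⟩ hS
  obtain ⟨B, hB⟩ : ∃ B : ℝ, B = 4 * ((d + 1 : ℕ) * B₀) / ε + 1 := ⟨_, rfl⟩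
  rw [← hB] at hBL ⊢
  have hB1 : 1 ≤ B := by
    have : 0 < 4 * (((d + 1 : ℕ) : ℝ) * B₀) / ε := by positivity
    rw [hB]; linarith
  have hL0 : (0 : ℝ) < L := by linarith
  by_contra hcon
  push Not at hcon
  have hκ : 0 < B / L := by positivity
  have hκ1 : B / L ≤ 1 := (div_le_one hL0).2 hBL
  have hsep : Sep C₀ (B / L) (P.coeff (d + 1)) := by
    intro q hq
    rw [mem_Icc] at hq
    exact (hcon q hq.1 hq.2).le
  obtain ⟨K', hK'0, hKB, hbox⟩ := hC₀ (B / L) hκ hκ1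
  set S0 : ℝ := ∑ i ∈ range (d + 1), (K' i : ℝ) with hS0
  have hS00 : 0 ≤ S0 := sum_nonneg fun _ _ => Nat.cast_nonneg _
  have hS01 : S0 ≤ (d + 1 : ℕ) * (B₀ / (B / L)) := by
    calc S0 ≤ ∑ i ∈ range (d + 1), B₀ / (B / L) := sum_le_sum fun i _ => hKB i
      _ = _ := by rw [sum_const, card_range, nsmul_eq_mul]
  have hLS : 2 * S0 ≤ ε / 2 * L := by
    have h1 : ((d + 1 : ℕ) : ℝ) * (B₀ / (B / L)) = ((d + 1 : ℕ) : ℝ) * B₀ / B * L := by
      field_simp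
    have h2 : 4 * (((d + 1 : ℕ) : ℝ) * B₀) / ε ≤ B := by rw [hB]; linarith
    have h3 : ((d + 1 : ℕ) : ℝ) * B₀ / B ≤ ε / 4 := by
      rw [div_le_iff₀ (by linarith)]
      rw [div_le_iff₀ hε] at h2
      linarith
    have h4 : ((d + 1 : ℕ) : ℝ) * B₀ / B * L ≤ ε / 4 * L :=
      mul_le_mul_of_nonneg_right h3 hL0.le
    rw [h1] at hS01
    linarith
  have k1 := dual_le (by omega : k + 1 ≤ d + 1) (hM u hu)
  have k2 := (dual_le (by omega : k + 1 ≤ d + 1) (hM v hv)).conj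
  have k3 := k1.mul k2 (fun m => hF.bdd u hu m)
    (fun m => by rw [RCLike.norm_conj]; exact hF.bdd v hv m) hε₁0.le
  have k4 := dual_small (d + 1) K' hK'0 ε₂ (M * M) _ hε₂0.le
      (fun m => ee (P.eval (m : ℝ))) _ (fun m => (norm_ee _).le) (fun m => by
        rw [norm_mul, RCLike.norm_conj]
        exact mul_le_one₀ (hF.bdd u hu m) (norm_nonneg _) (hF.bdd v hv m)) (hbox P hP hsep) k3 L
  have k5 : M * M * ε₂ ≤ ε / 4 := by
    calc M * M * ε₂ ≤ M * M * (ε / (4 * (M * M))) :=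
          mul_le_mul_of_nonneg_left (min_le_right _ _) (by positivity)
      _ = ε / 4 := by field_simp
  have k6 : ε₁ + ε₁ * (1 + ε₁) ≤ ε / 4 := by nlinarith
  have k7 : ‖∑ m ∈ Icc 1 L, ee (P.eval (m : ℝ)) * (u m * (starRingEnd ℂ) (v m))‖ ≤ ε * L := by
    refine k4.trans ?_
    calc (L : ℝ) * (M * M * ε₂ + (ε₁ + ε₁ * (1 + ε₁))) + 2 * ∑ i ∈ range (d + 1), (K' i : ℝ)
        ≤ (L : ℝ) * (ε / 4 + ε / 4) + ε / 2 * L := by
          refine add_le_add (mul_le_mul_of_nonneg_left (by linarith) hL0.le) hLS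
      _ = _ := by ring
  have k8 : c * L ≤ ε * L := hS.trans k7
  rw [hεd] at k8
  have : 0 < c * L := by positivity
  linarith

/-- **Row AK2.** -/
theorem rowAK2 : AK2_stmt := by
  intro k F hF hD t hkt ρ hρ
  obtain ⟨C, M₀, hC, hM₀⟩ := boost t (by omega) (WW F) (WW_bdd hF) (WW_prog hF)
    (weak_top hF hD t hkt) ρ hρ
  refine ⟨C, hC, M₀, fun M hM P hP u hu v hv hS => ?_⟩
  exact hM₀ M hM P hP _ ⟨u, hu, v, hv, rfl⟩ (by rw [← WW_sum]; exact hS)

end Pool.Agent.TUK
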