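import Pool.Agent.Lib.TUK.Defs
import Pool.Agent.Lib.TU.RowB2

/-!
# Row B2K: one polynomial and one sequence for many windows

helper62, after helper71.
-/

set_option autoImplicit false
open Finset Polynomial

namespace Pool.Agent.TUK

open Pool.Agent.Lib.MP_663568_nt Pool.Agent.Lib.MP_663568_nt.Katai
  Pool.Agent.Lib.MP_663568_nt.Nul Pool.Agent.TU

namespace B2K

open Pool.Agent.TU.B2

/-- Taylor coefficients of degree `> s` of a polynomial whose coefficients of degree `> s` are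
almost rational. -/
lemma taylor_near {t : ℕ} (s : ℕ) (P : ℝ[X]) (hP : P.natDegree ≤ t) (D : ℕ) (hD : 1 ≤ D)
    (K₁ : ℝ) (hK₁ : 0 ≤ K₁) (H k : ℕ) (hH : 1 ≤ H) (hk : k ≤ H)
    (h : ∀ j, s < j → j ≤ t → nd ((D : ℝ) * P.coeff j) ≤ K₁ / (H : ℝ) ^ j) (j : ℕ) (hj : s < j) :
    ∃ Z : ℤ, |(taylor (k : ℝ) P).coeff j - (Z : ℝ) / D| ≤ (t + 1) * (t.factorial * K₁) / H := by
  classical
  have hD' : (1 : ℝ) ≤ D := by exact_mod_cast hD
  have hH' : (1 : ℝ) ≤ H := by exact_mod_cast hH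
  obtain ⟨z, hz⟩ : ∃ z : ℕ → ℤ, ∀ i, nd ((D : ℝ) * P.coeff i) = |(D : ℝ) * P.coeff i - z i| :=
    ⟨fun i => round ((D : ℝ) * P.coeff i), fun i => rfl⟩
  have e1 : (taylor (k : ℝ) P).coeff j =
      ∑ i ∈ range (t + 1), P.coeff i * ((k : ℝ) ^ (i - j) * (i.choose j : ℝ)) := by
    rw [taylor_apply]
    exact coeff_shift_aux P t hP k j
  refine ⟨∑ i ∈ range (t + 1), z i * ((k : ℤ) ^ (i - j) * (i.choose j : ℤ)), ?_⟩
  rw [e1]
  have e2 : ((∑ i ∈ range (t + 1), z i * ((k : ℤ) ^ (i - j) * (i.choose j : ℤ)) : ℤ) : ℝ) / D =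
      ∑ i ∈ range (t + 1), ((z i : ℝ) / D) * ((k : ℝ) ^ (i - j) * (i.choose j : ℝ)) := by
    push_cast
    rw [sum_div]
    exact sum_congr rfl fun i _ => by ring
  rw [e2, ← sum_sub_distrib]
  refine (abs_sum_le_sum_abs _ _).trans ?_
  have e3 : (t + 1) * (t.factorial * K₁) / (H : ℝ) =
      ∑ i ∈ range (t + 1), (t.factorial * K₁) / (H : ℝ) := by
    rw [sum_const, card_range, nsmul_eq_mul]; push_cast; ring
  rw [e3]
  refine sum_le_sum fun i hi => ?_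
  rw [mem_range] at hi
  rw [← sub_mul, abs_mul]
  by_cases hij : i < j
  · rw [Nat.choose_eq_zero_of_lt hij]
    simp only [Nat.cast_zero, mul_zero, abs_zero]
    positivity
  have h1 : |P.coeff i - (z i : ℝ) / D| ≤ K₁ / (H : ℝ) ^ i := by
    have e : P.coeff i - (z i : ℝ) / D = ((D : ℝ) * P.coeff i - z i) / D := by
      field_simp
    rw [e, abs_div, abs_of_pos (by linarith : (0 : ℝ) < D), ← hz]
    refine (div_le_self (nd_nonneg _) hD').trans (h i (by omega) (by omega))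
  have h2 : |(k : ℝ) ^ (i - j) * (i.choose j : ℝ)| ≤ (H : ℝ) ^ (i - j) * t.factorial := by
    rw [abs_of_nonneg (by positivity)]
    gcongr
    exact choose_le_fact (by omega)
  calc |P.coeff i - (z i : ℝ) / D| * |(k : ℝ) ^ (i - j) * (i.choose j : ℝ)| ≤
      K₁ / (H : ℝ) ^ i * ((H : ℝ) ^ (i - j) * t.factorial) := by gcongr
    _ = (t.factorial * K₁) / (H : ℝ) ^ j := by
        have e : (H : ℝ) ^ i = (H : ℝ) ^ (i - j) * (H : ℝ) ^ j := by
          rw [← pow_add]; congr 1; omega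
        rw [e]
        field_simp
    _ ≤ (t.factorial * K₁) / (H : ℝ) := by
        gcongr
        calc (H : ℝ) = (H : ℝ) ^ 1 := by ring
          _ ≤ (H : ℝ) ^ j := pow_le_pow_right₀ hH' (by omega)

end B2K

open Pool.Agent.TU.B2 in
theorem rowB2K (hA : AK_stmt) (hB1 : B1_stmt) : B2K_stmt := by
  classical
  intro s F hF hDual t ht c hc hc1
  obtain ⟨ρ, hρ⟩ : ∃ ρ : ℝ, ρ = c ^ 2 / 2 := ⟨_, rfl⟩
  have hρ0 : 0 < ρ := by rw [hρ]; positivity
  obtain ⟨N, hN1, M₀, hC⟩ := hA s F hF hDual t ρ hρ0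
  have hNf : (1 : ℝ) ≤ (N.factorial : ℝ) := by exact_mod_cast Nat.factorial_pos N
  obtain ⟨K₁, hK₁⟩ : ∃ K₁ : ℝ, K₁ = N.factorial * N := ⟨_, rfl⟩
  have hN1' : (1 : ℝ) ≤ N := by exact_mod_cast hN1
  have hK₁0 : 0 < K₁ := by rw [hK₁]; positivity
  refine ⟨ρ, hρ0, N.factorial, Nat.factorial_pos N, (t + 1) * (t.factorial * K₁), by positivity,
    max M₀ 1, ?_⟩
  intro H M hH hMH B hfree a ha G α u hGM hG hαB huF hcorr
  have hH1 : 1 ≤ H := (le_max_right _ _).trans hH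
  have hHM₀ : M₀ ≤ H := (le_max_left _ _).trans hH
  have hH' : (1 : ℝ) ≤ H := by exact_mod_cast hH1
  -- the functions
  obtain ⟨φ, hφ⟩ : ∃ φ : ℕ → ℕ → ℂ, φ = fun n y =>
      if n ∈ G then u n y * ee (ph (α n) ((y : ℝ) - (n : ℝ))) else 0 := ⟨_, rfl⟩
  have hφG : ∀ n ∈ G, ∀ y : ℕ, φ n y = u n y * ee (ph (α n) ((y : ℝ) - (n : ℝ))) := by
    intro n hn y
    rw [hφ]
    simp only [if_pos hn]
  have hφ1 : ∀ n y, ‖φ n y‖ ≤ 1 := by
    intro n y
    by_cases hn : n ∈ G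
    · rw [hφG n hn, norm_mul, norm_ee, mul_one]
      exact hF.bdd _ (huF n hn) y
    · rw [hφ]
      simp only [if_neg hn, norm_zero]
      norm_num
  obtain ⟨k₀, hk₀, hcard⟩ := hB1 H a G φ c hc hc1 ha hφ1 hG (by
    intro n hn
    refine le_of_le_of_eq (hcorr n hn) ?_
    congr 1
    exact sum_congr rfl fun y _ => by rw [hφG n hn])
  have hcomp : ∀ k y : ℕ, ((phP (α k)).comp (X - C (k : ℝ))).eval (y : ℝ) =
      ph (α k) ((y : ℝ) - (k : ℝ)) := fun k y => by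
    rw [eval_comp, phP_eval]; simp
  have hdeg : ∀ k : ℕ, ((phP (α k)).comp (X - C (k : ℝ))).natDegree ≤ t := fun k => by
    refine (natDegree_comp_le).trans ?_
    rw [natDegree_X_sub_C, mul_one]
    exact phP_natDegree _
  have htay : ∀ k : ℕ, taylor (k : ℝ) ((phP (α k)).comp (X - C (k : ℝ))) = phP (α k) := fun k => by
    rw [taylor_apply, comp_assoc]
    simp
  refine ⟨u k₀, huF k₀ hk₀, (phP (α k₀)).comp (X - C (k₀ : ℝ)), hdeg k₀, ?_, G.filter _,
    filter_subset _ _, hρ ▸ hcard, ?_⟩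
  · refine le_of_le_of_eq (hcorr k₀ hk₀) ?_
    congr 1
    exact sum_congr rfl fun y _ => by rw [hcomp]
  intro k hk
  rw [mem_filter] at hk
  obtain ⟨hkG, hks⟩ := hk
  have hkH : k ≤ H := (mem_Icc.1 (hGM hkG)).2.trans hMH
  obtain ⟨P, hP⟩ : ∃ P : ℝ[X], P = (phP (α k)).comp (X - C (k : ℝ)) -
      (phP (α k₀)).comp (X - C (k₀ : ℝ)) := ⟨_, rfl⟩
  have hPd : P.natDegree ≤ t := by
    rw [hP]
    exact (natDegree_sub_le _ _).trans (max_le (hdeg k) (hdeg k₀))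
  have hPs : ρ * H ≤ ‖∑ m ∈ Icc 1 H, u k m * (starRingEnd ℂ) (u k₀ m) * ee (P.eval (m : ℝ))‖ := by
    refine le_of_le_of_eq hks ?_
    congr 1
    refine sum_congr rfl fun y _ => ?_
    rw [hφG k hkG, hφG k₀ hk₀, hP, eval_sub, hcomp, hcomp, ee_sub, map_mul]
    ring
  obtain ⟨q, hq1, hqN, hq3⟩ := hC H hHM₀ P hPd (u k) (huF k hkG) (u k₀) (huF k₀ hk₀) hPs
  obtain ⟨k', hk'⟩ := Nat.dvd_factorial (by omega : 0 < q) hqN
  have hkN : (k' : ℝ) ≤ N.factorial := by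
    have : k' ≤ N.factorial := by
      rw [hk']; exact Nat.le_mul_of_pos_left _ (by omega)
    exact_mod_cast this
  have hnd : ∀ j, s < j → j ≤ t →
      nd (((N.factorial : ℕ) : ℝ) * P.coeff j) ≤ K₁ / (H : ℝ) ^ j := fun j hj1 hj2 => by
    have e : ((N.factorial : ℕ) : ℝ) * P.coeff j = (k' : ℝ) * ((q : ℝ) * P.coeff j) := by
      rw [hk']; push_cast; ring
    rw [e]
    refine (nd_nat_mul_le _ _).trans ?_
    refine (mul_le_mul hkN (hq3 j hj1 hj2) (nd_nonneg _) (by positivity)).trans (le_of_eq ?_)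
    rw [hK₁]; ring
  have hT := fun (i : Fin t) (hi : s ≤ i.val) => B2K.taylor_near s P hPd N.factorial
    (Nat.factorial_pos N) K₁ hK₁0.le H k hH1 hkH hnd (i.val + 1) (by omega)
  choose! Z hZ using hT
  obtain ⟨v, hv⟩ : ∃ v : Fin t → ℝ, v = tv t ((phP (α k₀)).comp (X - C (k₀ : ℝ))) k := ⟨_, rfl⟩
  have hvi : ∀ i : Fin t, v i = α k i - (taylor (k : ℝ) P).coeff (i.val + 1) := by
    intro i
    have e1 : (phP (α k₀)).comp (X - C (k₀ : ℝ)) = (phP (α k)).comp (X - C (k : ℝ)) - P := by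
      rw [hP]; ring
    rw [hv, tv, e1, map_sub, htay, coeff_sub, phP_coeff]
  rw [← hv]
  refine ⟨fun i => (if s ≤ i.val then α k i else v i) +
      (((if s ≤ i.val then -(Z i) else 0) : ℤ) : ℝ) / N.factorial,
    ⟨fun i => if s ≤ i.val then α k i else v i, ?_, fun i => if s ≤ i.val then -(Z i) else 0,
    fun i => rfl⟩, fun i => ?_⟩
  · refine hfree (α k) (hαB k hkG) _ fun i hi => ?_
    simp only [if_pos hi]
  · by_cases hi : s ≤ i.val
    · simp only [if_pos hi]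
      rw [hvi]
      have e2 : α k i - (taylor (k : ℝ) P).coeff (i.val + 1) -
          (α k i + ((-(Z i) : ℤ) : ℝ) / N.factorial) =
          -((taylor (k : ℝ) P).coeff (i.val + 1) - (Z i : ℝ) / N.factorial) := by
        push_cast; ring
      rw [e2, abs_neg]
      exact hZ i hi
    · simp only [if_neg hi]
      have e3 : v i - (v i + ((0 : ℤ) : ℝ) / N.factorial) = 0 := by simp
      rw [e3, abs_zero]
      positivity

end Pool.Agent.TUK
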