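import Mathlib
import Pool.Agent.Lib.TU.G
import Pool.Agent.Lib.TUK.Defs

/-!
# Row GK, part 1: the terminal case (MP_663568_nt)
-/

set_option autoImplicit false
open Finset Polynomial MeasureTheory

namespace Pool.Agent.TUK

open Pool.Agent.Lib.MP_663568_nt Pool.Agent.Lib.MP_663568_nt.Katai
  Pool.Agent.Lib.MP_663568_nt.Nul Pool.Agent.TU

/-- The supremum over the family. -/
noncomputable def FFK (F : Set (ℕ → ℂ)) (s : ℕ) (T : Set ℝ) (ρ : ℝ) (l n : ℕ) : ℝ :=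
  ⨆ p : {p : ℝ[X] × (ℕ → ℂ) // p.1.natDegree ≤ s ∧
      (∃ x ∈ T, |p.1.coeff s - x| ≤ ρ) ∧ p.2 ∈ F},
    ‖∑ h ∈ Icc 1 l, muC (n + h) * (p.1.2 h * ee (p.1.1.eval (h : ℝ)))‖

lemma norm_sum_muC_mul_le (l n : ℕ) (u : ℕ → ℂ) (hu : ∀ m, ‖u m‖ ≤ 1) (f : ℕ → ℝ) :
    ‖∑ h ∈ Icc 1 l, muC (n + h) * (u h * ee (f h))‖ ≤ l := by
  refine (norm_sum_le _ _).trans ?_
  calc ∑ h ∈ Icc 1 l, ‖muC (n + h) * (u h * ee (f h))‖ ≤ ∑ h ∈ Icc 1 l, (1 : ℝ) := by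
        refine sum_le_sum fun h _ => ?_
        rw [norm_mul, norm_mul, norm_ee, mul_one]
        exact mul_le_one₀ (norm_muC _) (norm_nonneg _) (hu _)
    _ = l := by simp

lemma le_FFK {F : Set (ℕ → ℂ)} (hF : Cls F) (s : ℕ) (T : Set ℝ) (ρ : ℝ) (l n : ℕ) (P : ℝ[X])
    (hP : Fam s T ρ P) (u : ℕ → ℂ) (hu : u ∈ F) :
    ‖∑ h ∈ Icc 1 l, muC (n + h) * (u h * ee (P.eval (h : ℝ)))‖ ≤ FFK F s T ρ l n := by
  unfold FFK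
  have hb : BddAbove (Set.range fun p : {p : ℝ[X] × (ℕ → ℂ) // p.1.natDegree ≤ s ∧
      (∃ x ∈ T, |p.1.coeff s - x| ≤ ρ) ∧ p.2 ∈ F} =>
      ‖∑ h ∈ Icc 1 l, muC (n + h) * (p.1.2 h * ee (p.1.1.eval (h : ℝ)))‖) := by
    refine ⟨l, ?_⟩
    rintro _ ⟨p, rfl⟩
    exact norm_sum_muC_mul_le l n p.1.2 (hF.bdd _ p.2.2.2) fun h => p.1.1.eval (h : ℝ)
  exact le_ciSup hb ⟨(P, u), hP.1, hP.2, hu⟩

lemma FFK_nonneg (F : Set (ℕ → ℂ)) (s : ℕ) (T : Set ℝ) (ρ : ℝ) (l n : ℕ) :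
    0 ≤ FFK F s T ρ l n :=
  Real.iSup_nonneg fun _ => norm_nonneg _

open Classical in
/-- The terminal case. -/
lemma terminalK {F : Set (ℕ → ℂ)} (hCls : Cls F)
    {t s D e l : ℕ} (hst : s ≤ t) (hD : 1 ≤ D) (he : 1 ≤ e)
    {T : Set ℝ} (hT : ∀ x ∈ T, ∀ z : ℤ, x + (z : ℝ) / D ∈ T) {Q c c₅ ρ₃ ρ ρ₄ : ℝ}
    (hQ : 0 ≤ Q) (hρ₃ : 0 ≤ ρ₃) (hρρ : ρ + (t + 1) * (2 * e) ^ t * ρ₃ ≤ ρ₄)
    {H M : ℕ} (hM : 1 ≤ M) (hMH : M ≤ H) (hHM : H ≤ 2 * e * M)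
    (hE : ∀ g : ℝ[X], g.natDegree ≤ t →
      (∀ j, 1 ≤ j → |g.coeff j| * (M : ℝ) ^ j ≤ 2 ^ (2 * t) * Q) →
      c₅ * M ≤ #{k ∈ Icc 1 M | ∃ x ∈ T, |g.eval ((k : ℕ) : ℝ) - x| ≤ ρ} →
      ∀ j, 1 ≤ j → |g.coeff j| * (M : ℝ) ^ j ≤ ρ₃) (hc₅ : 0 < c₅)
    (hF : ∀ a : ℕ → ℂ, (∀ n, ‖a n‖ ≤ 1) →
      ∀ R : ℝ[X], R.natDegree ≤ t → Near t s D Q H R →
      c * H ≤ ‖∑ y ∈ Icc 1 H, a y * ee (R.eval (y : ℝ))‖ →
      ∃ P : ℕ → ℝ[X], (∀ y, (P y).natDegree ≤ s ∧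
          ∃ z : ℤ, (P y).coeff s = (taylor (y : ℝ) R).coeff s + (z : ℝ) / D) ∧
        c / 2 * H * l ≤ D * ∑ y ∈ Icc 1 H, ‖∑ h ∈ Icc 1 l, a (y + h) * ee ((P y).eval (h : ℝ))‖)
    {m : ℕ} {R : ℝ[X]} (hR : R.natDegree ≤ t) (hN : Near t s D Q H R) {u : ℕ → ℂ} (hu : u ∈ F)
    (hcor : c * H ≤ ‖∑ y ∈ Icc 1 H, muC (m + y) * (u y * ee (R.eval (y : ℝ)))‖)
    (hmany : c₅ * M ≤ #{k ∈ Icc 1 M | ∃ i : Fin t, i.val + 1 = s ∧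
      ∃ x ∈ T, |tv t R ((k : ℕ) : ℝ) i - x| ≤ ρ}) :
    c / 2 * H * l ≤ D * ∑ y ∈ Icc 1 H, FFK F s T ρ₄ l (m + y) := by
  have hM0 : (0 : ℝ) < M := by exact_mod_cast hM
  set g := slow t s D R with hg
  -- the slow part is close to `T` as often
  have hT' : ∀ x ∈ T, ∀ z : ℤ, x - (z : ℝ) / D ∈ T := by
    intro x hx z
    have := hT x hx (-z)
    push_cast at this
    rw [sub_eq_add_neg, ← neg_div]
    exact this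
  have hsub : {k ∈ Icc 1 M | ∃ i : Fin t, i.val + 1 = s ∧ ∃ x ∈ T, |tv t R ((k : ℕ) : ℝ) i - x| ≤ ρ} ⊆
      {k ∈ Icc 1 M | ∃ x ∈ T, |g.eval ((k : ℕ) : ℝ) - x| ≤ ρ} := by
    intro k hk
    rw [mem_filter] at hk ⊢
    refine ⟨hk.1, ?_⟩
    obtain ⟨i, hi, x, hx, hxk⟩ := hk.2
    obtain ⟨z, hz⟩ := slow_eval (s := s) (D := D) hR k
    refine ⟨x - (z : ℝ) / D, hT' x hx z, ?_⟩
    unfold tv at hxk
    rw [hi, hz] at hxk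
    rw [show g.eval ((k : ℕ) : ℝ) - (x - (z : ℝ) / D) = g.eval ((k : ℕ) : ℝ) + (z : ℝ) / D - x by ring]
    exact hxk
  have hcard : c₅ * M ≤ #{k ∈ Icc 1 M | ∃ x ∈ T, |g.eval ((k : ℕ) : ℝ) - x| ≤ ρ} :=
    hmany.trans (by exact_mod_cast card_le_card hsub)
  have hsmall := hE g (slow_natDegree t s D R)
    (fun j hj => slow_bound hD hQ hM hMH hN hR hst j hj) hcard
  -- one point
  obtain ⟨k₀, hk₀⟩ : {k ∈ Icc 1 M | ∃ x ∈ T, |g.eval ((k : ℕ) : ℝ) - x| ≤ ρ}.Nonempty := by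
    rw [← card_pos]
    have : (0 : ℝ) < #{k ∈ Icc 1 M | ∃ x ∈ T, |g.eval ((k : ℕ) : ℝ) - x| ≤ ρ} :=
      lt_of_lt_of_le (by positivity) hcard
    exact_mod_cast this
  rw [mem_filter, mem_Icc] at hk₀
  obtain ⟨⟨-, hk₀M⟩, x₀, hx₀, hx₀k⟩ := hk₀
  -- all points
  have hall : ∀ y ≤ H, ∀ w : ℤ, ∃ x ∈ T,
      |(taylor ((y : ℕ) : ℝ) R).coeff s + (w : ℝ) / D - x| ≤ ρ₄ := by
    intro y hy w
    obtain ⟨z, hz⟩ := slow_eval (s := s) (D := D) hR y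
    have h1 := osc_le hM hHM (slow_natDegree t s D R) hρ₃ he hsmall hy (hk₀M.trans hMH)
    refine ⟨x₀ + ((z + w : ℤ) : ℝ) / D, hT x₀ hx₀ _, ?_⟩
    rw [hz]
    push_cast
    rw [show (slow t s D R).eval (y : ℝ) + (z : ℝ) / D + (w : ℝ) / D - (x₀ + ((z : ℝ) + w) / D) =
      ((slow t s D R).eval (y : ℝ) - (slow t s D R).eval (k₀ : ℝ)) +
        ((slow t s D R).eval (k₀ : ℝ) - x₀) by ring]
    calc _ ≤ |(slow t s D R).eval (y : ℝ) - (slow t s D R).eval (k₀ : ℝ)| +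
          |(slow t s D R).eval (k₀ : ℝ) - x₀| := abs_add_le _ _
      _ ≤ (t + 1) * (2 * e) ^ t * ρ₃ + ρ := add_le_add h1 hx₀k
      _ ≤ ρ₄ := by linarith
  -- the windows
  obtain ⟨P, hP, hsum⟩ := hF (fun y => muC (m + y) * u y) (fun y => by
      rw [norm_mul]
      exact mul_le_one₀ (norm_muC _) (norm_nonneg _) (hCls.bdd u hu _)) R hR hN (by
        refine hcor.trans (le_of_eq ?_)
        congr 1
        exact sum_congr rfl fun y _ => by ring)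
  refine hsum.trans ?_
  gcongr with y hy
  rw [mem_Icc] at hy
  have h2 : Fam s T ρ₄ (P y) := by
    obtain ⟨w, hw⟩ := (hP y).2
    refine ⟨(hP y).1, ?_⟩
    rw [hw]
    exact hall y hy.2 w
  have h3 := le_FFK hCls s T ρ₄ l (m + y) (P y) h2 (fun h => u (y + h)) (hCls.shift u hu y)
  refine le_trans (le_of_eq ?_) h3
  congr 1
  refine sum_congr rfl fun h _ => ?_
  rw [← add_assoc]
  ring

end Pool.Agent.TUK
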