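import Mathlib
import Pool.Agent.Lib.TUK.GK1

/-!
# Row GK: the clusters have small density (MP_663568_nt)
-/

set_option autoImplicit false
open Finset Polynomial MeasureTheory

namespace Pool.Agent.TUK

open Pool.Agent.Lib.MP_663568_nt Pool.Agent.Lib.MP_663568_nt.Katai
  Pool.Agent.Lib.MP_663568_nt.Nul Pool.Agent.TU

lemma nb_mono' {t : ℕ} {B : Set (Fin t → ℝ)} {ρ ρ' : ℝ} (h : ρ ≤ ρ') : Nb B ρ ⊆ Nb B ρ' :=
  fun _ ⟨β, hβ, hb⟩ => ⟨β, hβ, fun i => (hb i).trans h⟩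

lemma nd_le_of_near {D : ℕ} (hD : 1 ≤ D) {x ε : ℝ} {z : ℤ} (h : |x - (z : ℝ) / D| ≤ ε) :
    nd ((D : ℝ) * x) ≤ D * ε := by
  have hD0 : (0 : ℝ) < D := by exact_mod_cast hD
  have h1 : nd ((D : ℝ) * x) ≤ |(D : ℝ) * x - z| := by
    unfold nd
    exact round_le _ _
  refine h1.trans ?_
  have h2 : (D : ℝ) * x - z = D * (x - (z : ℝ) / D) := by field_simp
  rw [h2, abs_mul, abs_of_pos hD0]
  gcongr

/-- No cluster has all the coefficients of degree `> k` near rationals. -/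
lemma base_empty (hNR : NR_stmt) {k t : ℕ} (hk : 1 ≤ k) (hkt : k < t) (B : Set (Fin t → ℝ))
    (hB : IsClosed B) (hP : Per B) (hFr : Free k B) (hNS : NullSec B) (F : Set (ℕ → ℂ))
    (c c₄ : ℝ) (e : ℕ) (K : ℝ) (hc₄ : 0 < c₄) (hK : 0 < K) (D : ℕ) (Q : ℝ) (hD : 1 ≤ D)
    (hQ : 1 ≤ Q) : ∃ H₀ : ℕ, ∀ H : ℕ, H₀ ≤ H → ∀ m, ¬ ClK t k D B F Q c c₄ e K H m := by
  obtain ⟨δ, hδ, hNR'⟩ := hNR k t B hk hkt hB hP hFr hNS D hD
  have hD0 : (0 : ℝ) < D := by exact_mod_cast hD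
  obtain ⟨Y, hY⟩ : ∃ Y : ℝ, Y = D * ((t + 1) * 2 ^ (2 * t) * Q) := ⟨_, rfl⟩
  have hY0 : 0 ≤ Y := by rw [hY]; positivity
  refine ⟨⌈K / δ⌉₊ + ⌈Y / δ⌉₊ + 1, fun H hH m hcl => ?_⟩
  have hH1 : 1 ≤ H := by omega
  have hH0 : (0 : ℝ) < H := by exact_mod_cast hH1
  have hKH : K / H ≤ δ := by
    rw [div_le_iff₀ hH0]
    have h4 : K / δ ≤ H := (Nat.le_ceil _).trans (by exact_mod_cast (by omega : ⌈K / δ⌉₊ ≤ H))
    rw [div_le_iff₀ hδ] at h4
    linarith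
  have hYH : Y / H ≤ δ := by
    rw [div_le_iff₀ hH0]
    have h4 : Y / δ ≤ H := (Nat.le_ceil _).trans (by exact_mod_cast (by omega : ⌈Y / δ⌉₊ ≤ H))
    rw [div_le_iff₀ hδ] at h4
    linarith
  obtain ⟨-, R, hR, hNear, -, hcard⟩ := hcl
  have hpos : (0 : ℝ) < Nat.card {k : ℕ // k ∈ Icc 1 (H / e) ∧ tv t R (k : ℝ) ∈ Nb B (K / H)} :=
    lt_of_lt_of_le (by positivity) hcard
  have hpos' : 0 < Nat.card {k : ℕ // k ∈ Icc 1 (H / e) ∧ tv t R (k : ℝ) ∈ Nb B (K / H)} := by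
    exact_mod_cast hpos
  rw [Nat.card_pos_iff] at hpos'
  obtain ⟨⟨k₀, hk₀, hk₀B⟩⟩ := hpos'.1
  rw [mem_Icc] at hk₀
  have hk₀H : k₀ ≤ H := hk₀.2.trans (Nat.div_le_self _ _)
  refine hNR' (tv t R (k₀ : ℝ)) (nb_mono' hKH hk₀B) fun i hi => ?_
  have hi2 := i.isLt
  obtain ⟨z, hz⟩ := upper_near (k := k₀) hD (by linarith) hH1 hNear hR (j := i.val + 1) (by omega)
    (by omega) hk₀H
  refine (nd_le_of_near hD (x := tv t R (k₀ : ℝ) i) hz).trans ?_
  have : (D : ℝ) * ((t + 1) * 2 ^ (2 * t) * Q / H) = Y / H := by rw [hY]; ring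
  rw [this]
  exact hYH

/-- **Row GK.** -/
theorem rowGK (hC : C_stmt) (hD : D_stmt) (hE : E_stmt) (hF : F_stmt) (hNR : NR_stmt) :
    GK_stmt := by
  classical
  intro k F hk hCls hS t B hkt hB hP hFr hNS c c₄ e K hc hc1 hc₄ he hK s hks
  induction s, hks using Nat.le_induction with
  | base =>
    intro _ D Q ε hD1 hQ1 hε
    obtain ⟨H₀, hH₀⟩ := base_empty hNR hk hkt B hB hP hFr hNS F c c₄ e K hc₄ hK D Q hD1 hQ1
    refine ⟨H₀, fun H N hH hHN => ?_⟩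
    have h1 : (Icc 1 N).filter (fun m => ClK t k D B F Q c c₄ e K H m) = ∅ := by
      apply filter_eq_empty_iff.2
      intro m _
      exact hH₀ H hH m
    have hlogN : 0 ≤ Real.log N := Real.log_natCast_nonneg _
    refine le_trans (le_of_eq ?_) (show (0 : ℝ) ≤ ε * Real.log N by positivity)
    refine Finset.sum_eq_zero fun m hm => ?_
    have h2 : m ∈ (Icc 1 N).filter (fun m => ClK t k D B F Q c c₄ e K H m) := by
      rw [mem_filter] at hm ⊢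
      exact hm
    rw [h1] at h2
    exact absurd h2 (notMem_empty _)
  | succ s hs ih =>
    intro hst D Q ε hD1 hQ1 hε
    have hs1 : 1 ≤ s + 1 := by omega
    have hs2 : 2 ≤ s + 1 := by omega
    have hDr : (1 : ℝ) ≤ D := by exact_mod_cast hD1
    have hD0 : (0 : ℝ) < D := by linarith
    have her : (1 : ℝ) ≤ e := by exact_mod_cast he
    have hQ0 : (0 : ℝ) ≤ Q := by linarith
    obtain ⟨κ, hκ⟩ : ∃ κ : ℝ, κ = min 1 (c₄ / 4) := ⟨_, rfl⟩
    have hκ0 : 0 < κ := by rw [hκ]; positivity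
    have hκ1 : κ ≤ 1 := by rw [hκ]; exact min_le_left _ _
    have hκc : κ ≤ c₄ / 4 := by rw [hκ]; exact min_le_right _ _
    obtain ⟨T, hTc, hTv, hTinv, hTirr, hmaj⟩ := hC t B hB hP hNS (s + 1) hs1 hst D hD1 κ hκ0 hκ1
    have hTint : ∀ x ∈ T, ∀ z : ℤ, x + (z : ℝ) ∈ T := by
      intro x hx z
      have := hTinv x hx (z * D)
      push_cast at this
      rwa [mul_div_assoc, div_self hD0.ne', mul_one] at this
    obtain ⟨ε₂, hε₂⟩ : ∃ ε₂ : ℝ, ε₂ = c * ε / (16 * D) := ⟨_, rfl⟩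
    have hε₂0 : 0 < ε₂ := by rw [hε₂]; positivity
    obtain ⟨ρ₄, hρ₄, l₀, hSl⟩ := hS (s + 1) (by omega) T hTc hTv hTint (hTirr hs2) ε₂ hε₂0
    obtain ⟨l, hl⟩ : ∃ l : ℕ, l = max l₀ 1 := ⟨_, rfl⟩
    have hl1 : 1 ≤ l := by omega
    have hll : l₀ ≤ l := by omega
    obtain ⟨U, hU⟩ : ∃ U : ℝ, U = (t + 1) * (2 * e) ^ t := ⟨_, rfl⟩
    have hU0 : 0 < U := by rw [hU]; positivity
    obtain ⟨ρ₃, hρ₃⟩ : ∃ ρ₃ : ℝ, ρ₃ = ρ₄ / (2 * U) := ⟨_, rfl⟩
    have hρ₃0 : 0 < ρ₃ := by rw [hρ₃]; positivity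
    obtain ⟨ρE, hρE, ME, hEE⟩ := hE T hTc hTv hTint t (2 ^ (2 * t) * Q) (c₄ / 4) ρ₃
      (by positivity) (by positivity) hρ₃0
    obtain ⟨ρ, hρ⟩ : ∃ ρ : ℝ, ρ = min ρE (ρ₄ / 2) := ⟨_, rfl⟩
    have hρ0 : 0 < ρ := by rw [hρ]; positivity
    have hρρE : ρ ≤ ρE := by rw [hρ]; exact min_le_left _ _
    have hρρ₄ : ρ ≤ ρ₄ / 2 := by rw [hρ]; exact min_le_right _ _
    have hρρ : ρ + (t + 1) * (2 * e) ^ t * ρ₃ ≤ ρ₄ := by
      have : (t + 1) * (2 * (e : ℝ)) ^ t * ρ₃ = ρ₄ / 2 := by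
        rw [← hU, hρ₃]; field_simp
      rw [this]; linarith
    obtain ⟨ρ', hρ', Λ, w, h0, h1, h2, h3⟩ := hmaj ρ hρ0
    obtain ⟨W, hW⟩ : ∃ W : ℝ, W = ∑ l ∈ Λ, ‖w l‖ := ⟨_, rfl⟩
    have hW0 : 0 ≤ W := by rw [hW]; exact sum_nonneg fun _ _ => norm_nonneg _
    obtain ⟨δ, hδ⟩ : ∃ δ : ℝ, δ = κ / (W + 1) := ⟨_, rfl⟩
    have hδ0 : 0 < δ := by rw [hδ]; positivity
    have hWδ : (∑ l ∈ Λ, ‖w l‖) * δ ≤ κ := by
      rw [← hW, hδ, mul_div_assoc', div_le_iff₀ (by positivity)]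
      nlinarith
    obtain ⟨L, hL⟩ := exists_bound Λ
    -- the triangular lemma
    obtain ⟨D', hD'1, Q', hQ'1, MD, hDD'⟩ := hD t (s + 1) L hs2 hst δ hδ0
    have hDD : ∀ M : ℕ, MD ≤ M → ∀ R : ℝ[X], R.natDegree ≤ t →
        ∀ l : Fin t → ℤ, (∀ i, |l i| ≤ (L : ℤ)) → ¬ Low (s + 1) l →
        δ * M ≤ ‖∑ k ∈ Icc 1 M, ee (∑ i, (l i : ℝ) * tv t R (k : ℝ) i)‖ →
        Near t s D' Q' M R := by
      intro M hM R hR l hl1 hl2 hl3
      have := hDD' M hM R hR l hl1 hl2 hl3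
      rwa [Nat.add_sub_cancel] at this
    obtain ⟨Q'', hQ''⟩ : ∃ Q'' : ℝ, Q'' = Q' * (2 * e) ^ t := ⟨_, rfl⟩
    have hQ''1 : 1 ≤ Q'' := by
      rw [hQ'']
      have : (1 : ℝ) ≤ (2 * e) ^ t := one_le_pow₀ (by linarith)
      nlinarith
    -- the induction hypothesis
    obtain ⟨HI, hHI⟩ := ih (by omega) D' Q'' (ε / 2) hD'1 hQ''1 (by positivity)
    obtain ⟨HF, hFF⟩ := hF t (s + 1) D l hs1 hst hD1 hl1 Q c hQ1 hc hc1
    obtain ⟨Y, hY⟩ : ∃ Y : ℝ, Y = (t + 1) * 2 ^ (2 * t) * Q := ⟨_, rfl⟩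
    have hY0 : 0 ≤ Y := by rw [hY]; positivity
    refine ⟨HI + HF + e * (ME + MD + 1) + l + 2 + ⌈K / ρ'⌉₊ + ⌈Y / ρ'⌉₊, fun H N hH hHN => ?_⟩
    obtain ⟨M, hM⟩ : ∃ M : ℕ, M = H / e := ⟨_, rfl⟩
    have hMe : ME + MD + 1 ≤ M := by
      rw [hM, Nat.le_div_iff_mul_le (by omega)]
      calc (ME + MD + 1) * e = e * (ME + MD + 1) := by ring
        _ ≤ H := by omega
    have hMH : M ≤ H := by rw [hM]; exact Nat.div_le_self _ _
    have hHM : H ≤ 2 * e * M := by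
      have h4 : H < e * (H / e) + e := by
        have := Nat.lt_mul_div_succ H (show 0 < e by omega)
        rw [mul_add, mul_one] at this
        exact this
      rw [← hM] at h4
      have h5 : e ≤ e * M := Nat.le_mul_of_pos_right _ (by omega)
      calc H ≤ e * M + e := h4.le
        _ ≤ e * M + e * M := by omega
        _ = 2 * e * M := by ring
    have hH1 : 1 ≤ H := by omega
    have hH0 : (0 : ℝ) < H := by exact_mod_cast hH1
    have hM0 : (0 : ℝ) < M := by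
      have : 0 < M := by omega
      exact_mod_cast this
    have hMHr : (M : ℝ) ≤ H := by exact_mod_cast hMH
    have hKH : K / H ≤ ρ' := by
      rw [div_le_iff₀ hH0]
      have h4 : K / ρ' ≤ H := (Nat.le_ceil _).trans (by exact_mod_cast (by omega : ⌈K / ρ'⌉₊ ≤ H))
      rw [div_le_iff₀ hρ'] at h4
      linarith
    have hYH : Y / H ≤ ρ' := by
      rw [div_le_iff₀ hH0]
      have h4 : Y / ρ' ≤ H := (Nat.le_ceil _).trans (by exact_mod_cast (by omega : ⌈Y / ρ'⌉₊ ≤ H))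
      rw [div_le_iff₀ hρ'] at h4
      linarith
    -- the cases
    have hcases : ∀ m, ClK t (s + 1) D B F Q c c₄ e K H m →
        ClK t s D' B F Q'' c c₄ e K H m ∨
        (H ≤ m ∧ c / 2 * H * l ≤ D * ∑ y ∈ Icc 1 H, FFK F (s + 1) T ρ₄ l (m + y)) := by
      rintro m ⟨hHm, R, hR, hNear, ⟨u, hu, hcor⟩, hcard⟩
      by_cases hex : ∃ l ∈ Λ, ¬ Low (s + 1) l ∧
          δ * M ≤ ‖∑ k ∈ Icc 1 M, ee (∑ i, (l i : ℝ) * tv t R (k : ℝ) i)‖
      · obtain ⟨l', hl'Λ, hl'low, hl'⟩ := hex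
        have hnear := hDD M (by omega) R hR l' (hL l' hl'Λ) hl'low hl'
        left
        refine ⟨hHm, R, hR, ?_, ⟨u, hu, hcor⟩, hcard⟩
        rw [hQ'']
        exact near_scale (by omega) he hHM hH1 (by linarith) hnear
      · right
        push Not at hex
        refine ⟨hHm, ?_⟩
        have hup : ∀ k ∈ Icc 1 M, ∀ i : Fin t, s + 1 ≤ i.val →
            ∃ z : ℤ, |tv t R ((k : ℕ) : ℝ) i - (z : ℝ) / D| ≤ ρ' := by
          intro k hk i hi
          rw [mem_Icc] at hk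
          have hi2 := i.isLt
          obtain ⟨z, hz⟩ := upper_near (k := k) hD1 hQ0 hH1 hNear hR (j := i.val + 1) (by omega)
            (by omega) (hk.2.trans hMH)
          refine ⟨z, hz.trans ?_⟩
          rw [← hY]
          exact hYH
        have heq := equi_step B Λ w ρ' ρ κ δ T hκ0.le h0 h1 h2 h3 M
          (fun k => tv t R ((k : ℕ) : ℝ)) hup (fun l' hl' hlow => (hex l' hl' hlow).le) hδ0.le hWδ
        -- the number of good points
        have hcard2 : c₄ * H ≤ #{k ∈ Icc 1 M | tv t R ((k : ℕ) : ℝ) ∈ Nb B ρ'} := by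
          refine hcard.trans ?_
          have h4 : Nat.card {k : ℕ // k ∈ Icc 1 (H / e) ∧ tv t R (k : ℝ) ∈ Nb B (K / H)} =
              #{k ∈ Icc 1 M | tv t R ((k : ℕ) : ℝ) ∈ Nb B (K / H)} := by
            rw [← hM]
            have h40 : (fun k : ℕ => k ∈ Icc 1 M ∧ tv t R (k : ℝ) ∈ Nb B (K / H)) =
                fun k : ℕ => k ∈ {k ∈ Icc 1 M | tv t R ((k : ℕ) : ℝ) ∈ Nb B (K / H)} := by
              funext k
              rw [mem_filter]
            rw [show {k : ℕ // k ∈ Icc 1 M ∧ tv t R (k : ℝ) ∈ Nb B (K / H)} =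
              {k : ℕ // k ∈ {k ∈ Icc 1 M | tv t R ((k : ℕ) : ℝ) ∈ Nb B (K / H)}} from
                congrArg Subtype h40, Nat.card_eq_fintype_card, Fintype.card_coe]
          rw [h4]
          have h5 : {k ∈ Icc 1 M | tv t R ((k : ℕ) : ℝ) ∈ Nb B (K / H)} ⊆
              {k ∈ Icc 1 M | tv t R ((k : ℕ) : ℝ) ∈ Nb B ρ'} := by
            intro k hk
            rw [mem_filter] at hk ⊢
            refine ⟨hk.1, ?_⟩
            obtain ⟨β, hβ, hk2⟩ := hk.2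
            exact ⟨β, hβ, fun i => (hk2 i).trans hKH⟩
          exact_mod_cast card_le_card h5
        have hmany : c₄ / 4 * M ≤ #{k ∈ Icc 1 M | ∃ i : Fin t, i.val + 1 = s + 1 ∧
            ∃ x ∈ T, |tv t R ((k : ℕ) : ℝ) i - x| ≤ ρ} := by
          have h6 := hcard2.trans heq
          have h7 : 2 * κ * M ≤ 2 * (c₄ / 4) * H := by gcongr
          have h8 : c₄ / 4 * M ≤ c₄ / 4 * H := by gcongr
          linarith
        exact terminalK hCls hst hD1 he hTinv hQ0 hρ₃0.le hρρ (by omega) hMH hHM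
          (fun g hg1 hg2 hg3 => hEE M (by omega) g hg1 hg2 (hg3.trans (by
            have : {k ∈ Icc 1 M | ∃ x ∈ T, |g.eval ((k : ℕ) : ℝ) - x| ≤ ρ} ⊆
                {k ∈ Icc 1 M | ∃ x ∈ T, |g.eval ((k : ℕ) : ℝ) - x| ≤ ρE} := by
              intro k hk
              rw [mem_filter] at hk ⊢
              obtain ⟨hk1, x, hx, hxk⟩ := hk
              exact ⟨hk1, x, hx, hxk.trans hρρE⟩
            exact_mod_cast card_le_card this)))
          (by positivity) (hFF H (by omega)) hR hNear hu hcor hmany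
    -- the sum
    have hterm := term_density (D := D) (l := l) hH1 hHN (by omega) hl1
      (fun n => FFK F (s + 1) T ρ₄ l n) (fun n => FFK_nonneg _ _ _ _ _ _) hc hε₂0.le
      (hSl l (2 * N) hll (by omega))
    have hε₂' : 8 * D / c * ε₂ = ε / 2 := by
      rw [hε₂]; field_simp; ring
    rw [hε₂'] at hterm
    have hlogN : 0 ≤ Real.log N := Real.log_natCast_nonneg _
    calc ∑ m ∈ Icc 1 N with ClK t (s + 1) D B F Q c c₄ e K H m, (1 / (m : ℝ))
        ≤ ∑ m ∈ ((Icc 1 N).filter fun m => ClK t s D' B F Q'' c c₄ e K H m) ∪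
            (Icc 1 N).filter (fun m => H ≤ m ∧
              c / 2 * H * l ≤ D * ∑ y ∈ Icc 1 H, FFK F (s + 1) T ρ₄ l (m + y)), (1 / (m : ℝ)) := by
          apply sum_le_sum_of_subset_of_nonneg
          · intro m hm
            rw [mem_filter] at hm
            rw [mem_union, mem_filter, mem_filter]
            rcases hcases m hm.2 with h | h
            · left; exact ⟨hm.1, h⟩
            · right; exact ⟨hm.1, h⟩
          · intro m _ _
            positivity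
      _ ≤ ∑ m ∈ (Icc 1 N).filter (fun m => ClK t s D' B F Q'' c c₄ e K H m), (1 / (m : ℝ)) +
          ∑ m ∈ (Icc 1 N).filter (fun m => H ≤ m ∧
              c / 2 * H * l ≤ D * ∑ y ∈ Icc 1 H, FFK F (s + 1) T ρ₄ l (m + y)), (1 / (m : ℝ)) := by
          rw [← sum_union_inter]
          have : 0 ≤ ∑ m ∈ ((Icc 1 N).filter fun m => ClK t s D' B F Q'' c c₄ e K H m) ∩
            (Icc 1 N).filter (fun m => H ≤ m ∧
              c / 2 * H * l ≤ D * ∑ y ∈ Icc 1 H, FFK F (s + 1) T ρ₄ l (m + y)), (1 / (m : ℝ)) :=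
            sum_nonneg fun m _ => by positivity
          linarith
      _ ≤ ε / 2 * Real.log N + ε / 2 * Real.log N := by
          apply add_le_add _ hterm
          have h9 := hHI H N (by omega) hHN
          refine le_trans (le_of_eq ?_) h9
          congr 1
      _ = ε * Real.log N := by ring

end Pool.Agent.TUK
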