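import Mathlib
import Pool.Agent.Lib.TU.HKat
import Pool.Agent.Lib.TUK.HRatK

/-!
# The Moebius function and twisted polynomial phases without rational points (helper31)
-/

set_option autoImplicit false
open Finset Polynomial

namespace Pool.Agent.TU.HxK

open Pool.Agent.Lib.MP_663568_nt Pool.Agent.Lib.MP_663568_nt.Katai
  Pool.Agent.Lib.MP_663568_nt.Nul Pool.Agent.TU Pool.Agent.TU.Hx

/-- The coefficients after a shift by `n ≤ T X`. -/
lemma shift_fwd (t k₀ : ℕ) (P : ℝ[X]) (hP : P.natDegree ≤ t) (n X Q T : ℕ) (hX : 1 ≤ X)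
    (hT : 1 ≤ T) (hn : n ≤ T * X) (Y : ℝ) (hY : 0 ≤ Y)
    (h : ∀ i, k₀ < i → i ≤ t → nd ((Q : ℝ) * P.coeff i) ≤ Y / (X : ℝ) ^ i)
    (i : ℕ) (hi : k₀ < i) (hit : i ≤ t) :
    nd ((Q : ℝ) * (taylor (n : ℝ) P).coeff i) ≤ (t + 1) * (2 * T) ^ t * Y / (X : ℝ) ^ i := by
  have hX0 : (0 : ℝ) < X := by exact_mod_cast hX
  have hT0 : (1 : ℝ) ≤ T := by exact_mod_cast hT
  have h1 := coeff_shift_split P t hP (n : ℝ) i hit
  rw [taylor_apply]
  have h2 : (Q : ℝ) * (P.comp (Polynomial.X + C (n : ℝ))).coeff i = (Q : ℝ) * P.coeff i +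
      ∑ k ∈ Ioc i t, ((((n : ℤ) ^ (k - i) * (k.choose i : ℤ) : ℤ) : ℝ) * ((Q : ℝ) * P.coeff k)) := by
    rw [h1, mul_add, mul_sum]
    congr 1
    refine sum_congr rfl fun k _ => ?_
    push_cast
    ring
  rw [h2]
  refine (nd_add_le _ _).trans ?_
  have h3 : ∀ k ∈ Ioc i t, nd ((((n : ℤ) ^ (k - i) * (k.choose i : ℤ) : ℤ) : ℝ) *
      ((Q : ℝ) * P.coeff k)) ≤ (2 * T) ^ t * Y / (X : ℝ) ^ i := by
    intro k hk
    rw [mem_Ioc] at hk
    refine (nd_int_mul_le _ _).trans ?_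
    have h4 : |(((n : ℤ) ^ (k - i) * (k.choose i : ℤ) : ℤ) : ℝ)| ≤
        (T * X : ℝ) ^ (k - i) * 2 ^ t := by
      push_cast
      rw [abs_mul, abs_pow, Nat.abs_cast, Nat.abs_cast]
      have h7 : (k.choose i : ℝ) ≤ 2 ^ t := by
        have h8 : k.choose i ≤ 2 ^ t := (Nat.choose_le_two_pow k i).trans
          (Nat.pow_le_pow_right (by norm_num) hk.2)
        exact_mod_cast h8
      have h9 : (n : ℝ) ^ (k - i) ≤ (T * X : ℝ) ^ (k - i) :=
        pow_le_pow_left₀ (Nat.cast_nonneg _) (by exact_mod_cast hn) _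
      exact mul_le_mul h9 h7 (Nat.cast_nonneg _) (by positivity)
    have h5 := h k (by omega) hk.2
    have h10 : (T : ℝ) ^ (k - i) ≤ (T : ℝ) ^ t := pow_le_pow_right₀ hT0 (by omega)
    calc _ ≤ ((T * X : ℝ) ^ (k - i) * 2 ^ t) * (Y / (X : ℝ) ^ k) := by
          gcongr
          exact nd_nonneg _
      _ = 2 ^ t * (T : ℝ) ^ (k - i) * Y / (X : ℝ) ^ i := by
          have : (X : ℝ) ^ k = (X : ℝ) ^ (k - i) * (X : ℝ) ^ i := by
            rw [← pow_add]; congr 1; omega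
          rw [this, mul_pow]; field_simp
      _ ≤ 2 ^ t * (T : ℝ) ^ t * Y / (X : ℝ) ^ i := by gcongr
      _ = _ := by rw [mul_pow]
  refine (add_le_add (h i hi hit) ((nd_sum_le _ _).trans (sum_le_sum h3))).trans ?_
  rw [sum_const, Nat.card_Ioc, nsmul_eq_mul]
  have h6 : Y / (X : ℝ) ^ i ≤ (2 * T) ^ t * Y / (X : ℝ) ^ i := by
    gcongr
    have : (1 : ℝ) ≤ (2 * (T : ℝ)) ^ t := one_le_pow₀ (by linarith)
    nlinarith
  have h7 : ((t - i : ℕ) : ℝ) ≤ t := by exact_mod_cast Nat.sub_le _ _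
  have h8 : 0 ≤ (2 * (T : ℝ)) ^ t * Y / (X : ℝ) ^ i := by positivity
  calc Y / (X : ℝ) ^ i + ((t - i : ℕ) : ℝ) * ((2 * T) ^ t * Y / (X : ℝ) ^ i) ≤
      (2 * T) ^ t * Y / (X : ℝ) ^ i + (t : ℝ) * ((2 * T) ^ t * Y / (X : ℝ) ^ i) := by gcongr
    _ = _ := by ring

lemma continuous_nd : Continuous nd := by
  have h : ∀ x y : ℝ, dist (nd x) (nd y) ≤ dist x y := by
    intro x y
    rw [Real.dist_eq, Real.dist_eq, abs_le]
    have h1 := nd_le_add_abs x y
    have h2 := nd_le_add_abs y x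
    rw [abs_sub_comm y x] at h2
    constructor <;> linarith
  exact (LipschitzWith.of_dist_le_mul (K := 1) (by simpa using h)).continuous

/-- A closed periodic set without points whose last coordinates are rational keeps away from these
points. -/
lemma away {t : ℕ} (k : ℕ) (B : Set (Fin t → ℝ)) (hB : IsClosed B) (hP : Per B)
    (hR : ∀ α ∈ B, ∃ i : Fin t, k ≤ i.val ∧ Irrational (α i)) (Q : ℕ) :
    ∃ δ : ℝ, 0 < δ ∧ ∀ α ∈ B, ∀ q : ℕ, 1 ≤ q → q ≤ Q → ∃ i : Fin t, k ≤ i.val ∧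
      δ ≤ nd ((q : ℝ) * α i) := by
  classical
  -- one denominator
  have h1 : ∀ q : ℕ, 1 ≤ q → ∃ δ : ℝ, 0 < δ ∧ ∀ α ∈ B, ∃ i : Fin t, k ≤ i.val ∧
      δ ≤ nd ((q : ℝ) * α i) := by
    intro q hq
    set φ : (Fin t → ℝ) → ℝ := fun α => ∑ i : Fin t, if k ≤ i.val then nd ((q : ℝ) * α i) else 0
      with hφ
    have hcont : Continuous φ := by
      refine continuous_finsetSum _ fun i _ => ?_
      split_ifs
      · exact continuous_nd.comp (by fun_prop)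
      · exact continuous_const
    have hcomp : IsCompact (B ∩ Set.Icc (0 : Fin t → ℝ) 1) :=
      isCompact_Icc.inter_left hB
    have hpos : ∀ α ∈ B, 0 < φ α := by
      intro α hα
      obtain ⟨i, hi, hirr⟩ := hR α hα
      refine Finset.sum_pos' (fun i _ => ?_) ⟨i, mem_univ _, ?_⟩
      · split_ifs
        · exact nd_nonneg _
        · exact le_rfl
      · rw [if_pos hi]
        exact nd_irrational_pos (hirr.natCast_mul (by omega))
    have hred : ∀ α ∈ B, ∃ α' ∈ B ∩ Set.Icc (0 : Fin t → ℝ) 1, φ α' = φ α := by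
      intro α hα
      refine ⟨fun i => α i + ((-⌊α i⌋ : ℤ) : ℝ), ⟨hP α hα _, ?_, ?_⟩, ?_⟩
      · intro i
        have := Int.floor_le (α i)
        simp only [Pi.zero_apply]
        push_cast; linarith
      · intro i
        have := Int.lt_floor_add_one (α i)
        simp only [Pi.one_apply]
        push_cast; linarith
      · simp only [hφ]
        refine Finset.sum_congr rfl fun i _ => ?_
        split_ifs
        · have e : (q : ℝ) * (α i + ((-⌊α i⌋ : ℤ) : ℝ)) = (q : ℝ) * α i + (((q : ℤ) * -⌊α i⌋ : ℤ) : ℝ) := by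
            push_cast; ring
          rw [e, nd_add_int]
        · rfl
    rcases (B ∩ Set.Icc (0 : Fin t → ℝ) 1).eq_empty_or_nonempty with he | hne
    · refine ⟨1, one_pos, fun α hα => ?_⟩
      obtain ⟨α', hα', -⟩ := hred α hα
      rw [he] at hα'
      exact absurd hα' (Set.notMem_empty _)
    · obtain ⟨α₀, hα₀, hmin⟩ := hcomp.exists_isMinOn hne hcont.continuousOn
      have hm := hpos α₀ hα₀.1
      refine ⟨φ α₀ / (t + 1), by positivity, fun α hα => ?_⟩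
      obtain ⟨α', hα', he⟩ := hred α hα
      have h2 : φ α₀ ≤ φ α := by rw [← he]; exact hmin hα'
      by_contra hcon
      push Not at hcon
      have h3 : φ α ≤ ∑ i : Fin t, φ α₀ / (t + 1) := by
        refine Finset.sum_le_sum fun i _ => ?_
        split_ifs with h
        · exact (hcon i h).le
        · positivity
      rw [sum_const, card_univ, Fintype.card_fin, nsmul_eq_mul] at h3
      have h4 : (t : ℝ) * (φ α₀ / (t + 1)) < φ α₀ := by
        rw [mul_div_assoc', div_lt_iff₀ (by positivity)]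
        nlinarith
      linarith
  choose! δ hδ0 hδ using h1
  refine ⟨∏ q ∈ Icc 1 Q, min 1 (δ q), prod_pos fun q hq => lt_min one_pos (hδ0 q (mem_Icc.1 hq).1),
    fun α hα q hq1 hq2 => ?_⟩
  obtain ⟨i, hi, h⟩ := hδ q hq1 α hα
  refine ⟨i, hi, le_trans ?_ h⟩
  rw [← mul_prod_erase _ _ (mem_Icc.2 ⟨hq1, hq2⟩)]
  calc min 1 (δ q) * ∏ x ∈ (Icc 1 Q).erase q, min 1 (δ x) ≤ min 1 (δ q) * 1 := by
        refine mul_le_mul_of_nonneg_left (prod_le_one (fun x hx => ?_) fun x _ => min_le_left _ _)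
          (lt_min one_pos (hδ0 q hq1)).le
        rw [mem_erase, mem_Icc] at hx
        exact (lt_min one_pos (hδ0 x hx.2.1)).le
    _ ≤ δ q := by rw [mul_one]; exact min_le_right _ _

/-- **Row H for twisted phases.** -/
theorem core (t k : ℕ) (W U : Set (ℕ → ℂ)) (hW : Weyl t k W) (hU : ∀ u ∈ U, ∀ n, ‖u n‖ ≤ 1)
    (hUW : ∀ u ∈ U, ∀ p q j : ℕ,
      (fun l => u (p * (j + l)) * (starRingEnd ℂ) (u (q * (j + l)))) ∈ W)
    (B : Set (Fin t → ℝ)) (hB : IsClosed B) (hP : Per B)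
    (hR : ∀ α ∈ B, ∃ i : Fin t, k ≤ i.val ∧ Irrational (α i)) (T : ℕ) (ε : ℝ) (hε : 0 < ε) :
    ∃ X₀ : ℕ, ∀ X : ℕ, X₀ ≤ X → ∀ P : ℝ[X], P.natDegree ≤ t → ∀ n : ℕ, n ≤ T * X →
      tv t P (n : ℝ) ∈ B → ∀ u ∈ U,
      ‖∑ x ∈ Icc 1 X, muC x * (ee (P.eval (x : ℝ)) * u x)‖ ≤ ε * X := by
  obtain ⟨Pr, hPr, η, hη, hη1, X₁, hX₁1, hX₁⟩ := katai ε hε
  obtain ⟨Z, hZ⟩ : ∃ Z : ℕ, ∀ p ∈ Pr, p ≤ Z := ⟨Pr.sup id, fun p hp => le_sup (f := id) hp⟩
  obtain ⟨Bd, K, X₂, hK, hX₂1, hX₂⟩ := rat t k W hW Z η hη hη1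
  obtain ⟨δ, hδ, haway⟩ := away k B hB hP hR Bd
  obtain ⟨Y, hY⟩ : ∃ Y : ℝ, Y = (t + 1) * (2 * ((T + 1 : ℕ) : ℝ)) ^ t * K := ⟨_, rfl⟩
  have hY0 : 0 ≤ Y := by rw [hY]; positivity
  refine ⟨X₁ + X₂ + ⌈Y / δ⌉₊ + 1, fun X hX P hPd n hn htv u hu => ?_⟩
  by_contra hcon
  push Not at hcon
  have hX0 : (1 : ℝ) ≤ X := by exact_mod_cast (by omega : 1 ≤ X)
  obtain ⟨p, hp, q, hq, hpq, j, L, hj, hL, hS⟩ := hX₁ X (by omega)
    (fun x => ee (P.eval (x : ℝ)) * u x) (fun n => by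
      rw [norm_mul]
      exact mul_le_one₀ (norm_ee _).le (norm_nonneg _) (hU u hu n)) hcon
  obtain ⟨b, hb1, hbB, hb⟩ := hX₂ X (by omega) P hPd p q hpq (hZ p hp) (hZ q hq) j L hj hL _
    (hUW u hu p q j) (by
      refine hS.trans (le_of_eq ?_)
      congr 1
      refine sum_congr rfl fun l _ => ?_
      simp only [map_mul]
      ring)
  obtain ⟨i, hik, hi⟩ := haway _ htv b hb1 hbB
  have h1 := shift_fwd t k P hPd n X b (T + 1) (by omega) (by omega) (by nlinarith) K hK hb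
    (i.val + 1) (by omega) (by omega)
  rw [← hY] at h1
  have h2 : Y / (X : ℝ) ^ (i.val + 1) ≤ Y / X := by
    gcongr
    exact le_self_pow₀ hX0 (by omega)
  have h3 : Y / X < δ := by
    rw [div_lt_iff₀ (by linarith)]
    have h4 : Y / δ < X := by
      refine lt_of_le_of_lt (Nat.le_ceil _) ?_
      exact_mod_cast (by omega : ⌈Y / δ⌉₊ < X)
    rw [div_lt_iff₀ hδ] at h4
    linarith
  have h5 : tv t P (n : ℝ) i = (taylor (n : ℝ) P).coeff (i.val + 1) := rfl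
  rw [h5] at hi
  linarith

end Pool.Agent.TU.HxK
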