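import Mathlib
import Pool.Agent.Lib.TUK.Defs
import Pool.Agent.Lib.TUK.HK

/-!
# Row NR of the nilsequence version of Theorem U: no almost rational points (helper31)
-/

set_option autoImplicit false
open Finset Polynomial MeasureTheory

namespace Pool.Agent.TUK

open Pool.Agent.Lib.MP_663568_nt Pool.Agent.Lib.MP_663568_nt.Katai
  Pool.Agent.Lib.MP_663568_nt.Nul Pool.Agent.TU Pool.Agent.TU.HxK

/-- No point of `B` has rational coordinates of degree greater than `k`. -/
lemma no_rat {k t : ℕ} {B : Set (Fin t → ℝ)} (hk : 1 ≤ k) (hkt : k < t) (hfree : Free k B)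
    (hnull : NullSec B) : ∀ α ∈ B, ∃ i : Fin t, k ≤ i.val ∧ Irrational (α i) := by
  classical
  intro α hα
  by_contra hcon
  push Not at hcon
  have h1 : ∀ i : Fin t, ∃ r : ℚ, k ≤ i.val → (r : ℝ) = α i := by
    intro i
    by_cases hi : k ≤ i.val
    · have h2 := hcon i hi
      rw [Irrational, not_not] at h2
      obtain ⟨r, hr⟩ := h2
      exact ⟨r, fun _ => hr⟩
    · exact ⟨0, fun h => absurd h hi⟩
  choose r hr using h1
  have h3 : {y : Fin 1 → ℝ | glue 1 y (fun i => ((r i : ℚ) : ℝ)) ∈ B} = Set.univ := by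
    ext y
    simp only [Set.mem_setOf_eq, Set.mem_univ, iff_true]
    refine hfree α hα _ fun i hi => ?_
    rw [glue, dif_neg (by omega)]
    exact hr i hi
  have h4 := hnull 1 le_rfl (by omega) r
  rw [h3] at h4
  simp at h4

/-- **Row NR.** -/
theorem rowNR : NR_stmt := by
  intro k t B hk hkt hB hP hfree hnull D hD
  obtain ⟨δ, hδ, haway⟩ := away k B hB hP (no_rat hk hkt hfree hnull) D
  have hD0 : (0 : ℝ) ≤ D := Nat.cast_nonneg _
  refine ⟨δ / (2 * (D + 1)), by positivity, ?_⟩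
  rintro α ⟨β, hβ, hαβ⟩ hcon
  obtain ⟨i, hi, hle⟩ := haway β hβ D hD le_rfl
  have h1 := nd_le_add_abs ((D : ℝ) * β i) ((D : ℝ) * α i)
  have h2 : |(D : ℝ) * β i - (D : ℝ) * α i| ≤ D * (δ / (2 * (D + 1))) := by
    rw [← mul_sub, abs_mul, Nat.abs_cast, abs_sub_comm]
    exact mul_le_mul_of_nonneg_left (hαβ i) hD0
  have h3 := hcon i hi
  have h4 : δ / (2 * (D + 1)) + D * (δ / (2 * (D + 1))) = δ / 2 := by field_simp; ring
  linarith

end Pool.Agent.TUK
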