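import Mathlib
import Pool.Agent.Lib.TUK.NR
import Pool.Agent.Lib.TUK.AK3
import Pool.Agent.Lib.TU.Z

/-!
# Row HK of the nilsequence version of Theorem U: the beginning of the sum (helper31)
-/

set_option autoImplicit false
open Finset Polynomial MeasureTheory

namespace Pool.Agent.TUK

open Pool.Agent.Lib.MP_663568_nt Pool.Agent.Lib.MP_663568_nt.Katai
  Pool.Agent.Lib.MP_663568_nt.Nul Pool.Agent.TU Pool.Agent.TU.HxK

/-- The Taylor coefficients of the shifted phase. -/
lemma tv_shp {t : ℕ} (α : Fin t → ℝ) (n : ℝ) : tv t (ZZ.shp α n) n = α := by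
  classical
  funext i
  unfold tv ZZ.shp
  rw [map_sum, finsetSum_coeff]
  have h : ∀ j : Fin t, (taylor n (C (α j) * (X - C n) ^ (j.val + 1))).coeff (i.val + 1) =
      if j = i then α i else 0 := by
    intro j
    have e : taylor n (C (α j) * (X - C n) ^ (j.val + 1)) = C (α j) * X ^ (j.val + 1) := by
      rw [taylor_mul, taylor_C, taylor_pow, map_sub, taylor_X, taylor_C]
      ring
    rw [e, coeff_C_mul, coeff_X_pow]
    by_cases hji : j = i
    · subst hji
      simp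
    · rw [if_neg (by
        intro h
        exact hji (Fin.ext (by omega))), if_neg hji, mul_zero]
  rw [sum_congr rfl fun j _ => h j]
  simp

/-- **Row HK.** -/
theorem rowHK (hA : AK_stmt) : HK_stmt := by
  intro k F hk hF hD t hkt B hB hP hfree hnull c hc
  have hW : Weyl t k (WW F) := by
    intro ρ hρ
    obtain ⟨Q, hQ, M₀, hM₀⟩ := hA k F hF hD t ρ hρ
    refine ⟨Q, M₀, hQ, ?_⟩
    rintro M hM P hP w ⟨u, hu, v, hv, rfl⟩ hS
    exact hM₀ M hM P hP u hu v hv (by rw [WW_sum]; exact hS)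
  obtain ⟨X₀, hX⟩ := core t k (WW F) F hW hF.bdd (fun u hu p q j => by
    refine ⟨fun l => u (p * j + p * l), hF.prog hu (p * j) p, fun l => u (q * j + q * l),
      hF.prog hu (q * j) q, ?_⟩
    funext l
    rw [mul_add, mul_add]) B hB hP (no_rat hk hkt hfree hnull) 1 (c / 6) (by positivity)
  refine ⟨max X₀ ⌈(X₀ : ℝ) / (c / 6)⌉₊, fun H hHH n hn α hα u hu => ?_⟩
  have hHX : X₀ ≤ H := le_trans (le_max_left _ _) hHH
  have hHc : (X₀ : ℝ) ≤ c / 6 * H := by
    have h1 : (X₀ : ℝ) / (c / 6) ≤ (H : ℝ) :=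
      le_trans (Nat.le_ceil _) (by exact_mod_cast le_trans (le_max_right _ _) hHH)
    rw [div_le_iff₀ (by positivity)] at h1
    linarith
  obtain ⟨v, hv, hvu⟩ := hF.back u hu n
  have htv : tv t (ZZ.shp α (n : ℝ)) (n : ℝ) ∈ B := by rw [tv_shp]; exact hα
  have e : ∑ h ∈ Icc 1 H, muC (n + h) * (u h * ee (ph α (h : ℝ))) =
      ∑ x ∈ Icc 1 (n + H), muC x * (ee ((ZZ.shp α n).eval (x : ℝ)) * v x) -
        ∑ x ∈ Icc 1 n, muC x * (ee ((ZZ.shp α n).eval (x : ℝ)) * v x) := by
    rw [← ZZ.sum_shift (fun x => muC x * (ee ((ZZ.shp α n).eval (x : ℝ)) * v x)) n H]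
    refine Finset.sum_congr rfl fun h _ => ?_
    rw [ZZ.shp_eval, hvu]
    push_cast
    rw [add_sub_cancel_left]
    ring
  have h1 := hX (n + H) (by omega) (ZZ.shp α n) (ZZ.shp_natDegree α n) n (by omega) htv v hv
  have hn' : (n : ℝ) ≤ 2 * H := by exact_mod_cast hn
  have h2 : ‖∑ x ∈ Icc 1 n, muC x * (ee ((ZZ.shp α n).eval (x : ℝ)) * v x)‖ ≤
      c / 6 * H + c / 6 * (2 * H) := by
    by_cases hnX : X₀ ≤ n
    · have := hX n hnX (ZZ.shp α n) (ZZ.shp_natDegree α n) n (by omega) htv v hv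
      have h3 : c / 6 * (n : ℝ) ≤ c / 6 * (2 * H) := by gcongr
      have h4 : 0 ≤ c / 6 * (H : ℝ) := by positivity
      linarith
    · have := ZZ.norm_sum_le_card
        (g := fun x => muC x * (ee ((ZZ.shp α n).eval (x : ℝ)) * v x))
        (fun x => by
          rw [norm_mul, norm_mul]
          exact mul_le_one₀ (norm_muC _) (by positivity)
            (mul_le_one₀ (norm_ee _).le (norm_nonneg _) (hF.bdd v hv x))) n
      have h3 : (n : ℝ) ≤ X₀ := by exact_mod_cast (not_le.1 hnX).le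
      have h4 : 0 ≤ c / 6 * (2 * (H : ℝ)) := by positivity
      linarith
  rw [e]
  refine (norm_sub_le _ _).trans ?_
  push_cast at h1
  have h5 : c / 6 * ((n : ℝ) + H) ≤ c / 6 * (2 * H + H) := by gcongr
  nlinarith

end Pool.Agent.TUK
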