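import Pool.Agent.Lib.TUK.Defs
import Pool.Agent.Lib.TU.Z

/-!
# Theorem U for classes of sequences: the final assembly (row ZK)
-/

set_option autoImplicit false
open Finset Polynomial MeasureTheory

namespace Pool.Agent.TUK

open Pool.Agent.Lib.MP_663568_nt Pool.Agent.Lib.MP_663568_nt.Katai
  Pool.Agent.Lib.MP_663568_nt.Nul Pool.Agent.TU

namespace ZZ

/-- `Sh D B` does not depend on the low coordinates either. -/
theorem free_sh {t k : ℕ} (D : ℕ) {B : Set (Fin t → ℝ)} (h : Free k B) : Free k (Sh D B) := by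
  rintro α ⟨β, hβ, z, hz⟩ α' hα'
  refine ⟨fun i => α' i - (z i : ℝ) / D, h β hβ _ fun i hi => ?_, z, fun i => by ring⟩
  rw [hα' i hi, hz i]
  ring

/-- The supremum in the theorem. -/
noncomputable def S {t : ℕ} (B : Set (Fin t → ℝ)) (F : Set (ℕ → ℂ)) (H n : ℕ) : ℝ :=
  ⨆ p : {p : (Fin t → ℝ) × (ℕ → ℂ) // p.1 ∈ B ∧ p.2 ∈ F},
    ‖∑ h ∈ Icc 1 H, muC (n + h) * (p.1.2 h * ee (ph p.1.1 (h : ℝ)))‖

theorem norm_term_le {F : Set (ℕ → ℂ)} (hF : Cls F) {u : ℕ → ℂ} (hu : u ∈ F) (n m : ℕ) (x : ℝ) :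
    ‖muC n * (u m * ee x)‖ ≤ 1 := by
  rw [norm_mul, norm_mul, norm_ee, mul_one]
  exact mul_le_one₀ (norm_muC n) (norm_nonneg _) (hF.bdd u hu m)

theorem S_le {t : ℕ} (B : Set (Fin t → ℝ)) {F : Set (ℕ → ℂ)} (hF : Cls F) (H n : ℕ) :
    S B F H n ≤ H :=
  Real.iSup_le (fun p => TU.ZZ.norm_sum_le_card
    (g := fun h => muC (n + h) * (p.1.2 h * ee (ph p.1.1 (h : ℝ))))
    (fun _ => norm_term_le hF p.2.2 _ _ _) H) (Nat.cast_nonneg H)

theorem exists_of_lt {t : ℕ} {B : Set (Fin t → ℝ)} {F : Set (ℕ → ℂ)} {H n : ℕ} {c : ℝ}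
    (hc : 0 ≤ c) (h : c < S B F H n) : ∃ α ∈ B, ∃ u ∈ F,
    c < ‖∑ h ∈ Icc 1 H, muC (n + h) * (u h * ee (ph α (h : ℝ)))‖ := by
  by_contra hne
  push Not at hne
  exact absurd (Real.iSup_le (fun p : {p : (Fin t → ℝ) × (ℕ → ℂ) // p.1 ∈ B ∧ p.2 ∈ F} =>
    hne p.1.1 p.2.1 p.1.2 p.2.2) hc) (not_le.2 h)

/-- One window of length `M` with many good points is a cluster. -/
theorem cluster (hB2 : B2K_stmt) {k₀ : ℕ} {F : Set (ℕ → ℂ)} (hF : Cls F)
    (hDu : DualLaw (k₀ + 1) F) {t : ℕ} (ht : k₀ < t) {c c₅ : ℝ} (hc : 0 < c) (hc1 : c ≤ 1)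
    (hc5 : 0 < c₅) : ∃ (D : ℕ) (K c₄ : ℝ) (e : ℕ), 1 ≤ D ∧ 0 < K ∧ 0 < c₄ ∧ 1 ≤ e ∧
    ∃ H₀ : ℕ, ∀ H : ℕ, H₀ ≤ H → 1 ≤ H / e ∧ ∀ B : Set (Fin t → ℝ), Free k₀ B →
      ∀ m : ℕ, H ≤ m →
      ∀ G : Finset ℕ, G ⊆ Icc 1 (H / e) → (∀ k ∈ G, 2 * c * H < S B F H (m + k)) →
      c₅ * (H / e : ℕ) < #G → ClK t t 1 (Sh D B) F 1 c c₄ e K H m := by
  obtain ⟨c₄, hc4, D, hD, K, hK, H₀, hmain⟩ := hB2 k₀ F hF hDu t ht c hc hc1
  set e : ℕ := ⌈2 / c⌉₊ + 1 with he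
  have he1 : 1 ≤ e := by omega
  have he0 : (0 : ℝ) < e := by exact_mod_cast he1
  have hec : 2 / c ≤ (e : ℝ) := by
    rw [he]; push_cast
    linarith [Nat.le_ceil (2 / c)]
  refine ⟨D, K, c₄ * c₅ / (2 * e), e, hD, hK, by positivity, he1, max H₀ (2 * e), ?_⟩
  intro H hH
  have hH0 : H₀ ≤ H := le_trans (le_max_left _ _) hH
  have hHe : 2 * e ≤ H := le_trans (le_max_right _ _) hH
  have hM1 : 1 ≤ H / e := (Nat.one_le_div_iff (by omega)).2 (by omega)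
  have hMle : ((H / e : ℕ) : ℝ) * e ≤ H := by exact_mod_cast Nat.div_mul_le_self H e
  have hMge : (H : ℝ) / (2 * e) ≤ ((H / e : ℕ) : ℝ) := by
    have h1 : H < (H / e + 1) * e := by
      have := Nat.lt_div_mul_add (a := H) (b := e) (by omega)
      nlinarith
    have h2 : (H : ℝ) < (((H / e : ℕ) : ℝ) + 1) * e := by exact_mod_cast h1
    have h3 : (1 : ℝ) ≤ ((H / e : ℕ) : ℝ) := by exact_mod_cast hM1
    rw [div_le_iff₀ (by positivity)]
    nlinarith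
  refine ⟨hM1, fun B hfree m hm G hG hFF hcard => ?_⟩
  have hGne : G.Nonempty := by
    rw [← Finset.card_pos]
    have : (0 : ℝ) < #G := lt_of_le_of_lt (by positivity) hcard
    exact_mod_cast this
  choose! α hαB u huF hα using fun k (hk : k ∈ G) =>
    exists_of_lt (B := B) (by positivity : (0 : ℝ) ≤ 2 * c * H) (hFF k hk)
  choose! v hvF hv using fun k (hk : k ∈ G) => hF.back (u k) (huF k hk) k
  have hwin : ∀ k ∈ G, c * H ≤ ‖∑ y ∈ Icc 1 H, muC (m + y) * (v k y * ee (ph (α k) ((y : ℝ) - (k : ℝ))))‖ := by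
    intro k hk
    have hkM : k ≤ H / e := (Finset.mem_Icc.1 (hG hk)).2
    have hk2 : 2 * (k : ℝ) ≤ c * H := by
      have h1 : (k : ℝ) ≤ ((H / e : ℕ) : ℝ) := by exact_mod_cast hkM
      have h2 : (k : ℝ) * e ≤ H := by nlinarith
      have h3 : 2 ≤ c * e := by
        rw [div_le_iff₀ hc] at hec
        linarith
      have h4 : (0 : ℝ) ≤ k := Nat.cast_nonneg k
      nlinarith
    have h1 := TU.ZZ.shift_le
      (g := fun y => muC (m + y) * (v k y * ee (ph (α k) ((y : ℝ) - (k : ℝ)))))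
      (fun _ => norm_term_le hF (hvF k hk) _ _ _) k H
    have e1 : ∑ h ∈ Icc 1 H, muC (m + (k + h)) *
        (v k (k + h) * ee (ph (α k) (((k + h : ℕ) : ℝ) - (k : ℝ)))) =
        ∑ h ∈ Icc 1 H, muC (m + k + h) * (u k h * ee (ph (α k) (h : ℝ))) := by
      refine Finset.sum_congr rfl fun h _ => ?_
      rw [hv k hk h]
      push_cast
      rw [add_sub_cancel_left, add_assoc]
    have h2 := hα k hk
    rw [← e1] at h2
    have h3 : ‖∑ h ∈ Icc 1 H, muC (m + (k + h)) *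
        (v k (k + h) * ee (ph (α k) (((k + h : ℕ) : ℝ) - (k : ℝ))))‖ ≤
      ‖∑ y ∈ Icc 1 H, muC (m + y) * (v k y * ee (ph (α k) ((y : ℝ) - (k : ℝ))))‖ + 2 * k := h1
    nlinarith
  obtain ⟨w, hw, R, hR, hRc, G', hG', hG'c, hG'N⟩ := hmain H (H / e) hH0 (Nat.div_le_self H e) B
    hfree (fun y => muC (m + y)) (fun _ => norm_muC _) G α v hG hGne hαB hvF hwin
  refine ⟨hm, R, hR, fun j h1 h2 => absurd h1 (not_lt.2 h2), ⟨w, hw, hRc⟩, ?_⟩
  have hcardG' : #G' ≤ Nat.card {k : ℕ // k ∈ Icc 1 (H / e) ∧ tv t R (k : ℝ) ∈ Nb (Sh D B) (K / H)} := by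
    have hfin : Finite {k : ℕ // k ∈ Icc 1 (H / e) ∧ tv t R (k : ℝ) ∈ Nb (Sh D B) (K / H)} :=
      Finite.of_injective
        (fun k => (⟨k.1, k.2.1⟩ : {k : ℕ // k ∈ Icc 1 (H / e)}))
        (fun a b h => Subtype.ext (congrArg (fun x => (x : {k : ℕ // k ∈ Icc 1 (H / e)}).1) h))
    have := Nat.card_le_card_of_injective
      (fun k : {k : ℕ // k ∈ G'} => (⟨k.1, hG (hG' k.2), hG'N k.1 k.2⟩ :
        {k : ℕ // k ∈ Icc 1 (H / e) ∧ tv t R (k : ℝ) ∈ Nb (Sh D B) (K / H)}))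
      (fun a b h => Subtype.ext (congrArg (fun x => (x : {k : ℕ // k ∈ Icc 1 (H / e) ∧
        tv t R (k : ℝ) ∈ Nb (Sh D B) (K / H)}).1) h))
    simpa using this
  have h5 : c₄ * c₅ / (2 * e) * H ≤ c₄ * (c₅ * ((H / e : ℕ) : ℝ)) := by
    have : c₄ * c₅ / (2 * e) * H = c₄ * (c₅ * (H / (2 * e))) := by ring
    rw [this]
    gcongr
  have h6 : c₄ * (c₅ * ((H / e : ℕ) : ℝ)) ≤ c₄ * #G := by gcongr
  have h7 : ((#G' : ℕ) : ℝ) ≤ Nat.card {k : ℕ // k ∈ Icc 1 (H / e) ∧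
      tv t R (k : ℝ) ∈ Nb (Sh D B) (K / H)} := by exact_mod_cast hcardG'
  linarith

end ZZ

open ZZ in
/-- Row ZK. -/
theorem rowZK (hB2 : B2K_stmt) (hB3 : B3_stmt) (hG : GK_stmt) (hH : HK_stmt) : UK_stmt := by
  classical
  intro k₀ F hk hF hDu hSL t B ht hB hP hfree hN ε hε
  set ε₁ : ℝ := min ε 1 with hε1
  have hε1p : 0 < ε₁ := lt_min hε one_pos
  have hε1le : ε₁ ≤ ε := min_le_left _ _
  have hε11 : ε₁ ≤ 1 := min_le_right _ _
  set c : ℝ := ε₁ / 16 with hcd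
  have hc : 0 < c := by positivity
  have hc1 : c ≤ 1 := by rw [hcd]; linarith
  set c₅ : ℝ := ε₁ / 8 with hc5d
  have hc5 : 0 < c₅ := by positivity
  obtain ⟨D, K, c₄, e, hD, hK, hc4, he, H₁, hcl⟩ :=
    cluster hB2 hF hDu ht hc hc1 hc5
  obtain ⟨hShc, hShP, hShN⟩ := hB3 t D hD B hB hP hN
  obtain ⟨H₂, hG2⟩ := hG k₀ F hk hF hSL t (Sh D B) ht hShc hShP (free_sh D hfree) hShN c c₄ e K hc
    hc1 hc4 he hK t ht.le le_rfl 1 1 (ε₁ / 8) le_rfl le_rfl (by positivity)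
  obtain ⟨H₃, hst⟩ := hH k₀ F hk hF hDu t ht B hB hP hfree hN (2 * c) (by positivity)
  refine ⟨max (max H₁ H₂) (max H₃ 3), fun H N hHH hHN => ?_⟩
  have hH1 : H₁ ≤ H := le_trans (le_trans (le_max_left _ _) (le_max_left _ _)) hHH
  have hH2 : H₂ ≤ H := le_trans (le_trans (le_max_right _ _) (le_max_left _ _)) hHH
  have hH3 : H₃ ≤ H := le_trans (le_trans (le_max_left _ _) (le_max_right _ _)) hHH
  have hH4 : 3 ≤ H := le_trans (le_trans (le_max_right _ _) (le_max_right _ _)) hHH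
  obtain ⟨hM1, hcl'⟩ := hcl H hH1
  have hN3 : (3 : ℝ) ≤ N := by exact_mod_cast le_trans hH4 hHN
  have hlog : 1 ≤ Real.log N := by
    rw [Real.le_log_iff_exp_le (by linarith)]
    linarith [Real.exp_one_lt_three]
  have hHp : (0 : ℝ) < H := by
    have : 0 < H := by omega
    exact_mod_cast this
  set W : Finset ℕ := (Icc 1 N).filter (fun n => 2 * c * H < S B F H n) with hWd
  have hW : ∀ n ∈ W, 2 * H < n ∧ n ≤ N := by
    intro n hn
    rw [hWd, Finset.mem_filter, Finset.mem_Icc] at hn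
    refine ⟨?_, hn.1.2⟩
    by_contra hle
    push Not at hle
    obtain ⟨α, hα, u, hu, hlt⟩ := exists_of_lt (by positivity) hn.2
    have := hst H hH3 n hle α hα u hu
    linarith
  -- the density of `W`
  have hden : ∑ n ∈ W, (1 / (n : ℝ)) ≤ c₅ * (1 + Real.log N) + ε₁ / 8 * Real.log N := by
    have hMp : (0 : ℝ) < ((H / e : ℕ) : ℝ) := by exact_mod_cast hM1
    have h1 := TU.ZZ.dcount W N H (H / e) (Nat.div_le_self H e) hW
    have h2 : ∑ m ∈ (Icc 1 N).filter (fun m => H ≤ m),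
        (1 / (m : ℝ)) * #{k ∈ Icc 1 (H / e) | m + k ∈ W} ≤
        ∑ m ∈ Icc 1 N, (1 / (m : ℝ)) * (c₅ * ((H / e : ℕ) : ℝ)) +
        ∑ m ∈ Icc 1 N with ClK t t 1 (Sh D B) F 1 c c₄ e K H m, (1 / (m : ℝ)) * ((H / e : ℕ) : ℝ) := by
      rw [Finset.sum_filter, Finset.sum_filter, ← Finset.sum_add_distrib]
      refine Finset.sum_le_sum fun m hm => ?_
      have hm0 : (0 : ℝ) ≤ 1 / (m : ℝ) := by positivity
      by_cases hHm : H ≤ m
      · rw [if_pos hHm]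
        by_cases hbig : c₅ * ((H / e : ℕ) : ℝ) < #{k ∈ Icc 1 (H / e) | m + k ∈ W}
        · have hC : ClK t t 1 (Sh D B) F 1 c c₄ e K H m := by
            refine hcl' B hfree m hHm _ (Finset.filter_subset _ _) (fun k hk => ?_) hbig
            have := (Finset.mem_filter.1 hk).2
            rw [hWd, Finset.mem_filter] at this
            exact this.2
          rw [if_pos hC]
          have hle : ((#{k ∈ Icc 1 (H / e) | m + k ∈ W} : ℕ) : ℝ) ≤ ((H / e : ℕ) : ℝ) := by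
            have := Finset.card_filter_le (Icc 1 (H / e)) (fun k => m + k ∈ W)
            rw [Nat.card_Icc, Nat.add_sub_cancel] at this
            exact_mod_cast this
          have h3 : 1 / (m : ℝ) * ((#{k ∈ Icc 1 (H / e) | m + k ∈ W} : ℕ) : ℝ) ≤
              1 / (m : ℝ) * ((H / e : ℕ) : ℝ) := by gcongr
          have h4 : 0 ≤ 1 / (m : ℝ) * (c₅ * ((H / e : ℕ) : ℝ)) := by positivity
          linarith
        · push Not at hbig
          have h3 : 1 / (m : ℝ) * ((#{k ∈ Icc 1 (H / e) | m + k ∈ W} : ℕ) : ℝ) ≤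
              1 / (m : ℝ) * (c₅ * ((H / e : ℕ) : ℝ)) := by gcongr
          have h4 : 0 ≤ (if ClK t t 1 (Sh D B) F 1 c c₄ e K H m then
              1 / (m : ℝ) * ((H / e : ℕ) : ℝ) else 0) := by
            split_ifs
            · positivity
            · exact le_rfl
          linarith
      · rw [if_neg hHm]
        have h4 : 0 ≤ (if ClK t t 1 (Sh D B) F 1 c c₄ e K H m then
              1 / (m : ℝ) * ((H / e : ℕ) : ℝ) else 0) := by
            split_ifs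
            · positivity
            · exact le_rfl
        have h5 : 0 ≤ 1 / (m : ℝ) * (c₅ * ((H / e : ℕ) : ℝ)) := by positivity
        linarith
    rw [← Finset.sum_mul, ← Finset.sum_mul] at h2
    have h3 := hG2 H N hH2 hHN
    have h4 := sum_inv_le_log N
    have h5 : ((H / e : ℕ) : ℝ) * ∑ n ∈ W, (1 / (n : ℝ)) ≤
        ((H / e : ℕ) : ℝ) * (c₅ * (1 + Real.log N) + ε₁ / 8 * Real.log N) := by
      refine (h1.trans h2).trans ?_
      have h6 : (∑ m ∈ Icc 1 N, (1 / (m : ℝ))) * (c₅ * ((H / e : ℕ) : ℝ)) ≤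
          (1 + Real.log N) * (c₅ * ((H / e : ℕ) : ℝ)) := by gcongr
      have h7 : (∑ m ∈ Icc 1 N with ClK t t 1 (Sh D B) F 1 c c₄ e K H m, (1 / (m : ℝ))) *
          ((H / e : ℕ) : ℝ) ≤ (ε₁ / 8 * Real.log N) * ((H / e : ℕ) : ℝ) := by gcongr
      nlinarith
    exact le_of_mul_le_mul_left h5 hMp
  -- the whole sum
  have hsplit : ∑ n ∈ Icc 1 N, (1 / (n : ℝ)) * S B F H n ≤
      ∑ n ∈ Icc 1 N, (1 / (n : ℝ)) * (2 * c * H) + ∑ n ∈ W, (1 / (n : ℝ)) * H := by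
    rw [hWd, Finset.sum_filter, ← Finset.sum_add_distrib]
    refine Finset.sum_le_sum fun n _ => ?_
    have hn0 : (0 : ℝ) ≤ 1 / (n : ℝ) := by positivity
    by_cases hb : 2 * c * H < S B F H n
    · rw [if_pos hb]
      have h1 : 1 / (n : ℝ) * S B F H n ≤ 1 / (n : ℝ) * H :=
        mul_le_mul_of_nonneg_left (S_le B hF H n) hn0
      have h2 : 0 ≤ 1 / (n : ℝ) * (2 * c * H) := by positivity
      linarith
    · rw [if_neg hb, add_zero]
      exact mul_le_mul_of_nonneg_left (not_lt.1 hb) hn0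
  rw [← Finset.sum_mul, ← Finset.sum_mul] at hsplit
  have h4 := sum_inv_le_log N
  refine le_trans (show _ ≤ _ from hsplit) ?_
  have h6 : (∑ n ∈ Icc 1 N, (1 / (n : ℝ))) * (2 * c * H) ≤ (1 + Real.log N) * (2 * c * H) := by
    gcongr
  have h7 : (∑ n ∈ W, (1 / (n : ℝ))) * H ≤
      (c₅ * (1 + Real.log N) + ε₁ / 8 * Real.log N) * H := by gcongr
  refine (add_le_add h6 h7).trans ?_
  have h8 : (1 + Real.log N) ≤ 2 * Real.log N := by linarith
  have h9 : (1 + Real.log N) * (2 * c * H) ≤ (2 * Real.log N) * (2 * c * H) := by gcongr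
  have h10 : (c₅ * (1 + Real.log N) + ε₁ / 8 * Real.log N) * H ≤
      (c₅ * (2 * Real.log N) + ε₁ / 8 * Real.log N) * H := by gcongr
  have h11 : ε₁ * H * Real.log N ≤ ε * H * Real.log N := by gcongr
  have h12 : (2 * Real.log N) * (2 * c * H) +
      (c₅ * (2 * Real.log N) + ε₁ / 8 * Real.log N) * H = 5 / 8 * (ε₁ * H * Real.log N) := by
    rw [hcd, hc5d]; ring
  have h13 : 0 ≤ ε₁ * H * Real.log N := by positivity
  linarith

end Pool.Agent.TUK
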