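import Mathlib
import Pool.Agent.Lib.TUK.AK2
import Pool.Agent.Lib.TUK.AK3
import Pool.Agent.Lib.TUK.B2K
import Pool.Agent.Lib.TUK.GK
import Pool.Agent.Lib.TUK.NR
import Pool.Agent.Lib.TUK.RowHK
import Pool.Agent.Lib.TUK.ZK
import Pool.Agent.Lib.TU.Final

/-!
# Theorem U for nilsequences (MP_663568_nt): assembly
-/

set_option autoImplicit false

namespace Pool.Agent.TUK

open Pool.Agent.TU

/-- **Theorem U for a class of sequences.** -/
theorem theoremUK : UK_stmt :=
  rowZK (rowB2K (rowAK rowAK2) rowB1) rowB3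
    (rowGK (C_of rowC1 rowC2 rowC3) (rowD rowA) rowE rowF rowNR)
    (rowHK (rowAK rowAK2))

end Pool.Agent.TUK
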