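import Pool.Agent.Lib.TUK.Defs
import Pool.Agent.Lib.TU.SS
import Pool.Agent.Lib.TU.S2
import Pool.Agent.Lib.MP_663568_nt_h86.Dual

/-!
# TUK, row SK: the law of small sets for the nilsequences of step at most `k` (helper16)
-/

set_option autoImplicit false
open Finset Polynomial MeasureTheory

namespace Pool.Agent.TUK

open Pool.Agent.Lib.MP_663568_nt Pool.Agent.Lib.MP_663568_nt.Katai
  Pool.Agent.Lib.MP_663568_nt.Nul Pool.Agent.TU

namespace SKx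

theorem cls_ns {G : Type} [Group G] (Γ : Subgroup G) (f : G ⧸ Γ → ℂ) (hf1 : ∀ x, ‖f x‖ ≤ 1) :
    Cls (NS Γ f) where
  bdd := by
    rintro u ⟨g, x, hu⟩ m
    rw [hu]
    exact hf1 _
  shift := by
    rintro u ⟨g, x, hu⟩ a
    refine ⟨g, g ^ a * x, fun m => ?_⟩
    beta_reduce
    rw [hu, add_comm a m, pow_add, mul_assoc]
  back := by
    rintro u ⟨g, x, hu⟩ a
    refine ⟨fun m => f (QuotientGroup.mk (g ^ m * ((g ^ a)⁻¹ * x))),
      ⟨g, (g ^ a)⁻¹ * x, fun m => rfl⟩, fun m => ?_⟩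
    beta_reduce
    rw [hu, add_comm a m, pow_add, mul_assoc, mul_inv_cancel_left]
  dil := by
    rintro u ⟨g, x, hu⟩ q
    refine ⟨g ^ q, x, fun m => ?_⟩
    beta_reduce
    rw [hu, pow_mul]

theorem law (G : Type) [Group G] [TopologicalSpace G] [IsTopologicalGroup G]
    (A : ℕ → Subgroup G) (hanti : Antitone A) (hcomm : ∀ i j, ⁅A i, A j⁆ ≤ A (i + j))
    (hA1 : A 1 = ⊤) (Γ : Subgroup G) (hΓ : IsClosed (Γ : Set G))
    (hcpt : ∀ i, ∃ C : Set G, IsCompact C ∧ (∀ c ∈ C, c ∈ A i) ∧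
      ∀ x ∈ A i, ∃ c ∈ C, ∃ γ ∈ Γ, x = c * γ)
    (f : G ⧸ Γ → ℂ) (hf : Continuous f) (hf1 : ∀ x, ‖f x‖ ≤ 1)
    (s : ℕ) (hs : 0 < s) (hAs : A s = ⊥) (T : Set ℝ) (hc : IsClosed T) (h0 : volume T = 0)
    (hp : ∀ x ∈ T, ∀ z : ℤ, x + (z : ℝ) ∈ T) (hi : ∀ x ∈ T, Irrational x) (ε : ℝ) (hε : 0 < ε) :
    ∃ ρ : ℝ, 0 < ρ ∧ ∃ l₀ : ℕ, ∀ l N : ℕ, l₀ ≤ l → l ≤ N →
    ∑ n ∈ Icc 1 N, (1 / (n : ℝ)) * ⨆ p : {p : ℝ[X] × (ℕ → ℂ) // p.1.natDegree ≤ s ∧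
      (∃ x ∈ T, |p.1.coeff s - x| ≤ ρ) ∧ p.2 ∈ NS Γ f},
    ‖∑ h ∈ Icc 1 l, muC (n + h) * (p.1.2 h * ee (p.1.1.eval (h : ℝ)))‖ ≤
      ε * l * Real.log N := by
  obtain ⟨v, c, hv, hcc, C, H₀, hmain⟩ := SS.smallSets G s hs A hanti hcomm hA1 hAs Γ hΓ hcpt
    f hf ε hε
  obtain ⟨R1, hR1, hvol⟩ := S2x.null_nbhd T hc h0 v hv
  obtain ⟨R, hR⟩ : ∃ R : ℝ, R = 2 * R1 := ⟨_, rfl⟩
  have hR1' : 0 < R1 := by linarith
  have hRp : 0 < R := by rw [hR]; linarith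
  obtain ⟨d, hd, hfar⟩ := S2x.far_rat T hc hp hi ⌊(C : ℝ) * R ^ C⌋₊
  obtain ⟨δ, hδ⟩ : ∃ δ : ℝ, δ = min (d / 2) 1 := ⟨_, rfl⟩
  have hδ0 : 0 < δ := by rw [hδ]; exact lt_min (by linarith) one_pos
  obtain ⟨H₁, hH₁⟩ : ∃ H₁ : ℕ, ∀ H : ℕ, H₁ ≤ H → R / δ ≤ (H : ℝ) ^ c := by
    have := (tendsto_rpow_atTop hcc).comp tendsto_natCast_atTop_atTop (α := ℕ)
    exact Filter.eventually_atTop.1 (this.eventually_ge_atTop (R / δ))
  refine ⟨min (1 / R) (d / 2), lt_min (by positivity) (by linarith), max H₀ H₁,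
    fun l N hl hlN => ?_⟩
  set ρ := min (1 / R) (d / 2) with hρ
  have key := hmain muC norm_muC (fun p k hp hk => muC_mul p hp k hk) N l
    ((le_max_left _ _).trans hl) hlN R δ (by rw [hR]; linarith) hδ0
    (by rw [hδ]; exact min_le_right _ _) (hH₁ l ((le_max_right _ _).trans hl))
    (fun _ => {α | ∃ x ∈ T, |α - x| ≤ ρ}) (fun _ => by
      refine le_trans (measure_mono ?_) hvol
      rintro y ⟨hy, α, ⟨x, hx, hxα⟩, b, hb⟩
      refine ⟨hy, x + ((-b : ℤ) : ℝ), hp x hx _, ?_⟩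
      have h1 : |α - x| ≤ 1 / R := hxα.trans (min_le_left _ _)
      have h2 : 1 / R1 = 1 / R + 1 / R := by rw [hR]; field_simp; norm_num
      rw [h2]
      push_cast
      calc |x + -(b : ℝ) - y| = |-(α - x) + (α - y - b)| := by ring_nf
        _ ≤ |-(α - x)| + |α - y - b| := abs_add_le _ _
        _ ≤ _ := by rw [abs_neg]; linarith)
  refine le_trans (sum_le_sum fun n hn => mul_le_mul_of_nonneg_left ?_ (by positivity)) key
  refine Real.iSup_le ?_ (Real.iSup_nonneg fun _ => norm_nonneg _)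
  rintro ⟨⟨P, u⟩, hP, ⟨x, hx, hxP⟩, g, y, hu⟩
  have hmem : ((g, (g ^ n)⁻¹ * y, taylor (-(n : ℝ)) P) : G × G × ℝ[X]) ∈
      SS.Index G s {α | ∃ x ∈ T, |α - x| ≤ ρ} (C * R ^ C) δ := by
    refine ⟨?_, ⟨P.coeff s, ⟨x, hx, hxP⟩, 0, ?_⟩, ?_⟩
    · rw [natDegree_taylor]; exact hP
    · rw [S2x.shift_coeff P s hP]; simp
    · intro q hq1 hq2 b
      simp only [S2x.shift_coeff P s hP]
      have h1 := hfar q hq1 (Nat.le_floor hq2) b x hx
      have h2 : |P.coeff s - x| ≤ d / 2 := hxP.trans (min_le_right _ _)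
      have hq : (1 : ℝ) ≤ q := by exact_mod_cast hq1
      have h3 : d / 2 ≤ |P.coeff s - (b : ℝ) / q| := by
        have := abs_sub_abs_le_abs_sub (x - (b : ℝ) / q) (x - P.coeff s)
        have e1 : x - (b : ℝ) / q - (x - P.coeff s) = P.coeff s - (b : ℝ) / q := by ring
        rw [e1, abs_sub_comm x (P.coeff s)] at this
        linarith
      have h4 : (q : ℝ) * P.coeff s - b = q * (P.coeff s - (b : ℝ) / q) := by
        field_simp
      rw [h4, abs_mul, abs_of_pos (by linarith : (0 : ℝ) < q)]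
      calc δ ≤ d / 2 := by rw [hδ]; exact min_le_left _ _
        _ ≤ |P.coeff s - (b : ℝ) / q| := h3
        _ ≤ _ := le_mul_of_one_le_left (abs_nonneg _) hq
  have hbdd : BddAbove (Set.range fun i : {i : G × G × ℝ[X] //
      i ∈ SS.Index G s {α | ∃ x ∈ T, |α - x| ≤ ρ} (C * R ^ C) δ} =>
        ‖∑ h ∈ Finset.Icc 1 l, f (QuotientGroup.mk (i.1.1 ^ (n + h) * i.1.2.1) : G ⧸ Γ) *
          Complex.exp (2 * Real.pi * Complex.I * ((i.1.2.2.eval ((n + h : ℕ) : ℝ) : ℝ) : ℂ)) *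
              muC (n + h)‖) := by
    refine ⟨l, ?_⟩
    rintro _ ⟨i, rfl⟩
    refine (norm_sum_le _ _).trans ?_
    refine (sum_le_card_nsmul _ _ 1 fun h _ => ?_).trans (by simp)
    rw [norm_mul, norm_mul]
    refine mul_le_one₀ (mul_le_one₀ (hf1 _) (norm_nonneg _) (norm_ee _).le) (norm_nonneg _)
      (norm_muC _)
  refine le_trans (le_of_eq ?_) (le_ciSup hbdd ⟨_, hmem⟩)
  congr 1
  refine sum_congr rfl fun h _ => ?_
  have e1 : g ^ (n + h) * ((g ^ n)⁻¹ * y) = g ^ h * y := by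
    rw [add_comm n h, pow_add, mul_assoc, mul_inv_cancel_left]
  have e2 : (taylor (-(n : ℝ)) P).eval ((n + h : ℕ) : ℝ) = P.eval (h : ℝ) := by
    rw [taylor_eval]
    congr 1
    push_cast
    ring
  change muC (n + h) * (u h * ee (P.eval (h : ℝ))) =
    f (QuotientGroup.mk (g ^ (n + h) * ((g ^ n)⁻¹ * y)) : G ⧸ Γ) *
      ee ((taylor (-(n : ℝ)) P).eval ((n + h : ℕ) : ℝ)) * muC (n + h)
  have e3 : u h = f (QuotientGroup.mk (g ^ h * y)) := hu h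
  rw [e1, e2, e3]
  ring

end SKx

theorem rowSK : SK_stmt := by
  intro G _ _ _ k A hanti hcomm hA1 hAk Γ hΓ hcpt f hf hf1
  refine ⟨SKx.cls_ns Γ f hf1, ?_, ?_⟩
  · intro ε hε
    obtain ⟨M, hM, hD⟩ := Tw.dual_nil A hanti hcomm Γ hcpt hA1 hΓ (k + 1) hAk f hf ε hε
    refine ⟨M, hM, ?_⟩
    rintro u ⟨g, x, hu⟩
    have h1 := hD 1 g x
    have h2 : u = fun m => f ((1 * g ^ m * x : G) : G ⧸ Γ) := by
      funext m
      rw [hu, one_mul]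
    rw [h2]
    exact h1
  · intro hk s hs T hc h0 hp hi ε hε
    have hAs : A s = ⊥ := le_bot_iff.mp (hAk ▸ hanti (Nat.succ_le_of_lt hs))
    exact SKx.law G A hanti hcomm hA1 Γ hΓ hcpt f hf hf1 s (by omega) hAs T hc h0 hp hi ε hε

end Pool.Agent.TUK
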