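import Pool.Agent.Lib.TU.U2
import Pool.Agent.Lib.TUK.Defs

/-!
# Theorem U for a class of sequences: the neighbourhoods of a set (row U2K)
-/

set_option autoImplicit false
open Finset Polynomial MeasureTheory

namespace Pool.Agent.TUK

open Pool.Agent.Lib.MP_663568_nt Pool.Agent.Lib.MP_663568_nt.Katai
  Pool.Agent.Lib.MP_663568_nt.Nul Pool.Agent.TU

namespace U2Kx

/-- A translate of the lattice in the coordinates of degree `> k`. -/
def Lat {t : ℕ} (k : ℕ) (a : Fin t → ℝ) : Set (Fin t → ℝ) :=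
  {x | ∃ z : Fin t → ℤ, ∀ i : Fin t, k ≤ i.val → x i = a i + z i}

theorem lat_closed {t : ℕ} (k : ℕ) (a : Fin t → ℝ) : IsClosed (Lat k a) := by
  have e : Lat k a = ⋂ i : Fin t, ⋂ _ : k ≤ i.val,
      (fun x : Fin t → ℝ => x i - a i) ⁻¹' (Set.range ((↑) : ℤ → ℝ)) := by
    ext x
    simp only [Lat, Set.mem_ofPred_eq, Set.mem_iInter, Set.mem_preimage, Set.mem_range]
    constructor
    · rintro ⟨z, hz⟩ i hi
      exact ⟨z i, by rw [hz i hi]; ring⟩
    · intro h
      have h' : ∀ i : Fin t, ∃ z : ℤ, k ≤ i.val → (z : ℝ) = x i - a i := by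
        intro i
        by_cases hi : k ≤ i.val
        · obtain ⟨z, hz⟩ := h i hi
          exact ⟨z, fun _ => hz⟩
        · exact ⟨0, fun h0 => absurd h0 hi⟩
      choose z hz using h'
      exact ⟨z, fun i hi => by rw [hz i hi]; ring⟩
  rw [e]
  refine isClosed_iInter fun i => isClosed_iInter fun _ => ?_
  exact Int.isClosedEmbedding_coe_real.isClosed_range.preimage
    ((continuous_apply i).sub continuous_const)

theorem lat_add {t k : ℕ} {a x : Fin t → ℝ} (hx : x ∈ Lat k a) (z : Fin t → ℤ) :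
    (fun i => x i + (z i : ℝ)) ∈ Lat k a := by
  obtain ⟨w, hw⟩ := hx
  refine ⟨fun i => w i + z i, fun i hi => ?_⟩
  simp only
  rw [hw i hi]
  push_cast
  ring

theorem lat_free {t : ℕ} (k : ℕ) (a : Fin t → ℝ) : Free k (Lat k a) := by
  rintro x ⟨z, hz⟩ y hy
  exact ⟨z, fun i hi => by rw [hy i hi, hz i hi]⟩

theorem lat_null {s t k : ℕ} (hs : 1 ≤ s) (hst : s ≤ t) (hkt : k < t) (r : Fin t → ℚ)
    (a : Fin t → ℝ) (ha : Irrational (a ⟨t - 1, by omega⟩)) :
    volume {y : Fin s → ℝ | glue s y (fun i => ((r i : ℚ) : ℝ)) ∈ Lat k a} = 0 := by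
  rcases Nat.lt_or_ge s t with hlt | hge
  · have hsub : {y : Fin s → ℝ | glue s y (fun i => ((r i : ℚ) : ℝ)) ∈ Lat k a} = ∅ := by
      rw [Set.eq_empty_iff_forall_notMem]
      rintro y ⟨z, hz⟩
      have h1 := hz ⟨t - 1, by omega⟩ (by simp only; omega)
      have h2 : glue s y (fun i => ((r i : ℚ) : ℝ)) ⟨t - 1, by omega⟩ =
          ((r ⟨t - 1, by omega⟩ : ℚ) : ℝ) := by
        unfold glue
        rw [dif_neg (by simp only; omega)]
      rw [h2] at h1
      refine ha ⟨r ⟨t - 1, by omega⟩ - (z ⟨t - 1, by omega⟩ : ℚ), ?_⟩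
      push_cast
      linarith
    rw [hsub]
    exact measure_empty
  · have hse : s = t := le_antisymm hst hge
    subst hse
    have hsub : {y : Fin s → ℝ | glue s y (fun i => ((r i : ℚ) : ℝ)) ∈ Lat k a} ⊆
        ⋃ z : ℤ, {y : Fin s → ℝ | y ⟨s - 1, by omega⟩ = a ⟨s - 1, by omega⟩ + z} := by
      rintro y ⟨z, hz⟩
      rw [Set.mem_iUnion]
      refine ⟨z ⟨s - 1, by omega⟩, ?_⟩
      have h1 := hz ⟨s - 1, by omega⟩ (by simp only; omega)
      have h2 : glue s y (fun i => ((r i : ℚ) : ℝ)) ⟨s - 1, by omega⟩ =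
          y ⟨s - 1, by omega⟩ := by
        unfold glue
        rw [dif_pos (by simp only; omega)]
      rw [h2] at h1
      exact h1
    refine measure_mono_null hsub (measure_iUnion_null fun z => ?_)
    rw [volume_pi]
    exact Measure.pi_hyperplane _ _ _

theorem nb_free {t k : ℕ} {B : Set (Fin t → ℝ)} (hB : Free k B) {ρ : ℝ} (hρ : 0 ≤ ρ) :
    Free k (Nb B ρ) := by
  rintro x ⟨β, hβ, hb⟩ y hy
  refine ⟨fun i => if k ≤ i.val then β i else y i, hB β hβ _ fun i hi => ?_, fun i => ?_⟩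
  · exact if_pos hi
  · by_cases hi : k ≤ i.val
    · simp only
      rw [if_pos hi, hy i hi]
      exact hb i
    · simp only
      rw [if_neg hi, sub_self, abs_zero]
      exact hρ

theorem nb_nb {t : ℕ} {B : Set (Fin t → ℝ)} {ρ σ : ℝ} {α α' : Fin t → ℝ} (h : α ∈ Nb B ρ)
    (h' : ∀ i, |α' i - α i| ≤ σ) : α' ∈ Nb B (ρ + σ) := by
  obtain ⟨β, hβ, hb⟩ := h
  refine ⟨β, hβ, fun i => ?_⟩
  have e : α' i - β i = (α' i - α i) + (α i - β i) := by ring
  rw [e]
  refine (abs_add_le _ _).trans ?_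
  have := hb i
  have := h' i
  linarith

/-- The supremum of the windows. -/
noncomputable def FK {t : ℕ} (B : Set (Fin t → ℝ)) (F : Set (ℕ → ℂ)) (H n : ℕ) : ℝ :=
  ⨆ p : {p : (Fin t → ℝ) × (ℕ → ℂ) // p.1 ∈ B ∧ p.2 ∈ F},
      ‖∑ h ∈ Icc 1 H, muC (n + h) * (p.1.2 h * ee (ph p.1.1 (h : ℝ)))‖

theorem norm_term_le {u : ℕ → ℂ} (hu : ∀ m, ‖u m‖ ≤ 1) (n h : ℕ) (x : ℝ) :
    ‖muC n * (u h * ee x)‖ ≤ 1 := by
  rw [norm_mul, norm_mul, norm_ee, mul_one]
  have h1 : ‖muC n‖ ≤ 1 := norm_muC n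
  have h2 := hu h
  have h3 := norm_nonneg (u h)
  have h4 := norm_nonneg (muC n)
  nlinarith

theorem exists_of_lt {t : ℕ} {B : Set (Fin t → ℝ)} {F : Set (ℕ → ℂ)} {H n : ℕ} {c : ℝ}
    (hc : 0 ≤ c) (h : c < FK B F H n) :
    ∃ α ∈ B, ∃ u ∈ F, c < ‖∑ h ∈ Icc 1 H, muC (n + h) * (u h * ee (ph α (h : ℝ)))‖ := by
  by_contra hne
  push Not at hne
  exact absurd (Real.iSup_le (fun p : {p : (Fin t → ℝ) × (ℕ → ℂ) // p.1 ∈ B ∧ p.2 ∈ F} =>
    hne p.1.1 p.2.1 p.1.2 p.2.2) hc) (not_le.2 h)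

theorem cont_sum {t : ℕ} (u : ℕ → ℂ) (n H : ℕ) : Continuous fun α : Fin t → ℝ =>
    ‖∑ h ∈ Icc 1 H, muC (n + h) * (u h * ee (ph α (h : ℝ)))‖ := by
  refine Continuous.norm (continuous_finsetSum _ fun h _ => ?_)
  refine continuous_const.mul (continuous_const.mul ?_)
  have h1 : Continuous fun α : Fin t → ℝ => ph α (h : ℝ) := by
    unfold ph
    exact continuous_finsetSum _ fun i _ => (continuous_apply i).mul continuous_const
  have h2 : Continuous ee := by
    unfold ee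
    fun_prop
  exact h2.comp h1

/-- A small perturbation with an irrational last coordinate. -/
theorem perturb {t : ℕ} (ht : 0 < t) (u : ℕ → ℂ) (n H : ℕ) (α : Fin t → ℝ) {σ δ : ℝ}
    (hσ : 0 < σ) (hδ : 0 < δ) : ∃ α' : Fin t → ℝ, Irrational (α' ⟨t - 1, by omega⟩) ∧
      (∀ i, |α' i - α i| ≤ σ) ∧
      ‖∑ h ∈ Icc 1 H, muC (n + h) * (u h * ee (ph α (h : ℝ)))‖ - δ ≤
        ‖∑ h ∈ Icc 1 H, muC (n + h) * (u h * ee (ph α' (h : ℝ)))‖ := by
  have hc := (cont_sum (t := t) u n H).continuousAt (x := α)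
  rw [Metric.continuousAt_iff] at hc
  obtain ⟨η, hη, hη2⟩ := hc δ hδ
  obtain ⟨r, hr, hr1, hr2⟩ := exists_irrational_btwn
    (show α ⟨t - 1, by omega⟩ < α ⟨t - 1, by omega⟩ + min σ (η / 2) by
      have : 0 < min σ (η / 2) := lt_min hσ (by positivity)
      linarith)
  have hm1 : min σ (η / 2) ≤ σ := min_le_left _ _
  have hm2 : min σ (η / 2) ≤ η / 2 := min_le_right _ _
  have hb : ∀ i, |Function.update α ⟨t - 1, by omega⟩ r i - α i| ≤ min σ (η / 2) := by
    intro i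
    by_cases hi : i = ⟨t - 1, by omega⟩
    · subst hi
      rw [Function.update_self, abs_of_nonneg (by linarith)]
      linarith
    · rw [Function.update_of_ne hi, sub_self, abs_zero]
      exact le_min hσ.le (by positivity)
  refine ⟨Function.update α ⟨t - 1, by omega⟩ r, ?_, fun i => (hb i).trans hm1, ?_⟩
  · rw [Function.update_self]
    exact hr
  · have hd : dist (Function.update α ⟨t - 1, by omega⟩ r) α < η := by
      have : dist (Function.update α ⟨t - 1, by omega⟩ r) α ≤ η / 2 := by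
        rw [dist_pi_le_iff (by positivity)]
        intro i
        rw [Real.dist_eq]
        exact (hb i).trans hm2
      linarith
    have h3 := hη2 hd
    rw [Real.dist_eq] at h3
    have h4 := (abs_lt.1 h3).1
    linarith

end U2Kx

open U2Kx in
theorem rowU2K (hU : UK_stmt) : U2K_stmt := by
  intro k F hk hF hDual hS t B hkt hB hP hFree hN ε hε
  by_contra hcon
  push Not at hcon
  have ht : 0 < t := by omega
  -- the bad scales
  have hbad : ∀ j : ℕ, ∃ H N : ℕ, j + 3 ≤ H ∧ H ≤ N ∧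
      ε * H * Real.log N < SBK (Nb B (1 / ((j : ℝ) + 1))) F N H := by
    intro j
    obtain ⟨H, N, h1, h2, h3⟩ := hcon (1 / ((j : ℝ) + 1)) (by positivity) (j + 3)
    exact ⟨H, N, h1, h2, h3⟩
  choose Hj Nj hH hN2 hlt using hbad
  have hHpos : ∀ j, (0 : ℝ) < Hj j := fun j => by
    have : 0 < Hj j := by have := hH j; omega
    exact_mod_cast this
  have hlogpos : ∀ j, 1 ≤ Real.log (Nj j) := by
    intro j
    have h3 : (3 : ℝ) ≤ Nj j := by
      have : 3 ≤ Nj j := by have := hH j; have := hN2 j; omega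
      exact_mod_cast this
    rw [Real.le_log_iff_exp_le (by linarith)]
    linarith [Real.exp_one_lt_three]
  -- nonempty sets
  have hne : ∀ j : ℕ, (Nb B (1 / ((j : ℝ) + 1))).Nonempty ∧ F.Nonempty := by
    intro j
    by_contra hemp
    have h0 : SBK (Nb B (1 / ((j : ℝ) + 1))) F (Nj j) (Hj j) = 0 := by
      unfold SBK
      refine Finset.sum_eq_zero fun n _ => ?_
      have : IsEmpty {p : (Fin t → ℝ) × (ℕ → ℂ) //
          p.1 ∈ Nb B (1 / ((j : ℝ) + 1)) ∧ p.2 ∈ F} := by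
        refine ⟨fun p => hemp ⟨⟨_, p.2.1⟩, ⟨_, p.2.2⟩⟩⟩
      rw [Real.iSup_of_isEmpty, mul_zero]
    have := hlt j
    rw [h0] at this
    have h1 := hHpos j
    have h2 := hlogpos j
    have h3 : 0 ≤ ε * Hj j * Real.log (Nj j) := by positivity
    linarith
  -- almost maximal phases
  have hα : ∀ j n : ℕ, ∃ α ∈ Nb B (2 / ((j : ℝ) + 1)), ∃ u ∈ F,
      Irrational (α ⟨t - 1, by omega⟩) ∧
      FK (Nb B (1 / ((j : ℝ) + 1))) F (Hj j) n - ε / 8 * Hj j ≤
        ‖∑ h ∈ Icc 1 (Hj j), muC (n + h) * (u h * ee (ph α (h : ℝ)))‖ := by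
    intro j n
    have h1 := hHpos j
    have h2 : 0 < ε / 16 * Hj j := by positivity
    have h3 : ∃ α ∈ Nb B (1 / ((j : ℝ) + 1)), ∃ u ∈ F,
        FK (Nb B (1 / ((j : ℝ) + 1))) F (Hj j) n - ε / 16 * Hj j ≤
          ‖∑ h ∈ Icc 1 (Hj j), muC (n + h) * (u h * ee (ph α (h : ℝ)))‖ := by
      by_cases hc : 0 ≤ FK (Nb B (1 / ((j : ℝ) + 1))) F (Hj j) n - ε / 16 * Hj j
      · obtain ⟨α, hαm, u, hu, hαl⟩ := exists_of_lt (B := Nb B (1 / ((j : ℝ) + 1))) (F := F)
          (H := Hj j) (n := n) hc (by linarith)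
        exact ⟨α, hαm, u, hu, hαl.le⟩
      · obtain ⟨⟨α, hαm⟩, ⟨u, hu⟩⟩ := hne j
        exact ⟨α, hαm, u, hu, (not_le.1 hc).le.trans (norm_nonneg _)⟩
    obtain ⟨α, hαm, u, hu, hαl⟩ := h3
    obtain ⟨α', hi, hd, hl⟩ := perturb ht u n (Hj j) α
      (show (0 : ℝ) < 1 / ((j : ℝ) + 1) by positivity) h2
    refine ⟨α', ?_, u, hu, hi, ?_⟩
    · have h4 := nb_nb hαm hd
      have e : (1 : ℝ) / ((j : ℝ) + 1) + 1 / ((j : ℝ) + 1) = 2 / ((j : ℝ) + 1) := by ring
      rwa [e] at h4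
    · linarith
  choose α hαm u hu hαi hαl using hα
  set A : ℕ → Set (Fin t → ℝ) := fun J => ⋃ j ∈ Finset.range J, ⋃ n ∈ Icc 1 (Nj j),
    Lat k (α j n) with hA
  set B1 : Set (Fin t → ℝ) := B ∪ ⋃ J, A J with hB1
  have hmemA : ∀ J x, x ∈ A J ↔ ∃ j < J, ∃ n, 1 ≤ n ∧ n ≤ Nj j ∧ x ∈ Lat k (α j n) := by
    intro J x
    simp only [hA, Set.mem_iUnion, Finset.mem_range, Finset.mem_Icc, exists_prop]
    constructor
    · rintro ⟨j, hj, n, ⟨h1, h2⟩, hx⟩
      exact ⟨j, hj, n, h1, h2, hx⟩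
    · rintro ⟨j, hj, n, h1, h2, hx⟩
      exact ⟨j, hj, n, ⟨h1, h2⟩, hx⟩
  have hAc : ∀ J, IsClosed (A J) := by
    intro J
    refine Set.Finite.isClosed_biUnion (Finset.finite_toSet _) fun j _ => ?_
    exact Set.Finite.isClosed_biUnion (Finset.finite_toSet _) fun n _ => lat_closed _ _
  have hLat : ∀ j n, Lat k (α j n) ⊆ Nb B (2 / ((j : ℝ) + 1)) := by
    rintro j n x ⟨z, hz⟩
    have h1 := U2x.nb_per hP (2 / ((j : ℝ) + 1)) (α j n) (hαm j n) z
    exact nb_free hFree (by positivity) _ h1 x hz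
  have hNbm : ∀ {J j : ℕ}, J ≤ j → (2 : ℝ) / ((j : ℝ) + 1) ≤ 2 / ((J : ℝ) + 1) := by
    intro J j h
    have : (J : ℝ) ≤ j := by exact_mod_cast h
    apply div_le_div_of_nonneg_left (by norm_num) (by positivity)
    linarith
  have hclosed : IsClosed B1 := by
    have e : B1 = ⋂ J : ℕ, (Nb B (2 / ((J : ℝ) + 1)) ∪ A J) := by
      apply Set.eq_of_subset_of_subset
      · intro x hx
        rw [Set.mem_iInter]
        intro J
        rcases hx with hx | hx
        · exact Or.inl (U2x.nb_self (by positivity) hx)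
        · rw [Set.mem_iUnion] at hx
          obtain ⟨J', hx⟩ := hx
          rw [hmemA] at hx
          obtain ⟨j, hj, n, h1, h2, hx⟩ := hx
          by_cases hjJ : j < J
          · right
            rw [hmemA]
            exact ⟨j, hjJ, n, h1, h2, hx⟩
          · left
            exact U2x.nb_mono (hNbm (not_lt.1 hjJ)) (hLat j n hx)
      · intro x hx
        rw [Set.mem_iInter] at hx
        by_cases h : ∃ J, x ∈ A J
        · obtain ⟨J, hJ⟩ := h
          exact Or.inr (Set.mem_iUnion.2 ⟨J, hJ⟩)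
        · push Not at h
          left
          refine U2x.mem_of_all hB fun j => ?_
          have h1 := (hx (2 * j + 1)).resolve_right (h _)
          refine U2x.nb_mono ?_ h1
          push_cast
          have : (2 : ℝ) / (2 * (j : ℝ) + 1 + 1) = 1 / ((j : ℝ) + 1) := by
            field_simp
            ring
          rw [this]
    rw [e]
    exact isClosed_iInter fun J => (U2x.nb_closed hB (by positivity)).union (hAc J)
  have hper : Per B1 := by
    rintro x (hx | hx) z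
    · exact Or.inl (hP x hx z)
    · right
      rw [Set.mem_iUnion] at hx ⊢
      obtain ⟨J, hx⟩ := hx
      refine ⟨J, ?_⟩
      rw [hmemA] at hx ⊢
      obtain ⟨j, hj, n, h1, h2, hx⟩ := hx
      exact ⟨j, hj, n, h1, h2, lat_add hx z⟩
  have hfree : Free k B1 := by
    rintro x (hx | hx) y hy
    · exact Or.inl (hFree x hx y hy)
    · right
      rw [Set.mem_iUnion] at hx ⊢
      obtain ⟨J, hx⟩ := hx
      refine ⟨J, ?_⟩
      rw [hmemA] at hx ⊢
      obtain ⟨j, hj, n, h1, h2, hx⟩ := hx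
      exact ⟨j, hj, n, h1, h2, lat_free k _ x hx y hy⟩
  have hnull : NullSec B1 := by
    intro s hs hst r
    have e : {y : Fin s → ℝ | glue s y (fun i => ((r i : ℚ) : ℝ)) ∈ B1} ⊆
        {y : Fin s → ℝ | glue s y (fun i => ((r i : ℚ) : ℝ)) ∈ B} ∪
          ⋃ j : ℕ, ⋃ n : ℕ, {y : Fin s → ℝ | glue s y (fun i => ((r i : ℚ) : ℝ)) ∈
            Lat k (α j n)} := by
      intro y hy
      rcases hy with hy | hy
      · exact Or.inl hy
      · right
        rw [Set.mem_iUnion] at hy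
        obtain ⟨J, hy⟩ := hy
        rw [hmemA] at hy
        obtain ⟨j, hj, n, h1, h2, hx⟩ := hy
        rw [Set.mem_iUnion]
        exact ⟨j, Set.mem_iUnion.2 ⟨n, hx⟩⟩
    refine measure_mono_null e (measure_union_null (hN s hs hst r) ?_)
    exact measure_iUnion_null fun j => measure_iUnion_null fun n =>
      lat_null hs hst hkt _ _ (hαi j n)
  obtain ⟨H₀, hH0⟩ := hU k F hk hF hDual hS t B1 hkt hclosed hper hfree hnull (ε / 2)
    (by positivity)
  have hfin := hH0 (Hj H₀) (Nj H₀) (by have := hH H₀; omega) (hN2 H₀)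
  set j := H₀ with hj
  have hle : ∀ n ∈ Icc 1 (Nj j), FK (Nb B (1 / ((j : ℝ) + 1))) F (Hj j) n - ε / 8 * Hj j ≤
      FK B1 F (Hj j) n := by
    intro n hn
    rw [Finset.mem_Icc] at hn
    refine (hαl j n).trans ?_
    have hmem : α j n ∈ B1 := by
      right
      rw [Set.mem_iUnion]
      refine ⟨j + 1, ?_⟩
      rw [hmemA]
      exact ⟨j, Nat.lt_succ_self j, n, hn.1, hn.2, ⟨fun _ => 0, fun i _ => by simp⟩⟩
    exact le_ciSup (f := fun p : {p : (Fin t → ℝ) × (ℕ → ℂ) // p.1 ∈ B1 ∧ p.2 ∈ F} =>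
      ‖∑ h ∈ Icc 1 (Hj j), muC (n + h) * (p.1.2 h * ee (ph p.1.1 (h : ℝ)))‖)
      ⟨(Hj j : ℝ), by
        rintro _ ⟨p, rfl⟩
        exact ZZ.norm_sum_le_card
          (g := fun h => muC (n + h) * (p.1.2 h * ee (ph p.1.1 (h : ℝ))))
          (fun h => norm_term_le (hF.bdd _ p.2.2) _ _ _) (Hj j)⟩
      ⟨(α j n, u j n), hmem, hu j n⟩
  have hsum : SBK (Nb B (1 / ((j : ℝ) + 1))) F (Nj j) (Hj j) ≤
      ∑ n ∈ Icc 1 (Nj j), (1 / (n : ℝ)) * FK B1 F (Hj j) n +
        (∑ n ∈ Icc 1 (Nj j), (1 / (n : ℝ))) * (ε / 8 * Hj j) := by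
    rw [Finset.sum_mul, ← Finset.sum_add_distrib]
    unfold SBK
    refine Finset.sum_le_sum fun n hn => ?_
    rw [← mul_add]
    refine mul_le_mul_of_nonneg_left ?_ (by positivity)
    have := hle n hn
    have h2 : FK (Nb B (1 / ((j : ℝ) + 1))) F (Hj j) n ≤ FK B1 F (Hj j) n + ε / 8 * Hj j := by
      linarith
    exact h2
  have h5 : ∑ n ∈ Icc 1 (Nj j), (1 / (n : ℝ)) * FK B1 F (Hj j) n ≤
      ε / 2 * Hj j * Real.log (Nj j) := hfin
  have h6 := sum_inv_le_log (Nj j)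
  have h7 := hHpos j
  have h8 := hlogpos j
  have h9 : (∑ n ∈ Icc 1 (Nj j), (1 / (n : ℝ))) * (ε / 8 * Hj j) ≤
      (2 * Real.log (Nj j)) * (ε / 8 * Hj j) := by
    refine mul_le_mul_of_nonneg_right (by linarith) (by positivity)
  have h10 := hlt j
  have h11 : 0 < ε * Hj j * Real.log (Nj j) := by positivity
  nlinarith

end Pool.Agent.TUK
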