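import Mathlib
import Pool.Agent.Lib.TUK.Final
import Pool.Agent.Lib.TUK.U2K
import Pool.Agent.Lib.TUK.SK
import Pool.Agent.Lib.TUK.Defs3
import Pool.Agent.Lib.TU.U2
import Pool.Agent.Lib.TU.V
import Pool.Agent.Lib.TU.V1
import Pool.Agent.Lib.TU.V2

/-!
# Closed sets of polynomial phases and nilsequences (MP_663568_nt): the statement of the hand-in
-/

set_option autoImplicit false
open Finset Polynomial MeasureTheory

namespace Pool.Agent.TUK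

open Pool.Agent.Lib.MP_663568_nt Pool.Agent.Lib.MP_663568_nt.Katai
  Pool.Agent.Lib.MP_663568_nt.Nul Pool.Agent.TU

section

variable {G : Type} [Group G]

/-- One window. -/
noncomputable def wd (Γ : Subgroup G) (f : G ⧸ Γ → ℂ) {t : ℕ} (H n : ℕ)
    (i : (G × G) × (Fin t → ℝ)) : ℝ :=
  ‖∑ h ∈ Icc 1 H, muC (n + h) * (f (QuotientGroup.mk (i.1.1 ^ h * i.1.2)) *
      ee (ph i.2 (h : ℝ)))‖

/-- The average of the hand-in. -/
noncomputable def AvgN (Γ : Subgroup G) (f : G ⧸ Γ → ℂ) {t : ℕ} (B : Set (Fin t → ℝ))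
    (N H : ℕ) : ℝ :=
  ∑ n ∈ Icc 1 N, (1 / (n : ℝ)) * ⨆ i : {i : (G × G) × (Fin t → ℝ) // i.2 ∈ B}, wd Γ f H n i.1

lemma wd_scale (Γ : Subgroup G) (f : G ⧸ Γ → ℂ) (c : ℂ) {t : ℕ} (H n : ℕ)
    (i : (G × G) × (Fin t → ℝ)) : wd Γ (fun x => c * f x) H n i = ‖c‖ * wd Γ f H n i := by
  unfold wd
  rw [← norm_mul, mul_sum]
  congr 1
  exact sum_congr rfl fun h _ => by ring

lemma AvgN_scale (Γ : Subgroup G) (f : G ⧸ Γ → ℂ) (c : ℂ) {t : ℕ} (B : Set (Fin t → ℝ))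
    (N H : ℕ) : AvgN Γ (fun x => c * f x) B N H = ‖c‖ * AvgN Γ f B N H := by
  unfold AvgN
  rw [mul_sum]
  refine sum_congr rfl fun n _ => ?_
  have h1 : (⨆ i : {i : (G × G) × (Fin t → ℝ) // i.2 ∈ B}, wd Γ (fun x => c * f x) H n i.1) =
      ‖c‖ * ⨆ i : {i : (G × G) × (Fin t → ℝ) // i.2 ∈ B}, wd Γ f H n i.1 := by
    rw [Real.mul_iSup_of_nonneg (norm_nonneg c)]
    congr 1
    funext i
    exact wd_scale Γ f c H n i.1
  rw [h1]
  ring

lemma term_le_card {u : ℕ → ℂ} (hu : ∀ m, ‖u m‖ ≤ 1) (H n : ℕ) (p : ℕ → ℝ) :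
    ‖∑ h ∈ Icc 1 H, muC (n + h) * (u h * ee (p h))‖ ≤ H := norm_sum_muC_mul_le H n u hu p

lemma AvgN_eq (Γ : Subgroup G) (f : G ⧸ Γ → ℂ) (hf : ∀ x, ‖f x‖ ≤ 1) {t : ℕ}
    (B : Set (Fin t → ℝ)) (N H : ℕ) : AvgN Γ f B N H = SBK B (NS Γ f) N H := by
  unfold AvgN SBK
  refine sum_congr rfl fun n _ => ?_
  congr 1
  apply le_antisymm
  · refine Real.iSup_le (fun i => ?_) (Real.iSup_nonneg fun _ => norm_nonneg _)
    have hb : BddAbove (Set.range fun p : {p : (Fin t → ℝ) × (ℕ → ℂ) // p.1 ∈ B ∧ p.2 ∈ NS Γ f} =>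
        ‖∑ h ∈ Icc 1 H, muC (n + h) * (p.1.2 h * ee (ph p.1.1 (h : ℝ)))‖) := by
      refine ⟨(H : ℝ), ?_⟩
      rintro _ ⟨p, rfl⟩
      refine term_le_card (fun m => ?_) H n fun h => ph p.1.1 (h : ℝ)
      obtain ⟨g, x, hu⟩ := p.2.2
      rw [hu]
      exact hf _
    exact le_ciSup hb ⟨(i.1.2, fun m => f (QuotientGroup.mk (i.1.1.1 ^ m * i.1.1.2))), i.2,
      i.1.1.1, i.1.1.2, fun _ => rfl⟩
  · refine Real.iSup_le (fun p => ?_) (Real.iSup_nonneg fun _ => norm_nonneg _)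
    have hb : BddAbove (Set.range fun i : {i : (G × G) × (Fin t → ℝ) // i.2 ∈ B} =>
        wd Γ f H n i.1) := by
      refine ⟨(H : ℝ), ?_⟩
      rintro _ ⟨i, rfl⟩
      exact term_le_card (u := fun h => f (QuotientGroup.mk (i.1.1.1 ^ h * i.1.1.2)))
        (fun m => hf _) H n fun h => ph i.1.2 (h : ℝ)
    obtain ⟨⟨α, u⟩, hα, g, x, hu⟩ := p
    refine le_trans (le_of_eq ?_) (le_ciSup hb ⟨((g, x), α), hα⟩)
    simp only [wd]
    congr 1
    exact sum_congr rfl fun h _ => by rw [show u h = _ from hu h]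

/-- For the trivial group the average is the one of Theorem U. -/
lemma AvgN_trivial (Γ : Subgroup G) (f : G ⧸ Γ → ℂ) (hG : ∀ g : G, g = 1) {t : ℕ}
    (B : Set (Fin t → ℝ)) (N H : ℕ) : AvgN Γ f B N H = ‖f (QuotientGroup.mk 1)‖ * SB B N H := by
  unfold AvgN SB
  rw [mul_sum]
  refine sum_congr rfl fun n _ => ?_
  have h1 : ∀ i : (G × G) × (Fin t → ℝ), wd Γ f H n i =
      ‖f (QuotientGroup.mk 1)‖ * ‖∑ h ∈ Icc 1 H, muC (n + h) * ee (ph i.2 (h : ℝ))‖ := by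
    intro i
    unfold wd
    rw [← norm_mul, mul_sum]
    congr 1
    refine sum_congr rfl fun h _ => ?_
    rw [hG (i.1.1 ^ h * i.1.2)]
    ring
  have h2 : (⨆ i : {i : (G × G) × (Fin t → ℝ) // i.2 ∈ B}, wd Γ f H n i.1) =
      ‖f (QuotientGroup.mk 1)‖ * ⨆ α : {α : Fin t → ℝ // α ∈ B},
        ‖∑ h ∈ Icc 1 H, muC (n + h) * ee (ph (α : Fin t → ℝ) (h : ℝ))‖ := by
    rw [Real.mul_iSup_of_nonneg (norm_nonneg _)]
    have e : Function.Surjective (fun i : {i : (G × G) × (Fin t → ℝ) // i.2 ∈ B} =>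
        (⟨i.1.2, i.2⟩ : {α : Fin t → ℝ // α ∈ B})) := fun α => ⟨⟨((1, 1), α.1), α.2⟩, rfl⟩
    rw [← e.iSup_comp (g := fun α : {α : Fin t → ℝ // α ∈ B} => ‖f (QuotientGroup.mk 1)‖ *
        ‖∑ h ∈ Icc 1 H, muC (n + h) * ee (ph (α : Fin t → ℝ) (h : ℝ))‖)]
    congr 1
    funext i
    exact h1 i.1
  rw [h2]
  ring

end

/-- The theorem of the hand-in, part (i). -/
theorem partI {G : Type} [Group G] [TopologicalSpace G] [IsTopologicalGroup G]
    (k t : ℕ) (hkt : k < t)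
    (A : ℕ → Subgroup G) (hanti : Antitone A) (hcomm : ∀ i j, ⁅A i, A j⁆ ≤ A (i + j))
    (hA1 : A 1 = ⊤) (hAk : A (k + 1) = ⊥)
    (Γ : Subgroup G) (hΓ : IsClosed (Γ : Set G))
    (hcpt : ∀ i, ∃ C : Set G, IsCompact C ∧ (∀ c ∈ C, c ∈ A i) ∧
      ∀ x ∈ A i, ∃ c ∈ C, ∃ γ ∈ Γ, x = c * γ)
    (f : G ⧸ Γ → ℂ) (hf : Continuous f) (B : Set (Fin t → ℝ)) (hB : IsClosed B)
    (hinv : ∀ α ∈ B, ∀ β : Fin t → ℝ,
      (∀ i : Fin t, k ≤ i.val → ∃ z : ℤ, β i = α i + (z : ℝ)) → β ∈ B)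
    (hnull : NullSec B) (ε : ℝ) (hε : 0 < ε) :
    ∃ ρ : ℝ, 0 < ρ ∧ ∃ H₀ : ℕ, ∀ H N : ℕ, H₀ ≤ H → H ≤ N →
      AvgN Γ f (Nb B ρ) N H ≤ ε * H * Real.log N := by
  have hP : Per B := fun α hα z => hinv α hα _ fun i _ => ⟨z i, rfl⟩
  rcases Nat.eq_zero_or_pos k with rfl | hk
  · -- the trivial group
    have hG : ∀ g : G, g = 1 := fun g => by
      have h1 : g ∈ A 1 := by rw [hA1]; exact Subgroup.mem_top g
      rw [show (1 : ℕ) = 0 + 1 from rfl, hAk, Subgroup.mem_bot] at h1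
      exact h1
    obtain ⟨ρ, hρ, H₀, h⟩ := rowU2 theoremU t (by omega) B hB hP hnull
      (ε / (‖f (QuotientGroup.mk 1)‖ + 1)) (by positivity)
    refine ⟨ρ, hρ, H₀, fun H N hH hHN => ?_⟩
    rw [AvgN_trivial Γ f hG]
    have h1 := h H N hH hHN
    have hlog : 0 ≤ Real.log N := Real.log_natCast_nonneg _
    have h2 : ‖f (QuotientGroup.mk 1)‖ / (‖f (QuotientGroup.mk 1)‖ + 1) ≤ 1 := by
      rw [div_le_one (by positivity)]
      linarith
    calc ‖f (QuotientGroup.mk 1)‖ * SB (Nb B ρ) N H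
        ≤ ‖f (QuotientGroup.mk 1)‖ * (ε / (‖f (QuotientGroup.mk 1)‖ + 1) * H * Real.log N) :=
          mul_le_mul_of_nonneg_left h1 (norm_nonneg _)
      _ = (‖f (QuotientGroup.mk 1)‖ / (‖f (QuotientGroup.mk 1)‖ + 1)) * (ε * H * Real.log N) := by
          ring
      _ ≤ 1 * (ε * H * Real.log N) := mul_le_mul_of_nonneg_right h2 (by positivity)
      _ = _ := one_mul _
  · have hFr : Free k B := fun α hα β hβ => hinv α hα β fun i hi => ⟨0, by rw [hβ i hi]; simp⟩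
    -- a bound for `f`
    have h0 : A 0 = ⊤ := top_le_iff.mp (hA1 ▸ hanti (Nat.zero_le 1))
    have hX : CompactSpace (G ⧸ Γ) := by
      obtain ⟨C, hC1, hC2, hC3⟩ := hcpt 0
      refine ⟨?_⟩
      have : (Set.univ : Set (G ⧸ Γ)) = (fun g : G => (g : G ⧸ Γ)) '' C := by
        ext x
        simp only [Set.mem_univ, true_iff]
        obtain ⟨g, rfl⟩ := QuotientGroup.mk_surjective x
        obtain ⟨c, hc, γ, hγ, e⟩ := hC3 g (by rw [h0]; trivial)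
        exact ⟨c, hc, (Tw.coe_eq_of_mul Γ _ _ _ hγ e).symm⟩
      rw [this]
      exact hC1.image QuotientGroup.continuous_mk
    obtain ⟨b, hb⟩ : ∃ b : ℝ, ∀ x, ‖f x‖ ≤ b := by
      have h1 : IsCompact (Set.range fun x => ‖f x‖) := isCompact_range (by fun_prop)
      obtain ⟨b, hb⟩ := h1.bddAbove
      exact ⟨b, fun x => hb ⟨x, rfl⟩⟩
    have hb0 : 0 ≤ b := (norm_nonneg _).trans (hb (QuotientGroup.mk 1))
    have hb1 : 0 < b + 1 := by linarith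
    obtain ⟨f', hf'⟩ : ∃ f' : G ⧸ Γ → ℂ, f' = fun x => ((b + 1 : ℝ) : ℂ)⁻¹ * f x := ⟨_, rfl⟩
    have hf'c : Continuous f' := by rw [hf']; fun_prop
    have hf'1 : ∀ x, ‖f' x‖ ≤ 1 := by
      intro x
      rw [hf']
      beta_reduce
      rw [norm_mul, norm_inv, Complex.norm_real, Real.norm_eq_abs, abs_of_pos hb1,
        inv_mul_le_iff₀ hb1, mul_one]
      linarith [hb x]
    have hff' : f = fun x => ((b + 1 : ℝ) : ℂ) * f' x := by
      rw [hf']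
      funext x
      have hne : ((b + 1 : ℝ) : ℂ) ≠ 0 := by exact_mod_cast hb1.ne'
      beta_reduce
      rw [mul_inv_cancel_left₀ hne]
    obtain ⟨hCls, hDual, hSl⟩ := rowSK G k A hanti hcomm hA1 hAk Γ hΓ hcpt f' hf'c hf'1
    obtain ⟨ρ, hρ, H₀, h⟩ := rowU2K theoremUK k (NS Γ f') hk hCls hDual (hSl hk) t B hkt hB hP
      hFr hnull (ε / (b + 1)) (by positivity)
    refine ⟨ρ, hρ, H₀, fun H N hH hHN => ?_⟩
    rw [hff', AvgN_scale, AvgN_eq Γ f' hf'1, Complex.norm_real, Real.norm_eq_abs, abs_of_pos hb1]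
    calc (b + 1) * SBK (Nb B ρ) (NS Γ f') N H ≤ (b + 1) * (ε / (b + 1) * H * Real.log N) :=
          mul_le_mul_of_nonneg_left (h H N hH hHN) hb1.le
      _ = _ := by field_simp

/-- The theorem of the hand-in, part (ii). -/
theorem partII (rowVK : VK_stmt) {G : Type} [Group G] [TopologicalSpace G]
    (k t : ℕ) (hkt : k < t)
    (A : ℕ → Subgroup G) (hA1 : A 1 = ⊤) (hAk : A (k + 1) = ⊥)
    (Γ : Subgroup G) (f : G ⧸ Γ → ℂ) (b : ℝ) (hb : ∀ x, ‖f x‖ ≤ b) (B : Set (Fin t → ℝ))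
    (hinv : ∀ α ∈ B, ∀ β : Fin t → ℝ,
      (∀ i : Fin t, k ≤ i.val → ∃ z : ℤ, β i = α i + (z : ℝ)) → β ∈ B)
    (r : Fin t → ℚ)
    (hr : volume {y : Fin 1 → ℝ | glue 1 y (fun i => ((r i : ℚ) : ℝ)) ∈ B} ≠ 0)
    (hs : ∀ ε : ℝ, 0 < ε → ∃ H₀ : ℕ, ∀ H N : ℕ, H₀ ≤ H → H ≤ N →
      AvgN Γ f B N H ≤ ε * H * Real.log N) (ε : ℝ) (hε : 0 < ε) :
    ∃ H₀ : ℕ, ∀ H N : ℕ, H₀ ≤ H → H ≤ N →
      AvgN Γ f (Set.univ : Set (Fin 1 → ℝ)) N H ≤ ε * H * Real.log N := by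
  rcases Nat.eq_zero_or_pos k with rfl | hk
  · have hG : ∀ g : G, g = 1 := fun g => by
      have h1 : g ∈ A 1 := by rw [hA1]; exact Subgroup.mem_top g
      rw [show (1 : ℕ) = 0 + 1 from rfl, hAk, Subgroup.mem_bot] at h1
      exact h1
    obtain ⟨w, hw⟩ : ∃ w : ℝ, w = ‖f (QuotientGroup.mk 1)‖ := ⟨_, rfl⟩
    have hw0 : 0 ≤ w := by rw [hw]; exact norm_nonneg _
    rcases hw0.eq_or_lt with h0 | h0
    · refine ⟨0, fun H N _ _ => ?_⟩
      rw [AvgN_trivial Γ f hG, ← hw, ← h0, zero_mul]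
      have hlog : 0 ≤ Real.log N := Real.log_natCast_nonneg _
      positivity
    · have hSB : ∀ ε : ℝ, 0 < ε → ∃ H₀ : ℕ, ∀ H N : ℕ, H₀ ≤ H → H ≤ N →
          SB B N H ≤ ε * H * Real.log N := by
        intro ε hε
        obtain ⟨H₀, h⟩ := hs (w * ε) (by positivity)
        refine ⟨H₀, fun H N hH hHN => ?_⟩
        have h1 := h H N hH hHN
        rw [AvgN_trivial Γ f hG, ← hw, mul_assoc, mul_assoc] at h1
        have := le_of_mul_le_mul_left h1 h0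
        linarith
      obtain ⟨H₀, h⟩ := rowV rowV1 (rowV2 (rowH rowA)) t (by omega) B r hr hSB (ε / w)
        (by positivity)
      refine ⟨H₀, fun H N hH hHN => ?_⟩
      rw [AvgN_trivial Γ f hG, ← hw]
      calc w * SB (Set.univ : Set (Fin 1 → ℝ)) N H ≤ w * (ε / w * H * Real.log N) :=
            mul_le_mul_of_nonneg_left (h H N hH hHN) hw0
        _ = _ := by field_simp
  · have hFr : Free k B := fun α hα β hβ => hinv α hα β fun i hi => ⟨0, by rw [hβ i hi]; simp⟩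
    have hrB : (fun i => ((r i : ℚ) : ℝ)) ∈ B := by
      have hne : {y : Fin 1 → ℝ | glue 1 y (fun i => ((r i : ℚ) : ℝ)) ∈ B}.Nonempty := by
        by_contra hcon
        rw [Set.not_nonempty_iff_eq_empty] at hcon
        rw [hcon] at hr
        exact hr (measure_empty)
      obtain ⟨y, hy⟩ := hne
      refine hFr _ hy _ fun i hi => ?_
      unfold glue
      rw [dif_neg (by omega)]
    have hb0 : 0 ≤ b := (norm_nonneg _).trans (hb (QuotientGroup.mk 1))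
    have hb1 : 0 < b + 1 := by linarith
    obtain ⟨f', hf'⟩ : ∃ f' : G ⧸ Γ → ℂ, f' = fun x => ((b + 1 : ℝ) : ℂ)⁻¹ * f x := ⟨_, rfl⟩
    have hf'1 : ∀ x, ‖f' x‖ ≤ 1 := by
      intro x
      rw [hf']
      beta_reduce
      rw [norm_mul, norm_inv, Complex.norm_real, Real.norm_eq_abs, abs_of_pos hb1,
        inv_mul_le_iff₀ hb1, mul_one]
      linarith [hb x]
    have hff' : f = fun x => ((b + 1 : ℝ) : ℂ) * f' x := by
      rw [hf']
      funext x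
      have hne : ((b + 1 : ℝ) : ℂ) ≠ 0 := by exact_mod_cast hb1.ne'
      beta_reduce
      rw [mul_inv_cancel_left₀ hne]
    obtain ⟨C, hC, hVK⟩ := rowVK k t (NS Γ f') hk hkt (by
      rintro u ⟨g, x, hu⟩ m
      rw [hu]
      exact hf'1 _) B hFr r hrB
    obtain ⟨H₀, h⟩ := hs (ε / C) (by positivity)
    refine ⟨H₀, fun H N hH hHN => ?_⟩
    have h1 := h H N hH hHN
    have h2 := hVK N H
    rw [hff', AvgN_scale, AvgN_eq Γ f' hf'1, Complex.norm_real, Real.norm_eq_abs,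
      abs_of_pos hb1] at h1 ⊢
    calc (b + 1) * SBK (Set.univ : Set (Fin 1 → ℝ)) (NS Γ f') N H
        ≤ (b + 1) * (C * SBK B (NS Γ f') N H) := mul_le_mul_of_nonneg_left h2 hb1.le
      _ = C * ((b + 1) * SBK B (NS Γ f') N H) := by ring
      _ ≤ C * (ε / C * H * Real.log N) := mul_le_mul_of_nonneg_left h1 hC.le
      _ = _ := by field_simp

end Pool.Agent.TUK
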