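import Mathlib
import Pool.Agent.Lib.TUK.Defs3

/-!
# Closed sets of polynomial phases and nilsequences (MP_663568_nt): row W

Minor arc uniformity of degree `s` from the phases of a closed set with a rational section of
dimension `s` and positive measure: rows W6 and W1.
-/

set_option autoImplicit false
open Finset Polynomial MeasureTheory

namespace Pool.Agent.TUK

open Pool.Agent.Lib.MP_663568_nt Pool.Agent.Lib.MP_663568_nt.Katai
  Pool.Agent.Lib.MP_663568_nt.Nul Pool.Agent.TU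

/-- Row W from rows W1 and W6. -/
theorem rowW (h1 : W1_stmt) (h6 : W6_stmt) : W_stmt := by
  intro k F hF hD s t hk hs hst B hB hPB r hvol hS
  obtain ⟨K, hKz, hKv, hK⟩ := h6 k F hF hD s t hk hs hst B hB hPB r hvol hS
  obtain ⟨w, hw, hW⟩ := h1 K hKz hKv
  intro ε hε
  obtain ⟨ε₁, hε₁0, hε₁w, hε₁h⟩ : ∃ ε₁ : ℝ, 0 < ε₁ ∧ ε₁ ≤ w * ε / 2 ∧ ε₁ ≤ 1 / 2 :=
    ⟨min (w * ε / 2) (1 / 2), lt_min (by positivity) (by norm_num), min_le_left _ _,
      min_le_right _ _⟩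
  obtain ⟨δ₁, hδ₁, L₀, hL⟩ := hK ε₁ hε₁0
  obtain ⟨Q, hQ1, hQ⟩ := hW F hF s (by omega) δ₁ ε₁ hδ₁ hε₁0
  refine ⟨Q, hQ1, fun δ hδ => ?_⟩
  obtain ⟨H₀, hH₀⟩ := hQ δ hδ
  refine ⟨max (max H₀ (L₀ ^ 2)) 1, fun H N hH hHN => ?_⟩
  have hHH₀ : H₀ ≤ H := le_trans (le_trans (le_max_left _ _) (le_max_left _ _)) hH
  have hHL₀ : L₀ ^ 2 ≤ H := le_trans (le_trans (le_max_right _ _) (le_max_left _ _)) hH
  have hH1 : 1 ≤ H := le_trans (le_max_right _ _) hH
  have hH1' : (1 : ℝ) ≤ H := by exact_mod_cast hH1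
  have hlog : 0 ≤ Real.log (N : ℝ) := Real.log_natCast_nonneg N
  have hmain := hH₀ H N hHH₀ hHN ε₁ (fun L hL1 hL2 => hL L N (by
    have h2 : (L₀ : ℝ) ≤ (H : ℝ) ^ (1 - ε₁) := by
      have h3 : (L₀ : ℝ) ^ (2 : ℝ) ≤ H := by
        rw [Real.rpow_two]
        exact_mod_cast hHL₀
      have h4 : (L₀ : ℝ) ≤ (H : ℝ) ^ (1 / 2 : ℝ) := by
        have h5 := Real.rpow_le_rpow (by positivity) h3 (show (0 : ℝ) ≤ 1 / 2 by norm_num)
        rw [← Real.rpow_mul (by positivity)] at h5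
        norm_num at h5
        simpa using h5
      exact h4.trans (Real.rpow_le_rpow_of_exponent_le hH1' (by linarith))
    exact_mod_cast h2.trans hL1) (hL2.trans hHN))
  have h7 : (ε₁ + ε₁) * H * Real.log N ≤ w * (ε * H * Real.log N) := by
    have h8 : (ε₁ + ε₁) ≤ w * ε := by linarith
    have h9 : 0 ≤ (H : ℝ) * Real.log N := by positivity
    nlinarith [mul_le_mul_of_nonneg_right h8 h9]
  exact le_of_mul_le_mul_left (hmain.trans h7) hw

end Pool.Agent.TUK
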