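import Mathlib
import Pool.Agent.Lib.TUK.Defs3
import Pool.Agent.Lib.TUK.RowHK
import Pool.Agent.Lib.TUK.AK2

/-!
# Row W0 of the dichotomy: the beginning of the sum (helper31)
-/

set_option autoImplicit false
open Finset Polynomial MeasureTheory

namespace Pool.Agent.TUK

open Pool.Agent.Lib.MP_663568_nt Pool.Agent.Lib.MP_663568_nt.Katai
  Pool.Agent.Lib.MP_663568_nt.Nul Pool.Agent.TU

/-- One long sum with a top coefficient in the minor arcs. -/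
theorem long_top {k : ℕ} {F : Set (ℕ → ℂ)} (hF : Cls F) (hD : DualLaw (k + 1) F) (s : ℕ)
    (hks : k < s) (ε : ℝ) (hε : 0 < ε) : ∃ Q : ℕ, 1 ≤ Q ∧ ∀ δ : ℝ, 0 < δ → ∃ X₀ : ℕ,
    ∀ X : ℕ, X₀ ≤ X → ∀ P : ℝ[X], P.natDegree ≤ s → P.coeff s ∈ Mn Q δ → ∀ u ∈ F,
      ‖∑ x ∈ Icc 1 X, muC x * (ee (P.eval (x : ℝ)) * u x)‖ ≤ ε * X := by
  obtain ⟨Pr, hPr, η, hη, hη1, X₁, hX₁1, hX₁⟩ := Hx.katai ε hε
  obtain ⟨Z, hZ⟩ : ∃ Z : ℕ, ∀ p ∈ Pr, p ≤ Z := ⟨Pr.sup id, fun p hp => le_sup (f := id) hp⟩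
  obtain ⟨Bd, K, X₂, hK, hX₂1, hX₂⟩ := HxK.rat s k (WW F) (weyl_WW rowAK2 hF hD s) Z η hη hη1
  refine ⟨max 1 Bd, le_max_left _ _, fun δ hδ => ⟨X₁ + X₂ + ⌈K / δ⌉₊ + 1,
    fun X hX P hPd hPs u hu => ?_⟩⟩
  by_contra hcon
  push Not at hcon
  have hX0 : (1 : ℝ) ≤ X := by exact_mod_cast (by omega : 1 ≤ X)
  obtain ⟨p, hp, q, hq, hpq, j, L, hj, hL, hS⟩ := hX₁ X (by omega)
    (fun x => ee (P.eval (x : ℝ)) * u x) (fun n => by
      rw [norm_mul]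
      exact mul_le_one₀ (norm_ee _).le (norm_nonneg _) (hF.bdd u hu n)) hcon
  have hw : (fun l => u (p * (j + l)) * (starRingEnd ℂ) (u (q * (j + l)))) ∈ WW F := by
    refine ⟨fun l => u (p * j + p * l), hF.prog hu (p * j) p, fun l => u (q * j + q * l),
      hF.prog hu (q * j) q, ?_⟩
    funext l
    rw [mul_add, mul_add]
  obtain ⟨b, hb1, hbB, hb⟩ := hX₂ X (by omega) P hPd p q hpq (hZ p hp) (hZ q hq) j L hj hL _
    hw (by
      refine hS.trans (le_of_eq ?_)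
      congr 1
      refine sum_congr rfl fun l _ => ?_
      simp only [map_mul]
      ring)
  have h1 := hb s hks le_rfl
  obtain ⟨a, ha⟩ := nd_exists ((b : ℝ) * P.coeff s)
  have h2 : δ ≤ nd ((b : ℝ) * P.coeff s) := by
    rw [ha]
    exact hPs b hb1 (hbB.trans (le_max_right _ _)) a
  have h3 : K / (X : ℝ) ^ s ≤ K / X := by
    gcongr
    exact le_self_pow₀ hX0 (by omega)
  have h4 : K / X < δ := by
    rw [div_lt_iff₀ (by linarith)]
    have h5 : K / δ < X := by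
      refine lt_of_le_of_lt (Nat.le_ceil _) ?_
      exact_mod_cast (by omega : ⌈K / δ⌉₊ < X)
    rw [div_lt_iff₀ hδ] at h5
    linarith
  linarith

/-- **Row W0.** -/
theorem rowW0 : W0_stmt := by
  intro k F hF hD s hks ε hε
  obtain ⟨Q, hQ, h⟩ := long_top hF hD s hks (ε / 6) (by positivity)
  refine ⟨Q, hQ, fun δ hδ => ?_⟩
  obtain ⟨X₀, hX⟩ := h δ hδ
  refine ⟨max X₀ ⌈(X₀ : ℝ) / (ε / 6)⌉₊, fun H hHH n hn => ?_⟩
  have hHX : X₀ ≤ H := le_trans (le_max_left _ _) hHH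
  have hHc : (X₀ : ℝ) ≤ ε / 6 * H := by
    have h1 : (X₀ : ℝ) / (ε / 6) ≤ (H : ℝ) :=
      le_trans (Nat.le_ceil _) (by exact_mod_cast le_trans (le_max_right _ _) hHH)
    rw [div_le_iff₀ (by positivity)] at h1
    linarith
  refine Real.iSup_le ?_ (by positivity)
  rintro ⟨⟨P, u⟩, hPd, hPs, hu⟩
  dsimp only at hPd hPs hu ⊢
  obtain ⟨v, hv, hvu⟩ := hF.back u hu n
  obtain ⟨P', hP'⟩ : ∃ P' : ℝ[X], P' = P.comp (X + C (-(n : ℝ))) := ⟨_, rfl⟩
  have hP'd : P'.natDegree ≤ s := by rw [hP']; exact natDegree_shift _ _ hPd _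
  have hP's : P'.coeff s ∈ Mn Q δ := by rw [hP', coeff_shift_top _ _ hPd]; exact hPs
  have e : ∑ h ∈ Icc 1 H, muC (n + h) * (u h * ((fun _ => (1 : ℂ)) h * ee (P.eval (h : ℝ)))) =
      ∑ x ∈ Icc 1 (n + H), muC x * (ee (P'.eval (x : ℝ)) * v x) -
        ∑ x ∈ Icc 1 n, muC x * (ee (P'.eval (x : ℝ)) * v x) := by
    rw [← ZZ.sum_shift (fun x => muC x * (ee (P'.eval (x : ℝ)) * v x)) n H]
    refine Finset.sum_congr rfl fun h _ => ?_
    rw [hvu, hP']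
    simp only [eval_comp, eval_add, eval_X, eval_C, one_mul]
    push_cast
    rw [show (n : ℝ) + h + -(n : ℝ) = h by ring]
    ring
  have h1 := hX (n + H) (by omega) P' hP'd hP's v hv
  have hn' : (n : ℝ) ≤ 2 * H := by exact_mod_cast hn
  have h2 : ‖∑ x ∈ Icc 1 n, muC x * (ee (P'.eval (x : ℝ)) * v x)‖ ≤
      ε / 6 * H + ε / 6 * (2 * H) := by
    by_cases hnX : X₀ ≤ n
    · have := hX n hnX P' hP'd hP's v hv
      have h3 : ε / 6 * (n : ℝ) ≤ ε / 6 * (2 * H) := by gcongr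
      have h4 : 0 ≤ ε / 6 * (H : ℝ) := by positivity
      linarith
    · have := ZZ.norm_sum_le_card
        (g := fun x => muC x * (ee (P'.eval (x : ℝ)) * v x))
        (fun x => by
          rw [norm_mul, norm_mul]
          exact mul_le_one₀ (norm_muC _) (by positivity)
            (mul_le_one₀ (norm_ee _).le (norm_nonneg _) (hF.bdd v hv x))) n
      have h3 : (n : ℝ) ≤ X₀ := by exact_mod_cast (not_le.1 hnX).le
      have h4 : 0 ≤ ε / 6 * (2 * (H : ℝ)) := by positivity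
      linarith
  rw [e]
  refine (norm_sub_le _ _).trans ?_
  push_cast at h1
  have h5 : ε / 6 * ((n : ℝ) + H) ≤ ε / 6 * (2 * H + H) := by gcongr
  nlinarith

end Pool.Agent.TUK
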