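import Pool.Agent.Lib.TUK.Defs3
import Pool.Agent.Lib.TU.S2
import Pool.Agent.Lib.MP_663568_h6.ZeroQ

/-!
# TUK, row W1: the zero-one law for the top coefficient (helper16)
-/

set_option autoImplicit false
open Finset Polynomial MeasureTheory

namespace Pool.Agent.TUK

open Pool.Agent.Lib.MP_663568_nt Pool.Agent.Lib.MP_663568_nt.Katai
  Pool.Agent.Lib.MP_663568_nt.Nul Pool.Agent.Lib.MP_663568_nt.H6 Pool.Agent.TU

namespace W1x

/-- the index type: a polynomial and a sequence -/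
def Ix (s : ℕ) (F : Set (ℕ → ℂ)) : Type := {p : ℝ[X] × (ℕ → ℂ) // p.1.natDegree ≤ s ∧ p.2 ∈ F}

/-- the sequences of the family -/
noncomputable def fam (s : ℕ) (F : Set (ℕ → ℂ)) (i : Ix s F) (m : ℕ) : ℂ :=
  i.1.2 m * ee (i.1.1.eval (m : ℝ))

/-- the top coefficient -/
noncomputable def top (s : ℕ) (F : Set (ℕ → ℂ)) (i : Ix s F) (_ : Fin 1) : ℝ := i.1.1.coeff s

lemma fam_le (s : ℕ) (F : Set (ℕ → ℂ)) (hF : Cls F) (i : Ix s F) (m : ℕ) : ‖fam s F i m‖ ≤ 1 := by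
  unfold fam
  rw [norm_mul, norm_ee, mul_one]
  exact hF.bdd _ i.2.2 m

lemma fam_dil (s : ℕ) (F : Set (ℕ → ℂ)) (hF : Cls F) :
    DilM (σ := Fin 1) (fam s F) (top s F) (fun _ => s) := by
  rintro ⟨⟨P, u⟩, hP, hu⟩ d hd
  have hcf : ∀ n, (P.comp (C (d : ℝ) * X)).coeff n = P.coeff n * (d : ℝ) ^ n :=
    fun n => comp_C_mul_X_coeff
  refine ⟨⟨(P.comp (C (d : ℝ) * X), fun m => u (d * m)), ?_, hF.dil u hu d⟩, fun n => ?_,
    fun _ => ⟨0, ?_⟩⟩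
  · change (P.comp (C (d : ℝ) * X)).natDegree ≤ s
    rw [natDegree_le_iff_coeff_eq_zero]
    intro n hn
    rw [hcf, coeff_eq_zero_of_natDegree_lt (lt_of_le_of_lt hP hn), zero_mul]
  · change u (d * n) * ee ((P.comp (C (d : ℝ) * X)).eval (n : ℝ)) =
      u (d * n) * ee (P.eval ((d * n : ℕ) : ℝ))
    congr 2
    rw [eval_comp]
    simp
  · change (P.comp (C (d : ℝ) * X)).coeff s = (d : ℝ) ^ s * P.coeff s + ((0 : ℤ) : ℝ)
    rw [hcf]; simp [mul_comm]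

lemma bdd_TopS (s : ℕ) (A : Set ℝ) (F : Set (ℕ → ℂ)) (hF : Cls F) (H n : ℕ) :
    BddAbove (Set.range fun p : {p : ℝ[X] × (ℕ → ℂ) // p.1.natDegree ≤ s ∧ p.1.coeff s ∈ A ∧
      p.2 ∈ F} => ‖∑ h ∈ Icc 1 H, muC (n + h) * (p.1.2 h * (1 * ee (p.1.1.eval (h : ℝ))))‖) := by
  refine ⟨H, ?_⟩
  rintro _ ⟨p, rfl⟩
  refine (norm_sum_le _ _).trans ?_
  refine (sum_le_card_nsmul _ _ 1 fun h _ => ?_).trans (by simp)
  rw [norm_mul, norm_mul, one_mul, norm_ee, mul_one]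
  exact mul_le_one₀ (norm_muC _) (norm_nonneg _) (hF.bdd _ p.2.2.2 _)

lemma TopS_nonneg (s : ℕ) (A : Set ℝ) (F : Set (ℕ → ℂ)) (ψ : ℕ → ℂ) (H n : ℕ) :
    0 ≤ TopS s A F ψ H n := Real.iSup_nonneg fun _ => norm_nonneg _

/-- the two forms of the supremum -/
lemma TopS_le (s : ℕ) (A : Set ℝ) (F : Set (ℕ → ℂ)) (hF : Cls F) (S : Set (Ix s F))
    (hS : ∀ i : Ix s F, i.1.1.coeff s ∈ A → i ∈ S) (H n : ℕ) :
    TopS s A F (fun _ => 1) H n ≤ GS (fam s F) muC S H n := by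
  refine Real.iSup_le ?_ (GG_nonneg _ _ _ _)
  rintro ⟨⟨P, u⟩, hP, hA, hu⟩
  obtain ⟨v, hv, hvu⟩ := hF.back u hu n
  have hP' : (taylor (-(n : ℝ)) P).natDegree ≤ s := by rw [natDegree_taylor]; exact hP
  have hi := le_GG (fun i : {i // i ∈ S} => fam s F i.1) muC (fun i m => fam_le s F hF i.1 m)
    norm_muC H n ⟨⟨(taylor (-(n : ℝ)) P, v), hP', hv⟩, hS _ (by
      change (taylor (-(n : ℝ)) P).coeff s ∈ A
      rw [S2x.shift_coeff P s hP]; exact hA)⟩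
  refine le_trans (le_of_eq ?_) hi
  congr 1
  refine sum_congr rfl fun h _ => ?_
  change muC (n + h) * (u h * (1 * ee (P.eval (h : ℝ)))) =
    v (n + h) * ee ((taylor (-(n : ℝ)) P).eval ((n + h : ℕ) : ℝ)) * muC (n + h)
  have e2 : (taylor (-(n : ℝ)) P).eval ((n + h : ℕ) : ℝ) = P.eval (h : ℝ) := by
    rw [taylor_eval]
    congr 1
    push_cast
    ring
  rw [hvu, e2]
  ring

lemma le_TopS (s : ℕ) (A : Set ℝ) (F : Set (ℕ → ℂ)) (hF : Cls F) (S : Set (Ix s F))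
    (hS : ∀ i : Ix s F, i ∈ S → i.1.1.coeff s ∈ A) (H n : ℕ) :
    GS (fam s F) muC S H n ≤ TopS s A F (fun _ => 1) H n := by
  refine Real.iSup_le ?_ (TopS_nonneg _ _ _ _ _ _)
  rintro ⟨⟨⟨P, u⟩, hP, hu⟩, hi⟩
  have hA : P.coeff s ∈ A := hS _ hi
  have hP' : (taylor (n : ℝ) P).natDegree ≤ s := by rw [natDegree_taylor]; exact hP
  have hi' := le_ciSup (bdd_TopS s A F hF H n) ⟨(taylor (n : ℝ) P, fun m => u (n + m)), hP', by
      change (taylor (n : ℝ) P).coeff s ∈ A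
      rw [S2x.shift_coeff P s hP]; exact hA, hF.shift u hu n⟩
  refine le_trans (le_of_eq ?_) hi'
  congr 1
  refine sum_congr rfl fun h _ => ?_
  change u (n + h) * ee (P.eval ((n + h : ℕ) : ℝ)) * muC (n + h) =
    muC (n + h) * (u (n + h) * (1 * ee ((taylor (n : ℝ) P).eval (h : ℝ))))
  have e2 : (taylor (n : ℝ) P).eval (h : ℝ) = P.eval ((n + h : ℕ) : ℝ) := by
    rw [taylor_eval]
    congr 1
    push_cast
    ring
  rw [e2]
  ring

lemma minor (s Q : ℕ) (Q' δ y : ℝ) (hQ : Q' ≤ Q) (hy : y ∈ Mn Q δ) :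
    Mnr (σ := Fin 1) (fun _ => s) Q' δ (fun _ => y) := by
  intro k hk hkQ _ m
  rw [Fin.sum_univ_one]
  have hk0 : k 0 ≠ 0 := by
    intro h0
    apply hk
    funext s
    rw [Subsingleton.elim s 0]; exact h0
  have hq1 : 1 ≤ (k 0).natAbs := Nat.one_le_iff_ne_zero.mpr (Int.natAbs_ne_zero.mpr hk0)
  have hc : (((k 0).natAbs : ℕ) : ℝ) = |((k 0 : ℤ) : ℝ)| := by
    rw [Nat.cast_natAbs, Int.cast_abs]
  have hq2 : (k 0).natAbs ≤ Q := by
    have : (((k 0).natAbs : ℕ) : ℝ) ≤ Q := by rw [hc]; exact (hkQ 0).trans hQ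
    exact_mod_cast this
  rcases lt_or_gt_of_ne hk0 with hneg | hpos
  · have hneg' : ((k 0 : ℤ) : ℝ) < 0 := by exact_mod_cast hneg
    have h1 := hy _ hq1 hq2 (-m)
    rw [hc, abs_of_neg hneg'] at h1
    push_cast at h1
    have e : -((k 0 : ℤ) : ℝ) * y - -(m : ℝ) = -(((k 0 : ℤ) : ℝ) * y - m) := by ring
    rw [e, abs_neg] at h1
    exact h1
  · have hpos' : (0 : ℝ) < ((k 0 : ℤ) : ℝ) := by exact_mod_cast hpos
    have h1 := hy _ hq1 hq2 m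
    rw [hc, abs_of_pos hpos'] at h1
    exact h1

lemma Nr_per (K : Set ℝ) (hK : ∀ x ∈ K, ∀ z : ℤ, x + (z : ℝ) ∈ K) (δ x : ℝ) (z : ℤ)
    (h : x + (z : ℝ) ∈ Nr K δ) : x ∈ Nr K δ := by
  obtain ⟨c, hc, hxc⟩ := h
  refine ⟨c + ((-z : ℤ) : ℝ), hK c hc (-z), ?_⟩
  have e : x - (c + ((-z : ℤ) : ℝ)) = x + (z : ℝ) - c := by push_cast; ring
  rw [e]
  exact hxc

/-- a periodic set of positive measure has positive measure in the unit interval -/
lemma vol_pos (K : Set ℝ) (hK : ∀ x ∈ K, ∀ z : ℤ, x + (z : ℝ) ∈ K) (h0 : volume K ≠ 0) :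
    0 < (volume (K ∩ Set.Icc (0 : ℝ) 1)).toReal := by
  refine ENNReal.toReal_pos ?_ ?_
  · intro h1
    apply h0
    have h2 : K ⊆ ⋃ z : ℤ, (fun x : ℝ => x + (z : ℝ)) ⁻¹' (K ∩ Set.Icc (0 : ℝ) 1) := by
      intro x hx
      rw [Set.mem_iUnion]
      refine ⟨-⌊x⌋, hK x hx _, ?_⟩
      push_cast
      constructor
      · linarith [Int.floor_le x]
      · linarith [Int.lt_floor_add_one x]
    refine measure_mono_null h2 ?_
    rw [measure_iUnion_null_iff]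
    intro z
    rw [measure_preimage_add_right]
    exact h1
  · refine ne_top_of_le_ne_top ?_ (measure_mono Set.inter_subset_right)
    rw [Real.volume_Icc]
    exact ENNReal.ofReal_ne_top

lemma vol_le (K : Set ℝ) (δ R : ℝ) (hR : 1 / R ≤ δ) :
    (volume (K ∩ Set.Icc (0 : ℝ) 1)).toReal ≤
      (volume (Inn (σ := Fin 1) {x | x 0 ∈ Nr K δ} R)).toReal := by
  have hfin : volume (Inn (σ := Fin 1) {x | x 0 ∈ Nr K δ} R) ≠ ⊤ := by
    refine ne_top_of_le_ne_top ?_ (measure_mono (fun x hx => hx.1))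
    rw [Real.volume_Icc_pi]
    simp
  refine ENNReal.toReal_mono hfin ?_
  rw [← (volume_preserving_funUnique (Fin 1) ℝ).measure_preimage_equiv]
  refine measure_mono ?_
  intro x hx
  have hx' : x default ∈ K ∩ Set.Icc (0 : ℝ) 1 := hx
  have e : ∀ s : Fin 1, x s = x default := fun s => by rw [Subsingleton.elim s default]
  refine ⟨⟨fun s => ?_, fun s => ?_⟩, fun y hy => ⟨0, x default, hx'.1, ?_⟩⟩
  · rw [e s]; exact hx'.2.1
  · rw [e s]; exact hx'.2.2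
  · have h1 := hy 0
    rw [e 0] at h1
    simpa using h1.trans hR

end W1x

open W1x in
theorem rowW1 : W1_stmt := by
  intro K hK h0
  refine ⟨(volume (K ∩ Set.Icc (0 : ℝ) 1)).toReal, vol_pos K hK h0, ?_⟩
  intro F hF s hs δ₁ ε hδ₁ hε
  obtain ⟨c, hc, C, H₁, h⟩ := zero_oneq (σ := Fin 1) (fun _ => s) (fun _ => hs) ε hε
  obtain ⟨R, hR⟩ : ∃ R : ℝ, R = max 1 (1 / δ₁) := ⟨_, rfl⟩
  have hR1 : 1 ≤ R := by rw [hR]; exact le_max_left _ _
  have hR0 : 0 < R := by linarith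
  have hRd : 1 / R ≤ δ₁ := by
    rw [div_le_iff₀ hR0]
    have : 1 / δ₁ ≤ R := by rw [hR]; exact le_max_right _ _
    rw [div_le_iff₀ hδ₁] at this
    linarith
  refine ⟨max 1 ⌈(C : ℝ) * R ^ C⌉₊, le_max_left _ _, fun δ hδ => ?_⟩
  have hQ : (C : ℝ) * R ^ C ≤ ((max 1 ⌈(C : ℝ) * R ^ C⌉₊ : ℕ) : ℝ) :=
    (Nat.le_ceil _).trans (by exact_mod_cast le_max_right _ _)
  obtain ⟨d, hd⟩ : ∃ d : ℝ, d = min δ 1 := ⟨_, rfl⟩
  have hd0 : 0 < d := by rw [hd]; exact lt_min hδ one_pos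
  have hd1 : d ≤ 1 := by rw [hd]; exact min_le_right _ _
  have hdδ : d ≤ δ := by rw [hd]; exact min_le_left _ _
  have hlim : ∀ᶠ H : ℕ in Filter.atTop, R / d ≤ (H : ℝ) ^ c :=
    ((tendsto_rpow_atTop hc).comp tendsto_natCast_atTop_atTop).eventually_ge_atTop _
  obtain ⟨H₃, hH₃⟩ := Filter.eventually_atTop.mp hlim
  refine ⟨max H₁ H₃, fun H N hH hHN κ hκ => ?_⟩
  have key := h (Ix s F) (fam s F) (top s F) muC (fam_le s F hF) norm_muC muC_mul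
    (fam_dil s F hF) N H ((le_max_left _ _).trans hH) hHN R d hR1 hd0 hd1
    (hH₃ H ((le_max_right _ _).trans hH)) {x | x 0 ∈ Nr K δ₁} κ (fun L hL1 hL2 => by
      refine le_trans (sum_le_sum fun n _ => mul_le_mul_of_nonneg_left ?_ (by positivity))
        (hκ L hL1 hL2)
      refine le_TopS s _ F hF _ ?_ L n
      rintro i ⟨z, hz⟩
      exact Nr_per K hK δ₁ _ (z 0) hz)
  refine le_trans ?_ key
  have h1 : AT s (Mn (max 1 ⌈(C : ℝ) * R ^ C⌉₊) δ) F (fun _ => 1) N H ≤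
      ∑ n ∈ Icc 1 N, (1 / (n : ℝ)) *
        GS (fam s F) muC {i | Mnr (fun _ => s) (C * R ^ C) d (top s F i)} H n := by
    refine sum_le_sum fun n _ => mul_le_mul_of_nonneg_left ?_ (by positivity)
    refine TopS_le s _ F hF _ ?_ H n
    intro i hi
    refine minor s _ _ d _ hQ ?_
    intro q hq1 hq2 b
    exact hdδ.trans (hi q hq1 hq2 b)
  have h2 : 0 ≤ ∑ n ∈ Icc 1 N, (1 / (n : ℝ)) *
        GS (fam s F) muC {i | Mnr (fun _ => s) (C * R ^ C) d (top s F i)} H n :=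
    sum_nonneg fun n _ => mul_nonneg (by positivity) (GG_nonneg _ _ _ _)
  exact mul_le_mul (vol_le K δ₁ R hRd) h1
    (sum_nonneg fun n _ => mul_nonneg (by positivity) (TopS_nonneg _ _ _ _ _ _))
    ENNReal.toReal_nonneg

end Pool.Agent.TUK
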