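import Pool.Agent.Lib.TUK.Defs3
import Pool.Agent.Lib.TUK.VK

/-!
# TUK row W2: change of the periodic weight (helper71)
-/

set_option autoImplicit false
open Finset Polynomial MeasureTheory

namespace Pool.Agent.TUK

open Pool.Agent.Lib.MP_663568_nt Pool.Agent.Lib.MP_663568_nt.Katai
  Pool.Agent.Lib.MP_663568_nt.Nul Pool.Agent.TU

open RVK in
theorem rowW2 : W2_stmt := by
  intro q hq ψ ψ' hψ hψ' h1ψ h1ψ'
  obtain ⟨c, hc⟩ := fourier q hq (fun h => (starRingEnd ℂ) (ψ' h) * ψ h) (fun h => by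
    show (starRingEnd ℂ) (ψ' (h + q)) * ψ (h + q) = _
    rw [hψ, hψ'])
  refine ⟨1 + ∑ b ∈ range q, ‖c b‖, by positivity, ?_⟩
  intro F hF s A hs H n
  unfold TopS
  set S : ℝ := ⨆ p : {p : ℝ[X] × (ℕ → ℂ) // p.1.natDegree ≤ s ∧ p.1.coeff s ∈ A ∧ p.2 ∈ F},
    ‖∑ h ∈ Icc 1 H, muC (n + h) * (p.1.2 h * (ψ' h * ee (p.1.1.eval (h : ℝ))))‖ with hS
  have hS0 : 0 ≤ S := Real.iSup_nonneg fun _ => norm_nonneg _
  have hbdd : BddAbove (Set.range fun p : {p : ℝ[X] × (ℕ → ℂ) // p.1.natDegree ≤ s ∧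
      p.1.coeff s ∈ A ∧ p.2 ∈ F} =>
      ‖∑ h ∈ Icc 1 H, muC (n + h) * (p.1.2 h * (ψ' h * ee (p.1.1.eval (h : ℝ))))‖) := by
    refine ⟨H, ?_⟩
    rintro _ ⟨p, rfl⟩
    refine RVK.term_le (a := fun h => p.1.2 h * (ψ' h * ee (p.1.1.eval (h : ℝ))))
      (fun m => ?_) H n
    rw [norm_mul, norm_mul, norm_ee, mul_one, h1ψ', mul_one]
    exact hF _ p.2.2.2 _
  refine Real.iSup_le (fun p => ?_) (by positivity)
  obtain ⟨⟨P, u⟩, hP, hPA, hu⟩ := p
  replace hu : u ∈ F := hu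
  replace hP : P.natDegree ≤ s := hP
  replace hPA : P.coeff s ∈ A := hPA
  show ‖∑ h ∈ Icc 1 H, muC (n + h) * (u h * (ψ h * ee (P.eval (h : ℝ))))‖ ≤ _
  have h1 : ∑ h ∈ Icc 1 H, muC (n + h) * (u h * (ψ h * ee (P.eval (h : ℝ)))) =
      ∑ h ∈ Icc 1 H, (muC (n + h) * (u h * (ψ' h * ee (P.eval (h : ℝ))))) *
        ((starRingEnd ℂ) (ψ' h) * ψ h) := by
    refine sum_congr rfl fun h _ => ?_
    have e := conj_mul_self_of_norm (h1ψ' h)
    linear_combination (-(muC (n + h) * (u h * (ψ h * ee (P.eval (h : ℝ)))))) * e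
  rw [h1]
  refine (window q _ c hc (fun h => muC (n + h) * (u h * (ψ' h * ee (P.eval (h : ℝ))))) H).trans ?_
  have h2 : ∀ b ∈ range q, ‖∑ h ∈ Icc 1 H, (muC (n + h) * (u h * (ψ' h * ee (P.eval (h : ℝ))))) *
      ee ((b : ℝ) * ((h : ℝ) / q))‖ ≤ S := by
    intro b _
    have hdeg : (P + C ((b : ℝ) / q) * X).natDegree ≤ s := by
      refine (natDegree_add_le _ _).trans (max_le hP ?_)
      refine (natDegree_C_mul_le _ _).trans ?_
      rw [natDegree_X]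
      omega
    have hco : (P + C ((b : ℝ) / q) * X).coeff s = P.coeff s := by
      rw [coeff_add, coeff_C_mul, coeff_X_of_ne_one (by omega), mul_zero, add_zero]
    have h3 : ∑ h ∈ Icc 1 H, (muC (n + h) * (u h * (ψ' h * ee (P.eval (h : ℝ))))) *
        ee ((b : ℝ) * ((h : ℝ) / q)) =
        ∑ h ∈ Icc 1 H, muC (n + h) * (u h * (ψ' h *
          ee ((P + C ((b : ℝ) / q) * X).eval (h : ℝ)))) := by
      refine sum_congr rfl fun h _ => ?_
      have e : ee ((P + C ((b : ℝ) / q) * X).eval (h : ℝ)) =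
          ee (P.eval (h : ℝ)) * ee ((b : ℝ) * ((h : ℝ) / q)) := by
        rw [← ee_add]
        congr 1
        simp only [eval_add, eval_mul, eval_C, eval_X]
        ring
      rw [e]
      ring
    rw [h3]
    exact le_ciSup hbdd ⟨(P + C ((b : ℝ) / q) * X, u), hdeg, by rw [hco]; exact hPA, hu⟩
  calc ∑ b ∈ range q, ‖c b‖ * ‖∑ h ∈ Icc 1 H, (muC (n + h) * (u h * (ψ' h *
      ee (P.eval (h : ℝ))))) * ee ((b : ℝ) * ((h : ℝ) / q))‖ ≤ ∑ b ∈ range q, ‖c b‖ * S :=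
        sum_le_sum fun b hb => mul_le_mul_of_nonneg_left (h2 b hb) (norm_nonneg _)
    _ = (∑ b ∈ range q, ‖c b‖) * S := by rw [sum_mul]
    _ ≤ (1 + ∑ b ∈ range q, ‖c b‖) * S :=
        mul_le_mul_of_nonneg_right (by linarith) hS0

end Pool.Agent.TUK
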