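import Pool.Agent.Lib.TUK.Defs3
import Pool.Agent.Lib.TU.C1

/-!
# Row W3: a section of positive measure
-/

set_option autoImplicit false
open Finset Polynomial MeasureTheory

namespace Pool.Agent.TUK

open Pool.Agent.Lib.MP_663568_nt Pool.Agent.Lib.MP_663568_nt.Katai
  Pool.Agent.Lib.MP_663568_nt.Nul Pool.Agent.TU

namespace W3aux

/-- A periodic set of positive measure meets the unit box in a set of positive measure. -/
theorem vol_box {s : ℕ} {C : Set (Fin s → ℝ)} (hP : Per C) (hC : volume C ≠ 0) :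
    volume (C ∩ C3aux.box s) ≠ 0 := by
  intro h0
  apply hC
  have hsub : C ⊆ ⋃ z : Fin s → ℤ, (fun x : Fin s → ℝ => x + fun i => (z i : ℝ)) ⁻¹'
      (C ∩ C3aux.box s) := by
    intro x hx
    rw [Set.mem_iUnion]
    refine ⟨fun i => -⌊x i⌋, ?_, fun i => ?_⟩
    · exact hP x hx _
    · show x i + ((-⌊x i⌋ : ℤ) : ℝ) ∈ Set.Icc (0 : ℝ) 1
      push_cast
      have h1 := Int.floor_le (x i)
      have h2 := Int.lt_floor_add_one (x i)
      exact ⟨by linarith, by linarith⟩
  refine measure_mono_null hsub (measure_iUnion_null fun z => ?_)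
  rw [measure_preimage_add_right]
  exact h0

/-- The set of the last coordinates with a large section. -/
def Lv (s' : ℕ) (C : Set (Fin (s' + 1) → ℝ)) (κ : ℝ) : Set ℝ :=
  {y | ENNReal.ofReal κ ≤ fib (s' + 1) C (C1x.al s' 1 y 0 0)}

theorem al_last {s' : ℕ} (y : ℝ) (i : Fin (s' + 1)) (hi : i.val = s') :
    C1x.al (t := s' + 1) s' 1 y 0 0 i = y := by
  unfold C1x.al
  rw [if_pos hi]
  simp

theorem lv_per {s' : ℕ} {C : Set (Fin (s' + 1) → ℝ)} (hP : Per C) (κ : ℝ) (y : ℝ)
    (hy : y ∈ Lv s' C κ) (z : ℤ) : y + (z : ℝ) ∈ Lv s' C κ := by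
  unfold Lv at hy ⊢
  rw [Set.mem_ofPred_eq] at hy ⊢
  have h1 := C1x.fib_int (s' + 1) C hP (C1x.al s' 1 y 0 0) (fun _ => z)
  rw [← h1] at hy
  rwa [C1x.fib_congr (s' + 1) C (C1x.al s' 1 (y + z) 0 0)
    (fun i => C1x.al s' 1 y 0 0 i + (z : ℝ)) (fun i hi => by
      have h2 : i.val = s' := by have := i.2; omega
      rw [al_last _ i h2, al_last _ i h2])]

theorem exists_level {s' : ℕ} {C : Set (Fin (s' + 1) → ℝ)} (hcl : IsClosed C) (hP : Per C)
    (hC : volume C ≠ 0) : ∃ κ : ℝ, 0 < κ ∧ volume (Lv s' C κ) ≠ 0 := by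
  by_contra hcon
  push Not at hcon
  apply vol_box hP hC
  have hmp := volume_preserving_piFinSuccAbove (fun _ : Fin (s' + 1) => ℝ) (Fin.last s')
  have hm : MeasurableSet (C ∩ C3aux.box (s' + 1)) :=
    hcl.measurableSet.inter (C3aux.measurableSet_box _)
  rw [← (hmp.symm _).measure_preimage hm.nullMeasurableSet, Measure.volume_eq_prod,
    Measure.measure_prod_null (hm.preimage (MeasurableEquiv.measurable _))]
  -- almost every section is null
  have hn : volume (⋃ n : ℕ, Lv s' C (1 / ((n : ℝ) + 1))) = 0 :=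
    measure_iUnion_null fun n => hcon _ (by positivity)
  rw [Filter.EventuallyEq, ae_iff]
  refine measure_mono_null (fun y hy => ?_) hn
  simp only [Set.mem_ofPred_eq, Pi.zero_apply] at hy
  have hfib : 0 < fib (s' + 1) C (C1x.al s' 1 y 0 0) := by
    refine lt_of_lt_of_le (pos_iff_ne_zero.2 hy) (measure_mono ?_)
    rintro z hz
    have hz' : (MeasurableEquiv.piFinSuccAbove (fun _ : Fin (s' + 1) => ℝ)
          (Fin.last s')).symm (y, z) ∈ C ∩ C3aux.box (s' + 1) := hz
    have h6 : (MeasurableEquiv.piFinSuccAbove (fun _ : Fin (s' + 1) => ℝ)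
          (Fin.last s')).symm (y, z) = glue (s' + 1 - 1) z (C1x.al s' 1 y 0 0) := by
      funext i
      unfold glue
      simp only [MeasurableEquiv.piFinSuccAbove_symm_apply, Fin.insertNthEquiv_apply]
      by_cases hi : i.val < s' + 1 - 1
      · rw [dif_pos hi]
        have hi' : i.val < s' := by omega
        have h7 : i = (Fin.last s').succAbove ⟨i.val, hi'⟩ := by
          rw [Fin.succAbove_last]; rfl
        conv_lhs => rw [h7]
        rw [Fin.insertNth_apply_succAbove]
      · rw [dif_neg hi]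
        have hi' : i.val = s' := by have := i.2; omega
        have h7 : i = Fin.last s' := Fin.ext hi'
        rw [al_last _ i hi', h7, Fin.insertNth_apply_same]
    rw [h6] at hz'
    refine ⟨fun i => ?_, hz'.1⟩
    have h8 := hz'.2 ⟨i.val, by have := i.2; omega⟩
    unfold glue at h8
    rwa [dif_pos i.2] at h8
  -- some level
  rw [Set.mem_iUnion]
  have hne : fib (s' + 1) C (C1x.al s' 1 y 0 0) ≠ ⊤ := by
    refine ne_of_lt (lt_of_le_of_lt (measure_mono (t := C3aux.box (s' + 1 - 1)) ?_) ?_)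
    · exact fun z hz => hz.1
    · rw [C3aux.volume_box]; exact ENNReal.one_lt_top
  have hpos : 0 < (fib (s' + 1) C (C1x.al s' 1 y 0 0)).toReal :=
    ENNReal.toReal_pos hfib.ne' hne
  obtain ⟨n, hn'⟩ := exists_nat_one_div_lt hpos
  refine ⟨n, ?_⟩
  unfold Lv
  rw [Set.mem_ofPred_eq]
  exact (ENNReal.ofReal_le_iff_le_toReal hne).2 hn'.le

/-- A closed periodic set of irrational numbers inside of a closed periodic set of positive
measure. -/
theorem exists_K {L : Set ℝ} (hcl : IsClosed L) (hper : ∀ x ∈ L, ∀ z : ℤ, x + (z : ℝ) ∈ L)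
    (hL : volume L ≠ 0) : ∃ K : Set ℝ, IsClosed K ∧ (∀ x ∈ K, ∀ z : ℤ, x + (z : ℝ) ∈ K) ∧
      (∀ x ∈ K, Irrational x) ∧ volume K ≠ 0 ∧ K ⊆ L := by
  -- a bounded piece
  set E : Set ℝ := (L ∩ Set.Icc 0 1) \ Set.range ((↑) : ℚ → ℝ) with hE
  have hEm : MeasurableSet E := by
    refine (hcl.measurableSet.inter measurableSet_Icc).diff ?_
    exact (Set.countable_range _).measurableSet
  have hE0 : volume E ≠ 0 := by
    intro h0
    apply hL
    have h1 : volume (L ∩ Set.Icc 0 1) = 0 := by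
      have h2 : L ∩ Set.Icc 0 1 ⊆ E ∪ Set.range ((↑) : ℚ → ℝ) := by
        intro x hx
        by_cases hq : x ∈ Set.range ((↑) : ℚ → ℝ)
        · exact Or.inr hq
        · exact Or.inl ⟨hx, hq⟩
      exact measure_mono_null h2 (measure_union_null h0 ((Set.countable_range _).measure_zero _))
    have h3 : L ⊆ ⋃ z : ℤ, (fun x : ℝ => x + (z : ℝ)) ⁻¹' (L ∩ Set.Icc 0 1) := by
      intro x hx
      rw [Set.mem_iUnion]
      refine ⟨-⌊x⌋, hper x hx _, ?_⟩
      show x + ((-⌊x⌋ : ℤ) : ℝ) ∈ Set.Icc (0 : ℝ) 1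
      push_cast
      have h1 := Int.floor_le x
      have h2 := Int.lt_floor_add_one x
      exact ⟨by linarith, by linarith⟩
    refine measure_mono_null h3 (measure_iUnion_null fun z => ?_)
    rw [measure_preimage_add_right]
    exact h1
  obtain ⟨K₀, hK₀E, hK₀c, hK₀⟩ := hEm.exists_lt_isCompact (pos_iff_ne_zero.2 hE0)
  set K : Set ℝ := ((↑) : ℝ → AddCircle (1 : ℝ)) ⁻¹' (((↑) : ℝ → AddCircle (1 : ℝ)) '' K₀) with hK
  have hmem : ∀ x, x ∈ K → ∃ y ∈ K₀, ∃ z : ℤ, x = y + (z : ℝ) := by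
    rintro x ⟨y, hy, hyx⟩
    refine ⟨y, hy, ?_⟩
    have h1 := (QuotientAddGroup.eq (s := AddSubgroup.zmultiples (1 : ℝ))).1 hyx
    rw [AddSubgroup.mem_zmultiples_iff] at h1
    obtain ⟨z, hz⟩ := h1
    refine ⟨z, ?_⟩
    rw [zsmul_eq_mul, mul_one] at hz
    linarith
  refine ⟨K, ?_, ?_, ?_, ?_, ?_⟩
  · exact (hK₀c.image (AddCircle.continuous_mk' (1 : ℝ))).isClosed.preimage
      (AddCircle.continuous_mk' (1 : ℝ))
  · rintro x ⟨y, hy, hyx⟩ z
    refine ⟨y, hy, ?_⟩
    show ((y : ℝ) : AddCircle (1 : ℝ)) = ((x + (z : ℝ) : ℝ) : AddCircle (1 : ℝ))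
    rw [hyx]
    have h1 : ((z : ℝ) : AddCircle (1 : ℝ)) = 0 := by
      rw [AddCircle.coe_eq_zero_iff]
      exact ⟨z, by simp⟩
    rw [AddCircle.coe_add, h1, add_zero]
  · intro x hx
    obtain ⟨y, hy, z, rfl⟩ := hmem x hx
    have h1 : Irrational y := (hK₀E hy).2
    exact h1.add_intCast z
  · have h1 : K₀ ⊆ K := fun x hx => ⟨x, hx, rfl⟩
    exact (lt_of_lt_of_le (lt_of_le_of_lt bot_le hK₀) (measure_mono h1)).ne'
  · intro x hx
    obtain ⟨y, hy, z, rfl⟩ := hmem x hx
    exact hper y (hK₀E hy).1.1 z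

end W3aux

open W3aux in
theorem rowW3 : W3_stmt := by
  intro s hs C hcl hP hC
  obtain ⟨s', rfl⟩ : ∃ s', s = s' + 1 := ⟨s - 1, by omega⟩
  obtain ⟨κ, hκ, hL⟩ := exists_level hcl hP hC
  obtain ⟨K, hKc, hKp, hKi, hK0, hKL⟩ := exists_K (L := Lv s' C κ)
    (C1x.isClosed_level s' 1 C hcl κ 0 0) (fun x hx z => lv_per hP κ x hx z) hL
  have hne : C.Nonempty := by
    by_contra h
    rw [Set.not_nonempty_iff_eq_empty] at h
    exact hC (by rw [h, measure_empty])
  refine ⟨κ / 2, by positivity, K, hKc, hKp, hKi, hK0, fun δ' hδ' => ?_⟩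
  have hgc : Continuous fun x : Fin (s' + 1) → ℝ => max 0 (1 - Metric.infDist x C / δ') := by
    have := Metric.continuous_infDist_pt C
    fun_prop
  refine ⟨fun x => max 0 (1 - Metric.infDist x C / δ'), hgc, ?_, ?_, ?_, ?_, δ' / 2,
    by positivity, ?_⟩
  · intro x z
    simp only [C3aux.infDist_add_int hne hP]
  · exact fun x => le_max_left _ _
  · intro x
    have : 0 ≤ Metric.infDist x C / δ' := div_nonneg Metric.infDist_nonneg hδ'.le
    exact max_le zero_le_one (by linarith)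
  · intro x hx
    have h1 : Metric.infDist x C < δ' := by
      by_contra hcon
      push Not at hcon
      apply hx
      have h2 : 1 ≤ Metric.infDist x C / δ' := (le_div_iff₀ hδ').2 (by linarith)
      exact max_eq_left (by linarith)
    obtain ⟨β, hβ, h2⟩ := (Metric.infDist_lt_iff hne).1 h1
    refine ⟨β, hβ, fun i => ?_⟩
    have h3 := (dist_le_pi_dist x β i).trans h2.le
    rwa [Real.dist_eq] at h3
  · intro α hα
    obtain ⟨c, hc, hαc⟩ := hα (Fin.last s') rfl
    have hcL : ENNReal.ofReal κ ≤ fib (s' + 1) C (C1x.al s' 1 c 0 0) := hKL hc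
    set S : Set (Fin (s' + 1 - 1) → ℝ) := {z | (∀ i, z i ∈ Set.Icc (0 : ℝ) 1) ∧
      glue (s' + 1 - 1) z (C1x.al s' 1 c 0 0) ∈ C} with hS
    have hSm : MeasurableSet S := (C3aux.measurableSet_box _).inter
      (hcl.preimage (C3aux.continuous_glue _ _)).measurableSet
    have hSb : S ⊆ C3aux.box (s' + 1 - 1) := fun z hz => hz.1
    have hg2 : ∀ z ∈ S, (1 / 2 : ℝ) ≤
        max 0 (1 - Metric.infDist (glue (s' + 1 - 1) z α) C / δ') := by
      intro z hz
      have h1 : Metric.infDist (glue (s' + 1 - 1) z α) C ≤ δ' / 2 := by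
        refine (Metric.infDist_le_dist_of_mem hz.2).trans
          ((dist_pi_le_iff (by positivity)).2 fun i => ?_)
        unfold glue
        by_cases hi : i.val < s' + 1 - 1
        · rw [dif_pos hi, dif_pos hi, dist_self]
          positivity
        · rw [dif_neg hi, dif_neg hi]
          have hi' : i.val = s' := by have := i.2; omega
          rw [al_last _ i hi', Real.dist_eq]
          have h7 : i = Fin.last s' := Fin.ext hi'
          rw [h7]
          exact hαc
      have h2 : Metric.infDist (glue (s' + 1 - 1) z α) C / δ' ≤ 1 / 2 := by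
        rw [div_le_iff₀ hδ']
        linarith
      exact le_max_of_le_right (by linarith)
    have hgc2 : Continuous fun z : Fin (s' + 1 - 1) → ℝ =>
        max 0 (1 - Metric.infDist (glue (s' + 1 - 1) z α) C / δ') :=
      hgc.comp (C3aux.continuous_glue _ _)
    have hint : IntegrableOn (fun z : Fin (s' + 1 - 1) → ℝ =>
        max 0 (1 - Metric.infDist (glue (s' + 1 - 1) z α) C / δ')) (C3aux.box (s' + 1 - 1)) :=
      hgc2.continuousOn.integrableOn_compact (C3aux.isCompact_box _)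
    have hSfin : volume S ≠ ⊤ := by
      refine ne_of_lt (lt_of_le_of_lt (measure_mono hSb) ?_)
      rw [C3aux.volume_box]; exact ENNReal.one_lt_top
    calc κ / 2 ≤ (1 / 2) * (volume S).toReal := by
          have h3 : κ ≤ (volume S).toReal := (ENNReal.ofReal_le_iff_le_toReal hSfin).1 hcL
          linarith
      _ = ∫ _ in S, (1 / 2 : ℝ) := by
          rw [setIntegral_const, smul_eq_mul, mul_comm]
          rfl
      _ ≤ ∫ z in S, max 0 (1 - Metric.infDist (glue (s' + 1 - 1) z α) C / δ') :=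
          setIntegral_mono_on (integrableOn_const hSfin) (hint.mono_set hSb) hSm hg2
      _ ≤ ∫ z in C3aux.box (s' + 1 - 1),
          max 0 (1 - Metric.infDist (glue (s' + 1 - 1) z α) C / δ') :=
          setIntegral_mono_set hint (Filter.Eventually.of_forall fun z => le_max_left _ _)
            (Filter.Eventually.of_forall hSb)

end Pool.Agent.TUK
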