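import Pool.Agent.Lib.TUK.Defs3
import Pool.Agent.Lib.TU.RowD

/-!
# Row W4: equidistribution of the Taylor coefficients along a progression
-/

set_option autoImplicit false
open Finset Polynomial MeasureTheory

namespace Pool.Agent.TUK

open Pool.Agent.Lib.MP_663568_nt Pool.Agent.Lib.MP_663568_nt.Katai
  Pool.Agent.Lib.MP_663568_nt.Nul Pool.Agent.TU

namespace W4x

theorem taylor_top (R : ℝ[X]) (d : ℕ) (h : R.natDegree ≤ d) (b : ℝ) :
    (taylor b R).coeff d = R.coeff d := by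
  have e : hasseDeriv d R = C (R.coeff d) := by
    ext n
    rw [hasseDeriv_coeff, coeff_C]
    rcases Nat.eq_zero_or_pos n with rfl | hn
    · simp
    · rw [if_neg (by omega), coeff_eq_zero_of_natDegree_lt (by omega), mul_zero]
  rw [taylor_coeff, e, eval_C]

theorem Mn_mono {Q Q' : ℕ} (h : Q ≤ Q') (δ : ℝ) : Mn Q' δ ⊆ Mn Q δ :=
  fun _ hx q hq1 hq2 b => hx q hq1 (hq2.trans h) b

theorem sum_Icc_shift (f : ℕ → ℂ) (M : ℕ) : ∑ m ∈ Icc 1 M, f m = ∑ j ∈ range M, f (j + 1) := by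
  induction M with
  | zero => simp
  | succ M ih => rw [Finset.sum_Icc_succ_top (by omega), ih, sum_range_succ]

/-- One frequency which is not low. -/
theorem freq {s : ℕ} (lam : Fin s → ℤ) (hlam : ¬ Low s lam) {ρ : ℝ} (hρ : 0 < ρ)
    (hρ2 : ρ ≤ 1 / 2) {l : ℕ} (hl : 1 ≤ l) : ∃ Q : ℕ, 1 ≤ Q ∧ ∀ δ : ℝ, 0 < δ →
    ∃ M₀ : ℕ, ∀ M : ℕ, M₀ ≤ M → ∀ P : ℝ[X], P.natDegree ≤ s → P.coeff s ∈ Mn Q δ → ∀ j₀ : ℕ,
      ‖∑ j ∈ range M, ee (∑ i, (lam i : ℝ) * tv s P ((l * (j₀ + j) : ℕ) : ℝ) i)‖ ≤ ρ * M := by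
  classical
  -- the least index
  obtain ⟨v, hvs, hv, hv'⟩ : ∃ v : Fin s, v.val + 1 < s ∧ lam v ≠ 0 ∧
      ∀ i, i < v → lam i = 0 := by
    have h3 : ∃ i : Fin s, i.val + 1 < s ∧ lam i ≠ 0 := by
      rw [Low] at hlam
      push Not at hlam
      exact hlam
    obtain ⟨i₀, hi₀, hi₀'⟩ := h3
    have hne : (univ.filter fun i : Fin s => lam i ≠ 0).Nonempty := ⟨i₀, by simp [hi₀']⟩
    refine ⟨(univ.filter fun i : Fin s => lam i ≠ 0).min' hne, ?_, ?_, ?_⟩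
    · have h4 := min'_le (univ.filter fun i : Fin s => lam i ≠ 0) i₀ (by simp [hi₀'])
      have h5 : ((univ.filter fun i : Fin s => lam i ≠ 0).min' hne).val ≤ i₀.val := h4
      omega
    · have h4 := min'_mem _ hne
      rw [mem_filter] at h4
      exact h4.2
    · intro i hi
      by_contra h4
      have h5 := min'_le (univ.filter fun i : Fin s => lam i ≠ 0) i (by simp [h4])
      exact absurd hi (not_lt.2 h5)
  obtain ⟨d, hd⟩ : ∃ d, d = s - (v.val + 1) := ⟨_, rfl⟩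
  have hd1 : 1 ≤ d := by omega
  obtain ⟨C, hC1, hC⟩ := weyl_inverse d hd1
  obtain ⟨B, hB⟩ : ∃ B : ℕ, B = ⌈(1 / ρ) ^ C⌉₊ := ⟨_, rfl⟩
  have hB1 : (1 / ρ) ^ C ≤ B := by rw [hB]; exact Nat.le_ceil _
  obtain ⟨c, hc⟩ : ∃ c : ℕ, c = (s.choose (v.val + 1)) := ⟨_, rfl⟩
  have hcpos : 0 < c := by
    rw [hc]
    exact Nat.choose_pos (by omega)
  have hlv : 0 < (lam v).natAbs := Int.natAbs_pos.2 hv
  have hBpos : 1 ≤ B := by
    have h1 : (1 : ℝ) ≤ 1 / ρ := by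
      rw [le_div_iff₀ hρ]; linarith
    have h2 : (1 : ℝ) ≤ (1 / ρ) ^ C := one_le_pow₀ h1
    exact_mod_cast h2.trans hB1
  refine ⟨B * ((lam v).natAbs * c * l ^ d), ?_, fun δ hδ => ⟨B + ⌈(B : ℝ) / δ⌉₊ + 1,
    fun M hM P hP hPs j₀ => ?_⟩⟩
  · exact Nat.mul_pos hBpos (by positivity)
  by_contra hcon
  rw [not_le] at hcon
  have hM1 : 1 ≤ M := by omega
  have hMr : (1 : ℝ) ≤ M := by exact_mod_cast hM1
  obtain ⟨R, hR⟩ : ∃ R : ℝ[X], R = comb lam P := ⟨_, rfl⟩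
  have hRd : R.natDegree ≤ d := by
    rw [natDegree_le_iff_coeff_eq_zero]
    intro a ha
    rw [hR, comb_coeff]
    refine sum_eq_zero fun i _ => ?_
    rcases lt_or_ge i v with h7 | h7
    · rw [hv' i h7, Int.cast_zero, zero_mul]
    · have h8 : v.val ≤ i.val := h7
      rw [coeff_eq_zero_of_natDegree_lt (by omega), mul_zero, mul_zero]
  have hRc : R.coeff d = (lam v : ℝ) * ((c : ℝ) * P.coeff s) := by
    rw [hR, comb_coeff, sum_eq_single v]
    · have e : d + (v.val + 1) = s := by omega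
      rw [e, ← hc]
    · intro i _ hi
      rcases lt_or_ge i v with h7 | h7
      · rw [hv' i h7, Int.cast_zero, zero_mul]
      · have h8 : v.val < i.val := lt_of_le_of_ne h7 (fun h => hi (Fin.ext h).symm)
        rw [coeff_eq_zero_of_natDegree_lt (by omega), mul_zero, mul_zero]
    · intro h
      exact absurd (mem_univ v) h
  -- the polynomial in `j`
  obtain ⟨S, hS⟩ : ∃ S : ℝ[X], S = (taylor ((l : ℝ) * ((j₀ : ℝ) - 1)) R).comp
      (Polynomial.C (l : ℝ) * X) := ⟨_, rfl⟩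
  have hSe : ∀ x : ℝ, S.eval x = R.eval ((l : ℝ) * ((j₀ : ℝ) - 1 + x)) := by
    intro x
    rw [hS, eval_comp, taylor_eval]
    congr 1
    simp only [eval_mul, eval_C, eval_X]
    ring
  have hSc : S.coeff d = R.coeff d * (l : ℝ) ^ d := by
    rw [hS, comp_C_mul_X_coeff, taylor_top R d hRd]
  have hSd : S.natDegree ≤ d := by
    rw [hS]
    refine natDegree_comp_le.trans ?_
    rw [natDegree_taylor]
    have h1 : (Polynomial.C (l : ℝ) * X).natDegree ≤ 1 :=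
      (natDegree_C_mul_le _ _).trans natDegree_X_le
    calc R.natDegree * (Polynomial.C (l : ℝ) * X).natDegree ≤ d * 1 := Nat.mul_le_mul hRd h1
      _ = d := mul_one d
  have hsum : ρ * M ≤ ‖∑ m ∈ Icc 1 M, ee (S.eval (m : ℝ))‖ := by
    refine hcon.le.trans (le_of_eq ?_)
    congr 1
    rw [sum_Icc_shift]
    refine sum_congr rfl fun j _ => ?_
    rw [hSe, hR, comb_eval]
    have e : ((l : ℝ) * ((j₀ : ℝ) - 1 + ((j + 1 : ℕ) : ℝ))) = ((l * (j₀ + j) : ℕ) : ℝ) := by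
      push_cast
      ring
    rw [e]
  obtain ⟨q, hq1, hq2, hq3⟩ := hC ρ M S hρ hρ2 (hB1.trans (by
    have : B ≤ M := by omega
    exact_mod_cast this)) hSd hsum
  rw [hSc, hRc] at hq3
  have hqB : q ≤ B := by exact_mod_cast hq2.trans hB1
  obtain ⟨a, ha⟩ : ∃ a : ℕ, a = (lam v).natAbs := ⟨_, rfl⟩
  rw [← ha] at hlv hPs
  obtain ⟨q', hq'⟩ : ∃ q' : ℕ, q' = q * (a * c * l ^ d) := ⟨_, rfl⟩
  have hq'1 : 1 ≤ q' := by
    rw [hq']
    exact Nat.mul_pos hq1 (Nat.mul_pos (Nat.mul_pos hlv hcpos) (Nat.pow_pos hl))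
  have hq'2 : q' ≤ B * (a * c * l ^ d) := by
    rw [hq']
    exact Nat.mul_le_mul_right _ hqB
  have hnd : nd ((q' : ℝ) * P.coeff s) ≤ (1 / ρ) ^ C / (M : ℝ) ^ d := by
    refine le_trans (le_of_eq ?_) hq3
    rcases Int.natAbs_eq (lam v) with h | h
    · rw [← ha] at h
      have h5 : (lam v : ℝ) = (a : ℝ) := by
        rw [h]
        exact Int.cast_natCast a
      rw [h5]
      congr 1
      rw [hq']
      push_cast
      ring
    · rw [← ha] at h
      have h5 : (lam v : ℝ) = -(a : ℝ) := by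
        rw [h, Int.cast_neg]
        congr 1
      rw [h5, ← nd_neg]
      congr 1
      rw [hq']
      push_cast
      ring
  have hlt : (1 / ρ) ^ C / (M : ℝ) ^ d < δ := by
    rw [div_lt_iff₀ (by positivity)]
    have h1 : (B : ℝ) / δ < M := by
      have h2 : (⌈(B : ℝ) / δ⌉₊ : ℝ) + 1 ≤ M := by
        have : ⌈(B : ℝ) / δ⌉₊ + 1 ≤ M := by omega
        exact_mod_cast this
      have h3 := Nat.le_ceil ((B : ℝ) / δ)
      linarith
    rw [div_lt_iff₀ hδ] at h1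
    have h2 : (M : ℝ) ≤ (M : ℝ) ^ d := le_self_pow₀ hMr (by omega)
    have h3 : (M : ℝ) * δ ≤ (M : ℝ) ^ d * δ := mul_le_mul_of_nonneg_right h2 hδ.le
    linarith [mul_comm δ ((M : ℝ) ^ d)]
  have h6 := hPs q' hq'1 hq'2 (round ((q' : ℝ) * P.coeff s))
  have h7 : nd ((q' : ℝ) * P.coeff s) = |(q' : ℝ) * P.coeff s - round ((q' : ℝ) * P.coeff s)| :=
    rfl
  rw [← h7] at h6
  linarith

/-- The low frequencies are constant along the progression. -/
theorem low_const {s : ℕ} (lam : Fin s → ℤ) (hlam : Low s lam) {P : ℝ[X]} (hP : P.natDegree ≤ s)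
    (x y : ℝ) : ∑ i, (lam i : ℝ) * tv s P x i = ∑ i, (lam i : ℝ) * tv s P y i := by
  refine sum_congr rfl fun i _ => ?_
  by_cases h : i.val + 1 < s
  · rw [hlam i h, Int.cast_zero, zero_mul, zero_mul]
  · have e : i.val + 1 = s := by
      have := i.2
      omega
    unfold tv
    rw [e, taylor_top P s hP, taylor_top P s hP]

end W4x

open W4x C3aux in
/-- Row W4. -/
theorem rowW4 : W4_stmt := by
  classical
  intro s hs g hg hper η hη l hl
  obtain ⟨Λ, w, hΛ⟩ := approx g hg hper (show (0 : ℝ) < η / 4 by positivity)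
  obtain ⟨W, hW⟩ : ∃ W : ℝ, W = ∑ lam ∈ Λ, ‖w lam‖ := ⟨_, rfl⟩
  have hW0 : 0 ≤ W := by
    rw [hW]
    exact sum_nonneg fun _ _ => norm_nonneg _
  obtain ⟨ρ, hρ⟩ : ∃ ρ : ℝ, ρ = min (1 / 2) (η / (4 * (1 + W))) := ⟨_, rfl⟩
  have hρ0 : 0 < ρ := by
    rw [hρ]
    exact lt_min (by norm_num) (by positivity)
  have hρ1 : ρ ≤ 1 / 2 := by rw [hρ]; exact min_le_left _ _
  have hρ2 : W * ρ ≤ η / 4 := by
    have h1 : ρ ≤ η / (4 * (1 + W)) := by rw [hρ]; exact min_le_right _ _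
    rw [le_div_iff₀ (by positivity)] at h1
    nlinarith
  have hfreq : ∀ lam : Fin s → ℤ, ∃ Q : ℕ, 1 ≤ Q ∧ (¬ Low s lam → ∀ δ : ℝ, 0 < δ →
      ∃ M₀ : ℕ, ∀ M : ℕ, M₀ ≤ M → ∀ P : ℝ[X], P.natDegree ≤ s → P.coeff s ∈ Mn Q δ → ∀ j₀ : ℕ,
      ‖∑ j ∈ range M, ee (∑ i, (lam i : ℝ) * tv s P ((l * (j₀ + j) : ℕ) : ℝ) i)‖ ≤ ρ * M) := by
    intro lam
    by_cases h : Low s lam
    · exact ⟨1, le_rfl, fun h' => absurd h h'⟩
    · obtain ⟨Q, h1, h2⟩ := freq lam h hρ0 hρ1 hl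
      exact ⟨Q, h1, fun _ => h2⟩
  choose Qf hQf1 hQf2 using hfreq
  obtain ⟨Q, hQ⟩ : ∃ Q : ℕ, Q = 1 + ∑ lam ∈ Λ, Qf lam := ⟨_, rfl⟩
  have hQle : ∀ lam ∈ Λ, Qf lam ≤ Q := by
    intro lam hlam
    have := single_le_sum (f := Qf) (fun _ _ => Nat.zero_le _) hlam
    omega
  refine ⟨Q, by omega, fun δ hδ => ?_⟩
  have hM : ∀ lam : Fin s → ℤ, ∃ M₀ : ℕ, ¬ Low s lam → ∀ M : ℕ, M₀ ≤ M → ∀ P : ℝ[X],
      P.natDegree ≤ s → P.coeff s ∈ Mn (Qf lam) δ → ∀ j₀ : ℕ,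
      ‖∑ j ∈ range M, ee (∑ i, (lam i : ℝ) * tv s P ((l * (j₀ + j) : ℕ) : ℝ) i)‖ ≤ ρ * M := by
    intro lam
    by_cases h : Low s lam
    · exact ⟨0, fun h' => absurd h h'⟩
    · obtain ⟨M₀, h1⟩ := hQf2 lam h δ hδ
      exact ⟨M₀, fun _ => h1⟩
  choose Mf hMf using hM
  refine ⟨∑ lam ∈ Λ, Mf lam, fun M hMM P hP hPs j₀ => ?_⟩
  have hMle : ∀ lam ∈ Λ, Mf lam ≤ M := by
    intro lam hlam
    have := single_le_sum (f := Mf) (fun _ _ => Nat.zero_le _) hlam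
    omega
  -- complex form
  have hvol : (volume (box (s - 1))).toReal = 1 := by rw [volume_box]; simp
  have hbound : ∀ lam ∈ Λ, ¬ Low s lam →
      ‖∑ j ∈ range M, ee (∑ i, (lam i : ℝ) * tv s P ((l * (j₀ + j) : ℕ) : ℝ) i)‖ ≤ ρ * M :=
    fun lam hlam h => hMf lam h M (hMle lam hlam) P hP (Mn_mono (hQle lam hlam) δ hPs) j₀
  -- the sum of the trigonometric polynomial
  have hTP : ‖∑ j ∈ range M, TP Λ w (tv s P ((l * (j₀ + j) : ℕ) : ℝ)) -
      M * ∫ z in box (s - 1), TP Λ w (glue (s - 1) z (tv s P 0))‖ ≤ W * (ρ * M) := by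
    rw [← low_integral hs le_rfl]
    have e1 : ∑ j ∈ range M, TP Λ w (tv s P ((l * (j₀ + j) : ℕ) : ℝ)) =
        ∑ lam ∈ Λ, w lam * ∑ j ∈ range M,
          ee (∑ i, (lam i : ℝ) * tv s P ((l * (j₀ + j) : ℕ) : ℝ) i) := by
      unfold TP
      rw [sum_comm]
      exact sum_congr rfl fun lam _ => by rw [mul_sum]
    have e2 : (M : ℂ) * TP (Λ.filter fun lam => Low s lam) w (tv s P 0) =
        ∑ lam ∈ Λ, if Low s lam then w lam * (M * ee (∑ i, (lam i : ℝ) * tv s P 0 i)) else 0 := by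
      unfold TP
      rw [mul_sum, sum_filter]
      refine sum_congr rfl fun lam _ => ?_
      split_ifs
      · ring
      · rfl
    rw [e1, e2, ← sum_sub_distrib, hW, sum_mul]
    refine (norm_sum_le _ _).trans (sum_le_sum fun lam hlam => ?_)
    by_cases h : Low s lam
    · rw [if_pos h]
      have e3 : ∑ j ∈ range M, ee (∑ i, (lam i : ℝ) * tv s P ((l * (j₀ + j) : ℕ) : ℝ) i) =
          M * ee (∑ i, (lam i : ℝ) * tv s P 0 i) := by
        rw [sum_congr rfl fun j _ => by rw [low_const lam h hP _ 0], sum_const, card_range,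
          nsmul_eq_mul]
      rw [e3, sub_self, norm_zero]
      positivity
    · rw [if_neg h, sub_zero, norm_mul]
      exact mul_le_mul_of_nonneg_left (hbound lam hlam h) (norm_nonneg _)
  -- the approximation errors
  have hsum : ‖((∑ j ∈ range M, g (tv s P ((l * (j₀ + j) : ℕ) : ℝ)) : ℝ) : ℂ) -
      ∑ j ∈ range M, TP Λ w (tv s P ((l * (j₀ + j) : ℕ) : ℝ))‖ ≤ η / 4 * M := by
    push_cast
    rw [← sum_sub_distrib]
    refine (norm_sum_le _ _).trans ?_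
    refine (sum_le_sum fun j _ => hΛ _).trans (le_of_eq ?_)
    rw [sum_const, card_range, nsmul_eq_mul]
    ring
  have hgc : Continuous fun z : Fin (s - 1) → ℝ => g (glue (s - 1) z (tv s P 0)) :=
    hg.comp (continuous_glue _ _)
  have hTc : Continuous fun z : Fin (s - 1) → ℝ => TP Λ w (glue (s - 1) z (tv s P 0)) :=
    (continuous_TP Λ w).comp (continuous_glue _ _)
  have hint : ‖((∫ z in box (s - 1), g (glue (s - 1) z (tv s P 0)) : ℝ) : ℂ) -
      ∫ z in box (s - 1), TP Λ w (glue (s - 1) z (tv s P 0))‖ ≤ η / 4 := by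
    rw [← integral_complex_ofReal, ← integral_sub]
    · have h1 := norm_setIntegral_le_of_norm_le_const (μ := volume) (s := box (s - 1))
        (f := fun z => (g (glue (s - 1) z (tv s P 0)) : ℂ) - TP Λ w (glue (s - 1) z (tv s P 0)))
        (C := η / 4) (by rw [volume_box]; exact ENNReal.one_lt_top) (fun z _ => hΛ _)
      refine h1.trans (le_of_eq ?_)
      rw [Measure.real, hvol, mul_one]
    · exact (Continuous.continuousOn (Complex.continuous_ofReal.comp hgc)).integrableOn_compact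
        (isCompact_box _)
    · exact hTc.continuousOn.integrableOn_compact (isCompact_box _)
  have hfin : ‖((∑ j ∈ range M, g (tv s P ((l * (j₀ + j) : ℕ) : ℝ)) -
      M * ∫ z in box (s - 1), g (glue (s - 1) z (tv s P 0)) : ℝ) : ℂ)‖ ≤ η * M := by
    have e : ((∑ j ∈ range M, g (tv s P ((l * (j₀ + j) : ℕ) : ℝ)) -
        M * ∫ z in box (s - 1), g (glue (s - 1) z (tv s P 0)) : ℝ) : ℂ) =
        (((∑ j ∈ range M, g (tv s P ((l * (j₀ + j) : ℕ) : ℝ)) : ℝ) : ℂ) -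
          ∑ j ∈ range M, TP Λ w (tv s P ((l * (j₀ + j) : ℕ) : ℝ))) +
        (∑ j ∈ range M, TP Λ w (tv s P ((l * (j₀ + j) : ℕ) : ℝ)) -
          M * ∫ z in box (s - 1), TP Λ w (glue (s - 1) z (tv s P 0))) -
        M * (((∫ z in box (s - 1), g (glue (s - 1) z (tv s P 0)) : ℝ) : ℂ) -
          ∫ z in box (s - 1), TP Λ w (glue (s - 1) z (tv s P 0))) := by
      rw [Complex.ofReal_sub, Complex.ofReal_mul, Complex.ofReal_natCast]
      ring
    rw [e]
    refine (norm_sub_le _ _).trans ?_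
    refine (add_le_add_left (norm_add_le _ _) _).trans ?_
    have h1 : ‖(M : ℂ) * (((∫ z in box (s - 1), g (glue (s - 1) z (tv s P 0)) : ℝ) : ℂ) -
        ∫ z in box (s - 1), TP Λ w (glue (s - 1) z (tv s P 0)))‖ ≤ M * (η / 4) := by
      rw [norm_mul, Complex.norm_natCast]
      exact mul_le_mul_of_nonneg_left hint (Nat.cast_nonneg M)
    have h2 : W * (ρ * M) ≤ η / 4 * M := by
      rw [← mul_assoc]
      exact mul_le_mul_of_nonneg_right hρ2 (Nat.cast_nonneg M)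
    have h3 : 0 ≤ η * M := by positivity
    linarith
  rw [Complex.norm_real, Real.norm_eq_abs] at hfin
  exact hfin

end Pool.Agent.TUK
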