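import Mathlib
import Pool.Agent.Lib.TUK.Defs3

/-!
# Row W5 of the dichotomy: the energy of the averages over blocks (helper31)
-/

set_option autoImplicit false
open Finset

namespace Pool.Agent.TUK.R5

/-- A sum over a range, block by block. -/
theorem blocks {M : Type*} [AddCommMonoid M] (f : ℕ → M) (a c : ℕ) :
    ∑ m ∈ range (a * c), f m = ∑ b ∈ range a, ∑ j ∈ range c, f (b * c + j) := by
  induction a with
  | zero => simp
  | succ a ih =>
    rw [add_mul, one_mul, Finset.sum_range_add, ih, Finset.sum_range_succ]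

/-- The variance of finitely many complex numbers. -/
theorem variance (r : ℕ) (hr : 1 ≤ r) (z : ℕ → ℂ) :
    ∑ j ∈ range r, ‖z j - (∑ i ∈ range r, z i) / r‖ ^ 2 =
      ∑ j ∈ range r, ‖z j‖ ^ 2 - ‖∑ i ∈ range r, z i‖ ^ 2 / r := by
  have hr0 : (r : ℝ) ≠ 0 := by positivity
  set T : ℂ := ∑ i ∈ range r, z i with hT
  have h1 : ∀ j, ‖z j - T / r‖ ^ 2 = ‖z j‖ ^ 2 - 2 / r * (z j * (starRingEnd ℂ) T).re +
      ‖T‖ ^ 2 / (r : ℝ) ^ 2 := by
    intro j
    rw [← Complex.normSq_eq_norm_sq, ← Complex.normSq_eq_norm_sq, ← Complex.normSq_eq_norm_sq,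
      Complex.normSq_sub, Complex.normSq_div, Complex.normSq_natCast, map_div₀,
      Complex.conj_natCast, mul_div_assoc']
    have : ((z j * (starRingEnd ℂ) T) / (r : ℂ)).re = (z j * (starRingEnd ℂ) T).re / r := by
      rw [Complex.div_natCast_re]
    rw [this]
    ring
  rw [Finset.sum_congr rfl (fun j _ => h1 j), Finset.sum_add_distrib, Finset.sum_sub_distrib,
    ← Finset.mul_sum, ← Complex.re_sum, ← Finset.sum_mul, ← hT, Complex.mul_conj,
    Complex.ofReal_re, Complex.normSq_eq_norm_sq, Finset.sum_const, card_range, nsmul_eq_mul]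
  field_simp
  ring

end Pool.Agent.TUK.R5

namespace Pool.Agent.TUK

/-- Row W5. -/
theorem rowW5 : W5_stmt := by
  intro J l hl hdiv B x hx w hw γ hγ0 hγ1 hγ
  rcases Nat.eq_zero_or_pos J with rfl | hJ
  · simp
  obtain ⟨S, hS⟩ : ∃ S : ℕ → ℕ → ℂ, S = fun i j => ∑ h ∈ range (l i), x (j * l i + h) :=
    ⟨_, rfl⟩
  obtain ⟨E, hE⟩ : ∃ E : ℕ → ℝ, E = fun i =>
    (∑ j ∈ range (B * (l J / l i)), ‖S i j‖ ^ 2) / (l i : ℝ) := ⟨_, rfl⟩
  have hl0 : ∀ i, (0 : ℝ) < l i := fun i => by exact_mod_cast hl i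
  have hdJ : ∀ m ≤ J, l (J - m) ∣ l J := by
    intro m
    induction m with
    | zero => intro _; simp
    | succ m ih =>
      intro hm
      have h1 := hdiv (J - (m + 1)) (by omega)
      have h2 : J - (m + 1) + 1 = J - m := by omega
      rw [h2] at h1
      exact h1.trans (ih (by omega))
  have hdJ' : ∀ i ≤ J, l i ∣ l J := by
    intro i hi
    have := hdJ (J - i) (by omega)
    rwa [show J - (J - i) = i by omega] at this
  -- the number of blocks
  have hN : ∀ i < J, B * (l J / l i) = B * (l J / l (i + 1)) * (l (i + 1) / l i) := by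
    intro i hi
    have h1 := hdJ' (i + 1) (by omega)
    have h2 := hdiv i hi
    rw [mul_assoc, Nat.div_mul_div_comm h1 h2, Nat.mul_comm (l J), Nat.mul_div_mul_left _ _ (hl (i + 1))]
  have hD : ∀ i ≤ J, ((B * (l J / l i) : ℕ) : ℝ) * l i = ((B * l J : ℕ) : ℝ) := by
    intro i hi
    rw [← Nat.cast_mul, mul_assoc, Nat.div_mul_cancel (hdJ' i hi)]
  have hr1 : ∀ i < J, 1 ≤ l (i + 1) / l i := by
    intro i hi
    exact Nat.div_pos (Nat.le_of_dvd (hl (i + 1)) (hdiv i hi)) (hl i)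
  -- one block
  have hSr : ∀ i < J, ∀ b, S (i + 1) b =
      ∑ j ∈ range (l (i + 1) / l i), S i (b * (l (i + 1) / l i) + j) := by
    intro i hi b
    simp only [hS]
    have h2 : l (i + 1) = l (i + 1) / l i * l i := (Nat.div_mul_cancel (hdiv i hi)).symm
    have h3 : ∑ h ∈ range (l (i + 1)), x (b * l (i + 1) + h) =
        ∑ h ∈ range (l (i + 1) / l i * l i), x (b * (l (i + 1) / l i * l i) + h) := by
      rw [← h2]
    rw [h3, R5.blocks]
    refine Finset.sum_congr rfl fun j _ => Finset.sum_congr rfl fun h _ => ?_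
    congr 1
    ring
  -- the whole sum
  have hall : ∀ i ≤ J, ∑ m ∈ range (B * l J), x m = ∑ j ∈ range (B * (l J / l i)), S i j := by
    intro i hi
    have h1 : B * l J = B * (l J / l i) * l i := by
      rw [mul_assoc, Nat.div_mul_cancel (hdJ' i hi)]
    rw [h1, R5.blocks]
    simp only [hS]
  -- the difference of the energies
  have hdiff : ∀ i < J, ∑ b ∈ range (B * (l J / l (i + 1))), ∑ j ∈ range (l (i + 1) / l i),
      ‖S i (b * (l (i + 1) / l i) + j) - S (i + 1) b / ((l (i + 1) / l i : ℕ) : ℂ)‖ ^ 2 =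
      l i * (E i - E (i + 1)) := by
    intro i hi
    have hrl : ((l (i + 1) / l i : ℕ) : ℝ) * l i = l (i + 1) := by
      rw [← Nat.cast_mul, Nat.div_mul_cancel (hdiv i hi)]
    have hr0 : (0 : ℝ) < ((l (i + 1) / l i : ℕ) : ℝ) := by exact_mod_cast hr1 i hi
    have h1 : ∀ b, ∑ j ∈ range (l (i + 1) / l i),
        ‖S i (b * (l (i + 1) / l i) + j) - S (i + 1) b / ((l (i + 1) / l i : ℕ) : ℂ)‖ ^ 2 =
        ∑ j ∈ range (l (i + 1) / l i), ‖S i (b * (l (i + 1) / l i) + j)‖ ^ 2 -
          ‖S (i + 1) b‖ ^ 2 / ((l (i + 1) / l i : ℕ) : ℝ) := by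
      intro b
      have := R5.variance (l (i + 1) / l i) (hr1 i hi) (fun j => S i (b * (l (i + 1) / l i) + j))
      rw [← hSr i hi b] at this
      exact this
    rw [Finset.sum_congr rfl (fun b _ => h1 b), Finset.sum_sub_distrib, ← Finset.sum_div,
      ← R5.blocks (fun m => ‖S i m‖ ^ 2), ← hN i hi]
    simp only [hE]
    have h4 := (hl0 i).ne'
    have h5 := (hl0 (i + 1)).ne'
    rw [mul_sub, mul_div_cancel₀ _ h4]
    congr 1
    rw [← hrl]
    field_simp
  -- one level
  set μ : ℝ := 1 / Real.sqrt J with hμ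
  have hJ0 : (0 : ℝ) < J := by exact_mod_cast hJ
  have hμ0 : 0 < μ := by positivity
  have hlevel : ∀ i < J, w * ‖∑ m ∈ range (B * l J), x m‖ ≤
      ∑ j ∈ range (B * (l J / l i)), γ i j * ‖S i j‖ +
        (((B * l J : ℕ) : ℝ) * (μ / 2) + (E i - E (i + 1)) / (2 * μ)) := by
    intro i hi
    have hr0 : (0 : ℝ) < ((l (i + 1) / l i : ℕ) : ℝ) := by exact_mod_cast hr1 i hi
    have h0 : w * ‖∑ m ∈ range (B * l J), x m‖ ≤
        ∑ b ∈ range (B * (l J / l (i + 1))), w * ‖S (i + 1) b‖ := by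
      rw [hall (i + 1) (by omega), ← Finset.mul_sum]
      exact mul_le_mul_of_nonneg_left (norm_sum_le _ _) hw
    have h1 : ∀ b ∈ range (B * (l J / l (i + 1))), w * ‖S (i + 1) b‖ ≤
        ∑ j ∈ range (l (i + 1) / l i), (γ i (b * (l (i + 1) / l i) + j) *
          ‖S i (b * (l (i + 1) / l i) + j)‖ +
          ‖S i (b * (l (i + 1) / l i) + j) - S (i + 1) b / ((l (i + 1) / l i : ℕ) : ℂ)‖) := by
      intro b hb
      have hb' := hγ i hi b (mem_range.1 hb)
      have h2 : ∀ j ∈ range (l (i + 1) / l i), γ i (b * (l (i + 1) / l i) + j) *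
          (‖S (i + 1) b‖ / ((l (i + 1) / l i : ℕ) : ℝ)) ≤
          γ i (b * (l (i + 1) / l i) + j) * ‖S i (b * (l (i + 1) / l i) + j)‖ +
          ‖S i (b * (l (i + 1) / l i) + j) - S (i + 1) b / ((l (i + 1) / l i : ℕ) : ℂ)‖ := by
        intro j _
        have h3 : ‖S (i + 1) b‖ / ((l (i + 1) / l i : ℕ) : ℝ) =
            ‖S (i + 1) b / ((l (i + 1) / l i : ℕ) : ℂ)‖ := by
          rw [norm_div, Complex.norm_natCast]
        have h4 : ‖S (i + 1) b / ((l (i + 1) / l i : ℕ) : ℂ)‖ ≤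
            ‖S i (b * (l (i + 1) / l i) + j)‖ +
            ‖S i (b * (l (i + 1) / l i) + j) - S (i + 1) b / ((l (i + 1) / l i : ℕ) : ℂ)‖ := by
          have := norm_sub_norm_le (S (i + 1) b / ((l (i + 1) / l i : ℕ) : ℂ))
            (S i (b * (l (i + 1) / l i) + j))
          rw [norm_sub_rev] at this
          linarith
        rw [h3]
        have h5 := mul_le_mul_of_nonneg_left h4 (hγ0 i (b * (l (i + 1) / l i) + j))
        rw [mul_add] at h5
        have h6 := mul_le_of_le_one_left (norm_nonneg (S i (b * (l (i + 1) / l i) + j) -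
          S (i + 1) b / ((l (i + 1) / l i : ℕ) : ℂ))) (hγ1 i (b * (l (i + 1) / l i) + j))
        linarith
      refine le_trans ?_ (Finset.sum_le_sum h2)
      rw [← Finset.sum_mul]
      have h7 := mul_le_mul_of_nonneg_right hb'
        (div_nonneg (norm_nonneg (S (i + 1) b)) hr0.le)
      refine le_trans (le_of_eq ?_) h7
      field_simp
    have h2 : ∀ b, ∀ j, ‖S i (b * (l (i + 1) / l i) + j) -
        S (i + 1) b / ((l (i + 1) / l i : ℕ) : ℂ)‖ ≤ l i * (μ / 2) +
        ‖S i (b * (l (i + 1) / l i) + j) -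
        S (i + 1) b / ((l (i + 1) / l i : ℕ) : ℂ)‖ ^ 2 / (2 * μ * l i) := by
      intro b j
      set d := ‖S i (b * (l (i + 1) / l i) + j) - S (i + 1) b / ((l (i + 1) / l i : ℕ) : ℂ)‖
      have hli := hl0 i
      have h3 : l i * (μ / 2) + d ^ 2 / (2 * μ * l i) - d = (l i * μ - d) ^ 2 / (2 * μ * l i) := by
        field_simp
        ring
      have h4 : 0 ≤ (l i * μ - d) ^ 2 / (2 * μ * l i) := by positivity
      linarith
    have h3 : ∑ b ∈ range (B * (l J / l (i + 1))), ∑ j ∈ range (l (i + 1) / l i),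
        ‖S i (b * (l (i + 1) / l i) + j) - S (i + 1) b / ((l (i + 1) / l i : ℕ) : ℂ)‖ ≤
        ((B * l J : ℕ) : ℝ) * (μ / 2) + (E i - E (i + 1)) / (2 * μ) := by
      refine (Finset.sum_le_sum fun b _ => Finset.sum_le_sum fun j _ => h2 b j).trans ?_
      simp only [Finset.sum_add_distrib, ← Finset.sum_div]
      rw [hdiff i hi]
      refine le_of_eq ?_
      have h4 := (hl0 i).ne'
      have h5 : (l i : ℝ) * (E i - E (i + 1)) / (2 * μ * l i) = (E i - E (i + 1)) / (2 * μ) := by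
        field_simp
      rw [h5]
      congr 1
      simp only [Finset.sum_const, card_range, nsmul_eq_mul]
      rw [← mul_assoc, ← mul_assoc, ← Nat.cast_mul, ← hN i hi, hD i hi.le]
    calc w * ‖∑ m ∈ range (B * l J), x m‖
        ≤ ∑ b ∈ range (B * (l J / l (i + 1))), w * ‖S (i + 1) b‖ := h0
      _ ≤ ∑ b ∈ range (B * (l J / l (i + 1))), ∑ j ∈ range (l (i + 1) / l i),
          (γ i (b * (l (i + 1) / l i) + j) * ‖S i (b * (l (i + 1) / l i) + j)‖ +
          ‖S i (b * (l (i + 1) / l i) + j) - S (i + 1) b / ((l (i + 1) / l i : ℕ) : ℂ)‖) :=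
          Finset.sum_le_sum h1
      _ ≤ _ := by
          simp only [Finset.sum_add_distrib]
          rw [← R5.blocks (fun m => γ i m * ‖S i m‖), ← hN i hi]
          linarith
  -- the sum over the levels
  have hsum := Finset.sum_le_sum (fun i (hi : i ∈ range J) => hlevel i (mem_range.1 hi))
  rw [Finset.sum_const, card_range, nsmul_eq_mul, Finset.sum_add_distrib,
    Finset.sum_add_distrib, Finset.sum_const, card_range, nsmul_eq_mul, ← Finset.sum_div,
    Finset.sum_range_sub'] at hsum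
  have hE0 : E 0 ≤ ((B * l J : ℕ) : ℝ) := by
    have h1 : E 0 ≤ (∑ j ∈ range (B * (l J / l 0)), (l 0 : ℝ) ^ 2) / (l 0 : ℝ) := by
      simp only [hE]
      refine div_le_div_of_nonneg_right (Finset.sum_le_sum fun j _ => ?_) (hl0 0).le
      refine pow_le_pow_left₀ (norm_nonneg _) ?_ 2
      simp only [hS]
      refine (norm_sum_le _ _).trans ?_
      refine (Finset.sum_le_sum fun h _ => hx (j * l 0 + h)).trans ?_
      simp
    refine h1.trans (le_of_eq ?_)
    rw [Finset.sum_const, card_range, nsmul_eq_mul, ← hD 0 (Nat.zero_le _)]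
    have := (hl0 0).ne'
    field_simp
  have hEJ : 0 ≤ E J := by
    simp only [hE]
    exact div_nonneg (Finset.sum_nonneg fun j _ => by positivity) (hl0 J).le
  have hsq : Real.sqrt J * Real.sqrt J = J := Real.mul_self_sqrt hJ0.le
  have hsq0 : 0 < Real.sqrt J := Real.sqrt_pos.2 hJ0
  have hfin : (J : ℝ) * (((B * l J : ℕ) : ℝ) * (μ / 2)) + (E 0 - E J) / (2 * μ) ≤
      Real.sqrt J * ((B * l J : ℕ) : ℝ) := by
    have h1 : (E 0 - E J) / (2 * μ) ≤ ((B * l J : ℕ) : ℝ) / (2 * μ) := by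
      refine div_le_div_of_nonneg_right ?_ (by positivity)
      linarith
    refine (add_le_add_right h1 _).trans (le_of_eq ?_)
    have h2 : (J : ℝ) * (μ / 2) = Real.sqrt J / 2 := by
      rw [hμ]
      rw [eq_div_iff (by norm_num : (2 : ℝ) ≠ 0), mul_assoc, div_mul_cancel₀ _
        (by norm_num : (2 : ℝ) ≠ 0), mul_one_div, div_eq_iff hsq0.ne', hsq]
    have h3 : ((B * l J : ℕ) : ℝ) / (2 * μ) = ((B * l J : ℕ) : ℝ) * (Real.sqrt J / 2) := by
      rw [hμ]
      field_simp
    rw [h3, mul_left_comm, h2]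
    ring
  simp only [hS] at hsum
  calc w * J * ‖∑ m ∈ range (B * l J), x m‖
      = J * (w * ‖∑ m ∈ range (B * l J), x m‖) := by ring
    _ ≤ _ := hsum
    _ ≤ _ := by linarith

end Pool.Agent.TUK
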