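import Mathlib
import Pool.Agent.Lib.TUK.Defs3
import Pool.Agent.Lib.TUK.GK1
import Pool.Agent.Lib.TU.S2
import Pool.Agent.Lib.TU.V1

/-!
# Row W6, part 1: one block of one window (MP_663568_nt)
-/

set_option autoImplicit false
open Finset Polynomial MeasureTheory

namespace Pool.Agent.TUK

open Pool.Agent.Lib.MP_663568_nt Pool.Agent.Lib.MP_663568_nt.Katai
  Pool.Agent.Lib.MP_663568_nt.Nul Pool.Agent.TU

namespace W6x

/-- The supremum over one window. -/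
noncomputable def spK {t : ℕ} (B : Set (Fin t → ℝ)) (F : Set (ℕ → ℂ)) (H n : ℕ) : ℝ :=
  ⨆ p : {p : (Fin t → ℝ) × (ℕ → ℂ) // p.1 ∈ B ∧ p.2 ∈ F},
      ‖∑ h ∈ Icc 1 H, muC (n + h) * (p.1.2 h * ee (ph p.1.1 (h : ℝ)))‖

lemma SBK_eq {t : ℕ} (B : Set (Fin t → ℝ)) (F : Set (ℕ → ℂ)) (N H : ℕ) :
    SBK B F N H = ∑ n ∈ Icc 1 N, (1 / (n : ℝ)) * spK B F H n := rfl

lemma spK_nonneg {t : ℕ} (B : Set (Fin t → ℝ)) (F : Set (ℕ → ℂ)) (H n : ℕ) : 0 ≤ spK B F H n :=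
  Real.iSup_nonneg fun _ => norm_nonneg _

lemma le_spK {t : ℕ} {B : Set (Fin t → ℝ)} {F : Set (ℕ → ℂ)} (hF : Cls F) {α : Fin t → ℝ}
    (hα : α ∈ B) {u : ℕ → ℂ} (hu : u ∈ F) (H n : ℕ) :
    ‖∑ h ∈ Icc 1 H, muC (n + h) * (u h * ee (ph α (h : ℝ)))‖ ≤ spK B F H n := by
  have hb : BddAbove (Set.range fun p : {p : (Fin t → ℝ) × (ℕ → ℂ) // p.1 ∈ B ∧ p.2 ∈ F} =>
      ‖∑ h ∈ Icc 1 H, muC (n + h) * (p.1.2 h * ee (ph p.1.1 (h : ℝ)))‖) := by
    refine ⟨(H : ℝ), ?_⟩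
    rintro _ ⟨p, rfl⟩
    exact norm_sum_muC_mul_le H n p.1.2 (hF.bdd _ p.2.2) fun h => ph p.1.1 (h : ℝ)
  exact le_ciSup hb ⟨(α, u), hα, hu⟩

/-- The phase of the rational coefficients of degree `> s`. -/
noncomputable def psi {t : ℕ} (s : ℕ) (r : Fin t → ℚ) (h : ℕ) : ℂ :=
  ee (∑ i : Fin t, if i.val < s then 0 else ((r i : ℚ) : ℝ) * (h : ℝ) ^ (i.val + 1))

lemma norm_psi {t : ℕ} (s : ℕ) (r : Fin t → ℚ) (h : ℕ) : ‖psi s r h‖ = 1 := norm_ee _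

lemma psi_per {t : ℕ} (s : ℕ) (r : Fin t → ℚ) (h : ℕ) :
    psi s r (h + RV1.dn r) = psi s r h := by
  unfold psi
  have hz : ∀ i : Fin t, ∃ z : ℤ, (if i.val < s then (0 : ℝ) else
      ((r i : ℚ) : ℝ) * ((h + RV1.dn r : ℕ) : ℝ) ^ (i.val + 1)) =
      (if i.val < s then 0 else ((r i : ℚ) : ℝ) * (h : ℝ) ^ (i.val + 1)) + (z : ℝ) := by
    intro i
    by_cases hi : i.val < s
    · refine ⟨0, ?_⟩
      rw [if_pos hi, if_pos hi]
      simp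
    · rw [if_neg hi, if_neg hi]
      have hdvd : ((RV1.dn r : ℕ) : ℤ) ∣ ((h : ℤ) + RV1.dn r) ^ (i.val + 1) -
          (h : ℤ) ^ (i.val + 1) := by
        have := sub_dvd_pow_sub_pow ((h : ℤ) + RV1.dn r) (h : ℤ) (i.val + 1)
        rwa [add_sub_cancel_left] at this
      have hdi : (r i).den ∣ RV1.dn r := dvd_prod_of_mem _ (mem_univ i)
      have hdi' : ((r i).den : ℤ) ∣ ((RV1.dn r : ℕ) : ℤ) := by exact_mod_cast hdi
      obtain ⟨w, hw⟩ := hdi'.trans hdvd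
      refine ⟨(r i).num * w, ?_⟩
      have hrd : ((r i : ℚ) : ℝ) * ((r i).den : ℝ) = ((r i).num : ℝ) := by
        have := Rat.mul_den_eq_num (r i)
        exact_mod_cast this
      have hw' : ((h : ℝ) + RV1.dn r) ^ (i.val + 1) - (h : ℝ) ^ (i.val + 1) =
          ((r i).den : ℝ) * w := by
        exact_mod_cast hw
      push_cast
      rw [← hrd]
      linear_combination ((r i : ℚ) : ℝ) * hw'
  choose z hz using hz
  rw [sum_congr rfl fun i _ => hz i, sum_add_distrib]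
  have : ∑ i : Fin t, ((z i : ℤ) : ℝ) = ((∑ i : Fin t, z i : ℤ) : ℝ) := by push_cast; rfl
  rw [this, ee_add, ee_int, mul_one]

lemma psi_per_mul {t : ℕ} (s : ℕ) (r : Fin t → ℚ) (k h : ℕ) (hk : RV1.dn r ∣ k) :
    psi s r (k + h) = psi s r h := by
  obtain ⟨c, rfl⟩ := hk
  induction c with
  | zero => rw [mul_zero, zero_add]
  | succ c ih =>
    rw [← ih, show RV1.dn r * (c + 1) + h = (RV1.dn r * c + h) + RV1.dn r by ring, psi_per]

/-- The phase of the glued vector. -/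
lemma psi_mul_ph {s t : ℕ} (hst : s ≤ t) (r : Fin t → ℚ) (y : Fin s → ℝ) (h : ℕ) :
    psi s r h * ee (ph y (h : ℝ)) = ee (ph (glue s y (fun i => ((r i : ℚ) : ℝ))) (h : ℝ)) := by
  unfold psi
  rw [← ee_add]
  congr 1
  unfold TU.ph
  have h1 := C3aux.glue_sum hst (fun i : Fin t => (h : ℤ) ^ (i.val + 1)) y
    (fun i => ((r i : ℚ) : ℝ))
  push_cast at h1
  have h2 : ∑ i : Fin t, glue s y (fun i => ((r i : ℚ) : ℝ)) i * (h : ℝ) ^ (i.val + 1) =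
      ∑ i : Fin t, (h : ℝ) ^ (i.val + 1) * glue s y (fun i => ((r i : ℚ) : ℝ)) i :=
    sum_congr rfl fun i _ => mul_comm _ _
  rw [h2, h1, add_comm]
  congr 1
  · exact sum_congr rfl fun i _ => by rw [mul_comm]; rfl
  · refine sum_congr rfl fun i _ => ?_
    split_ifs
    · rfl
    · ring

/-- Taylor expansion. -/
lemma eval_add_eq {s : ℕ} (P : ℝ[X]) (hP : P.natDegree ≤ s) (k h : ℝ) :
    P.eval (k + h) = P.eval k + ph (tv s P k) h := by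
  have h1 : P.eval (k + h) = (taylor k P).eval h := by
    rw [taylor_eval, add_comm]
  have h2 : (taylor k P).natDegree < s + 1 := by
    rw [natDegree_taylor]
    omega
  rw [h1, eval_eq_sum_range' h2, Finset.sum_range_succ']
  rw [taylor_coeff_zero, pow_zero, mul_one, add_comm]
  congr 1
  unfold TU.ph tv
  rw [Finset.sum_range]

/-- Points near a section. -/
lemma glue_mem {s t : ℕ} {B : Set (Fin t → ℝ)} {r : Fin t → ℝ} {δ : ℝ} (hδ : 0 ≤ δ)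
    {y : Fin s → ℝ} (hy : y ∈ Nb {y : Fin s → ℝ | glue s y r ∈ B} δ) : glue s y r ∈ Nb B δ := by
  obtain ⟨y', hy', h⟩ := hy
  refine ⟨glue s y' r, hy', fun i => ?_⟩
  unfold glue
  by_cases hi : i.val < s
  · rw [dif_pos hi, dif_pos hi]
    exact h _
  · rw [dif_neg hi, dif_neg hi]
    simpa using hδ

/-- The sequence of one window. -/
noncomputable def xs {t : ℕ} (s : ℕ) (r : Fin t → ℚ) (P : ℝ[X]) (u : ℕ → ℂ) (n m : ℕ) : ℂ :=
  muC (n + (m + 1)) * (u (m + 1) * (psi s r (m + 1) * ee (P.eval ((m + 1 : ℕ) : ℝ))))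

lemma norm_xs {F : Set (ℕ → ℂ)} (hF : Cls F) {t : ℕ} (s : ℕ) (r : Fin t → ℚ) (P : ℝ[X])
    {u : ℕ → ℂ} (hu : u ∈ F) (n m : ℕ) : ‖xs s r P u n m‖ ≤ 1 := by
  unfold xs
  rw [norm_mul, norm_mul, norm_mul, norm_psi, norm_ee, mul_one, mul_one]
  exact mul_le_one₀ (norm_muC _) (norm_nonneg _) (hF.bdd u hu _)

lemma sum_range_Icc (f : ℕ → ℂ) (L : ℕ) : ∑ m ∈ range L, f (m + 1) = ∑ h ∈ Icc 1 L, f h := by
  rw [Finset.range_eq_Ico, Finset.sum_Ico_add' f 0 L 1]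
  congr 1

lemma sum_xs {t : ℕ} (s : ℕ) (r : Fin t → ℚ) (P : ℝ[X]) (u : ℕ → ℂ) (n L : ℕ) :
    ∑ m ∈ range L, xs s r P u n m =
      ∑ h ∈ Icc 1 L, muC (n + h) * (u h * (psi s r h * ee (P.eval (h : ℝ)))) := by
  unfold xs
  exact sum_range_Icc (fun h => muC (n + h) * (u h * (psi s r h * ee (P.eval (h : ℝ))))) L

/-- **One block.** -/
lemma block_le {F : Set (ℕ → ℂ)} (hF : Cls F) {s t : ℕ} (hst : s ≤ t) (B : Set (Fin t → ℝ))
    (r : Fin t → ℚ) (P : ℝ[X]) (hP : P.natDegree ≤ s) {u : ℕ → ℂ} (hu : u ∈ F) (δ : ℝ)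
    (hδ : 0 ≤ δ) (n l j : ℕ) (hl : RV1.dn r ∣ l)
    (hk : tv s P ((l * j : ℕ) : ℝ) ∈ Nb {y : Fin s → ℝ | glue s y (fun i => ((r i : ℚ) : ℝ)) ∈ B} δ) :
    ‖∑ h ∈ range l, xs s r P u n (j * l + h)‖ ≤ spK (Nb B δ) F l (n + l * j) := by
  have h1 : ∑ h ∈ range l, xs s r P u n (j * l + h) = ee (P.eval ((l * j : ℕ) : ℝ)) *
      ∑ h ∈ Icc 1 l, muC (n + l * j + h) * ((fun m => u (l * j + m)) h *
        ee (ph (glue s (tv s P ((l * j : ℕ) : ℝ)) (fun i => ((r i : ℚ) : ℝ))) (h : ℝ))) := by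
    rw [mul_sum, ← sum_range_Icc (fun h => ee (P.eval ((l * j : ℕ) : ℝ)) *
      (muC (n + l * j + h) * ((fun m => u (l * j + m)) h *
        ee (ph (glue s (tv s P ((l * j : ℕ) : ℝ)) (fun i => ((r i : ℚ) : ℝ))) (h : ℝ))))) l]
    refine sum_congr rfl fun h _ => ?_
    unfold xs
    have e1 : j * l + h + 1 = l * j + (h + 1) := by ring
    rw [e1, psi_per_mul s r (l * j) (h + 1) (hl.trans (Nat.dvd_mul_right _ _)),
      ← psi_mul_ph hst r (tv s P ((l * j : ℕ) : ℝ)) (h + 1)]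
    have e2 : P.eval ((l * j + (h + 1) : ℕ) : ℝ) = P.eval ((l * j : ℕ) : ℝ) +
        ph (tv s P ((l * j : ℕ) : ℝ)) ((h + 1 : ℕ) : ℝ) := by
      rw [← eval_add_eq P hP]
      congr 1
      push_cast
      ring
    rw [e2, ee_add, show n + (l * j + (h + 1)) = n + l * j + (h + 1) by ring]
    ring
  rw [h1, norm_mul, norm_ee, one_mul]
  exact le_spK hF (glue_mem hδ hk) (hF.shift u hu (l * j)) l (n + l * j)

/-- Finitely many positive numbers have a positive lower bound. -/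
lemma exists_min (f : ℕ → ℝ) (hf : ∀ i, 0 < f i) (J : ℕ) : ∃ δ : ℝ, 0 < δ ∧ ∀ i < J, δ ≤ f i := by
  induction J with
  | zero => exact ⟨1, one_pos, fun i hi => absurd hi (Nat.not_lt_zero i)⟩
  | succ J ih =>
    obtain ⟨δ, hδ, h⟩ := ih
    refine ⟨min δ (f J), lt_min hδ (hf J), fun i hi => ?_⟩
    rcases Nat.lt_succ_iff_lt_or_eq.1 hi with hi | rfl
    · exact (min_le_left _ _).trans (h i hi)
    · exact min_le_right _ _

lemma Nr_mono {K : Set ℝ} {δ δ' : ℝ} (h : δ ≤ δ') : Nr K δ ⊆ Nr K δ' :=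
  fun _ ⟨c, hc, hx⟩ => ⟨c, hc, hx.trans h⟩

/-- The neighbourhoods of a closed set of irrational numbers are in the minor arcs. -/
lemma Nr_Mn {K : Set ℝ} (hKc : IsClosed K) (hKp : ∀ x ∈ K, ∀ z : ℤ, x + (z : ℝ) ∈ K)
    (hKi : ∀ x ∈ K, Irrational x) (Q : ℕ) : ∃ d : ℝ, 0 < d ∧ Nr K d ⊆ Mn Q d := by
  obtain ⟨d, hd, h⟩ := S2x.far_rat K hKc hKp hKi Q
  refine ⟨d / 2, by positivity, ?_⟩
  rintro x ⟨c, hc, hx⟩ q hq1 hq2 b
  have h1 := h q hq1 hq2 b c hc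
  have hq : (1 : ℝ) ≤ q := by exact_mod_cast hq1
  have h3 : d / 2 ≤ |x - (b : ℝ) / q| := by
    have := abs_sub_abs_le_abs_sub (c - (b : ℝ) / q) (c - x)
    have e1 : c - (b : ℝ) / q - (c - x) = x - (b : ℝ) / q := by ring
    rw [e1, abs_sub_comm c x] at this
    linarith
  have h4 : (q : ℝ) * x - b = q * (x - (b : ℝ) / q) := by
    field_simp
  rw [h4, abs_mul, abs_of_pos (by linarith : (0 : ℝ) < q)]
  calc d / 2 ≤ |x - (b : ℝ) / q| := h3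
    _ ≤ _ := le_mul_of_one_le_left (abs_nonneg _) hq

end W6x

end Pool.Agent.TUK
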