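import Mathlib
import Pool.Agent.Lib.TUK.W6a

/-!
# Row W6, part 2: one window (MP_663568_nt)
-/

set_option autoImplicit false
open Finset Polynomial MeasureTheory

namespace Pool.Agent.TUK

open Pool.Agent.Lib.MP_663568_nt Pool.Agent.Lib.MP_663568_nt.Katai
  Pool.Agent.Lib.MP_663568_nt.Nul Pool.Agent.TU

namespace W6x

/-- One level. -/
lemma level {s t : ℕ} (hs : 1 ≤ s) (h4 : W4_stmt) (h7 : W7_stmt) (C : Set (Fin s → ℝ)) (w₁ : ℝ)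
    (hw₁ : 0 < w₁) (K : Set ℝ) (hKc : IsClosed K) (hKp : ∀ x ∈ K, ∀ z : ℤ, x + (z : ℝ) ∈ K)
    (hKi : ∀ x ∈ K, Irrational x)
    (hg : ∀ δ' : ℝ, 0 < δ' → ∃ g : (Fin s → ℝ) → ℝ, Continuous g ∧
      (∀ (x : Fin s → ℝ) (z : Fin s → ℤ), g (x + fun i => (z i : ℝ)) = g x) ∧
      (∀ x, 0 ≤ g x) ∧ (∀ x, g x ≤ 1) ∧ (∀ x, g x ≠ 0 → x ∈ Nb C δ') ∧
      ∃ δ₁ : ℝ, 0 < δ₁ ∧ ∀ α : Fin s → ℝ, (∀ i : Fin s, i.val + 1 = s → α i ∈ Nr K δ₁) →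
        w₁ ≤ ∫ z in C3aux.box (s - 1), g (glue (s - 1) z α))
    (F : Set (ℕ → ℂ)) (hF : Cls F) (B : Set (Fin t → ℝ)) (ε₂ : ℝ) (hε₂ : 0 < ε₂) (l : ℕ)
    (hl : 1 ≤ l) : ∃ (δ' : ℝ) (g : (Fin s → ℝ) → ℝ) (δ₁ : ℝ) (M₀ : ℕ), 0 < δ' ∧ (∀ x, 0 ≤ g x) ∧
      (∀ x, g x ≤ 1) ∧ (∀ x, g x ≠ 0 → x ∈ Nb C δ') ∧ 0 < δ₁ ∧
      (∀ N : ℕ, SBK (Nb B δ') F N l ≤ SBK B F N l + ε₂ * (1 + Real.log N)) ∧
      ∀ M : ℕ, M₀ ≤ M → ∀ P : ℝ[X], P.natDegree ≤ s → P.coeff s ∈ Nr K δ₁ → ∀ j₀ : ℕ,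
        w₁ / 2 * M ≤ ∑ j ∈ range M, g (tv s P ((l * (j₀ + j) : ℕ) : ℝ)) := by
  obtain ⟨δ', hδ', hW7⟩ := h7 t l ε₂ hε₂
  obtain ⟨g, hgc, hgp, hg0, hg1, hgs, δa, hδa, hint⟩ := hg δ' hδ'
  obtain ⟨Q, hQ, hW4⟩ := h4 s hs g hgc hgp (w₁ / 2) (by positivity) l hl
  obtain ⟨d, hd, hsub⟩ := Nr_Mn hKc hKp hKi Q
  obtain ⟨M₀, hM₀⟩ := hW4 d hd
  refine ⟨δ', g, min δa d, M₀, hδ', hg0, hg1, hgs, lt_min hδa hd, hW7 B F hF.bdd, ?_⟩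
  intro M hM P hP hPK j₀
  have h1 := hM₀ M hM P hP (hsub (Nr_mono (min_le_right _ _) hPK)) j₀
  have h2 : w₁ ≤ ∫ z in C3aux.box (s - 1), g (glue (s - 1) z (tv s P 0)) := by
    refine hint (tv s P 0) fun i hi => ?_
    unfold tv
    rw [taylor_zero, hi]
    exact Nr_mono (min_le_left _ _) hPK
  have h3 := (abs_le.1 h1).1
  have hM0 : (0 : ℝ) ≤ M := Nat.cast_nonneg _
  have h4 : (M : ℝ) * w₁ ≤ M * ∫ z in C3aux.box (s - 1), g (glue (s - 1) z (tv s P 0)) :=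
    mul_le_mul_of_nonneg_left h2 hM0
  nlinarith

/-- One window. -/
lemma window (h5 : W5_stmt) {F : Set (ℕ → ℂ)} (hF : Cls F) {s t : ℕ} (hst : s ≤ t)
    (B : Set (Fin t → ℝ)) (r : Fin t → ℚ) (w₁ : ℝ) (hw₁ : 0 < w₁) (A : Set ℝ) (J : ℕ)
    (ℓ : ℕ → ℕ) (hℓ1 : ∀ i, 1 ≤ ℓ i) (hℓd : ∀ i, ℓ i ∣ ℓ (i + 1)) (hq : ∀ i, RV1.dn r ∣ ℓ i)
    (δ' : ℕ → ℝ) (hδ' : ∀ i, 0 < δ' i) (g : ℕ → (Fin s → ℝ) → ℝ) (hg0 : ∀ i x, 0 ≤ g i x)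
    (hg1 : ∀ i x, g i x ≤ 1)
    (hgs : ∀ i x, g i x ≠ 0 → x ∈ Nb {y : Fin s → ℝ | glue s y (fun i => ((r i : ℚ) : ℝ)) ∈ B}
      (δ' i))
    (hM : ∀ i < J, ∀ P : ℝ[X], P.natDegree ≤ s → P.coeff s ∈ A → ∀ j₀ : ℕ,
      w₁ / 2 * ((ℓ (i + 1) / ℓ i : ℕ) : ℝ) ≤
        ∑ j ∈ range (ℓ (i + 1) / ℓ i), g i (tv s P ((ℓ i * (j₀ + j) : ℕ) : ℝ))) (L n : ℕ) :
    w₁ / 2 * J * TopS s A F (psi s r) L n ≤
      ∑ i ∈ range J, ∑ j ∈ range (L / ℓ J * (ℓ J / ℓ i)), spK (Nb B (δ' i)) F (ℓ i) (n + ℓ i * j) +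
        (Real.sqrt J * L + w₁ / 2 * J * ℓ J) := by
  have hJ0 : (0 : ℝ) ≤ J := Nat.cast_nonneg _
  have hw : 0 ≤ w₁ / 2 * J := by positivity
  have hDL : L / ℓ J * ℓ J ≤ L := Nat.div_mul_le_self _ _
  have hRHS : 0 ≤ ∑ i ∈ range J, ∑ j ∈ range (L / ℓ J * (ℓ J / ℓ i)),
      spK (Nb B (δ' i)) F (ℓ i) (n + ℓ i * j) + (Real.sqrt J * L + w₁ / 2 * J * ℓ J) := by
    have : 0 ≤ ∑ i ∈ range J, ∑ j ∈ range (L / ℓ J * (ℓ J / ℓ i)),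
        spK (Nb B (δ' i)) F (ℓ i) (n + ℓ i * j) :=
      sum_nonneg fun i _ => sum_nonneg fun j _ => spK_nonneg _ _ _ _
    have h2 : 0 ≤ Real.sqrt J * L := by positivity
    have h3 : 0 ≤ w₁ / 2 * J * ℓ J := by positivity
    linarith
  unfold TopS
  rw [Real.mul_iSup_of_nonneg hw]
  refine Real.iSup_le (fun p => ?_) hRHS
  obtain ⟨⟨P, u⟩, hP, hPA, hu⟩ := p
  simp only at hP hPA hu ⊢
  rw [← sum_xs]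
  have hx := norm_xs hF s r P hu n
  -- the last incomplete block
  have h1 : ‖∑ m ∈ range L, xs s r P u n m‖ ≤
      ‖∑ m ∈ range (L / ℓ J * ℓ J), xs s r P u n m‖ + ℓ J := by
    have e : ∑ m ∈ range L, xs s r P u n m = ∑ m ∈ range (L / ℓ J * ℓ J), xs s r P u n m +
        ∑ m ∈ Ico (L / ℓ J * ℓ J) L, xs s r P u n m := by
      rw [Finset.range_eq_Ico, Finset.range_eq_Ico,
        Finset.sum_Ico_consecutive _ (Nat.zero_le _) hDL]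
    rw [e]
    refine (norm_add_le _ _).trans (add_le_add le_rfl ?_)
    refine (norm_sum_le _ _).trans ((sum_le_sum fun m _ => hx m).trans ?_)
    rw [sum_const, Nat.card_Ico, nsmul_eq_mul, mul_one]
    have h6 : L < L / ℓ J * ℓ J + ℓ J := Nat.lt_div_mul_add (hℓ1 J)
    have h7 : L - L / ℓ J * ℓ J ≤ ℓ J := by omega
    exact_mod_cast h7
  -- the energy inequality
  have h2 := h5 J ℓ hℓ1 (fun i _ => hℓd i) (L / ℓ J) (xs s r P u n) hx (w₁ / 2) (by positivity)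
    (fun i j => g i (tv s P ((ℓ i * j : ℕ) : ℝ))) (fun i j => hg0 _ _) (fun i j => hg1 _ _)
    (fun i hi b _ => hM i hi P hP hPA (b * (ℓ (i + 1) / ℓ i)))
  have h3 : ∀ i ∈ range J, ∀ j ∈ range (L / ℓ J * (ℓ J / ℓ i)),
      g i (tv s P ((ℓ i * j : ℕ) : ℝ)) * ‖∑ h ∈ range (ℓ i), xs s r P u n (j * ℓ i + h)‖ ≤
        spK (Nb B (δ' i)) F (ℓ i) (n + ℓ i * j) := by
    intro i _ j _
    by_cases hz : g i (tv s P ((ℓ i * j : ℕ) : ℝ)) = 0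
    · rw [hz, zero_mul]
      exact spK_nonneg _ _ _ _
    · have h4 := block_le hF hst B r P hP hu (δ' i) (hδ' i).le n (ℓ i) j (hq i) (hgs i _ hz)
      calc g i (tv s P ((ℓ i * j : ℕ) : ℝ)) * ‖∑ h ∈ range (ℓ i), xs s r P u n (j * ℓ i + h)‖
          ≤ 1 * ‖∑ h ∈ range (ℓ i), xs s r P u n (j * ℓ i + h)‖ :=
            mul_le_mul_of_nonneg_right (hg1 _ _) (norm_nonneg _)
        _ ≤ _ := by rw [one_mul]; exact h4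
  have h4 := sum_le_sum fun i hi => sum_le_sum fun j hj => h3 i hi j hj
  have h5' : Real.sqrt J * ((L / ℓ J * ℓ J : ℕ) : ℝ) ≤ Real.sqrt J * L :=
    mul_le_mul_of_nonneg_left (by exact_mod_cast hDL) (Real.sqrt_nonneg _)
  have h6 : w₁ / 2 * J * ‖∑ m ∈ range L, xs s r P u n m‖ ≤ w₁ / 2 * J *
      (‖∑ m ∈ range (L / ℓ J * ℓ J), xs s r P u n m‖ + ℓ J) :=
    mul_le_mul_of_nonneg_left h1 hw
  rw [mul_add] at h6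
  linarith

end W6x

end Pool.Agent.TUK
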