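import Mathlib
import Pool.Agent.Lib.TUK.W6b
import Pool.Agent.Lib.TU.G4
import Pool.Agent.Lib.TU.Z

/-!
# Row W6: polynomials with top coefficient near `K` from the phases of `B` (MP_663568_nt)
-/

set_option autoImplicit false
open Finset Polynomial MeasureTheory

namespace Pool.Agent.TUK

open Pool.Agent.Lib.MP_663568_nt Pool.Agent.Lib.MP_663568_nt.Katai
  Pool.Agent.Lib.MP_663568_nt.Nul Pool.Agent.TU

namespace W6x

lemma TopS_nonneg (s : ℕ) (A : Set ℝ) (F : Set (ℕ → ℂ)) (ψ : ℕ → ℂ) (H n : ℕ) :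
    0 ≤ TopS s A F ψ H n := Real.iSup_nonneg fun _ => norm_nonneg _

lemma TopS_mono {F : Set (ℕ → ℂ)} (hF : Cls F) (s : ℕ) {A A' : Set ℝ} (h : A ⊆ A') (H n : ℕ) :
    TopS s A F (fun _ => 1) H n ≤ TopS s A' F (fun _ => 1) H n := by
  unfold TopS
  refine Real.iSup_le (fun p => ?_) (Real.iSup_nonneg fun _ => norm_nonneg _)
  have hb : BddAbove (Set.range fun p : {p : ℝ[X] × (ℕ → ℂ) // p.1.natDegree ≤ s ∧
      p.1.coeff s ∈ A' ∧ p.2 ∈ F} =>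
      ‖∑ h ∈ Icc 1 H, muC (n + h) * (p.1.2 h * ((1 : ℂ) * ee (p.1.1.eval (h : ℝ))))‖) := by
    refine ⟨(H : ℝ), ?_⟩
    rintro _ ⟨p, rfl⟩
    simp only [one_mul]
    exact norm_sum_muC_mul_le H n p.1.2 (hF.bdd _ p.2.2.2) fun h => p.1.1.eval (h : ℝ)
  exact le_ciSup hb ⟨p.1, p.2.1, h p.2.2.1, p.2.2.2⟩

lemma per_section {s t : ℕ} {B : Set (Fin t → ℝ)} (hP : Per B) (r : Fin t → ℝ) :
    Per {y : Fin s → ℝ | glue s y r ∈ B} := by
  intro y hy z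
  have h1 := hP (glue s y r) hy (fun i => if h : i.val < s then z ⟨i.val, h⟩ else 0)
  have e : glue s (fun i => y i + (z i : ℝ)) r = fun i => glue s y r i +
      (((if h : i.val < s then z ⟨i.val, h⟩ else 0 : ℤ)) : ℝ) := by
    funext i
    unfold glue
    by_cases hi : i.val < s
    · rw [dif_pos hi, dif_pos hi, dif_pos hi]
    · rw [dif_neg hi, dif_neg hi, dif_neg hi]
      simp
  change glue s (fun i => y i + (z i : ℝ)) r ∈ B
  rw [e]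
  exact h1

/-- The sequence of the levels. -/
def lev (l₀ : ℕ) (M₀ : ℕ → ℕ) : ℕ → ℕ
  | 0 => l₀
  | i + 1 => lev l₀ M₀ i * max (M₀ (lev l₀ M₀ i)) 1

lemma lev_succ (l₀ : ℕ) (M₀ : ℕ → ℕ) (i : ℕ) :
    lev l₀ M₀ (i + 1) = lev l₀ M₀ i * max (M₀ (lev l₀ M₀ i)) 1 := rfl

lemma lev_dvd (l₀ : ℕ) (M₀ : ℕ → ℕ) (i : ℕ) : l₀ ∣ lev l₀ M₀ i := by
  induction i with
  | zero => exact dvd_rfl
  | succ i ih => rw [lev_succ]; exact ih.mul_right _

lemma lev_pos {l₀ : ℕ} (h : 1 ≤ l₀) (M₀ : ℕ → ℕ) (i : ℕ) : 1 ≤ lev l₀ M₀ i := by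
  induction i with
  | zero => exact h
  | succ i ih =>
    rw [lev_succ]
    exact Nat.mul_pos ih (by omega)

lemma lev_ge {l₀ : ℕ} (h : 1 ≤ l₀) (M₀ : ℕ → ℕ) (i : ℕ) : l₀ ≤ lev l₀ M₀ i :=
  Nat.le_of_dvd (lev_pos h M₀ i) (lev_dvd l₀ M₀ i)

lemma lev_dvd_succ (l₀ : ℕ) (M₀ : ℕ → ℕ) (i : ℕ) : lev l₀ M₀ i ∣ lev l₀ M₀ (i + 1) := by
  rw [lev_succ]; exact Nat.dvd_mul_right _ _

lemma lev_dvd_of_le (l₀ : ℕ) (M₀ : ℕ → ℕ) {i j : ℕ} (h : i ≤ j) :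
    lev l₀ M₀ i ∣ lev l₀ M₀ j := by
  induction j, h using Nat.le_induction with
  | base => exact dvd_rfl
  | succ j _ ih => exact ih.trans (lev_dvd_succ l₀ M₀ j)

lemma lev_div {l₀ : ℕ} (h : 1 ≤ l₀) (M₀ : ℕ → ℕ) (i : ℕ) :
    lev l₀ M₀ (i + 1) / lev l₀ M₀ i = max (M₀ (lev l₀ M₀ i)) 1 := by
  rw [lev_succ]
  exact Nat.mul_div_cancel_left _ (lev_pos h M₀ i)

/-- The numerical end of the proof. -/
lemma numeric {w₁ ε' J L lJ S lg : ℝ} (hw₁ : 0 < w₁) (hε' : 0 < ε') (hJ : 0 < J)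
    (hJs : 16 / (w₁ * ε') ≤ Real.sqrt J) (hL : 0 ≤ L) (hlg : 0 ≤ lg) (hlJ : lJ ≤ ε' * L / 8)
    (h : w₁ / 2 * J * S ≤ J * (10 * (w₁ * ε' / 80) * L * lg) +
      (Real.sqrt J * L + w₁ / 2 * J * lJ) * (2 * lg)) : S ≤ ε' * L * lg := by
  have hs : Real.sqrt J * Real.sqrt J = J := Real.mul_self_sqrt hJ.le
  have hs0 : 0 < Real.sqrt J := Real.sqrt_pos.2 hJ
  have h1 : 16 ≤ Real.sqrt J * (w₁ * ε') := by
    rwa [div_le_iff₀ (by positivity)] at hJs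
  have h2 : 16 * Real.sqrt J ≤ J * (w₁ * ε') := by
    calc 16 * Real.sqrt J ≤ (Real.sqrt J * (w₁ * ε')) * Real.sqrt J :=
          mul_le_mul_of_nonneg_right h1 hs0.le
      _ = (Real.sqrt J * Real.sqrt J) * (w₁ * ε') := by ring
      _ = J * (w₁ * ε') := by rw [hs]
  have hLl : 0 ≤ L * lg := mul_nonneg hL hlg
  have h3 : Real.sqrt J * L * (2 * lg) ≤ J * (w₁ * ε') / 8 * (L * lg) := by
    have : 2 * Real.sqrt J ≤ J * (w₁ * ε') / 8 := by linarith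
    calc Real.sqrt J * L * (2 * lg) = (2 * Real.sqrt J) * (L * lg) := by ring
      _ ≤ _ := mul_le_mul_of_nonneg_right this hLl
  have h4 : w₁ / 2 * J * lJ * (2 * lg) ≤ w₁ * J * (ε' * L / 8) * lg := by
    calc w₁ / 2 * J * lJ * (2 * lg) = w₁ * J * lJ * lg := by ring
      _ ≤ _ := by gcongr
  have h5 : w₁ / 2 * J * S ≤ w₁ / 2 * J * (ε' * L * lg) := by
    refine h.trans ?_
    have h6 : J * (10 * (w₁ * ε' / 80) * L * lg) = J * (w₁ * ε') / 8 * (L * lg) := by ring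
    have h7 : w₁ * J * (ε' * L / 8) * lg = J * (w₁ * ε') / 8 * (L * lg) := by ring
    have h8 : w₁ / 2 * J * (ε' * L * lg) = J * (w₁ * ε') / 2 * (L * lg) := by ring
    rw [h6, h8, add_mul]
    rw [h7] at h4
    have h9 : 0 ≤ J * (w₁ * ε') * (L * lg) := by positivity
    linarith
  exact le_of_mul_le_mul_left h5 (by positivity)

end W6x

open W6x in
/-- **Row W6.** -/
theorem rowW6 (h0 : W0_stmt) (h2 : W2_stmt) (h3 : W3_stmt) (h4 : W4_stmt) (h5 : W5_stmt)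
    (h7 : W7_stmt) : W6_stmt := by
  classical
  intro k F hF hD s t hks hs hst B hB hP r hr hyp
  obtain ⟨C, hC⟩ : ∃ C : Set (Fin s → ℝ),
    C = {y | glue s y (fun i => ((r i : ℚ) : ℝ)) ∈ B} := ⟨_, rfl⟩
  have hCc : IsClosed C := by
    rw [hC]
    exact hB.preimage (continuous_pi fun i => by
      unfold glue
      by_cases h : i.val < s
      · simp only [dif_pos h]; exact continuous_apply _
      · simp only [dif_neg h]; exact continuous_const)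
  have hCp : Per C := by rw [hC]; exact per_section hP _
  rw [← hC] at hr
  obtain ⟨w₁, hw₁, K, hKc, hKp, hKi, hKv, hg⟩ := h3 s (by omega) C hCc hCp hr
  refine ⟨K, hKp, hKv, fun ε hε => ?_⟩
  have hq := RV1.dn_pos r
  obtain ⟨C₂, hC₂, hW2⟩ := h2 (RV1.dn r) hq (fun _ => 1) (psi s r) (fun _ => rfl)
    (psi_per s r) (fun _ => by simp) (norm_psi s r)
  -- the start
  obtain ⟨Q₀, hQ₀, hW0⟩ := h0 k F hF hD s hks (ε / 4) (by positivity)
  obtain ⟨d₀, hd₀, hd₀s⟩ := Nr_Mn hKc hKp hKi Q₀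
  obtain ⟨H₀, hH₀⟩ := hW0 d₀ hd₀
  -- the parameters
  obtain ⟨ε', hε'⟩ : ∃ ε' : ℝ, ε' = ε / (2 * C₂) := ⟨_, rfl⟩
  have hε'0 : 0 < ε' := by rw [hε']; positivity
  obtain ⟨J, hJ⟩ : ∃ J : ℕ, J = ⌈(16 / (w₁ * ε')) ^ 2⌉₊ + 1 := ⟨_, rfl⟩
  have hJ0 : (0 : ℝ) < J := by
    have : 0 < J := by omega
    exact_mod_cast this
  have hJs : 16 / (w₁ * ε') ≤ Real.sqrt J := by
    apply Real.le_sqrt_of_sq_le
    refine (Nat.le_ceil _).trans ?_
    rw [hJ]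
    push_cast
    linarith
  obtain ⟨ε₂, hε₂⟩ : ∃ ε₂ : ℝ, ε₂ = w₁ * ε' / 80 := ⟨_, rfl⟩
  have hε₂0 : 0 < ε₂ := by rw [hε₂]; positivity
  obtain ⟨H₁, hH₁⟩ := hyp ε₂ hε₂0
  have hlevel : ∀ l : ℕ, 1 ≤ l → ∃ (δ' : ℝ) (g : (Fin s → ℝ) → ℝ) (δ₁ : ℝ) (M₀ : ℕ), 0 < δ' ∧
      (∀ x, 0 ≤ g x) ∧ (∀ x, g x ≤ 1) ∧ (∀ x, g x ≠ 0 → x ∈ Nb C δ') ∧ 0 < δ₁ ∧
      (∀ N : ℕ, SBK (Nb B δ') F N l ≤ SBK B F N l + ε₂ * (1 + Real.log N)) ∧
      ∀ M : ℕ, M₀ ≤ M → ∀ P : ℝ[X], P.natDegree ≤ s → P.coeff s ∈ Nr K δ₁ → ∀ j₀ : ℕ,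
        w₁ / 2 * M ≤ ∑ j ∈ range M, g (tv s P ((l * (j₀ + j) : ℕ) : ℝ)) :=
    fun l hl => level (by omega) h4 h7 C w₁ hw₁ K hKc hKp hKi hg F hF B ε₂ hε₂0 l hl
  choose! δ' g δ₁ M₀ hδ' hg0 hg1 hgs hδ₁ hW7 hM using hlevel
  obtain ⟨l₀, hl₀⟩ : ∃ l₀ : ℕ, l₀ = RV1.dn r * (H₁ + 1) := ⟨_, rfl⟩
  have hl₀1 : 1 ≤ l₀ := by rw [hl₀]; exact Nat.mul_pos hq (Nat.succ_pos _)
  have hl₀H : H₁ ≤ l₀ := by
    rw [hl₀]
    calc H₁ ≤ H₁ + 1 := Nat.le_succ _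
      _ ≤ RV1.dn r * (H₁ + 1) := Nat.le_mul_of_pos_left _ hq
  obtain ⟨ℓ, hℓ⟩ : ∃ ℓ : ℕ → ℕ, ℓ = lev l₀ M₀ := ⟨_, rfl⟩
  have hℓ1 : ∀ i, 1 ≤ ℓ i := fun i => by rw [hℓ]; exact lev_pos hl₀1 M₀ i
  have hℓd : ∀ i, ℓ i ∣ ℓ (i + 1) := fun i => by rw [hℓ]; exact lev_dvd_succ l₀ M₀ i
  have hℓq : ∀ i, RV1.dn r ∣ ℓ i := fun i => by
    rw [hℓ]
    exact Dvd.dvd.trans (by rw [hl₀]; exact Nat.dvd_mul_right _ _) (lev_dvd l₀ M₀ i)
  have hℓH : ∀ i, H₁ ≤ ℓ i := fun i => by rw [hℓ]; exact hl₀H.trans (lev_ge hl₀1 M₀ i)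
  have hℓdiv : ∀ i, ℓ (i + 1) / ℓ i = max (M₀ (ℓ i)) 1 := fun i => by
    rw [hℓ]; exact lev_div hl₀1 M₀ i
  obtain ⟨δm, hδm, hδmJ⟩ := exists_min (fun i => δ₁ (ℓ i)) (fun i => hδ₁ (ℓ i) (hℓ1 i)) J
  obtain ⟨δ, hδ⟩ : ∃ δ : ℝ, δ = min δm d₀ := ⟨_, rfl⟩
  have hδ0 : 0 < δ := by rw [hδ]; exact lt_min hδm hd₀
  refine ⟨δ, hδ0, H₀ + 3 + ℓ J + ⌈8 * (ℓ J : ℝ) / ε'⌉₊, fun L N hL hLN => ?_⟩
  have hLr : (3 : ℝ) ≤ L := by exact_mod_cast (by omega : 3 ≤ L)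
  have hL0 : (0 : ℝ) < L := by linarith
  have hN3 : (3 : ℝ) ≤ N := hLr.trans (by exact_mod_cast hLN)
  have hlog : 1 ≤ Real.log N := by
    rw [Real.le_log_iff_exp_le (by linarith)]
    linarith [Real.exp_one_lt_three]
  have hℓJL : ℓ J ≤ L := by omega
  have hℓJ8 : (ℓ J : ℝ) ≤ ε' * L / 8 := by
    have h1 : 8 * (ℓ J : ℝ) / ε' ≤ L := (Nat.le_ceil _).trans (by
      exact_mod_cast (by omega : ⌈8 * (ℓ J : ℝ) / ε'⌉₊ ≤ L))
    rw [div_le_iff₀ hε'0] at h1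
    linarith
  have hlog2 : Real.log ((2 * N : ℕ) : ℝ) ≤ 2 * Real.log N := by
    push_cast
    rw [Real.log_mul (by norm_num) (by linarith)]
    have : Real.log 2 ≤ Real.log N := Real.log_le_log (by norm_num) (by linarith)
    linarith
  have hinv : ∑ n ∈ Icc L N, (1 / (n : ℝ)) ≤ 2 * Real.log N := by
    have h1 : ∑ n ∈ Icc L N, (1 / (n : ℝ)) ≤ ∑ n ∈ Icc 1 N, (1 / (n : ℝ)) :=
      sum_le_sum_of_subset_of_nonneg (Finset.Icc_subset_Icc_left (by omega))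
        fun n _ _ => by positivity
    have h2 := sum_inv_le_log N
    linarith
  -- the average of the windows with the weight
  obtain ⟨T, hT⟩ : ∃ T : ℕ → ℝ, T = fun n => TopS s (Nr K δ) F (psi s r) L n := ⟨_, rfl⟩
  have hT0 : ∀ n, 0 ≤ T n := fun n => by rw [hT]; exact TopS_nonneg _ _ _ _ _ _
  have hmain : ∑ n ∈ Icc L N, (1 / (n : ℝ)) * T n ≤ ε' * L * Real.log N := by
    have hwin : ∀ n : ℕ, w₁ / 2 * J * T n ≤
        ∑ i ∈ range J, ∑ j ∈ range (L / ℓ J * (ℓ J / ℓ i)),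
          spK (Nb B (δ' (ℓ i))) F (ℓ i) (n + ℓ i * j) +
          (Real.sqrt J * L + w₁ / 2 * J * ℓ J) := by
      intro n
      rw [hT]
      refine window h5 hF hst B r w₁ hw₁ (Nr K δ) J ℓ hℓ1 hℓd hℓq (fun i => δ' (ℓ i))
        (fun i => hδ' (ℓ i) (hℓ1 i)) (fun i => g (ℓ i)) (fun i => hg0 (ℓ i) (hℓ1 i))
        (fun i => hg1 (ℓ i) (hℓ1 i)) (fun i x hx => ?_) (fun i hi P hPd hPK j₀ => ?_) L n
      · have := hgs (ℓ i) (hℓ1 i) x hx
        rwa [hC] at this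
      · rw [hℓdiv]
        exact hM (ℓ i) (hℓ1 i) (max (M₀ (ℓ i)) 1) (le_max_left _ _) P hPd
          (Nr_mono (by rw [hδ]; exact (min_le_left _ _).trans (hδmJ i hi)) hPK) j₀
    -- the short windows
    have hshort : ∀ i ∈ range J, ∀ j ∈ range (L / ℓ J * (ℓ J / ℓ i)),
        ∑ n ∈ Icc L N, (1 / (n : ℝ)) * spK (Nb B (δ' (ℓ i))) F (ℓ i) (n + ℓ i * j) ≤
          10 * ε₂ * ℓ i * Real.log N := by
      intro i hi j hj
      rw [mem_range] at hi hj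
      have hdv : ℓ i ∣ ℓ J := by rw [hℓ]; exact lev_dvd_of_le l₀ M₀ hi.le
      have hiJ : ℓ i ≤ ℓ J := Nat.le_of_dvd (hℓ1 J) hdv
      have hy : ℓ i * j ≤ L := by
        calc ℓ i * j ≤ ℓ i * (L / ℓ J * (ℓ J / ℓ i)) := Nat.mul_le_mul_left _ hj.le
          _ = L / ℓ J * (ℓ i * (ℓ J / ℓ i)) := by ring
          _ = L / ℓ J * ℓ J := by rw [Nat.mul_div_cancel' hdv]
          _ ≤ L := Nat.div_mul_le_self _ _
      have h1 := shift_sum_real (fun n => spK (Nb B (δ' (ℓ i))) F (ℓ i) n)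
        (fun n => spK_nonneg _ _ _ _) L N (ℓ i * j) hy hLN
      rcases h1 with h1 | h1
      · refine h1.trans ?_
        have h2 := hW7 (ℓ i) (hℓ1 i) (2 * N)
        rw [SBK_eq] at h2
        have h3 := hH₁ (ℓ i) (2 * N) (hℓH i) (by omega)
        have h4 : (1 : ℝ) ≤ ℓ i := by exact_mod_cast hℓ1 i
        have h5 : ε₂ * ℓ i * Real.log ((2 * N : ℕ) : ℝ) ≤ ε₂ * ℓ i * (2 * Real.log N) :=
          mul_le_mul_of_nonneg_left hlog2 (by positivity)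
        have h6 : ε₂ * (1 + Real.log ((2 * N : ℕ) : ℝ)) ≤ ε₂ * ℓ i * (3 * Real.log N) := by
          have h7 : ε₂ * (1 + Real.log ((2 * N : ℕ) : ℝ)) ≤ ε₂ * (3 * Real.log N) :=
            mul_le_mul_of_nonneg_left (by linarith) hε₂0.le
          have h8 : ε₂ * (3 * Real.log N) ≤ ε₂ * ℓ i * (3 * Real.log N) :=
            mul_le_mul_of_nonneg_right (le_mul_of_one_le_right hε₂0.le h4) (by positivity)
          exact h7.trans h8
        linarith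
      · omega
    have hsum : w₁ / 2 * J * ∑ n ∈ Icc L N, (1 / (n : ℝ)) * T n ≤
        J * (10 * ε₂ * L * Real.log N) +
          (Real.sqrt J * L + w₁ / 2 * J * ℓ J) * (2 * Real.log N) := by
      calc w₁ / 2 * J * ∑ n ∈ Icc L N, (1 / (n : ℝ)) * T n
          = ∑ n ∈ Icc L N, (1 / (n : ℝ)) * (w₁ / 2 * J * T n) := by
            rw [mul_sum]
            exact sum_congr rfl fun n _ => by ring
        _ ≤ ∑ n ∈ Icc L N, (1 / (n : ℝ)) * (∑ i ∈ range J, ∑ j ∈ range (L / ℓ J * (ℓ J / ℓ i)),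
            spK (Nb B (δ' (ℓ i))) F (ℓ i) (n + ℓ i * j) +
            (Real.sqrt J * L + w₁ / 2 * J * ℓ J)) :=
            sum_le_sum fun n _ => mul_le_mul_of_nonneg_left (hwin n) (by positivity)
        _ = ∑ i ∈ range J, ∑ j ∈ range (L / ℓ J * (ℓ J / ℓ i)), ∑ n ∈ Icc L N, (1 / (n : ℝ)) *
            spK (Nb B (δ' (ℓ i))) F (ℓ i) (n + ℓ i * j) +
            (Real.sqrt J * L + w₁ / 2 * J * ℓ J) * ∑ n ∈ Icc L N, (1 / (n : ℝ)) := by
            simp only [mul_add, sum_add_distrib, mul_sum]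
            congr 1
            · rw [sum_comm]
              refine sum_congr rfl fun i _ => ?_
              rw [sum_comm]
            · rw [← sum_add_distrib]
              exact sum_congr rfl fun n _ => by ring
        _ ≤ J * (10 * ε₂ * L * Real.log N) +
            (Real.sqrt J * L + w₁ / 2 * J * ℓ J) * (2 * Real.log N) := by
            apply add_le_add
            · calc ∑ i ∈ range J, ∑ j ∈ range (L / ℓ J * (ℓ J / ℓ i)), ∑ n ∈ Icc L N,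
                    (1 / (n : ℝ)) * spK (Nb B (δ' (ℓ i))) F (ℓ i) (n + ℓ i * j)
                  ≤ ∑ i ∈ range J, 10 * ε₂ * L * Real.log N := by
                    refine sum_le_sum fun i hi => ?_
                    refine (sum_le_sum fun j hj => hshort i hi j hj).trans ?_
                    rw [sum_const, card_range, nsmul_eq_mul]
                    rw [mem_range] at hi
                    have hdv : ℓ i ∣ ℓ J := by rw [hℓ]; exact lev_dvd_of_le l₀ M₀ hi.le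
                    have h1 : L / ℓ J * (ℓ J / ℓ i) * ℓ i ≤ L := by
                      rw [mul_assoc, Nat.div_mul_cancel hdv]
                      exact Nat.div_mul_le_self _ _
                    have h2 : ((L / ℓ J * (ℓ J / ℓ i) : ℕ) : ℝ) * ℓ i ≤ L := by exact_mod_cast h1
                    calc ((L / ℓ J * (ℓ J / ℓ i) : ℕ) : ℝ) * (10 * ε₂ * ℓ i * Real.log N)
                        = 10 * ε₂ * (((L / ℓ J * (ℓ J / ℓ i) : ℕ) : ℝ) * ℓ i) * Real.log N := by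
                          ring
                      _ ≤ 10 * ε₂ * L * Real.log N := by gcongr
                _ = J * (10 * ε₂ * L * Real.log N) := by
                    rw [sum_const, card_range, nsmul_eq_mul]
            · exact mul_le_mul_of_nonneg_left hinv (by positivity)
    rw [hε₂] at hsum
    exact numeric hw₁ hε'0 hJ0 hJs hL0.le (by linarith) hℓJ8 hsum
  -- all windows
  have hall : ∀ n ∈ Icc 1 N, (1 / (n : ℝ)) * TopS s (Nr K δ) F (fun _ => 1) L n ≤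
      (1 / (n : ℝ)) * (ε / 4 * L) + (if L ≤ n then C₂ * ((1 / (n : ℝ)) * T n) else 0) := by
    intro n _
    have hn0 : (0 : ℝ) ≤ 1 / (n : ℝ) := by positivity
    by_cases hn : L ≤ n
    · rw [if_pos hn]
      have h1 := hW2 F hF.bdd s (Nr K δ) hs L n
      have h6 : (1 / (n : ℝ)) * TopS s (Nr K δ) F (fun _ => 1) L n ≤
          (1 / (n : ℝ)) * (C₂ * T n) := by
        rw [hT]
        exact mul_le_mul_of_nonneg_left h1 hn0
      have h8 : 0 ≤ (1 / (n : ℝ)) * (ε / 4 * L) := by positivity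
      linarith
    · rw [if_neg hn, add_zero]
      refine mul_le_mul_of_nonneg_left ?_ hn0
      have h1 := hH₀ L (by omega) n (by omega)
      refine (TopS_mono hF s ?_ L n).trans h1
      exact (Nr_mono (by rw [hδ]; exact min_le_right _ _)).trans hd₀s
  unfold AT
  refine (sum_le_sum hall).trans ?_
  rw [sum_add_distrib, ← sum_mul, ← sum_filter, ← mul_sum]
  have hfil : (Icc 1 N).filter (fun n => L ≤ n) = Icc L N := by
    ext n
    simp only [mem_filter, mem_Icc]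
    omega
  rw [hfil]
  have h1 := sum_inv_le_log N
  have h6 : (∑ n ∈ Icc 1 N, (1 / (n : ℝ))) * (ε / 4 * L) ≤ (2 * Real.log N) * (ε / 4 * L) :=
    mul_le_mul_of_nonneg_right (by linarith) (by positivity)
  have h8 : C₂ * ∑ n ∈ Icc L N, (1 / (n : ℝ)) * T n ≤ C₂ * (ε' * L * Real.log N) :=
    mul_le_mul_of_nonneg_left hmain hC₂.le
  have h9 : C₂ * (ε' * L * Real.log N) = ε / 2 * L * Real.log N := by
    rw [hε']
    field_simp
  rw [h9] at h8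
  linarith

end Pool.Agent.TUK
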