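import Pool.Agent.Lib.TUK.Defs3
import Pool.Agent.Lib.MP_663568_nt.Log

/-!
# Row W7: short windows do not see a small neighbourhood
-/

set_option autoImplicit false
open Finset Polynomial MeasureTheory

namespace Pool.Agent.TUK

open Pool.Agent.Lib.MP_663568_nt Pool.Agent.Lib.MP_663568_nt.Katai
  Pool.Agent.Lib.MP_663568_nt.Nul Pool.Agent.TU

namespace W7aux

theorem ph_sub {t l : ℕ} {δ : ℝ} (hδ : 0 ≤ δ) (α β : Fin t → ℝ) (h : ∀ i, |α i - β i| ≤ δ)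
    (x : ℕ) (hx : x ≤ l) (hl : 1 ≤ l) :
    |ph α (x : ℝ) - ph β (x : ℝ)| ≤ t * δ * (l : ℝ) ^ t := by
  have e : ph α (x : ℝ) - ph β (x : ℝ) = ∑ i : Fin t, (α i - β i) * (x : ℝ) ^ (i.val + 1) := by
    unfold ph
    rw [← sum_sub_distrib]
    exact sum_congr rfl fun i _ => by ring
  rw [e]
  refine (abs_sum_le_sum_abs _ _).trans ?_
  have hl' : (1 : ℝ) ≤ l := by exact_mod_cast hl
  have hx' : (x : ℝ) ≤ l := by exact_mod_cast hx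
  have hb : ∀ i : Fin t, |(α i - β i) * (x : ℝ) ^ (i.val + 1)| ≤ δ * (l : ℝ) ^ t := by
    intro i
    rw [abs_mul, abs_of_nonneg (by positivity : (0 : ℝ) ≤ (x : ℝ) ^ (i.val + 1))]
    refine mul_le_mul (h i) ?_ (by positivity) hδ
    calc (x : ℝ) ^ (i.val + 1) ≤ (l : ℝ) ^ (i.val + 1) := by gcongr
      _ ≤ (l : ℝ) ^ t := pow_le_pow_right₀ hl' i.2
  refine (sum_le_sum fun i _ => hb i).trans ?_
  rw [sum_const, card_univ, Fintype.card_fin, nsmul_eq_mul]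
  exact le_of_eq (by ring)

end W7aux

open W7aux in
theorem rowW7 : W7_stmt := by
  intro t l ε hε
  have hD : (0 : ℝ) < 2 * Real.pi * (t * (l : ℝ) ^ t) * l + 1 := by positivity
  refine ⟨ε / (2 * Real.pi * (t * (l : ℝ) ^ t) * l + 1), by positivity, ?_⟩
  set δ : ℝ := ε / (2 * Real.pi * (t * (l : ℝ) ^ t) * l + 1) with hδd
  have hδ : 0 < δ := by positivity
  intro B F hF N
  have hterm : ∀ n : ℕ, ∀ α β : Fin t → ℝ, (∀ i, |α i - β i| ≤ δ) → ∀ u ∈ F,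
      ‖∑ h ∈ Icc 1 l, muC (n + h) * (u h * ee (ph α (h : ℝ)))‖ ≤
        ‖∑ h ∈ Icc 1 l, muC (n + h) * (u h * ee (ph β (h : ℝ)))‖ + ε := by
    intro n α β hαβ u hu
    have h1 : ‖∑ h ∈ Icc 1 l, muC (n + h) * (u h * ee (ph α (h : ℝ))) -
        ∑ h ∈ Icc 1 l, muC (n + h) * (u h * ee (ph β (h : ℝ)))‖ ≤ ε := by
      rw [← sum_sub_distrib]
      refine (norm_sum_le _ _).trans ?_
      have h2 : ∀ h ∈ Icc 1 l, ‖muC (n + h) * (u h * ee (ph α (h : ℝ))) -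
          muC (n + h) * (u h * ee (ph β (h : ℝ)))‖ ≤ 2 * Real.pi * (t * δ * (l : ℝ) ^ t) := by
        intro h hh
        rw [mem_Icc] at hh
        have e : muC (n + h) * (u h * ee (ph α (h : ℝ))) - muC (n + h) * (u h * ee (ph β (h : ℝ))) =
            muC (n + h) * (u h * (ee (ph α (h : ℝ)) - ee (ph β (h : ℝ)))) := by ring
        rw [e, norm_mul, norm_mul]
        have h3 := norm_muC (n + h)
        have h4 := hF u hu h
        have h5 : ‖ee (ph α (h : ℝ)) - ee (ph β (h : ℝ))‖ ≤ 2 * Real.pi * (t * δ * (l : ℝ) ^ t) :=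
          (Katai.norm_ee_sub_ee_le _ _).trans (by
            have := ph_sub hδ.le α β hαβ h hh.2 (hh.1.trans hh.2)
            gcongr)
        calc ‖muC (n + h)‖ * (‖u h‖ * ‖ee (ph α (h : ℝ)) - ee (ph β (h : ℝ))‖)
            ≤ 1 * (1 * (2 * Real.pi * (t * δ * (l : ℝ) ^ t))) := by gcongr
          _ = _ := by ring
      refine (sum_le_sum h2).trans ?_
      rw [sum_const, Nat.card_Icc, Nat.add_sub_cancel, nsmul_eq_mul]
      have h6 : (l : ℝ) * (2 * Real.pi * (t * δ * (l : ℝ) ^ t)) =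
          (2 * Real.pi * (t * (l : ℝ) ^ t) * l) * δ := by ring
      rw [h6, hδd, mul_div_assoc', div_le_iff₀ hD]
      nlinarith [hε.le]
    have h7 := norm_sub_norm_le (∑ h ∈ Icc 1 l, muC (n + h) * (u h * ee (ph α (h : ℝ))))
      (∑ h ∈ Icc 1 l, muC (n + h) * (u h * ee (ph β (h : ℝ))))
    linarith
  have hbd : ∀ n : ℕ, BddAbove (Set.range fun p : {p : (Fin t → ℝ) × (ℕ → ℂ) //
      p.1 ∈ B ∧ p.2 ∈ F} => ‖∑ h ∈ Icc 1 l, muC (n + h) * (p.1.2 h * ee (ph p.1.1 (h : ℝ)))‖) := by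
    intro n
    refine ⟨l, ?_⟩
    rintro _ ⟨p, rfl⟩
    refine (norm_sum_le _ _).trans ?_
    refine (sum_le_sum (g := fun _ => (1 : ℝ)) fun h _ => ?_).trans (by simp)
    rw [norm_mul, norm_mul, norm_ee, mul_one]
    exact mul_le_one₀ (norm_muC _) (norm_nonneg _) (hF _ p.2.2 _)
  have hsup : ∀ n : ℕ, (⨆ p : {p : (Fin t → ℝ) × (ℕ → ℂ) // p.1 ∈ Nb B δ ∧ p.2 ∈ F},
      ‖∑ h ∈ Icc 1 l, muC (n + h) * (p.1.2 h * ee (ph p.1.1 (h : ℝ)))‖) ≤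
      (⨆ p : {p : (Fin t → ℝ) × (ℕ → ℂ) // p.1 ∈ B ∧ p.2 ∈ F},
        ‖∑ h ∈ Icc 1 l, muC (n + h) * (p.1.2 h * ee (ph p.1.1 (h : ℝ)))‖) + ε := by
    intro n
    have h0 : 0 ≤ (⨆ p : {p : (Fin t → ℝ) × (ℕ → ℂ) // p.1 ∈ B ∧ p.2 ∈ F},
        ‖∑ h ∈ Icc 1 l, muC (n + h) * (p.1.2 h * ee (ph p.1.1 (h : ℝ)))‖) :=
      Real.iSup_nonneg fun _ => norm_nonneg _
    refine Real.iSup_le ?_ (by linarith)
    rintro ⟨⟨α, u⟩, ⟨β, hβ, hαβ⟩, hu⟩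
    have h1 := hterm n α β hαβ u hu
    have h2 := le_ciSup (hbd n) ⟨(β, u), hβ, hu⟩
    simp only at h2 ⊢
    linarith
  unfold SBK
  calc ∑ n ∈ Icc 1 N, (1 / (n : ℝ)) * (⨆ p : {p : (Fin t → ℝ) × (ℕ → ℂ) //
        p.1 ∈ Nb B δ ∧ p.2 ∈ F},
        ‖∑ h ∈ Icc 1 l, muC (n + h) * (p.1.2 h * ee (ph p.1.1 (h : ℝ)))‖)
      ≤ ∑ n ∈ Icc 1 N, (1 / (n : ℝ)) * ((⨆ p : {p : (Fin t → ℝ) × (ℕ → ℂ) //
        p.1 ∈ B ∧ p.2 ∈ F},
        ‖∑ h ∈ Icc 1 l, muC (n + h) * (p.1.2 h * ee (ph p.1.1 (h : ℝ)))‖) + ε) :=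
        sum_le_sum fun n _ => mul_le_mul_of_nonneg_left (hsup n) (by positivity)
    _ = ∑ n ∈ Icc 1 N, (1 / (n : ℝ)) * (⨆ p : {p : (Fin t → ℝ) × (ℕ → ℂ) //
        p.1 ∈ B ∧ p.2 ∈ F},
        ‖∑ h ∈ Icc 1 l, muC (n + h) * (p.1.2 h * ee (ph p.1.1 (h : ℝ)))‖) +
        (∑ n ∈ Icc 1 N, (1 / (n : ℝ))) * ε := by
        rw [sum_mul, ← sum_add_distrib]
        exact sum_congr rfl fun n _ => by ring
    _ ≤ _ := by
        have := sum_inv_le_log N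
        nlinarith [hε.le]

end Pool.Agent.TUK
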