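import Mathlib
import Pool.Agent.Lib.TUK.Bridge
import Pool.Agent.Lib.TUK.VK
import Pool.Agent.Lib.TUK.W
import Pool.Agent.Lib.TUK.W0
import Pool.Agent.Lib.TUK.W1
import Pool.Agent.Lib.TUK.W2
import Pool.Agent.Lib.TUK.W3
import Pool.Agent.Lib.TUK.W4
import Pool.Agent.Lib.TUK.W5
import Pool.Agent.Lib.TUK.W6
import Pool.Agent.Lib.TUK.W7

/-!
# Closed sets of polynomial phases and nilsequences (MP_663568_nt): part (iii) of the hand-in
-/

set_option autoImplicit false
open Finset Polynomial MeasureTheory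

namespace Pool.Agent.TUK

open Pool.Agent.Lib.MP_663568_nt Pool.Agent.Lib.MP_663568_nt.Katai
  Pool.Agent.Lib.MP_663568_nt.Nul Pool.Agent.TU

/-- Row W. -/
theorem theoremW : W_stmt := rowW rowW1 (rowW6 rowW0 rowW2 rowW3 rowW4 rowW5 rowW7)

end Pool.Agent.TUK
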