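import Mathlib
import Pool.Agent.Lib.TUK.FinalW
import Pool.Agent.Lib.TU.RowB2

/-!
# Closed sets of polynomial phases and nilsequences (MP_663568_nt): parts (ii) and (iii)
-/

set_option autoImplicit false
open Finset Polynomial MeasureTheory

namespace Pool.Agent.TUK

open Pool.Agent.Lib.MP_663568_nt Pool.Agent.Lib.MP_663568_nt.Katai
  Pool.Agent.Lib.MP_663568_nt.Nul Pool.Agent.TU

/-- The points of `ℝ^s` whose last coordinate is far from the rationals of small denominator. -/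
def Mr (s Q : ℕ) (δ : ℝ) : Set (Fin s → ℝ) :=
  {y | ∀ i : Fin s, i.val + 1 = s → ∀ q : ℕ, 1 ≤ q → q ≤ Q → ∀ b : ℤ, δ ≤ |(q : ℝ) * y i - b|}

section

variable {G : Type} [Group G]

lemma AvgN_le_AT (Γ : Subgroup G) (f : G ⧸ Γ → ℂ) (hf : ∀ x, ‖f x‖ ≤ 1) (s : ℕ) (hs : 1 ≤ s)
    (Q : ℕ) (δ : ℝ) (N H : ℕ) :
    AvgN Γ f (Mr s Q δ) N H ≤ AT s (Mn Q δ) (NS Γ f) (fun _ => 1) N H := by
  unfold AvgN AT
  refine sum_le_sum fun n _ => mul_le_mul_of_nonneg_left ?_ (by positivity)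
  refine Real.iSup_le (fun i => ?_) (Real.iSup_nonneg fun _ => norm_nonneg _)
  obtain ⟨⟨⟨g, x⟩, α⟩, hα⟩ := i
  have hb : BddAbove (Set.range fun p : {p : ℝ[X] × (ℕ → ℂ) // p.1.natDegree ≤ s ∧
      p.1.coeff s ∈ Mn Q δ ∧ p.2 ∈ NS Γ f} =>
      ‖∑ h ∈ Icc 1 H, muC (n + h) * (p.1.2 h * ((fun _ => 1 : ℕ → ℂ) h *
        ee (p.1.1.eval (h : ℝ))))‖) := by
    refine ⟨(H : ℝ), ?_⟩
    rintro _ ⟨p, rfl⟩
    simp only [one_mul]
    refine term_le_card (fun m => ?_) H n fun h => p.1.1.eval (h : ℝ)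
    obtain ⟨g, x, hu⟩ := p.2.2.2
    rw [hu]
    exact hf _
  have hc : (B2.phP α).coeff s ∈ Mn Q δ := by
    have h1 := B2.phP_coeff α ⟨s - 1, by omega⟩
    have h2 : s - 1 + 1 = s := by omega
    simp only [h2] at h1
    rw [h1]
    intro q hq hqQ b
    exact hα ⟨s - 1, by omega⟩ h2 q hq hqQ b
  refine le_trans (le_of_eq ?_) (le_ciSup hb ⟨(B2.phP α, fun m => f (QuotientGroup.mk (g ^ m * x))),
    B2.phP_natDegree α, hc, g, x, fun _ => rfl⟩)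
  simp only [wd, one_mul, B2.phP_eval]

end

section

variable {G : Type} [Group G] [TopologicalSpace G] [IsTopologicalGroup G]

lemma exists_bound (A : ℕ → Subgroup G) (hanti : Antitone A) (hA1 : A 1 = ⊤)
    (Γ : Subgroup G) (hcpt : ∀ i, ∃ C : Set G, IsCompact C ∧ (∀ c ∈ C, c ∈ A i) ∧
      ∀ x ∈ A i, ∃ c ∈ C, ∃ γ ∈ Γ, x = c * γ)
    (f : G ⧸ Γ → ℂ) (hf : Continuous f) : ∃ b : ℝ, ∀ x, ‖f x‖ ≤ b := by
  have h0 : A 0 = ⊤ := top_le_iff.mp (hA1 ▸ hanti (Nat.zero_le 1))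
  have hX : CompactSpace (G ⧸ Γ) := by
    obtain ⟨C, hC1, hC2, hC3⟩ := hcpt 0
    refine ⟨?_⟩
    have : (Set.univ : Set (G ⧸ Γ)) = (fun g : G => (g : G ⧸ Γ)) '' C := by
      ext x
      simp only [Set.mem_univ, true_iff]
      obtain ⟨g, rfl⟩ := QuotientGroup.mk_surjective x
      obtain ⟨c, hc, γ, hγ, e⟩ := hC3 g (by rw [h0]; trivial)
      exact ⟨c, hc, (Tw.coe_eq_of_mul Γ _ _ _ hγ e).symm⟩
    rw [this]
    exact hC1.image QuotientGroup.continuous_mk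
  have h1 : IsCompact (Set.range fun x => ‖f x‖) := isCompact_range (by fun_prop)
  obtain ⟨b, hb⟩ := h1.bddAbove
  exact ⟨b, fun x => hb ⟨x, rfl⟩⟩

/-- Parts (ii): sections of dimension at most `max k 1`. -/
theorem partII' (k t : ℕ) (hkt : k < t)
    (A : ℕ → Subgroup G) (hanti : Antitone A) (hA1 : A 1 = ⊤) (hAk : A (k + 1) = ⊥)
    (Γ : Subgroup G) (hcpt : ∀ i, ∃ C : Set G, IsCompact C ∧ (∀ c ∈ C, c ∈ A i) ∧
      ∀ x ∈ A i, ∃ c ∈ C, ∃ γ ∈ Γ, x = c * γ)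
    (f : G ⧸ Γ → ℂ) (hf : Continuous f) (B : Set (Fin t → ℝ))
    (hinv : ∀ α ∈ B, ∀ β : Fin t → ℝ,
      (∀ i : Fin t, k ≤ i.val → ∃ z : ℤ, β i = α i + (z : ℝ)) → β ∈ B)
    (s : ℕ) (hs1 : 1 ≤ s) (hsk : s ≤ max k 1) (r : Fin t → ℚ)
    (hr : volume {y : Fin s → ℝ | glue s y (fun i => ((r i : ℚ) : ℝ)) ∈ B} ≠ 0)
    (hs : ∀ ε : ℝ, 0 < ε → ∃ H₀ : ℕ, ∀ H N : ℕ, H₀ ≤ H → H ≤ N →
      AvgN Γ f B N H ≤ ε * H * Real.log N) (ε : ℝ) (hε : 0 < ε) :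
    ∃ H₀ : ℕ, ∀ H N : ℕ, H₀ ≤ H → H ≤ N →
      AvgN Γ f (Set.univ : Set (Fin 1 → ℝ)) N H ≤ ε * H * Real.log N := by
  obtain ⟨b, hb⟩ := exists_bound A hanti hA1 Γ hcpt f hf
  have hr' : volume {y : Fin 1 → ℝ | glue 1 y (fun i => ((r i : ℚ) : ℝ)) ∈ B} ≠ 0 := by
    rcases hs1.eq_or_lt with rfl | h2
    · exact hr
    · have hk : s ≤ k := by omega
      obtain ⟨y, hy⟩ : {y : Fin s → ℝ | glue s y (fun i => ((r i : ℚ) : ℝ)) ∈ B}.Nonempty := by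
        by_contra hcon
        rw [Set.not_nonempty_iff_eq_empty] at hcon
        rw [hcon] at hr
        exact hr (measure_empty)
      have huniv : {y : Fin 1 → ℝ | glue 1 y (fun i => ((r i : ℚ) : ℝ)) ∈ B} = Set.univ := by
        ext y'
        simp only [Set.mem_ofPred_eq, Set.mem_univ, iff_true]
        refine hinv _ hy _ fun i hi => ⟨0, ?_⟩
        unfold glue
        rw [dif_neg (by omega), dif_neg (by omega)]
        simp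
      rw [huniv]
      simp
  exact partII rowVK k t hkt A hA1 hAk Γ f b hb B hinv r hr' hs ε hε

/-- Part (iii): sections of dimension greater than `k`, at least `2`. -/
theorem partIII (k t : ℕ)
    (A : ℕ → Subgroup G) (hanti : Antitone A) (hcomm : ∀ i j, ⁅A i, A j⁆ ≤ A (i + j))
    (hA1 : A 1 = ⊤) (hAk : A (k + 1) = ⊥)
    (Γ : Subgroup G) (hΓ : IsClosed (Γ : Set G))
    (hcpt : ∀ i, ∃ C : Set G, IsCompact C ∧ (∀ c ∈ C, c ∈ A i) ∧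
      ∀ x ∈ A i, ∃ c ∈ C, ∃ γ ∈ Γ, x = c * γ)
    (f : G ⧸ Γ → ℂ) (hf : Continuous f) (B : Set (Fin t → ℝ)) (hB : IsClosed B)
    (hinv : ∀ α ∈ B, ∀ β : Fin t → ℝ,
      (∀ i : Fin t, k ≤ i.val → ∃ z : ℤ, β i = α i + (z : ℝ)) → β ∈ B)
    (s : ℕ) (hks : k < s) (hs2 : 2 ≤ s) (hst : s ≤ t) (r : Fin t → ℚ)
    (hr : volume {y : Fin s → ℝ | glue s y (fun i => ((r i : ℚ) : ℝ)) ∈ B} ≠ 0)
    (hs : ∀ ε : ℝ, 0 < ε → ∃ H₀ : ℕ, ∀ H N : ℕ, H₀ ≤ H → H ≤ N →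
      AvgN Γ f B N H ≤ ε * H * Real.log N) (ε : ℝ) (hε : 0 < ε) :
    ∃ Q : ℕ, ∀ δ : ℝ, 0 < δ → ∃ H₀ : ℕ, ∀ H N : ℕ, H₀ ≤ H → H ≤ N →
      AvgN Γ f (Mr s Q δ) N H ≤ ε * H * Real.log N := by
  have hP : Per B := fun α hα z => hinv α hα _ fun i _ => ⟨z i, rfl⟩
  obtain ⟨b, hb⟩ := exists_bound A hanti hA1 Γ hcpt f hf
  have hb0 : 0 ≤ b := (norm_nonneg _).trans (hb (QuotientGroup.mk 1))
  have hb1 : 0 < b + 1 := by linarith
  obtain ⟨f', hf'⟩ : ∃ f' : G ⧸ Γ → ℂ, f' = fun x => ((b + 1 : ℝ) : ℂ)⁻¹ * f x := ⟨_, rfl⟩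
  have hf'c : Continuous f' := by rw [hf']; fun_prop
  have hf'1 : ∀ x, ‖f' x‖ ≤ 1 := by
    intro x
    rw [hf']
    beta_reduce
    rw [norm_mul, norm_inv, Complex.norm_real, Real.norm_eq_abs, abs_of_pos hb1,
      inv_mul_le_iff₀ hb1, mul_one]
    linarith [hb x]
  have hff' : f = fun x => ((b + 1 : ℝ) : ℂ) * f' x := by
    rw [hf']
    funext x
    have hne : ((b + 1 : ℝ) : ℂ) ≠ 0 := by exact_mod_cast hb1.ne'
    beta_reduce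
    rw [mul_inv_cancel_left₀ hne]
  obtain ⟨hCls, hDual, -⟩ := rowSK G k A hanti hcomm hA1 hAk Γ hΓ hcpt f' hf'c hf'1
  have hSB : ∀ ε : ℝ, 0 < ε → ∃ H₀ : ℕ, ∀ H N : ℕ, H₀ ≤ H → H ≤ N →
      SBK B (NS Γ f') N H ≤ ε * H * Real.log N := by
    intro ε hε
    obtain ⟨H₀, h⟩ := hs ((b + 1) * ε) (by positivity)
    refine ⟨H₀, fun H N hH hHN => ?_⟩
    have h1 := h H N hH hHN
    rw [hff', AvgN_scale, AvgN_eq Γ f' hf'1, Complex.norm_real, Real.norm_eq_abs,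
      abs_of_pos hb1, mul_assoc, mul_assoc] at h1
    have := le_of_mul_le_mul_left h1 hb1
    linarith
  obtain ⟨Q, _, hQ⟩ := theoremW k (NS Γ f') hCls hDual s t hks hs2 hst B hB hP r hr hSB
    (ε / (b + 1)) (by positivity)
  refine ⟨Q, fun δ hδ => ?_⟩
  obtain ⟨H₀, h⟩ := hQ δ hδ
  refine ⟨H₀, fun H N hH hHN => ?_⟩
  have h1 := h H N hH hHN
  have h2 := AvgN_le_AT Γ f' hf'1 s (by omega) Q δ N H
  rw [hff', AvgN_scale, Complex.norm_real, Real.norm_eq_abs, abs_of_pos hb1]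
  calc (b + 1) * AvgN Γ f' (Mr s Q δ) N H ≤ (b + 1) * (ε / (b + 1) * H * Real.log N) :=
        mul_le_mul_of_nonneg_left (h2.trans h1) hb1.le
    _ = _ := by field_simp

end

end Pool.Agent.TUK
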