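import Pool.Agent.Lib.TU.C1
import Pool.Agent.Lib.TU.RowC2
import Pool.Agent.Lib.TU.C3
import Pool.Agent.Lib.TU.Asm
import Pool.Agent.Lib.TUK.Defs4

/-!
# Row E1: the bad set and the trigonometric majorant, level by level (helper1)
-/

set_option autoImplicit false
open Finset Polynomial MeasureTheory Filter Topology

namespace Pool.Agent.TUK

open Pool.Agent.Lib.MP_663568_nt Pool.Agent.Lib.MP_663568_nt.Katai
  Pool.Agent.Lib.MP_663568_nt.Nul Pool.Agent.TU

namespace E1x

open TU.C1x

theorem null_level' {t : ℕ} (s' D : ℕ) (hs : s' + 1 ≤ t) (B : Set (Fin t → ℝ))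
    (hcl : IsClosed B)
    (hB : ∀ r : Fin t → ℚ, volume {y : Fin (s' + 1) → ℝ | glue (s' + 1) y
      (fun i => ((r i : ℚ) : ℝ)) ∈ B} = 0) (κ : ℝ) (hκ : 0 < κ) (a : ℤ) (zz : Fin t → ℤ) :
    volume {y | ENNReal.ofReal κ ≤ fib (s' + 1) B (al s' D y a zz)} = 0 := by
  set r : Fin t → ℚ := fun i => (zz i : ℚ) / D with hr
  set N : Set (Fin (s' + 1) → ℝ) := {y | glue (s' + 1) y (fun i => ((r i : ℚ) : ℝ)) ∈ B} with hN
  have hN0 : volume N = 0 := hB r
  -- product decomposition
  have hmp := volume_preserving_piFinSuccAbove (fun _ : Fin (s' + 1) => ℝ) (Fin.last s')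
  have hNm : MeasurableSet N := (hcl.preimage (continuous_glue _ _)).measurableSet
  have h1 : (volume : Measure (ℝ × (Fin s' → ℝ)))
      ((MeasurableEquiv.piFinSuccAbove (fun _ : Fin (s' + 1) => ℝ) (Fin.last s')).symm ⁻¹' N)
        = 0 := by
    rw [(hmp.symm _).measure_preimage hNm.nullMeasurableSet, hN0]
  have h2 : ∀ᵐ x : ℝ, volume {z : Fin s' → ℝ | (x, z) ∈
      (MeasurableEquiv.piFinSuccAbove (fun _ : Fin (s' + 1) => ℝ) (Fin.last s')).symm ⁻¹' N}
        = 0 := by
    rw [Measure.volume_eq_prod] at h1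
    have := Measure.measure_ae_null_of_prod_null h1
    filter_upwards [this] with x hx
    exact hx
  -- translate
  have h3 : ∀ᵐ y : ℝ, volume {z : Fin s' → ℝ | (y + (a : ℝ) / D, z) ∈
      (MeasurableEquiv.piFinSuccAbove (fun _ : Fin (s' + 1) => ℝ) (Fin.last s')).symm ⁻¹' N}
        = 0 :=
    (measurePreserving_add_right volume ((a : ℝ) / D)).quasiMeasurePreserving.ae h2
  have h4 : {y | ENNReal.ofReal κ ≤ fib (s' + 1) B (al s' D y a zz)} ⊆
      {y | ¬ volume {z : Fin s' → ℝ | (y + (a : ℝ) / D, z) ∈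
      (MeasurableEquiv.piFinSuccAbove (fun _ : Fin (s' + 1) => ℝ) (Fin.last s')).symm ⁻¹' N}
        = 0} := by
    intro y hy h0
    simp only [Set.mem_ofPred_eq] at hy
    have h5 : fib (s' + 1) B (al s' D y a zz) = 0 := by
      refine measure_mono_null ?_ h0
      rintro z ⟨-, hz⟩
      change glue (s' + 1) ((MeasurableEquiv.piFinSuccAbove (fun _ : Fin (s' + 1) => ℝ)
          (Fin.last s')).symm (y + (a : ℝ) / D, z)) (fun i => ((r i : ℚ) : ℝ)) ∈ B
      have h6 : glue (s' + 1) ((MeasurableEquiv.piFinSuccAbove (fun _ : Fin (s' + 1) => ℝ)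
          (Fin.last s')).symm (y + (a : ℝ) / D, z)) (fun i => ((r i : ℚ) : ℝ)) =
          glue (s' + 1 - 1) z (al s' D y a zz) := by
        funext i
        unfold glue al
        rcases lt_trichotomy i.val s' with hi | hi | hi
        · rw [dif_pos (by omega), dif_pos (by omega)]
          have h7 : (⟨i.val, by omega⟩ : Fin (s' + 1)) =
              (Fin.last s').succAbove ⟨i.val, hi⟩ := by
            rw [Fin.succAbove_last]; rfl
          simp only [MeasurableEquiv.piFinSuccAbove_symm_apply, Fin.insertNthEquiv_apply]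
          rw [h7, Fin.insertNth_apply_succAbove]
        · rw [dif_pos (by omega), dif_neg (by omega), if_pos hi]
          have h7 : (⟨i.val, by omega⟩ : Fin (s' + 1)) = Fin.last s' := Fin.ext hi
          simp only [MeasurableEquiv.piFinSuccAbove_symm_apply, Fin.insertNthEquiv_apply]
          rw [h7, Fin.insertNth_apply_same]
        · rw [dif_neg (by omega), dif_neg (by omega), if_neg (by omega)]
          simp only [hr]
          push_cast
          rfl
      rw [h6]
      exact hz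
    rw [h5] at hy
    have h8 : 0 < ENNReal.ofReal κ := ENNReal.ofReal_pos.2 hκ
    exact absurd hy (not_le.2 h8)
  exact measure_mono_null h4 (ae_iff.1 h3)

end E1x

open TU.C1x in
theorem rowE1 : E1_stmt := by
  intro t B hcl hper s hs hst D hD κ hκ hκ1
  obtain ⟨s', rfl⟩ : ∃ s', s = s' + 1 := ⟨s - 1, by omega⟩
  have hκ2 : 0 < κ / 2 := by positivity
  refine ⟨Tb (s' + 1) D B (κ / 2), ?_, ?_, ?_, ?_, ?_⟩
  · rw [Tb_eq s' D hst hD B hper (κ / 2)]
    exact isClosed_iUnion_of_finite fun p => isClosed_level s' D B hcl (κ / 2) _ _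
  · rintro x ⟨α, h1, h2, h3⟩ z
    refine ⟨α, ?_, h2, h3⟩
    intro i hi
    obtain ⟨a, ha⟩ := h1 i hi
    refine ⟨a - z, ?_⟩
    rw [ha]
    push_cast
    ring
  · intro hPS
    rw [Tb_eq s' D hst hD B hper (κ / 2)]
    refine measure_iUnion_null fun p => E1x.null_level' s' D hst B hcl (fun r => ?_) (κ / 2) hκ2 _ _
    by_contra h
    exact hPS ⟨r, h⟩
  · rintro h2s hPS x ⟨α, h1, h2, h3⟩
    rw [irrational_iff_ne_rational]
    intro p q hq hx
    obtain ⟨a, ha⟩ := h1 ⟨s', by omega⟩ rfl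
    have h2' : ∀ i : Fin t, ∃ z : ℤ, s' + 1 ≤ i.val → α i = (z : ℝ) / D := by
      intro i
      by_cases hi : s' + 1 ≤ i.val
      · obtain ⟨z, hz⟩ := h2 i hi
        exact ⟨z, fun _ => hz⟩
      · exact ⟨0, fun h => absurd h hi⟩
    choose zz hzz using h2'
    set r : Fin t → ℚ := fun i => if i.val = s' then (p : ℚ) / q + (a : ℚ) / D else
      (zz i : ℚ) / D with hr
    have h4 : volume {y : Fin s' → ℝ | glue s' y (fun i => ((r i : ℚ) : ℝ)) ∈ B} = 0 := by
      by_contra h
      exact hPS ⟨r, h⟩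
    have h5 : fib (s' + 1) B α = 0 := by
      refine measure_mono_null ?_ h4
      rintro z ⟨-, hz⟩
      change glue s' z (fun i => ((r i : ℚ) : ℝ)) ∈ B
      have h6 : glue s' z (fun i => ((r i : ℚ) : ℝ)) = glue (s' + 1 - 1) z α := by
        refine glue_congr s' z _ _ fun i hi => ?_
        by_cases hi' : i.val = s'
        · have : i = ⟨s', by omega⟩ := Fin.ext hi'
          simp only [hr, if_pos hi']
          rw [this, ha, hx]
          push_cast
          rfl
        · simp only [hr, if_neg hi']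
          rw [hzz i (by omega)]
          push_cast
          rfl
      rw [h6]
      exact hz
    rw [h5] at h3
    have h8 : 0 < ENNReal.ofReal (κ / 2) := ENNReal.ofReal_pos.2 hκ2
    exact absurd h3 (not_le.2 h8)
  · intro ρ hρ
    obtain ⟨ρ', hρ', h⟩ := rowC2 t B hcl hper (s' + 1) hs hst D hD (κ / 2) hκ2 ρ hρ
    obtain ⟨Λ, w, h0, hN1, hl⟩ := rowC3 t B hcl hper (s' + 1) hs hst ρ' (κ / 2) hρ' hκ2
    refine ⟨ρ', hρ', Λ, w, h0, hN1, fun α => ?_, fun α hα hα2 => ?_⟩
    · have h4 : (fib (s' + 1) (Nb B (2 * ρ')) α).toReal ≤ 1 := by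
        have := ENNReal.toReal_mono ENNReal.one_ne_top (fib_le_one (s' + 1) (Nb B (2 * ρ')) α)
        simpa using this
      have := hl α
      linarith
    · have h4 := ENNReal.toReal_lt_of_lt_ofReal (h α hα hα2)
      have := hl α
      linarith

end Pool.Agent.TUK
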