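import Pool.Agent.Lib.TUK.Defs4

/-!
# Row E11: the rational numbers of bounded denominator (helper1)
-/

set_option autoImplicit false
open Finset Polynomial MeasureTheory

namespace Pool.Agent.TUK

theorem rowE11 : E11_stmt := by
  intro D Q hD
  have hDr : (0 : ℝ) < D := by exact_mod_cast hD
  have hU : TR D Q = ⋃ q ∈ Finset.Icc 1 Q, {x : ℝ | ∃ b : ℤ, (D : ℝ) * q * x = b} := by
    ext x
    simp only [TR, Set.mem_ofPred_eq, Set.mem_iUnion, mem_Icc, exists_prop]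
    constructor
    · rintro ⟨q, h1, h2, h3⟩
      exact ⟨q, ⟨h1, h2⟩, h3⟩
    · rintro ⟨q, ⟨h1, h2⟩, h3⟩
      exact ⟨q, h1, h2, h3⟩
  have hc : IsClosed (TR D Q) := by
    rw [hU]
    refine isClosed_biUnion_finset fun q _ => ?_
    have h1 : IsClosed (Set.range ((↑) : ℤ → ℝ)) := Int.isClosedEmbedding_coe_real.isClosed_range
    have h2 : {x : ℝ | ∃ b : ℤ, (D : ℝ) * q * x = b} =
        (fun x : ℝ => (D : ℝ) * q * x) ⁻¹' Set.range ((↑) : ℤ → ℝ) := by
      ext x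
      simp only [Set.mem_ofPred_eq, Set.mem_preimage, Set.mem_range]
      exact ⟨fun ⟨b, hb⟩ => ⟨b, hb.symm⟩, fun ⟨b, hb⟩ => ⟨b, hb.symm⟩⟩
    rw [h2]
    exact h1.preimage (by fun_prop)
  have hz : ∀ x ∈ TR D Q, ∀ z : ℤ, x + (z : ℝ) / D ∈ TR D Q := by
    rintro x ⟨q, h1, h2, b, hb⟩ z
    refine ⟨q, h1, h2, b + q * z, ?_⟩
    push_cast
    rw [← hb]
    field_simp
  have hz1 : ∀ x ∈ TR D Q, ∀ z : ℤ, x + (z : ℝ) ∈ TR D Q := by
    rintro x ⟨q, h1, h2, b, hb⟩ z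
    refine ⟨q, h1, h2, b + D * q * z, ?_⟩
    push_cast
    rw [← hb]
    ring
  refine ⟨hc, ?_, hz, hz1, ?_⟩
  · rw [hU]
    refine (measure_biUnion_null_iff (Finset.countable_toSet _)).2 fun q hq => ?_
    have hq1 : 1 ≤ q := (mem_Icc.1 (by simpa using hq)).1
    have hqr : (0 : ℝ) < q := by exact_mod_cast hq1
    refine Set.Countable.measure_zero ?_ _
    refine (Set.countable_range fun b : ℤ => (b : ℝ) / ((D : ℝ) * q)).mono ?_
    rintro x ⟨b, hb⟩
    refine ⟨b, ?_⟩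
    show (b : ℝ) / ((D : ℝ) * q) = x
    rw [← hb]
    field_simp
  · intro T hT hTp hTi
    have hdis : Disjoint (T ∩ Set.Icc 0 1) (TR D Q) := by
      rw [Set.disjoint_left]
      rintro x ⟨hx, -⟩ ⟨q, h1, h2, b, hb⟩
      have hqr : (0 : ℝ) < q := by exact_mod_cast h1
      refine hTi x hx ⟨(b : ℚ) / ((D : ℚ) * q), ?_⟩
      push_cast
      rw [← hb]
      field_simp
    obtain ⟨r, hr, hd⟩ := Metric.exists_pos_forall_lt_edist
      (isCompact_Icc.inter_left hT) hc hdis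
    refine ⟨r, by exact_mod_cast hr, fun x hx y hy => ?_⟩
    have h1 : x + ((-⌊x⌋ : ℤ) : ℝ) ∈ T ∩ Set.Icc 0 1 := by
      refine ⟨hTp x hx _, ?_, ?_⟩
      · push_cast
        linarith [Int.floor_le x]
      · push_cast
        linarith [Int.lt_floor_add_one x]
    have h2 := hz1 y hy (-⌊x⌋)
    have h3 := hd _ h1 _ h2
    rw [edist_dist, Real.dist_eq] at h3
    have h4 : x + ((-⌊x⌋ : ℤ) : ℝ) - (y + ((-⌊x⌋ : ℤ) : ℝ)) = x - y := by ring
    rw [h4] at h3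
    have h5 : ((r : ℝ)) < |x - y| := by
      have h6 := (ENNReal.lt_ofReal_iff_toReal_lt ENNReal.coe_ne_top).1 h3
      simpa using h6
    exact h5.le

end Pool.Agent.TUK
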