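import Pool.Agent.Lib.TU.F
import Pool.Agent.Lib.TUK.Defs4

/-!
# Row E2: subwindows of fixed length, with all the coefficients (helper1)
-/

set_option autoImplicit false
open Finset Polynomial MeasureTheory

namespace Pool.Agent.TUK

open Pool.Agent.Lib.MP_663568_nt Pool.Agent.Lib.MP_663568_nt.Katai
  Pool.Agent.Lib.MP_663568_nt.Nul Pool.Agent.TU

namespace E2x

open TU.RF

/-- the polynomial of degree `≤ s` of one subwindow -/
theorem window' (t s D l : ℕ) (hs : 1 ≤ s) (hD : 1 ≤ D) {Q : ℝ} (hQ : 1 ≤ Q)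
    {H : ℕ} (hH : 1 ≤ H) {R : ℝ[X]} (hR : R.natDegree ≤ t) (hN : Near t s D Q H R) {y : ℕ}
    (hy : y ≤ H) (a : ℕ → ℂ) (ha : ∀ n, ‖a n‖ ≤ 1) :
    ∃ P : ℝ[X], (P.natDegree ≤ s ∧ ∀ j, 1 ≤ j → j ≤ s →
        ∃ z : ℤ, P.coeff j = (taylor (y : ℝ) R).coeff j + (z : ℝ) / D) ∧
      ‖∑ h ∈ Icc 1 l, a (y + h) * ee (R.eval ((y + h : ℕ) : ℝ))‖ ≤
        D * ‖∑ h ∈ Icc 1 l, a (y + h) * ee (P.eval (h : ℝ))‖ +
          l * (2 * Real.pi * ((t + 1) * ((t + 1) * 2 ^ t * Q / H) * l ^ t)) := by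
  have hDr : (1 : ℝ) ≤ D := by exact_mod_cast hD
  have hD0 : (D : ℝ) ≠ 0 := by positivity
  set T : ℝ[X] := taylor (y : ℝ) R with hT
  have hTd : T.natDegree ≤ t := by
    rw [hT, natDegree_taylor]
    exact hR
  -- the pieces
  set P0 : ℝ[X] := ∑ j ∈ (range (t + 1)).filter (· ≤ s), C (T.coeff j) * X ^ j with hP0
  set β : ℕ → ℤ := fun j => round ((D : ℝ) * T.coeff j) with hβ
  set f : ℕ → ℂ := fun h => ee (∑ j ∈ (range (t + 1)).filter (s < ·), (β j : ℝ) / D * (h : ℝ) ^ j)
    with hf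
  have hfper : ∀ h, f (h + D) = f h := by
    intro h
    simp only [hf]
    have : ∑ j ∈ (range (t + 1)).filter (s < ·), (β j : ℝ) / D * ((h + D : ℕ) : ℝ) ^ j =
        ∑ j ∈ (range (t + 1)).filter (s < ·), (β j : ℝ) / D * (h : ℝ) ^ j +
          ((∑ j ∈ (range (t + 1)).filter (s < ·), β j * ((((h : ℤ) + D) ^ j - (h : ℤ) ^ j) / D) : ℤ) : ℝ) := by
      push_cast
      rw [← sum_add_distrib]
      refine sum_congr rfl fun j _ => ?_
      have hdvd : (D : ℤ) ∣ ((h : ℤ) + D) ^ j - (h : ℤ) ^ j := by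
        have := sub_dvd_pow_sub_pow ((h : ℤ) + D) (h : ℤ) j
        rwa [add_sub_cancel_left] at this
      rw [Int.cast_div hdvd (by exact_mod_cast hD0)]
      push_cast
      field_simp
      ring
    rw [this, ee_add, ee_int, mul_one]
  have hf1 : ∀ h, ‖f h‖ ≤ 1 := fun h => (norm_ee _).le
  obtain ⟨b, hb⟩ := per_expand D hD f hfper hf1 (fun h => a (y + h) * ee (P0.eval (h : ℝ))) (Icc 1 l)
  refine ⟨P0 + C ((b : ℝ) / D) * X, ⟨?_, ?_⟩, ?_⟩
  · refine (natDegree_add_le _ _).trans (max_le ?_ ?_)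
    · refine natDegree_sum_le_of_forall_le _ _ fun j hj => ?_
      exact (natDegree_C_mul_X_pow_le _ _).trans (mem_filter.1 hj).2
    · have := natDegree_C_mul_X_pow_le ((b : ℝ) / D) 1
      rw [pow_one] at this
      exact this.trans hs
  · intro i hi1 his
    have e1 : P0.coeff i = T.coeff i := by
      rw [hP0, finsetSum_coeff]
      simp_rw [coeff_C_mul_X_pow]
      by_cases hst : i ≤ t
      · rw [sum_eq_single i]
        · simp
        · intro j _ hjs
          rw [if_neg (Ne.symm hjs)]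
        · intro hns
          exfalso
          apply hns
          rw [mem_filter, mem_range]
          exact ⟨by omega, his⟩
      · rw [sum_eq_zero]
        · rw [coeff_eq_zero_of_natDegree_lt (by omega)]
        · intro j hj
          rw [mem_filter, mem_range] at hj
          rw [if_neg (by omega)]
    rw [coeff_add, e1, coeff_C_mul, coeff_X]
    by_cases h1 : i = 1
    · refine ⟨b, ?_⟩
      rw [if_pos h1.symm]
      push_cast
      ring
    · refine ⟨0, ?_⟩
      rw [if_neg (fun h => h1 h.symm)]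
      simp
  · -- the approximation
    set E : ℝ := (t + 1) * 2 ^ t * Q / H with hE
    have hE0 : 0 ≤ E := by positivity
    have hTe : ∀ h : ℕ, R.eval ((y + h : ℕ) : ℝ) = P0.eval (h : ℝ) +
        ∑ j ∈ (range (t + 1)).filter (s < ·), T.coeff j * (h : ℝ) ^ j := by
      intro h
      have e1 : R.eval ((y + h : ℕ) : ℝ) = T.eval (h : ℝ) := by
        rw [hT, taylor_eval]
        push_cast
        rw [add_comm]
      rw [e1, eval_eq_sum_range' (n := t + 1) (by omega), hP0, eval_finsetSum]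
      simp only [eval_mul, eval_C, eval_pow, eval_X]
      rw [← sum_filter_add_sum_filter_not (range (t + 1)) (· ≤ s)]
      simp only [not_le]
    have hap : ∀ h ∈ Icc 1 l, ‖ee (R.eval ((y + h : ℕ) : ℝ)) - ee (P0.eval (h : ℝ)) * f h‖ ≤
        2 * Real.pi * ((t + 1) * E * l ^ t) := by
      intro h hh
      rw [mem_Icc] at hh
      simp only [hf]
      rw [← ee_add, hTe]
      refine (norm_ee_sub_ee_le _ _).trans ?_
      refine mul_le_mul_of_nonneg_left ?_ (by positivity)
      rw [add_sub_add_left_eq_sub, ← sum_sub_distrib]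
      refine (abs_sum_le_sum_abs _ _).trans ?_
      calc ∑ j ∈ (range (t + 1)).filter (s < ·), |T.coeff j * (h : ℝ) ^ j - (β j : ℝ) / D * (h : ℝ) ^ j|
          ≤ ∑ j ∈ (range (t + 1)).filter (s < ·), E * l ^ t := by
            refine sum_le_sum fun j hj => ?_
            rw [mem_filter, mem_range] at hj
            rw [← sub_mul, abs_mul]
            refine mul_le_mul ?_ ?_ (abs_nonneg _) hE0
            · have e1 : T.coeff j - (β j : ℝ) / D = ((D : ℝ) * T.coeff j - β j) / D := by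
                field_simp
              rw [e1, abs_div, abs_of_pos (by positivity : (0 : ℝ) < D)]
              have e2 : |(D : ℝ) * T.coeff j - β j| ≤ E := nd_taylor hQ hH hR hN hy hj.2
              calc |(D : ℝ) * T.coeff j - β j| / D ≤ E / D := by gcongr
                _ ≤ E := div_le_self hE0 hDr
            · have hh1 : (1 : ℝ) ≤ h := by exact_mod_cast hh.1
              have hl1 : (1 : ℝ) ≤ l := by exact_mod_cast hh.1.trans hh.2
              rw [abs_of_nonneg (by positivity)]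
              calc (h : ℝ) ^ j ≤ (l : ℝ) ^ j :=
                    pow_le_pow_left₀ (by positivity) (by exact_mod_cast hh.2) _
                _ ≤ (l : ℝ) ^ t := pow_le_pow_right₀ hl1 (by omega)
        _ = #((range (t + 1)).filter (s < ·)) * (E * l ^ t) := by rw [sum_const, nsmul_eq_mul]
        _ ≤ (t + 1) * (E * l ^ t) := by
            refine mul_le_mul_of_nonneg_right ?_ (by positivity)
            have : #((range (t + 1)).filter (s < ·)) ≤ t + 1 :=
              (card_le_card (filter_subset _ _)).trans (by simp)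
            exact_mod_cast this
        _ = (t + 1) * E * l ^ t := by ring
    have e1 : ‖∑ h ∈ Icc 1 l, a (y + h) * ee (R.eval ((y + h : ℕ) : ℝ)) -
        ∑ h ∈ Icc 1 l, a (y + h) * ee (P0.eval (h : ℝ)) * f h‖ ≤
          l * (2 * Real.pi * ((t + 1) * E * l ^ t)) := by
      rw [← sum_sub_distrib]
      refine (norm_sum_le _ _).trans ?_
      calc ∑ h ∈ Icc 1 l, ‖a (y + h) * ee (R.eval ((y + h : ℕ) : ℝ)) -
            a (y + h) * ee (P0.eval (h : ℝ)) * f h‖
          ≤ ∑ h ∈ Icc 1 l, 2 * Real.pi * ((t + 1) * E * l ^ t) := by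
            refine sum_le_sum fun h hh => ?_
            rw [mul_assoc, ← mul_sub, norm_mul]
            calc ‖a (y + h)‖ * ‖ee (R.eval ((y + h : ℕ) : ℝ)) - ee (P0.eval (h : ℝ)) * f h‖
                ≤ 1 * ‖ee (R.eval ((y + h : ℕ) : ℝ)) - ee (P0.eval (h : ℝ)) * f h‖ :=
                  mul_le_mul_of_nonneg_right (ha _) (norm_nonneg _)
              _ ≤ _ := by rw [one_mul]; exact hap h hh
        _ = l * (2 * Real.pi * ((t + 1) * E * l ^ t)) := by
            rw [sum_const, Nat.card_Icc, nsmul_eq_mul]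
            simp
    have e2 : ∀ h : ℕ, a (y + h) * ee (P0.eval (h : ℝ)) * ee ((b : ℝ) * ((h : ℝ) / D)) =
        a (y + h) * ee ((P0 + C ((b : ℝ) / D) * X).eval (h : ℝ)) := by
      intro h
      rw [mul_assoc, ← ee_add]
      congr 2
      simp only [eval_add, eval_mul, eval_C, eval_X]
      ring
    simp_rw [e2] at hb
    have e3 := norm_sub_norm_le (∑ h ∈ Icc 1 l, a (y + h) * ee (R.eval ((y + h : ℕ) : ℝ)))
      (∑ h ∈ Icc 1 l, a (y + h) * ee (P0.eval (h : ℝ)) * f h)
    linarith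

end E2x

open TU.RF in
theorem rowE2 : E2_stmt := by
  intro t s D l hs hst hD hl Q c hQ hc hc1
  set E : ℝ := 2 * Real.pi * ((t + 1) * ((t + 1) * 2 ^ t * Q) * l ^ t) with hE
  have hE0 : 0 ≤ E := by positivity
  obtain ⟨H₀, hH₀⟩ := exists_nat_gt ((2 * l + E) * 2 / c)
  refine ⟨max 1 H₀, fun H hH a ha R hR hN hcor => ?_⟩
  have hH1 : 1 ≤ H := le_trans (le_max_left _ _) hH
  have hHr : (0 : ℝ) < H := by exact_mod_cast hH1
  have hHb : (2 * l + E) * 2 / c < H :=
    hH₀.trans_le (by exact_mod_cast (le_trans (le_max_right _ _) hH))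
  rw [div_lt_iff₀ hc] at hHb
  have key : ∀ y : ℕ, ∃ P : ℝ[X], (P.natDegree ≤ s ∧ ∀ j, 1 ≤ j → j ≤ s →
      ∃ z : ℤ, P.coeff j = (taylor (y : ℝ) R).coeff j + (z : ℝ) / D) ∧
      (y ≤ H → ‖∑ h ∈ Icc 1 l, a (y + h) * ee (R.eval ((y + h : ℕ) : ℝ))‖ ≤
        D * ‖∑ h ∈ Icc 1 l, a (y + h) * ee (P.eval (h : ℝ))‖ +
          l * (2 * Real.pi * ((t + 1) * ((t + 1) * 2 ^ t * Q / H) * l ^ t))) := by
    intro y
    by_cases hy : y ≤ H
    · obtain ⟨P, h1, h2⟩ := E2x.window' t s D l hs hD hQ hH1 hR hN hy a ha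
      exact ⟨P, h1, fun _ => h2⟩
    · refine ⟨∑ j ∈ range (s + 1), C ((taylor (y : ℝ) R).coeff j) * X ^ j, ⟨?_, fun j hj1 hjs => ⟨0, ?_⟩⟩,
        fun h => absurd h hy⟩
      · refine natDegree_sum_le_of_forall_le _ _ fun j hj => ?_
        rw [mem_range] at hj
        exact (natDegree_C_mul_X_pow_le _ _).trans (by omega)
      · rw [finsetSum_coeff]
        simp_rw [coeff_C_mul_X_pow]
        rw [sum_eq_single j]
        · simp
        · intro i _ hij
          rw [if_neg (Ne.symm hij)]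
        · intro hns
          exact absurd (mem_range.2 (by omega)) hns
  choose P hP1 hP2 using key
  refine ⟨P, hP1, ?_⟩
  have hlr : (1 : ℝ) ≤ l := by exact_mod_cast hl
  have h1 := double (fun n => a n * ee (R.eval (n : ℝ))) (fun n => by
    rw [norm_mul, norm_ee, mul_one]; exact ha n) H l
  have h2 : ∑ y ∈ Icc 1 H, ‖∑ h ∈ Icc 1 l, a (y + h) * ee (R.eval ((y + h : ℕ) : ℝ))‖ ≤
      ∑ y ∈ Icc 1 H, (D * ‖∑ h ∈ Icc 1 l, a (y + h) * ee ((P y).eval (h : ℝ))‖ + l * (E / H)) := by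
    refine sum_le_sum fun y hy => (hP2 y (mem_Icc.1 hy).2).trans (le_of_eq ?_)
    rw [hE]
    ring
  rw [sum_add_distrib, ← mul_sum, sum_const, Nat.card_Icc, nsmul_eq_mul] at h2
  have h3 : ((H + 1 - 1 : ℕ) : ℝ) * (l * (E / H)) = l * E := by
    rw [Nat.add_sub_cancel]
    field_simp
  rw [h3] at h2
  have h4 : (l : ℝ) * (c * H) ≤ l * ‖∑ y ∈ Icc 1 H, a y * ee (R.eval (y : ℝ))‖ :=
    mul_le_mul_of_nonneg_left hcor (by positivity)
  have h5 : (l : ℝ) * ((2 * l + E) * 2) ≤ l * (H * c) := mul_le_mul_of_nonneg_left hHb.le (by positivity)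
  nlinarith

end Pool.Agent.TUK
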