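import Pool.Agent.Lib.TUK.Defs4
import Pool.Agent.Lib.TU.SS
import Pool.Agent.Lib.TU.S1
import Pool.Agent.Lib.TU.S2

/-!
# TUK, row E3: the law of small sets outside of the major arcs (helper16)
-/

set_option autoImplicit false
open Finset Polynomial MeasureTheory

namespace Pool.Agent.TUK

open Pool.Agent.Lib.MP_663568_nt Pool.Agent.Lib.MP_663568_nt.Katai
  Pool.Agent.Lib.MP_663568_nt.Nul Pool.Agent.TU

namespace E3x

theorem law (G : Type) [Group G] [TopologicalSpace G] [IsTopologicalGroup G]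
    (A : ℕ → Subgroup G) (hanti : Antitone A) (hcomm : ∀ i j, ⁅A i, A j⁆ ≤ A (i + j))
    (hA1 : A 1 = ⊤) (Γ : Subgroup G) (hΓ : IsClosed (Γ : Set G))
    (hcpt : ∀ i, ∃ C : Set G, IsCompact C ∧ (∀ c ∈ C, c ∈ A i) ∧
      ∀ x ∈ A i, ∃ c ∈ C, ∃ γ ∈ Γ, x = c * γ)
    (f : G ⧸ Γ → ℂ) (hf : Continuous f) (hf1 : ∀ x, ‖f x‖ ≤ 1)
    (s : ℕ) (hs : 0 < s) (hAs : A s = ⊥) (T : Set ℝ) (hc : IsClosed T) (h0 : volume T = 0)
    (hp : ∀ x ∈ T, ∀ z : ℤ, x + (z : ℝ) ∈ T) (ε : ℝ) (hε : 0 < ε) :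
    ∃ (Q : ℕ) (ρ : ℝ), 0 < ρ ∧ MUA s (Nr T ρ) (NS Γ f) ε Q := by
  obtain ⟨v, c, hv, hcc, C, H₀, hmain⟩ := SS.smallSets G s hs A hanti hcomm hA1 hAs Γ hΓ hcpt
    f hf ε hε
  obtain ⟨R1, hR1, hvol⟩ := S2x.null_nbhd T hc h0 v hv
  obtain ⟨R, hR⟩ : ∃ R : ℝ, R = 2 * R1 := ⟨_, rfl⟩
  have hR1' : 0 < R1 := by linarith
  have hRp : 0 < R := by rw [hR]; linarith
  refine ⟨⌊(C : ℝ) * R ^ C⌋₊, 1 / R, by positivity, ?_⟩
  intro δ' hδ'
  obtain ⟨δ, hδ⟩ : ∃ δ : ℝ, δ = min δ' 1 := ⟨_, rfl⟩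
  have hδ0 : 0 < δ := by rw [hδ]; exact lt_min hδ' one_pos
  obtain ⟨H₁, hH₁⟩ : ∃ H₁ : ℕ, ∀ H : ℕ, H₁ ≤ H → R / δ ≤ (H : ℝ) ^ c := by
    have := (tendsto_rpow_atTop hcc).comp tendsto_natCast_atTop_atTop (α := ℕ)
    exact Filter.eventually_atTop.1 (this.eventually_ge_atTop (R / δ))
  refine ⟨max H₀ H₁, fun l N hl hlN => ?_⟩
  have key := hmain muC norm_muC (fun p k hp hk => muC_mul p hp k hk) N l
    ((le_max_left _ _).trans hl) hlN R δ (by rw [hR]; linarith) hδ0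
    (by rw [hδ]; exact min_le_right _ _) (hH₁ l ((le_max_right _ _).trans hl))
    (fun _ => {α | ∃ x ∈ T, |α - x| ≤ 1 / R}) (fun _ => by
      refine le_trans (measure_mono ?_) hvol
      rintro y ⟨hy, α, ⟨x, hx, hxα⟩, b, hb⟩
      refine ⟨hy, x + ((-b : ℤ) : ℝ), hp x hx _, ?_⟩
      have h2 : 1 / R1 = 1 / R + 1 / R := by rw [hR]; field_simp; norm_num
      rw [h2]
      push_cast
      calc |x + -(b : ℝ) - y| = |-(α - x) + (α - y - b)| := by ring_nf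
        _ ≤ |-(α - x)| + |α - y - b| := abs_add_le _ _
        _ ≤ _ := by rw [abs_neg]; linarith)
  refine le_trans (sum_le_sum fun n hn => mul_le_mul_of_nonneg_left ?_ (by positivity)) key
  refine Real.iSup_le ?_ (Real.iSup_nonneg fun _ => norm_nonneg _)
  rintro ⟨⟨P, u⟩, hP, ⟨⟨x, hx, hxP⟩, hMn⟩, g, y, hu⟩
  have hmem : ((g, (g ^ n)⁻¹ * y, taylor (-(n : ℝ)) P) : G × G × ℝ[X]) ∈
      SS.Index G s {α | ∃ x ∈ T, |α - x| ≤ 1 / R} (C * R ^ C) δ := by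
    refine ⟨?_, ⟨P.coeff s, ⟨x, hx, hxP⟩, 0, ?_⟩, ?_⟩
    · rw [natDegree_taylor]; exact hP
    · rw [S2x.shift_coeff P s hP]; simp
    · intro q hq1 hq2 b
      simp only [S2x.shift_coeff P s hP]
      have h1 : δ' ≤ |(q : ℝ) * P.coeff s - b| := hMn q hq1 (Nat.le_floor hq2) b
      exact le_trans (by rw [hδ]; exact min_le_left _ _) h1
  have hbdd : BddAbove (Set.range fun i : {i : G × G × ℝ[X] //
      i ∈ SS.Index G s {α | ∃ x ∈ T, |α - x| ≤ 1 / R} (C * R ^ C) δ} =>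
        ‖∑ h ∈ Finset.Icc 1 l, f (QuotientGroup.mk (i.1.1 ^ (n + h) * i.1.2.1) : G ⧸ Γ) *
          Complex.exp (2 * Real.pi * Complex.I * ((i.1.2.2.eval ((n + h : ℕ) : ℝ) : ℝ) : ℂ)) *
              muC (n + h)‖) := by
    refine ⟨l, ?_⟩
    rintro _ ⟨i, rfl⟩
    refine (norm_sum_le _ _).trans ?_
    refine (sum_le_card_nsmul _ _ 1 fun h _ => ?_).trans (by simp)
    rw [norm_mul, norm_mul]
    refine mul_le_one₀ (mul_le_one₀ (hf1 _) (norm_nonneg _) (norm_ee _).le) (norm_nonneg _)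
      (norm_muC _)
  refine le_trans (le_of_eq ?_) (le_ciSup hbdd ⟨_, hmem⟩)
  congr 1
  refine sum_congr rfl fun h _ => ?_
  have e1 : g ^ (n + h) * ((g ^ n)⁻¹ * y) = g ^ h * y := by
    rw [add_comm n h, pow_add, mul_assoc, mul_inv_cancel_left]
  have e2 : (taylor (-(n : ℝ)) P).eval ((n + h : ℕ) : ℝ) = P.eval (h : ℝ) := by
    rw [taylor_eval]
    congr 1
    push_cast
    ring
  change muC (n + h) * (u h * (1 * ee (P.eval (h : ℝ)))) =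
    f (QuotientGroup.mk (g ^ (n + h) * ((g ^ n)⁻¹ * y)) : G ⧸ Γ) *
      ee ((taylor (-(n : ℝ)) P).eval ((n + h : ℕ) : ℝ)) * muC (n + h)
  have e3 : u h = f (QuotientGroup.mk (g ^ h * y)) := hu h
  rw [e1, e2, e3]
  ring

theorem base (G : Type) [Group G] (hG : ∀ x : G, x = 1) (Γ : Subgroup G) (f : G ⧸ Γ → ℂ)
    (hf1 : ∀ x, ‖f x‖ ≤ 1) : Base1 (NS Γ f) := by
  intro T hT h0 hP ε hε
  obtain ⟨ρ, hρ, l₀, h⟩ := rowS1 T hT h0 hP ε hε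
  refine ⟨ρ, hρ, l₀, fun l N hl hlN => le_trans ?_ (h l N hl hlN)⟩
  refine sum_le_sum fun n _ => mul_le_mul_of_nonneg_left ?_ (by positivity)
  refine Real.iSup_le ?_ (Real.iSup_nonneg fun _ => norm_nonneg _)
  rintro ⟨⟨P, u⟩, hPd, hPT, g, x, hu⟩
  have hbdd : BddAbove (Set.range fun P : {P : ℝ[X] // P.natDegree ≤ 1 ∧
      ∃ x ∈ T, |P.coeff 1 - x| ≤ ρ} =>
      ‖∑ h ∈ Icc 1 l, muC (n + h) * ee ((P : ℝ[X]).eval (h : ℝ))‖) := by
    refine ⟨l, ?_⟩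
    rintro _ ⟨i, rfl⟩
    refine (norm_sum_le _ _).trans ?_
    refine (sum_le_card_nsmul _ _ 1 fun h _ => ?_).trans (by simp)
    rw [norm_mul, norm_ee, mul_one]
    exact norm_muC _
  refine le_trans ?_ (le_ciSup hbdd ⟨P, hPd, hPT⟩)
  change ‖∑ h ∈ Icc 1 l, muC (n + h) * (u h * ee (P.eval (h : ℝ)))‖ ≤
    ‖∑ h ∈ Icc 1 l, muC (n + h) * ee (P.eval (h : ℝ))‖
  have e1 : ∑ h ∈ Icc 1 l, muC (n + h) * (u h * ee (P.eval (h : ℝ))) =
      f (QuotientGroup.mk 1) * ∑ h ∈ Icc 1 l, muC (n + h) * ee (P.eval (h : ℝ)) := by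
    rw [mul_sum]
    refine sum_congr rfl fun h _ => ?_
    have e2 : u h = f (QuotientGroup.mk 1) := by
      have e3 : u h = f (QuotientGroup.mk (g ^ h * x)) := hu h
      rw [e3, hG (g ^ h * x)]
    rw [e2]
    ring
  rw [e1, norm_mul]
  exact mul_le_of_le_one_left (norm_nonneg _) (hf1 _)

end E3x

theorem rowE3 : E3_stmt := by
  intro G _ _ _ k A hanti hcomm hA1 hAk Γ hΓ hcpt f hf hf1
  refine ⟨?_, ?_⟩
  · intro s hs hs2 T hc h0 hp ε hε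
    have hAs : A s = ⊥ := le_bot_iff.mp (hAk ▸ hanti (Nat.succ_le_of_lt hs))
    exact E3x.law G A hanti hcomm hA1 Γ hΓ hcpt f hf hf1 s (by omega) hAs T hc h0 hp ε hε
  · intro hk
    refine E3x.base G (fun x => ?_) Γ f hf1
    subst hk
    have h1 : (⊤ : Subgroup G) = ⊥ := by
      rw [← hA1]
      simpa using hAk
    have h2 : x ∈ (⊤ : Subgroup G) := Subgroup.mem_top x
    rw [h1] at h2
    exact Subgroup.mem_bot.1 h2

end Pool.Agent.TUK
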