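import Mathlib
import Pool.Agent.Lib.TU.G
import Pool.Agent.Lib.TUK.Defs4
import Pool.Agent.Lib.TUK.W6
import Pool.Agent.Lib.TUK.GK

/-!
# Row E6, part a: the lemmas for one window (MP_663568_nt)
-/

set_option autoImplicit false
open Finset Polynomial MeasureTheory

namespace Pool.Agent.TUK

open Pool.Agent.Lib.MP_663568_nt Pool.Agent.Lib.MP_663568_nt.Katai
  Pool.Agent.Lib.MP_663568_nt.Nul Pool.Agent.TU

namespace E6x

lemma le_TopS {F : Set (ℕ → ℂ)} (hF : Cls F) (s : ℕ) (A : Set ℝ) (l n : ℕ) (P : ℝ[X])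
    (hP : P.natDegree ≤ s) (hA : P.coeff s ∈ A) (u : ℕ → ℂ) (hu : u ∈ F) :
    ‖∑ h ∈ Icc 1 l, muC (n + h) * (u h * ee (P.eval (h : ℝ)))‖ ≤
      TopS s A F (fun _ => 1) l n := by
  unfold TopS
  have hb : BddAbove (Set.range fun p : {p : ℝ[X] × (ℕ → ℂ) // p.1.natDegree ≤ s ∧
      p.1.coeff s ∈ A ∧ p.2 ∈ F} =>
      ‖∑ h ∈ Icc 1 l, muC (n + h) * (p.1.2 h * ((1 : ℂ) * ee (p.1.1.eval (h : ℝ))))‖) := by
    refine ⟨l, ?_⟩
    rintro _ ⟨p, rfl⟩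
    simp only [one_mul]
    exact norm_sum_muC_mul_le l n p.1.2 (hF.bdd _ p.2.2.2) fun h => p.1.1.eval (h : ℝ)
  refine le_trans (le_of_eq ?_) (le_ciSup hb ⟨(P, u), hP, hA, hu⟩)
  simp only [one_mul]

/-- The average over all the polynomials of degree at most `b`. -/
lemma AT_univ_le {F : Set (ℕ → ℂ)} (hF : Cls F) (b : ℕ) (N H : ℕ) :
    AT b Set.univ F (fun _ => 1) N H ≤ SBK (Set.univ : Set (Fin b → ℝ)) F N H := by
  unfold AT SBK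
  refine sum_le_sum fun n _ => mul_le_mul_of_nonneg_left ?_ (by positivity)
  refine Real.iSup_le (fun p => ?_) (Real.iSup_nonneg fun _ => norm_nonneg _)
  obtain ⟨⟨P, u⟩, hP, -, hu⟩ := p
  change P.natDegree ≤ b at hP
  have hb : BddAbove (Set.range fun p : {p : (Fin b → ℝ) × (ℕ → ℂ) // p.1 ∈ Set.univ ∧ p.2 ∈ F} =>
      ‖∑ h ∈ Icc 1 H, muC (n + h) * (p.1.2 h * ee (ph p.1.1 (h : ℝ)))‖) := by
    refine ⟨H, ?_⟩
    rintro _ ⟨p, rfl⟩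
    exact norm_sum_muC_mul_le H n p.1.2 (hF.bdd _ p.2.2) fun h => ph p.1.1 (h : ℝ)
  refine le_trans (le_of_eq ?_) (le_ciSup hb ⟨((fun i => P.coeff (i.val + 1)), u), trivial, hu⟩)
  have h1 : ∀ x : ℝ, P.eval x = P.coeff 0 + ph (fun i : Fin b => P.coeff (i.val + 1)) x := by
    intro x
    rw [eval_eq_sum_range' (n := b + 1) (by omega), Finset.sum_range_succ']
    unfold TU.ph
    rw [Finset.sum_range]
    simp
    ring
  have h2 : ∑ h ∈ Icc 1 H, muC (n + h) * (u h * (1 * ee (P.eval (h : ℝ)))) =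
      ee (P.coeff 0) * ∑ h ∈ Icc 1 H, muC (n + h) *
        (u h * ee (ph (fun i : Fin b => P.coeff (i.val + 1)) (h : ℝ))) := by
    rw [mul_sum]
    refine sum_congr rfl fun h _ => ?_
    rw [h1, ee_add]
    ring
  change ‖∑ h ∈ Icc 1 H, muC (n + h) * (u h * (1 * ee (P.eval (h : ℝ))))‖ = _
  rw [h2, norm_mul, norm_ee, one_mul]

lemma AT_mono {F : Set (ℕ → ℂ)} (hF : Cls F) (s : ℕ) {A A' : Set ℝ} (h : A ⊆ A') (N H : ℕ) :
    AT s A F (fun _ => 1) N H ≤ AT s A' F (fun _ => 1) N H := by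
  unfold AT
  exact sum_le_sum fun n _ => mul_le_mul_of_nonneg_left (W6x.TopS_mono hF s h H n) (by positivity)

/-- A number which is not within `δ` of `TR D Q` stays in `Mn Q δ` after a translation by
`z / D`. -/
lemma mem_Mn {D Q : ℕ} (hD : 1 ≤ D) {δ x : ℝ} (h : ∀ y ∈ TR D Q, δ < |x - y|) (z : ℤ) :
    x + (z : ℝ) / D ∈ Mn Q δ := by
  have hD0 : (0 : ℝ) < D := by exact_mod_cast hD
  intro q hq hqQ b
  have hq0 : (1 : ℝ) ≤ q := by exact_mod_cast hq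
  have hmem : (b : ℝ) / q - (z : ℝ) / D ∈ TR D Q := by
    refine ⟨q, hq, hqQ, D * b - q * z, ?_⟩
    push_cast
    field_simp
  have h1 := h _ hmem
  have h2 : (q : ℝ) * (x + (z : ℝ) / D) - b = q * (x - ((b : ℝ) / q - (z : ℝ) / D)) := by
    field_simp
    ring
  rw [h2, abs_mul, abs_of_pos (by linarith : (0 : ℝ) < q)]
  calc δ ≤ |x - ((b : ℝ) / q - (z : ℝ) / D)| := h1.le
    _ ≤ q * |x - ((b : ℝ) / q - (z : ℝ) / D)| := le_mul_of_one_le_left (abs_nonneg _) hq0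

open Classical in
/-- Class I: most of the subwindows are outside of the major arcs. -/
lemma classI {F : Set (ℕ → ℂ)} (hF : Cls F) {σ D Q₂ l H m : ℕ} (hD : 1 ≤ D) {c δ : ℝ}
    (A : Set ℝ) (R : ℝ[X]) (u : ℕ → ℂ) (hu : u ∈ F) (P : ℕ → ℝ[X])
    (hP : ∀ y, (P y).natDegree ≤ σ)
    (hPσ : ∀ y, ∃ z : ℤ, (P y).coeff σ = (taylor (y : ℝ) R).coeff σ + (z : ℝ) / D)
    (hsum : c / 2 * H * l ≤ D * ∑ y ∈ Icc 1 H,
      ‖∑ h ∈ Icc 1 l, muC (m + (y + h)) * u (y + h) * ee ((P y).eval (h : ℝ))‖)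
    (hA : ∀ y ≤ H, ∀ w : ℤ, (taylor ((y : ℕ) : ℝ) R).coeff σ + (w : ℝ) / D ∈ A)
    (hfew : (D : ℝ) * #{y ∈ Icc 1 H | ∃ x ∈ TR D Q₂, |(taylor ((y : ℕ) : ℝ) R).coeff σ - x| ≤ δ} ≤
      c / 4 * H) :
    c / 4 * H * l ≤ D * ∑ y ∈ Icc 1 H,
      TopS σ {x | x ∈ A ∧ x ∈ Mn Q₂ δ} F (fun _ => 1) l (m + y) := by
  have hD0 : (0 : ℝ) < D := by exact_mod_cast hD
  set Ex : Finset ℕ := {y ∈ Icc 1 H | ∃ x ∈ TR D Q₂, |(taylor ((y : ℕ) : ℝ) R).coeff σ - x| ≤ δ}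
    with hEx
  have hterm : ∀ y ∈ Icc 1 H,
      ‖∑ h ∈ Icc 1 l, muC (m + (y + h)) * u (y + h) * ee ((P y).eval (h : ℝ))‖ ≤
      TopS σ {x | x ∈ A ∧ x ∈ Mn Q₂ δ} F (fun _ => 1) l (m + y) +
        (if y ∈ Ex then (l : ℝ) else 0) := by
    intro y hy
    have e1 : ∑ h ∈ Icc 1 l, muC (m + (y + h)) * u (y + h) * ee ((P y).eval (h : ℝ)) =
        ∑ h ∈ Icc 1 l, muC (m + y + h) * ((fun h => u (y + h)) h * ee ((P y).eval (h : ℝ))) := by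
      refine sum_congr rfl fun h _ => ?_
      rw [← add_assoc]
      ring
    rw [e1]
    by_cases hE : y ∈ Ex
    · rw [if_pos hE]
      have h1 := norm_sum_muC_mul_le l (m + y) (fun h => u (y + h))
        (hF.bdd _ (hF.shift u hu y)) fun h => (P y).eval (h : ℝ)
      have h2 := W6x.TopS_nonneg σ {x | x ∈ A ∧ x ∈ Mn Q₂ δ} F (fun _ => 1) l (m + y)
      linarith
    · rw [if_neg hE, add_zero]
      refine le_TopS hF σ _ l (m + y) (P y) (hP y) ?_ _ (hF.shift u hu y)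
      obtain ⟨z, hz⟩ := hPσ y
      rw [hz]
      refine ⟨hA y (mem_Icc.1 hy).2 z, mem_Mn hD (fun x hx => ?_) z⟩
      by_contra hcon
      push Not at hcon
      exact hE (by rw [hEx, mem_filter]; exact ⟨hy, x, hx, hcon⟩)
  have h1 : ∑ y ∈ Icc 1 H, (if y ∈ Ex then (l : ℝ) else 0) = #Ex * l := by
    rw [← sum_filter, sum_const, nsmul_eq_mul]
    congr 2
    rw [hEx]
    congr 1
    ext y
    simp only [mem_filter]
    tauto
  have h2 : (D : ℝ) * ∑ y ∈ Icc 1 H,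
      ‖∑ h ∈ Icc 1 l, muC (m + (y + h)) * u (y + h) * ee ((P y).eval (h : ℝ))‖ ≤
      D * (∑ y ∈ Icc 1 H, TopS σ {x | x ∈ A ∧ x ∈ Mn Q₂ δ} F (fun _ => 1) l (m + y) +
        #Ex * l) := by
    rw [← h1, ← sum_add_distrib]
    gcongr with y hy
    exact hterm y hy
  have h3 : (D : ℝ) * #Ex * l ≤ c / 4 * H * l :=
    mul_le_mul_of_nonneg_right hfew (Nat.cast_nonneg _)
  nlinarith

open Classical in
/-- Class II: the top coefficient is near a rational number; one degree less. -/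
lemma classII (h5 : E5_stmt) {F : Set (ℕ → ℂ)} (hF : Cls F) {s D Q₂ l H m : ℕ} (hs : 1 ≤ s)
    (hD : 1 ≤ D) {c ρ₅ : ℝ} (hρ₅ : 0 ≤ ρ₅) (R : ℝ[X]) (u : ℕ → ℂ) (hu : u ∈ F) (P : ℕ → ℝ[X])
    (hP : ∀ y, (P y).natDegree ≤ s + 1)
    (hPj : ∀ y, ∀ j, 1 ≤ j → j ≤ s + 1 →
      ∃ z : ℤ, (P y).coeff j = (taylor (y : ℝ) R).coeff j + (z : ℝ) / D)
    (hsum : c / 2 * H * l ≤ D * ∑ y ∈ Icc 1 H,
      ‖∑ h ∈ Icc 1 l, muC (m + (y + h)) * u (y + h) * ee ((P y).eval (h : ℝ))‖)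
    (hnear : ∃ x₀ ∈ TR D Q₂, ∀ y ∈ Icc 1 H, ∃ z : ℤ,
      |(taylor ((y : ℕ) : ℝ) R).coeff (s + 1) - x₀ - (z : ℝ) / D| ≤ ρ₅)
    (A₁ : Set ℝ) (Ex : Finset ℕ)
    (hA₁ : ∀ y ∈ Icc 1 H, y ∉ Ex → ∀ P' : ℝ[X], (∀ j, 2 ≤ j → j ≤ s → P'.coeff j = (P y).coeff j) →
      P'.coeff s ∈ A₁)
    (hfew : (D : ℝ) * (D * Q₂.factorial : ℕ) * #Ex ≤ c / 8 * H)
    (hρl : (D : ℝ) * (2 * Real.pi * ρ₅ * (l : ℝ) ^ (s + 2)) ≤ c / 8 * l) :
    c / 4 * H * l ≤ (D * (D * Q₂.factorial) : ℕ) * ∑ y ∈ Icc 1 H,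
      TopS s A₁ F (fun _ => 1) l (m + y) := by
  have hD0 : (0 : ℝ) < D := by exact_mod_cast hD
  obtain ⟨x₀, ⟨q, hq1, hqQ, b₀, hb₀⟩, hnear⟩ := hnear
  have hqd : q ∣ Q₂.factorial := Nat.dvd_factorial hq1 hqQ
  obtain ⟨k, hk⟩ := hqd
  obtain ⟨q₀, hq₀⟩ : ∃ q₀ : ℕ, q₀ = D * Q₂.factorial := ⟨_, rfl⟩
  have hfac : 0 < Q₂.factorial := Nat.factorial_pos _
  have hq₀1 : 1 ≤ q₀ := by
    rw [hq₀]
    exact Nat.mul_pos hD hfac
  have hq₀0 : (0 : ℝ) < q₀ := by exact_mod_cast hq₀1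
  rw [← hq₀] at hfew ⊢
  have hterm : ∀ y ∈ Icc 1 H,
      ‖∑ h ∈ Icc 1 l, muC (m + (y + h)) * u (y + h) * ee ((P y).eval (h : ℝ))‖ ≤
      q₀ * (TopS s A₁ F (fun _ => 1) l (m + y) + (if y ∈ Ex then (l : ℝ) else 0)) +
        2 * Real.pi * ρ₅ * (l : ℝ) ^ (s + 2) := by
    intro y hy
    refine h5 q₀ s l ρ₅ hq₀1 hs hρ₅ (fun h => muC (m + (y + h)) * u (y + h)) (fun h => by
      rw [norm_mul]
      exact mul_le_one₀ (norm_muC _) (norm_nonneg _) (hF.bdd u hu _)) (P y) (hP y) ?_ _ ?_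
    · obtain ⟨z, hz⟩ := hnear y hy
      obtain ⟨z', hz'⟩ := hPj y (s + 1) (by omega) le_rfl
      refine ⟨k * b₀ + Q₂.factorial * (z + z'), ?_⟩
      have hq0 : (0 : ℝ) < q := by exact_mod_cast hq1
      have hk0 : (Q₂.factorial : ℝ) = q * k := by exact_mod_cast hk
      have hf0 : (0 : ℝ) < (Q₂.factorial : ℝ) := by exact_mod_cast hfac
      have e1 : (((k : ℤ) * b₀ + (Q₂.factorial : ℤ) * (z + z') : ℤ) : ℝ) / (q₀ : ℝ) =
          x₀ + (z : ℝ) / D + (z' : ℝ) / D := by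
        rw [hq₀, div_eq_iff (by push_cast; positivity)]
        push_cast
        have e2 : (x₀ + (z : ℝ) / D + (z' : ℝ) / D) * (D * (Q₂.factorial : ℝ)) =
            k * (D * q * x₀) + (Q₂.factorial : ℝ) * ((z : ℝ) + z') := by
          rw [hk0]
          field_simp
          ring
        rw [e2, hb₀]
      rw [e1, hz']
      refine le_trans (le_of_eq ?_) hz
      congr 1
      ring
    · intro P' hP' hP'j _
      have e1 : ∑ h ∈ Icc 1 l, muC (m + (y + h)) * u (y + h) * ee (P'.eval (h : ℝ)) =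
          ∑ h ∈ Icc 1 l, muC (m + y + h) * ((fun h => u (y + h)) h * ee (P'.eval (h : ℝ))) := by
        refine sum_congr rfl fun h _ => ?_
        rw [← add_assoc]
        ring
      rw [e1]
      by_cases hE : y ∈ Ex
      · rw [if_pos hE]
        have h1 := norm_sum_muC_mul_le l (m + y) (fun h => u (y + h))
          (hF.bdd _ (hF.shift u hu y)) fun h => P'.eval (h : ℝ)
        have h2 := W6x.TopS_nonneg s A₁ F (fun _ => 1) l (m + y)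
        linarith
      · rw [if_neg hE, add_zero]
        exact le_TopS hF s _ l (m + y) P' hP' (hA₁ y hy hE P' hP'j) _ (hF.shift u hu y)
  have h1 : ∑ y ∈ Icc 1 H, (if y ∈ Ex then (l : ℝ) else 0) ≤ #Ex * l := by
    rw [← sum_filter, sum_const, nsmul_eq_mul]
    gcongr
    exact filter_subset_filter _ (fun _ h => h) |>.trans (by intro y hy; exact (mem_filter.1 hy).2)
  have h2 : (D : ℝ) * ∑ y ∈ Icc 1 H,
      ‖∑ h ∈ Icc 1 l, muC (m + (y + h)) * u (y + h) * ee ((P y).eval (h : ℝ))‖ ≤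
      D * (q₀ * (∑ y ∈ Icc 1 H, TopS s A₁ F (fun _ => 1) l (m + y) + #Ex * l) +
        H * (2 * Real.pi * ρ₅ * (l : ℝ) ^ (s + 2))) := by
    gcongr
    calc ∑ y ∈ Icc 1 H, ‖∑ h ∈ Icc 1 l, muC (m + (y + h)) * u (y + h) * ee ((P y).eval (h : ℝ))‖
        ≤ ∑ y ∈ Icc 1 H, (q₀ * (TopS s A₁ F (fun _ => 1) l (m + y) +
            (if y ∈ Ex then (l : ℝ) else 0)) + 2 * Real.pi * ρ₅ * (l : ℝ) ^ (s + 2)) :=
          sum_le_sum hterm
      _ = q₀ * (∑ y ∈ Icc 1 H, TopS s A₁ F (fun _ => 1) l (m + y) +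
            ∑ y ∈ Icc 1 H, (if y ∈ Ex then (l : ℝ) else 0)) +
            H * (2 * Real.pi * ρ₅ * (l : ℝ) ^ (s + 2)) := by
          rw [sum_add_distrib, ← mul_sum, sum_add_distrib, sum_const, Nat.card_Icc,
            Nat.add_sub_cancel, nsmul_eq_mul]
      _ ≤ _ := by gcongr
  have h3 : (D : ℝ) * q₀ * #Ex * l ≤ c / 8 * H * l :=
    mul_le_mul_of_nonneg_right hfew (Nat.cast_nonneg _)
  have h4 : (D : ℝ) * (2 * Real.pi * ρ₅ * (l : ℝ) ^ (s + 2)) * H ≤ c / 8 * l * H :=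
    mul_le_mul_of_nonneg_right hρl (Nat.cast_nonneg _)
  push_cast
  nlinarith

end E6x

end Pool.Agent.TUK
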