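import Mathlib
import Pool.Agent.Lib.TUK.E6a

/-!
# Row E6, part c: two dichotomies (MP_663568_nt)
-/

set_option autoImplicit false
open Finset Polynomial MeasureTheory

namespace Pool.Agent.TUK

open Pool.Agent.Lib.MP_663568_nt Pool.Agent.Lib.MP_663568_nt.Katai
  Pool.Agent.Lib.MP_663568_nt.Nul Pool.Agent.TU

namespace E6x

open Classical in
/-- The `σ`-th coefficient is rarely near rationals, or always near one rational. -/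
lemma few_or_near {t σ D Q₂ H : ℕ} (hst : σ ≤ t) (hD : 1 ≤ D) {Q η δ ρ₃ ρ₅ : ℝ} (hQ : 0 ≤ Q)
    (hρ₃ : 0 ≤ ρ₃) (hH : 1 ≤ H) (hη : 0 < η) (h11 : ∀ x ∈ TR D Q₂, ∀ z : ℤ, x + (z : ℝ) / D ∈ TR D Q₂)
    (hE : ∀ g : ℝ[X], g.natDegree ≤ t →
      (∀ j, 1 ≤ j → |g.coeff j| * (H : ℝ) ^ j ≤ 2 ^ (2 * t) * Q) →
      η * H ≤ #{k ∈ Icc 1 H | ∃ x ∈ TR D Q₂, |g.eval ((k : ℕ) : ℝ) - x| ≤ δ} →
      ∀ j, 1 ≤ j → |g.coeff j| * (H : ℝ) ^ j ≤ ρ₃)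
    (hρ : δ + (t + 1) * 2 ^ t * ρ₃ ≤ ρ₅)
    {R : ℝ[X]} (hR : R.natDegree ≤ t) (hN : Near t σ D Q H R) :
    (#{y ∈ Icc 1 H | ∃ x ∈ TR D Q₂, |(taylor ((y : ℕ) : ℝ) R).coeff σ - x| ≤ δ} : ℝ) ≤ η * H ∨
    ∃ x₀ ∈ TR D Q₂, ∀ y ∈ Icc 1 H, ∃ z : ℤ,
      |(taylor ((y : ℕ) : ℝ) R).coeff σ - x₀ - (z : ℝ) / D| ≤ ρ₅ := by
  rcases le_or_gt ((#{y ∈ Icc 1 H | ∃ x ∈ TR D Q₂,
    |(taylor ((y : ℕ) : ℝ) R).coeff σ - x| ≤ δ} : ℝ)) (η * H) with h | h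
  · exact Or.inl h
  · right
    set g := slow t σ D R with hg
    have h11' : ∀ x ∈ TR D Q₂, ∀ z : ℤ, x - (z : ℝ) / D ∈ TR D Q₂ := by
      intro x hx z
      have := h11 x hx (-z)
      push_cast at this
      rw [sub_eq_add_neg, ← neg_div]
      exact this
    have hsub : {y ∈ Icc 1 H | ∃ x ∈ TR D Q₂, |(taylor ((y : ℕ) : ℝ) R).coeff σ - x| ≤ δ} ⊆
        {k ∈ Icc 1 H | ∃ x ∈ TR D Q₂, |g.eval ((k : ℕ) : ℝ) - x| ≤ δ} := by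
      intro y hy
      rw [mem_filter] at hy ⊢
      obtain ⟨hy1, x, hx, hxy⟩ := hy
      obtain ⟨z, hz⟩ := slow_eval (s := σ) (D := D) hR y
      refine ⟨hy1, x - (z : ℝ) / D, h11' x hx z, ?_⟩
      rw [hz] at hxy
      rw [show g.eval ((y : ℕ) : ℝ) - (x - (z : ℝ) / D) =
        g.eval ((y : ℕ) : ℝ) + (z : ℝ) / D - x by ring]
      exact hxy
    have hcard : η * H ≤ #{k ∈ Icc 1 H | ∃ x ∈ TR D Q₂, |g.eval ((k : ℕ) : ℝ) - x| ≤ δ} :=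
      h.le.trans (by exact_mod_cast card_le_card hsub)
    have hsmall := hE g (slow_natDegree t σ D R)
      (fun j hj => slow_bound hD hQ hH le_rfl hN hR hst j hj) hcard
    obtain ⟨k₀, hk₀⟩ : {k ∈ Icc 1 H | ∃ x ∈ TR D Q₂, |g.eval ((k : ℕ) : ℝ) - x| ≤ δ}.Nonempty := by
      rw [← card_pos]
      have hH0 : (0 : ℝ) < H := by exact_mod_cast hH
      have : (0 : ℝ) < #{k ∈ Icc 1 H | ∃ x ∈ TR D Q₂, |g.eval ((k : ℕ) : ℝ) - x| ≤ δ} :=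
        lt_of_lt_of_le (by positivity) hcard
      exact_mod_cast this
    rw [mem_filter, mem_Icc] at hk₀
    obtain ⟨⟨-, hk₀H⟩, x₀, hx₀, hx₀k⟩ := hk₀
    refine ⟨x₀, hx₀, fun y hy => ?_⟩
    rw [mem_Icc] at hy
    obtain ⟨z, hz⟩ := slow_eval (s := σ) (D := D) hR y
    refine ⟨z, ?_⟩
    have h1 := osc_le (e := 1) hH (by omega) (slow_natDegree t σ D R) hρ₃ le_rfl hsmall hy.2 hk₀H
    rw [hz]
    rw [show (slow t σ D R).eval (y : ℝ) + (z : ℝ) / D - x₀ - (z : ℝ) / D =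
      ((slow t σ D R).eval (y : ℝ) - (slow t σ D R).eval (k₀ : ℝ)) +
        ((slow t σ D R).eval (k₀ : ℝ) - x₀) by ring]
    calc _ ≤ |(slow t σ D R).eval (y : ℝ) - (slow t σ D R).eval (k₀ : ℝ)| +
          |(slow t σ D R).eval (k₀ : ℝ) - x₀| := abs_add_le _ _
      _ ≤ (t + 1) * (2 * (1 : ℕ)) ^ t * ρ₃ + δ := add_le_add h1 hx₀k
      _ ≤ ρ₅ := by push_cast; rw [mul_one]; linarith

open Classical in
/-- If the `s`-th coefficient is often near the closed null set `T`, it is always near `T`. -/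
lemma all_near {t s D e : ℕ} (hst : s ≤ t) (hD : 1 ≤ D) (he : 1 ≤ e)
    {T : Set ℝ} (hT : ∀ x ∈ T, ∀ z : ℤ, x + (z : ℝ) / D ∈ T) {Q c₅ ρ₃ ρ ρ₄ : ℝ}
    (hQ : 0 ≤ Q) (hρ₃ : 0 ≤ ρ₃) (hρρ : ρ + (t + 1) * (2 * e) ^ t * ρ₃ ≤ ρ₄)
    {H M : ℕ} (hM : 1 ≤ M) (hMH : M ≤ H) (hHM : H ≤ 2 * e * M)
    (hE : ∀ g : ℝ[X], g.natDegree ≤ t →
      (∀ j, 1 ≤ j → |g.coeff j| * (M : ℝ) ^ j ≤ 2 ^ (2 * t) * Q) →
      c₅ * M ≤ #{k ∈ Icc 1 M | ∃ x ∈ T, |g.eval ((k : ℕ) : ℝ) - x| ≤ ρ} →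
      ∀ j, 1 ≤ j → |g.coeff j| * (M : ℝ) ^ j ≤ ρ₃) (hc₅ : 0 < c₅)
    {R : ℝ[X]} (hR : R.natDegree ≤ t) (hN : Near t s D Q H R)
    (hmany : c₅ * M ≤ #{k ∈ Icc 1 M | ∃ i : Fin t, i.val + 1 = s ∧
      ∃ x ∈ T, |tv t R ((k : ℕ) : ℝ) i - x| ≤ ρ}) :
    ∀ y ≤ H, ∀ w : ℤ, (taylor ((y : ℕ) : ℝ) R).coeff s + (w : ℝ) / D ∈ Nr T ρ₄ := by
  have hM0 : (0 : ℝ) < M := by exact_mod_cast hM
  set g := slow t s D R with hg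
  have hT' : ∀ x ∈ T, ∀ z : ℤ, x - (z : ℝ) / D ∈ T := by
    intro x hx z
    have := hT x hx (-z)
    push_cast at this
    rw [sub_eq_add_neg, ← neg_div]
    exact this
  have hsub : {k ∈ Icc 1 M | ∃ i : Fin t, i.val + 1 = s ∧
      ∃ x ∈ T, |tv t R ((k : ℕ) : ℝ) i - x| ≤ ρ} ⊆
      {k ∈ Icc 1 M | ∃ x ∈ T, |g.eval ((k : ℕ) : ℝ) - x| ≤ ρ} := by
    intro k hk
    rw [mem_filter] at hk ⊢
    refine ⟨hk.1, ?_⟩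
    obtain ⟨i, hi, x, hx, hxk⟩ := hk.2
    obtain ⟨z, hz⟩ := slow_eval (s := s) (D := D) hR k
    refine ⟨x - (z : ℝ) / D, hT' x hx z, ?_⟩
    unfold tv at hxk
    rw [hi, hz] at hxk
    rw [show g.eval ((k : ℕ) : ℝ) - (x - (z : ℝ) / D) =
      g.eval ((k : ℕ) : ℝ) + (z : ℝ) / D - x by ring]
    exact hxk
  have hcard : c₅ * M ≤ #{k ∈ Icc 1 M | ∃ x ∈ T, |g.eval ((k : ℕ) : ℝ) - x| ≤ ρ} :=
    hmany.trans (by exact_mod_cast card_le_card hsub)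
  have hsmall := hE g (slow_natDegree t s D R)
    (fun j hj => slow_bound hD hQ hM hMH hN hR hst j hj) hcard
  obtain ⟨k₀, hk₀⟩ : {k ∈ Icc 1 M | ∃ x ∈ T, |g.eval ((k : ℕ) : ℝ) - x| ≤ ρ}.Nonempty := by
    rw [← card_pos]
    have : (0 : ℝ) < #{k ∈ Icc 1 M | ∃ x ∈ T, |g.eval ((k : ℕ) : ℝ) - x| ≤ ρ} :=
      lt_of_lt_of_le (by positivity) hcard
    exact_mod_cast this
  rw [mem_filter, mem_Icc] at hk₀
  obtain ⟨⟨-, hk₀M⟩, x₀, hx₀, hx₀k⟩ := hk₀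
  intro y hy w
  obtain ⟨z, hz⟩ := slow_eval (s := s) (D := D) hR y
  have h1 := osc_le hM hHM (slow_natDegree t s D R) hρ₃ he hsmall hy (hk₀M.trans hMH)
  refine ⟨x₀ + ((z + w : ℤ) : ℝ) / D, hT x₀ hx₀ _, ?_⟩
  rw [hz]
  push_cast
  rw [show (slow t s D R).eval (y : ℝ) + (z : ℝ) / D + (w : ℝ) / D - (x₀ + ((z : ℝ) + w) / D) =
    ((slow t s D R).eval (y : ℝ) - (slow t s D R).eval (k₀ : ℝ)) +
      ((slow t s D R).eval (k₀ : ℝ) - x₀) by ring]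
  calc _ ≤ |(slow t s D R).eval (y : ℝ) - (slow t s D R).eval (k₀ : ℝ)| +
        |(slow t s D R).eval (k₀ : ℝ) - x₀| := abs_add_le _ _
    _ ≤ (t + 1) * (2 * e) ^ t * ρ₃ + ρ := add_le_add h1 hx₀k
    _ ≤ ρ₄ := by linarith

/-- The lower level. -/
lemma low_pack (h4 : E4_stmt) (h11 : E11_stmt) {k : ℕ} {F : Set (ℕ → ℂ)} (hCls : Cls F)
    {t : ℕ} {B : Set (Fin t → ℝ)} (hLv : Lv k B F) {s : ℕ} (hs : max k 1 ≤ s) (hst : s + 1 ≤ t)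
    {D : ℕ} (hD : 1 ≤ D) (ε₃ η₁ : ℝ) (hε₃ : 0 < ε₃) (hη₁ : 0 < η₁) :
    ∃ (A₁ : Set ℝ) (l₁ J : ℕ) (δ₂ : ℝ), 1 ≤ l₁ ∧ 0 < δ₂ ∧
      (PS s B → ∀ N : ℕ, l₁ ≤ N → AT s A₁ F (fun _ => 1) N l₁ ≤ ε₃ * l₁ * Real.log N) ∧
      (PS s B → ∀ (H : ℕ) (R : ℝ[X]), (∀ j : ℤ, j ≠ 0 → |j| ≤ (J : ℤ) →
        ‖∑ y ∈ Icc 1 H, ee ((j : ℝ) * (taylor ((y : ℕ) : ℝ) R).coeff s)‖ ≤ δ₂ * H) →
        ∃ Ex : Finset ℕ, (#Ex : ℝ) ≤ η₁ * H ∧ ∀ y ∈ Icc 1 H, y ∉ Ex → ∀ P P' : ℝ[X],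
          (∀ j, 1 ≤ j → j ≤ s + 1 →
            ∃ z : ℤ, P.coeff j = (taylor ((y : ℕ) : ℝ) R).coeff j + (z : ℝ) / D) →
          (∀ j, 2 ≤ j → j ≤ s → P'.coeff j = P.coeff j) → P'.coeff s ∈ A₁) := by
  classical
  by_cases hPS : PS s B
  · rcases hs.eq_or_lt with hb | hb
    · -- the lowest level
      subst hb
      obtain ⟨l₀, hl₀⟩ := hLv.1 hPS ε₃ hε₃
      refine ⟨Set.univ, max l₀ 1, 0, 1, le_max_right _ _, one_pos, fun _ N hN => ?_,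
        fun _ H R _ => ⟨∅, by simp; positivity, fun y _ _ P P' _ _ => trivial⟩⟩
      exact (AT_univ_le hCls _ N _).trans (hl₀ _ N (le_max_left _ _) hN)
    · obtain ⟨Q₁, hQ₁⟩ := hLv.2 s hb (by omega) hPS ε₃ hε₃
      obtain ⟨hc1, hc2, hc3, hc4, -⟩ := h11 D Q₁ hD
      obtain ⟨δ₁, hδ₁, J, δ₂, hδ₂, hE4⟩ := h4 (TR D Q₁) hc1 hc2 hc4 η₁ hη₁
      obtain ⟨l₀, hl₀⟩ := hQ₁ δ₁ hδ₁
      refine ⟨Mn Q₁ δ₁, max l₀ 1, J, δ₂, le_max_right _ _, hδ₂,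
        fun _ N hN => hl₀ _ N (le_max_left _ _) hN, fun _ H R hsum => ?_⟩
      refine ⟨{y ∈ Icc 1 H | ∃ x ∈ TR D Q₁, |(taylor ((y : ℕ) : ℝ) R).coeff s - x| ≤ δ₁}, ?_, ?_⟩
      · have h1 := hE4 H (fun y => (taylor ((y : ℕ) : ℝ) R).coeff s) hsum
        refine le_trans (le_of_eq ?_) h1
        congr 1
        have e : (fun y : ℕ => y ∈ Icc 1 H ∧ ∃ c ∈ TR D Q₁,
            |(taylor ((y : ℕ) : ℝ) R).coeff s - c| ≤ δ₁) = fun y : ℕ => y ∈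
            {y ∈ Icc 1 H | ∃ x ∈ TR D Q₁, |(taylor ((y : ℕ) : ℝ) R).coeff s - x| ≤ δ₁} := by
          funext y
          rw [mem_filter]
        rw [show {y : ℕ // y ∈ Icc 1 H ∧ ∃ c ∈ TR D Q₁,
            |(taylor ((y : ℕ) : ℝ) R).coeff s - c| ≤ δ₁} = {y : ℕ // y ∈
            {y ∈ Icc 1 H | ∃ x ∈ TR D Q₁, |(taylor ((y : ℕ) : ℝ) R).coeff s - x| ≤ δ₁}} from
            congrArg Subtype e, Nat.card_eq_fintype_card, Fintype.card_coe]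
      · intro y hy hyE P P' hP hP'
        rw [hP' s (by omega) le_rfl]
        obtain ⟨z, hz⟩ := hP s (by omega) (by omega)
        rw [hz]
        refine mem_Mn hD (fun x hx => ?_) z
        by_contra hcon
        push Not at hcon
        exact hyE (mem_filter.2 ⟨hy, x, hx, hcon⟩)
  · exact ⟨Set.univ, 1, 0, 1, le_rfl, one_pos, fun h => absurd h hPS, fun h => absurd h hPS⟩

end E6x

end Pool.Agent.TUK
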