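import Mathlib
import Pool.Agent.Lib.TUK.E6c

/-!
# Row E6: the clusters have small density (MP_663568_nt)
-/

set_option autoImplicit false
open Finset Polynomial MeasureTheory

namespace Pool.Agent.TUK

open Pool.Agent.Lib.MP_663568_nt Pool.Agent.Lib.MP_663568_nt.Katai
  Pool.Agent.Lib.MP_663568_nt.Nul Pool.Agent.TU

open E6x in
/-- **Row E6.** -/
theorem rowE6 (h1 : E1_stmt) (hD : D_stmt) (hE : E_stmt) (h2 : E2_stmt) (h4 : E4_stmt)
    (h5 : E5_stmt) (h11 : E11_stmt) (h6b : E6b_stmt) : E6_stmt := by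
  classical
  intro k F hCls hSM hB1 t B hkt hB hP hFr hLv c c₄ e K hc hc1 hc₄ he hK s hs
  induction s, hs using Nat.le_induction with
  | base =>
    intro _ D Q ε hD1 hQ1 hε
    obtain ⟨H₀, hH₀⟩ := h6b k F hCls hB1 t B hkt hB hP hFr hLv.1 c c₄ e K hc hc1 hc₄ he hK D Q ε
      hD1 hQ1 hε
    refine ⟨H₀, fun H N hH hHN => ?_⟩
    exact hH₀ H N hH hHN _ fun m hm => mem_filter.1 hm
  | succ s hs ih =>
    intro hst D Q ε hD1 hQ1 hε
    have hs1 : 1 ≤ s := le_trans (le_max_right _ _) hs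
    have hDr : (1 : ℝ) ≤ D := by exact_mod_cast hD1
    have hD0 : (0 : ℝ) < D := by linarith
    have her : (1 : ℝ) ≤ e := by exact_mod_cast he
    have hQ0 : (0 : ℝ) ≤ Q := by linarith
    obtain ⟨κ, hκ⟩ : ∃ κ : ℝ, κ = min 1 (c₄ / 4) := ⟨_, rfl⟩
    have hκ0 : 0 < κ := by rw [hκ]; positivity
    have hκ1 : κ ≤ 1 := by rw [hκ]; exact min_le_left _ _
    have hκc : κ ≤ c₄ / 4 := by rw [hκ]; exact min_le_right _ _
    obtain ⟨T, hTc, hTinv, hTv, hTirr, hmaj⟩ := h1 t B hB hP (s + 1) (by omega) hst D hD1 κ hκ0 hκ1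
    rw [Nat.add_sub_cancel] at hTirr
    have hTint : ∀ x ∈ T, ∀ z : ℤ, x + (z : ℝ) ∈ T := by
      intro x hx z
      have := hTinv x hx (z * D)
      push_cast at this
      rwa [mul_div_assoc, div_self hD0.ne', mul_one] at this
    -- the top law
    obtain ⟨ε₂, hε₂⟩ : ∃ ε₂ : ℝ, ε₂ = c * ε / (48 * D) := ⟨_, rfl⟩
    have hε₂0 : 0 < ε₂ := by rw [hε₂]; positivity
    obtain ⟨T', Q₂, ρ₄, hρ₄, hT'T, htop⟩ : ∃ (T' : Set ℝ) (Q₂ : ℕ) (ρ₄ : ℝ), 0 < ρ₄ ∧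
        (T' = Set.univ ∨ (T' = T ∧ volume T = 0)) ∧ MUA (s + 1) (Nr T' ρ₄) F ε₂ Q₂ := by
      by_cases hPS : PS (s + 1) B
      · obtain ⟨Q₂, hQ₂⟩ := hLv.2 (s + 1) (by omega) hst hPS ε₂ hε₂0
        refine ⟨Set.univ, Q₂, 1, one_pos, Or.inl rfl, fun δ hδ => ?_⟩
        obtain ⟨H₀, h⟩ := hQ₂ δ hδ
        exact ⟨H₀, fun H N hH hHN =>
          (AT_mono hCls (s + 1) (fun x hx => hx.2) N H).trans (h H N hH hHN)⟩
      · obtain ⟨Q₂, ρ₄, hρ₄, h⟩ := hSM (s + 1) (by omega) (by omega) T hTc (hTv hPS) hTint ε₂ hε₂0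
        exact ⟨T, Q₂, ρ₄, hρ₄, Or.inr ⟨rfl, hTv hPS⟩, h⟩
    obtain ⟨hR1, hR2, hR3, hR4, hR5⟩ := h11 D Q₂ hD1
    obtain ⟨q₀, hq₀⟩ : ∃ q₀ : ℕ, q₀ = D * Q₂.factorial := ⟨_, rfl⟩
    have hq₀1 : 1 ≤ q₀ := by rw [hq₀]; exact Nat.mul_pos hD1 (Nat.factorial_pos _)
    have hq₀0 : (0 : ℝ) < q₀ := by exact_mod_cast hq₀1
    -- the lower law
    obtain ⟨ε₃, hε₃⟩ : ∃ ε₃ : ℝ, ε₃ = c * ε / (48 * (D * q₀)) := ⟨_, rfl⟩
    have hε₃0 : 0 < ε₃ := by rw [hε₃]; positivity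
    obtain ⟨η₁, hη₁⟩ : ∃ η₁ : ℝ, η₁ = c / (8 * (D * q₀)) := ⟨_, rfl⟩
    have hη₁0 : 0 < η₁ := by rw [hη₁]; positivity
    obtain ⟨A₁, l₁, J, δ₂, hl₁, hδ₂, hlow1, hlow2⟩ :=
      low_pack h4 h11 hCls hLv hs hst hD1 ε₃ η₁ hε₃0 hη₁0
    have hl₁0 : (1 : ℝ) ≤ l₁ := by exact_mod_cast hl₁
    -- the distance of the rationals to `T`
    obtain ⟨d, hd, hdT⟩ : ∃ d : ℝ, 0 < d ∧ (¬ PS s B → ∀ x ∈ T, ∀ y ∈ TR D Q₂, d ≤ |x - y|) := by
      by_cases hPS : PS s B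
      · exact ⟨1, one_pos, fun h => absurd hPS h⟩
      · obtain ⟨d, hd, h⟩ := hR5 T hTc hTint (hTirr (by omega) hPS)
        exact ⟨d, hd, fun _ => h⟩
    obtain ⟨ρ₅, hρ₅0, hρ₅d, hρ₅l⟩ : ∃ ρ₅ : ℝ, 0 < ρ₅ ∧ ρ₅ ≤ d / 4 ∧
        (D : ℝ) * (2 * Real.pi * ρ₅ * (l₁ : ℝ) ^ (s + 2)) ≤ c / 8 * l₁ := by
      have h6 : 0 < (D : ℝ) * (2 * Real.pi * (l₁ : ℝ) ^ (s + 2)) := by positivity
      refine ⟨min (d / 4) (c / 8 / ((D : ℝ) * (2 * Real.pi * (l₁ : ℝ) ^ (s + 2)))),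
        lt_min (by positivity) (by positivity), min_le_left _ _, ?_⟩
      have h7 : min (d / 4) (c / 8 / ((D : ℝ) * (2 * Real.pi * (l₁ : ℝ) ^ (s + 2)))) *
          ((D : ℝ) * (2 * Real.pi * (l₁ : ℝ) ^ (s + 2))) ≤ c / 8 := by
        rw [← le_div_iff₀ h6]
        exact min_le_right _ _
      calc (D : ℝ) * (2 * Real.pi * min (d / 4) (c / 8 / ((D : ℝ) * (2 * Real.pi *
            (l₁ : ℝ) ^ (s + 2)))) * (l₁ : ℝ) ^ (s + 2))
          = min (d / 4) (c / 8 / ((D : ℝ) * (2 * Real.pi * (l₁ : ℝ) ^ (s + 2)))) *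
            ((D : ℝ) * (2 * Real.pi * (l₁ : ℝ) ^ (s + 2))) := by ring
        _ ≤ c / 8 := h7
        _ ≤ c / 8 * l₁ := le_mul_of_one_le_right (by positivity) hl₁0
    -- almost constant near a rational
    obtain ⟨η, hη⟩ : ∃ η : ℝ, η = c / (4 * D) := ⟨_, rfl⟩
    have hη0 : 0 < η := by rw [hη]; positivity
    obtain ⟨U', hU'⟩ : ∃ U' : ℝ, U' = (t + 1) * 2 ^ t := ⟨_, rfl⟩
    have hU'0 : 0 < U' := by rw [hU']; positivity
    obtain ⟨ρ₆, hρ₆⟩ : ∃ ρ₆ : ℝ, ρ₆ = ρ₅ / (2 * U') := ⟨_, rfl⟩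
    have hρ₆0 : 0 < ρ₆ := by rw [hρ₆]; positivity
    obtain ⟨ρR, hρR, MR, hER⟩ := hE (TR D Q₂) hR1 hR2 hR4 t (2 ^ (2 * t) * Q) η ρ₆ (by positivity)
      hη0 hρ₆0
    obtain ⟨δ, hδ⟩ : ∃ δ : ℝ, δ = min ρR (ρ₅ / 2) := ⟨_, rfl⟩
    have hδ0 : 0 < δ := by rw [hδ]; positivity
    have hδR : δ ≤ ρR := by rw [hδ]; exact min_le_left _ _
    have hδ5 : δ ≤ ρ₅ / 2 := by rw [hδ]; exact min_le_right _ _
    have hδρ : δ + (t + 1) * 2 ^ t * ρ₆ ≤ ρ₅ := by
      have : (t + 1) * 2 ^ t * ρ₆ = ρ₅ / 2 := by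
        rw [← hU', hρ₆]; field_simp
      rw [this]; linarith
    obtain ⟨l₀, hl₀⟩ := htop δ hδ0
    obtain ⟨l, hl⟩ : ∃ l : ℕ, l = max l₀ 1 := ⟨_, rfl⟩
    have hl1 : 1 ≤ l := by omega
    have hll : l₀ ≤ l := by omega
    -- almost constant near `T`
    obtain ⟨U, hU⟩ : ∃ U : ℝ, U = (t + 1) * (2 * e) ^ t := ⟨_, rfl⟩
    have hU0 : 0 < U := by rw [hU]; positivity
    obtain ⟨ρ₃, hρ₃⟩ : ∃ ρ₃ : ℝ, ρ₃ = ρ₄ / (2 * U) := ⟨_, rfl⟩
    have hρ₃0 : 0 < ρ₃ := by rw [hρ₃]; positivity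
    obtain ⟨ρE, hρE, ME, hEE⟩ : ∃ ρE : ℝ, 0 < ρE ∧ ∃ ME : ℕ, volume T = 0 →
        ∀ M : ℕ, ME ≤ M → ∀ g : ℝ[X], g.natDegree ≤ t →
        (∀ j, 1 ≤ j → |g.coeff j| * (M : ℝ) ^ j ≤ 2 ^ (2 * t) * Q) →
        c₄ / 4 * M ≤ #{k ∈ Icc 1 M | ∃ x ∈ T, |g.eval ((k : ℕ) : ℝ) - x| ≤ ρE} →
        ∀ j, 1 ≤ j → |g.coeff j| * (M : ℝ) ^ j ≤ ρ₃ := by
      by_cases hv : volume T = 0
      · obtain ⟨ρE, hρE, ME, hEE⟩ := hE T hTc hv hTint t (2 ^ (2 * t) * Q) (c₄ / 4) ρ₃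
          (by positivity) (by positivity) hρ₃0
        exact ⟨ρE, hρE, ME, fun _ => hEE⟩
      · exact ⟨1, one_pos, 0, fun h => absurd h hv⟩
    obtain ⟨ρ, hρ⟩ : ∃ ρ : ℝ, ρ = min ρE (min (ρ₄ / 2) (d / 4)) := ⟨_, rfl⟩
    have hρ0 : 0 < ρ := by rw [hρ]; positivity
    have hρρE : ρ ≤ ρE := by rw [hρ]; exact min_le_left _ _
    have hρρ₄ : ρ ≤ ρ₄ / 2 := by rw [hρ]; exact (min_le_right _ _).trans (min_le_left _ _)
    have hρd : ρ ≤ d / 4 := by rw [hρ]; exact (min_le_right _ _).trans (min_le_right _ _)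
    have hρρ : ρ + (t + 1) * (2 * e) ^ t * ρ₃ ≤ ρ₄ := by
      have : (t + 1) * (2 * (e : ℝ)) ^ t * ρ₃ = ρ₄ / 2 := by
        rw [← hU, hρ₃]; field_simp
      rw [this]; linarith
    obtain ⟨ρ', hρ', Λ, w, hm0, hm1, hm2, hm3⟩ := hmaj ρ hρ0
    obtain ⟨W, hW⟩ : ∃ W : ℝ, W = ∑ l ∈ Λ, ‖w l‖ := ⟨_, rfl⟩
    have hW0 : 0 ≤ W := by rw [hW]; exact sum_nonneg fun _ _ => norm_nonneg _
    obtain ⟨δΛ, hδΛ⟩ : ∃ δΛ : ℝ, δΛ = κ / (W + 1) := ⟨_, rfl⟩
    have hδΛ0 : 0 < δΛ := by rw [hδΛ]; positivity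
    have hWδ : (∑ l ∈ Λ, ‖w l‖) * δΛ ≤ κ := by
      rw [← hW, hδΛ, mul_div_assoc', div_le_iff₀ (by positivity)]
      nlinarith
    obtain ⟨L, hL⟩ := exists_bound Λ
    obtain ⟨L', hL'⟩ : ∃ L' : ℕ, L' = max L J := ⟨_, rfl⟩
    have hLL' : L ≤ L' := by omega
    have hJL' : J ≤ L' := by omega
    obtain ⟨δ', hδ'⟩ : ∃ δ' : ℝ, δ' = min δΛ δ₂ := ⟨_, rfl⟩
    have hδ'0 : 0 < δ' := by rw [hδ']; positivity
    have hδ'Λ : δ' ≤ δΛ := by rw [hδ']; exact min_le_left _ _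
    have hδ'2 : δ' ≤ δ₂ := by rw [hδ']; exact min_le_right _ _
    -- the triangular lemma
    obtain ⟨D', hD'1, Q', hQ'1, MD, hDD'⟩ := hD t (s + 1) L' (by omega) hst δ' hδ'0
    have hDD : ∀ M : ℕ, MD ≤ M → ∀ R : ℝ[X], R.natDegree ≤ t →
        ∀ l : Fin t → ℤ, (∀ i, |l i| ≤ (L' : ℤ)) → ¬ Low (s + 1) l →
        δ' * M ≤ ‖∑ k ∈ Icc 1 M, ee (∑ i, (l i : ℝ) * tv t R (k : ℝ) i)‖ →
        Near t s D' Q' M R := by
      intro M hM R hR l hl1 hl2 hl3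
      have := hDD' M hM R hR l hl1 hl2 hl3
      rwa [Nat.add_sub_cancel] at this
    obtain ⟨Q'', hQ''⟩ : ∃ Q'' : ℝ, Q'' = Q' * (2 * e) ^ t := ⟨_, rfl⟩
    have hpow1 : (1 : ℝ) ≤ (2 * e) ^ t := one_le_pow₀ (by linarith)
    have hQ''1 : 1 ≤ Q'' := by
      rw [hQ'']
      nlinarith
    have hQ'Q'' : Q' ≤ Q'' := by
      rw [hQ'']
      nlinarith
    -- the induction hypothesis
    obtain ⟨HI, hHI⟩ := ih (by omega) D' Q'' (ε / 3) hD'1 hQ''1 (by positivity)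
    obtain ⟨HF, hFF⟩ := h2 t (s + 1) D l (by omega) hst hD1 hl1 Q c hQ1 hc hc1
    obtain ⟨HF₁, hFF₁⟩ := h2 t (s + 1) D l₁ (by omega) hst hD1 hl₁ Q c hQ1 hc hc1
    obtain ⟨Y, hY⟩ : ∃ Y : ℝ, Y = (t + 1) * 2 ^ (2 * t) * Q := ⟨_, rfl⟩
    have hY0 : 0 ≤ Y := by rw [hY]; positivity
    refine ⟨HI + HF + HF₁ + MR + e * (ME + MD + 1) + l + l₁ + 2 + ⌈K / ρ'⌉₊ + ⌈Y / ρ'⌉₊,
      fun H N hH hHN => ?_⟩
    obtain ⟨M, hM⟩ : ∃ M : ℕ, M = H / e := ⟨_, rfl⟩
    have hMe : ME + MD + 1 ≤ M := by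
      rw [hM, Nat.le_div_iff_mul_le (by omega)]
      calc (ME + MD + 1) * e = e * (ME + MD + 1) := by ring
        _ ≤ H := by omega
    have hMH : M ≤ H := by rw [hM]; exact Nat.div_le_self _ _
    have hHM : H ≤ 2 * e * M := by
      have h4 : H < e * (H / e) + e := by
        have := Nat.lt_mul_div_succ H (show 0 < e by omega)
        rw [mul_add, mul_one] at this
        exact this
      rw [← hM] at h4
      have h5 : e ≤ e * M := Nat.le_mul_of_pos_right _ (by omega)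
      calc H ≤ e * M + e := h4.le
        _ ≤ e * M + e * M := by omega
        _ = 2 * e * M := by ring
    have hH1 : 1 ≤ H := by omega
    have hH0 : (0 : ℝ) < H := by exact_mod_cast hH1
    have hM0 : (0 : ℝ) < M := by
      have : 0 < M := by omega
      exact_mod_cast this
    have hMHr : (M : ℝ) ≤ H := by exact_mod_cast hMH
    have hKH : K / H ≤ ρ' := by
      rw [div_le_iff₀ hH0]
      have h4 : K / ρ' ≤ H := (Nat.le_ceil _).trans (by exact_mod_cast (by omega : ⌈K / ρ'⌉₊ ≤ H))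
      rw [div_le_iff₀ hρ'] at h4
      linarith
    have hYH : Y / H ≤ ρ' := by
      rw [div_le_iff₀ hH0]
      have h4 : Y / ρ' ≤ H := (Nat.le_ceil _).trans (by exact_mod_cast (by omega : ⌈Y / ρ'⌉₊ ≤ H))
      rw [div_le_iff₀ hρ'] at h4
      linarith
    -- the cases
    have hcases : ∀ m, ClK t (s + 1) D B F Q c c₄ e K H m →
        ClK t s D' B F Q'' c c₄ e K H m ∨
        (H ≤ m ∧ c / 4 * H * l ≤ D * ∑ y ∈ Icc 1 H,
          TopS (s + 1) {x | x ∈ Nr T' ρ₄ ∧ x ∈ Mn Q₂ δ} F (fun _ => 1) l (m + y)) ∨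
        (PS s B ∧ H ≤ m ∧ c / 4 * H * l₁ ≤ (D * q₀ : ℕ) * ∑ y ∈ Icc 1 H,
          TopS s A₁ F (fun _ => 1) l₁ (m + y)) := by
      rintro m ⟨hHm, R, hR, hNear, ⟨u, hu, hcor⟩, hcard⟩
      by_cases hex : ∃ l ∈ Λ, ¬ Low (s + 1) l ∧
          δΛ * M ≤ ‖∑ k ∈ Icc 1 M, ee (∑ i, (l i : ℝ) * tv t R (k : ℝ) i)‖
      · obtain ⟨l', hl'Λ, hl'low, hl'⟩ := hex
        have hnear := hDD M (by omega) R hR l' (fun i => (hL l' hl'Λ i).trans (by exact_mod_cast hLL'))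
          hl'low (le_trans (by gcongr) hl')
        left
        refine ⟨hHm, R, hR, ?_, ⟨u, hu, hcor⟩, hcard⟩
        rw [hQ'']
        exact near_scale (by omega) he hHM hH1 (by linarith) hnear
      by_cases hex2 : ∃ j : ℤ, j ≠ 0 ∧ |j| ≤ (J : ℤ) ∧
          δ₂ * H ≤ ‖∑ y ∈ Icc 1 H, ee ((j : ℝ) * (taylor ((y : ℕ) : ℝ) R).coeff s)‖
      · obtain ⟨j, hj0, hjJ, hj⟩ := hex2
        have hi : s - 1 < t := by omega
        have hsum : ∀ y : ℕ, ∑ i : Fin t, (((Pi.single (⟨s - 1, hi⟩ : Fin t) j : Fin t → ℤ) i : ℤ) : ℝ) *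
            tv t R (y : ℝ) i = (j : ℝ) * (taylor (y : ℝ) R).coeff s := by
          intro y
          rw [Finset.sum_eq_single (⟨s - 1, hi⟩ : Fin t)]
          · rw [Pi.single_eq_same]
            unfold tv
            have : s - 1 + 1 = s := by omega
            simp only [this]
          · intro i _ hne
            rw [Pi.single_eq_of_ne hne]
            simp
          · intro h
            exact absurd (mem_univ _) h
        have hnear := hDD H (by omega) R hR (Pi.single (⟨s - 1, hi⟩ : Fin t) j) (fun i => by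
            by_cases hi' : i = ⟨s - 1, hi⟩
            · rw [hi', Pi.single_eq_same]
              exact hjJ.trans (by exact_mod_cast hJL')
            · rw [Pi.single_eq_of_ne hi', abs_zero]
              positivity) (fun hlow => by
            have := hlow ⟨s - 1, hi⟩ (by simp only; omega)
            rw [Pi.single_eq_same] at this
            exact hj0 this) (by
            refine le_trans (by gcongr) (hj.trans (le_of_eq ?_))
            congr 1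
            exact sum_congr rfl fun y _ => by rw [hsum])
        left
        refine ⟨hHm, R, hR, fun i h3 h4 => (hnear i h3 h4).trans ?_, ⟨u, hu, hcor⟩, hcard⟩
        gcongr
      push Not at hex hex2
      right
      -- the number of points near `T`
      have hup : ∀ k ∈ Icc 1 M, ∀ i : Fin t, s + 1 ≤ i.val →
          ∃ z : ℤ, |tv t R ((k : ℕ) : ℝ) i - (z : ℝ) / D| ≤ ρ' := by
        intro k hk i hi
        rw [mem_Icc] at hk
        have hi2 := i.isLt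
        obtain ⟨z, hz⟩ := upper_near (k := k) hD1 hQ0 hH1 hNear hR (j := i.val + 1) (by omega)
          (by omega) (hk.2.trans hMH)
        refine ⟨z, hz.trans ?_⟩
        rw [← hY]
        exact hYH
      have heq := equi_step B Λ w ρ' ρ κ δΛ T hκ0.le hm0 hm1 hm2 hm3 M
        (fun k => tv t R ((k : ℕ) : ℝ)) hup (fun l' hl' hlow => (hex l' hl' hlow).le) hδΛ0.le hWδ
      have hcard2 : c₄ * H ≤ #{k ∈ Icc 1 M | tv t R ((k : ℕ) : ℝ) ∈ Nb B ρ'} := by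
        refine hcard.trans ?_
        have h4 : Nat.card {k : ℕ // k ∈ Icc 1 (H / e) ∧ tv t R (k : ℝ) ∈ Nb B (K / H)} =
            #{k ∈ Icc 1 M | tv t R ((k : ℕ) : ℝ) ∈ Nb B (K / H)} := by
          rw [← hM]
          have h40 : (fun k : ℕ => k ∈ Icc 1 M ∧ tv t R (k : ℝ) ∈ Nb B (K / H)) =
              fun k : ℕ => k ∈ {k ∈ Icc 1 M | tv t R ((k : ℕ) : ℝ) ∈ Nb B (K / H)} := by
            funext k
            rw [mem_filter]
          rw [show {k : ℕ // k ∈ Icc 1 M ∧ tv t R (k : ℝ) ∈ Nb B (K / H)} =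
            {k : ℕ // k ∈ {k ∈ Icc 1 M | tv t R ((k : ℕ) : ℝ) ∈ Nb B (K / H)}} from
              congrArg Subtype h40, Nat.card_eq_fintype_card, Fintype.card_coe]
        rw [h4]
        have h5 : {k ∈ Icc 1 M | tv t R ((k : ℕ) : ℝ) ∈ Nb B (K / H)} ⊆
            {k ∈ Icc 1 M | tv t R ((k : ℕ) : ℝ) ∈ Nb B ρ'} := by
          intro k hk
          rw [mem_filter] at hk ⊢
          refine ⟨hk.1, ?_⟩
          obtain ⟨β, hβ, hk2⟩ := hk.2
          exact ⟨β, hβ, fun i => (hk2 i).trans hKH⟩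
        exact_mod_cast card_le_card h5
      have hmany : c₄ / 4 * M ≤ #{k ∈ Icc 1 M | ∃ i : Fin t, i.val + 1 = s + 1 ∧
          ∃ x ∈ T, |tv t R ((k : ℕ) : ℝ) i - x| ≤ ρ} := by
        have h6 := hcard2.trans heq
        have h7 : 2 * κ * M ≤ 2 * (c₄ / 4) * H := by gcongr
        have h8 : c₄ / 4 * M ≤ c₄ / 4 * H := by gcongr
        linarith
      -- the coefficients are in the set of the top law
      have hall : ∀ y ≤ H, ∀ w : ℤ,
          (taylor ((y : ℕ) : ℝ) R).coeff (s + 1) + (w : ℝ) / D ∈ Nr T' ρ₄ := by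
        rcases hT'T with hT' | ⟨hT', hv⟩
        · intro y _ w
          rw [hT']
          exact ⟨_, trivial, by rw [sub_self, abs_zero]; exact hρ₄.le⟩
        · rw [hT']
          refine all_near hst hD1 he hTinv hQ0 hρ₃0.le hρρ (by omega) hMH hHM
            (fun g hg1 hg2 hg3 => hEE hv M (by omega) g hg1 hg2 (hg3.trans ?_)) (by positivity) hR
            hNear hmany
          have : {k ∈ Icc 1 M | ∃ x ∈ T, |g.eval ((k : ℕ) : ℝ) - x| ≤ ρ} ⊆
              {k ∈ Icc 1 M | ∃ x ∈ T, |g.eval ((k : ℕ) : ℝ) - x| ≤ ρE} := by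
            intro k hk
            rw [mem_filter] at hk ⊢
            obtain ⟨hk1, x, hx, hxk⟩ := hk
            exact ⟨hk1, x, hx, hxk.trans hρρE⟩
          exact_mod_cast card_le_card this
      have ha : ∀ n, ‖(fun y => muC (m + y) * u y) n‖ ≤ 1 := fun n => by
        beta_reduce
        rw [norm_mul]
        exact mul_le_one₀ (norm_muC _) (norm_nonneg _) (hCls.bdd u hu _)
      have hcor' : c * H ≤ ‖∑ y ∈ Icc 1 H, (fun y => muC (m + y) * u y) y *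
          ee (R.eval (y : ℝ))‖ := by
        refine hcor.trans (le_of_eq ?_)
        congr 1
        exact sum_congr rfl fun y _ => by ring
      rcases few_or_near hst hD1 hQ0 hρ₆0.le hH1 hη0 hR3 (fun g hg1 hg2 hg3 =>
        hER H (by omega) g hg1 hg2 (hg3.trans (by
          have : {k ∈ Icc 1 H | ∃ x ∈ TR D Q₂, |g.eval ((k : ℕ) : ℝ) - x| ≤ δ} ⊆
              {k ∈ Icc 1 H | ∃ x ∈ TR D Q₂, |g.eval ((k : ℕ) : ℝ) - x| ≤ ρR} := by
            intro k hk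
            rw [mem_filter] at hk ⊢
            obtain ⟨hk1, x, hx, hxk⟩ := hk
            exact ⟨hk1, x, hx, hxk.trans hδR⟩
          exact_mod_cast card_le_card this))) hδρ hR hNear with hfew | hnear
      · -- class I
        left
        obtain ⟨P, hP, hsum⟩ := hFF H (by omega) (fun y => muC (m + y) * u y) ha R hR hNear hcor'
        refine ⟨hHm, classI hCls hD1 (Nr T' ρ₄) R u hu P (fun y => (hP y).1)
          (fun y => (hP y).2 (s + 1) (by omega) le_rfl) hsum hall ?_⟩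
        calc (D : ℝ) * #{y ∈ Icc 1 H | ∃ x ∈ TR D Q₂,
              |(taylor ((y : ℕ) : ℝ) R).coeff (s + 1) - x| ≤ δ}
            ≤ D * (η * H) := mul_le_mul_of_nonneg_left hfew hD0.le
          _ = c / 4 * H := by rw [hη]; field_simp
      · by_cases hPS : PS s B
        · -- class II
          right
          refine ⟨hPS, hHm, ?_⟩
          obtain ⟨P, hP, hsum⟩ := hFF₁ H (by omega) (fun y => muC (m + y) * u y) ha R hR hNear
            hcor'
          obtain ⟨Ex, hExc, hEx⟩ := hlow2 hPS H R (fun j hj0 hjJ => (hex2 j hj0 hjJ).le)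
          rw [hq₀]
          refine classII h5 hCls hs1 hD1 hρ₅0.le R u hu P (fun y => (hP y).1)
            (fun y => (hP y).2) hsum hnear A₁ Ex
            (fun y hy hyE P' hP' => hEx y hy hyE (P y) P' (hP y).2 hP') ?_ hρ₅l
          rw [← hq₀]
          calc (D : ℝ) * (q₀ : ℕ) * #Ex ≤ D * (q₀ : ℕ) * (η₁ * H) :=
                mul_le_mul_of_nonneg_left hExc (by positivity)
            _ = c / 8 * H := by rw [hη₁]; field_simp
        · -- impossible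
          exfalso
          obtain ⟨k₀, hk₀⟩ : {k ∈ Icc 1 M | ∃ i : Fin t, i.val + 1 = s + 1 ∧
              ∃ x ∈ T, |tv t R ((k : ℕ) : ℝ) i - x| ≤ ρ}.Nonempty := by
            rw [← card_pos]
            have : (0 : ℝ) < #{k ∈ Icc 1 M | ∃ i : Fin t, i.val + 1 = s + 1 ∧
                ∃ x ∈ T, |tv t R ((k : ℕ) : ℝ) i - x| ≤ ρ} :=
              lt_of_lt_of_le (by positivity) hmany
            exact_mod_cast this
          rw [mem_filter, mem_Icc] at hk₀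
          obtain ⟨⟨hk1, hk2⟩, i, hi, x, hx, hxk⟩ := hk₀
          obtain ⟨x₀, hx₀, hnear⟩ := hnear
          obtain ⟨z, hz⟩ := hnear k₀ (mem_Icc.2 ⟨hk1, hk2.trans hMH⟩)
          have h6 := hdT hPS x hx (x₀ + (z : ℝ) / D) (hR3 x₀ hx₀ z)
          unfold tv at hxk
          rw [hi] at hxk
          have h7 : |x - (x₀ + (z : ℝ) / D)| ≤ ρ + ρ₅ := by
            rw [show x - (x₀ + (z : ℝ) / D) =
              -((taylor ((k₀ : ℕ) : ℝ) R).coeff (s + 1) - x) +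
                ((taylor ((k₀ : ℕ) : ℝ) R).coeff (s + 1) - x₀ - (z : ℝ) / D) by ring]
            refine (abs_add_le _ _).trans ?_
            rw [abs_neg]
            exact add_le_add hxk hz
          linarith
    -- the sums
    have hterm := term_density (D := D) (l := l) hH1 hHN (by omega) hl1
      (fun n => TopS (s + 1) {x | x ∈ Nr T' ρ₄ ∧ x ∈ Mn Q₂ δ} F (fun _ => 1) l n)
      (fun n => W6x.TopS_nonneg _ _ _ _ _ _) (c := c / 2) (by positivity) hε₂0.le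
      (hl₀ l (2 * N) hll (by omega))
    have hε₂' : 8 * D / (c / 2) * ε₂ = ε / 3 := by
      rw [hε₂]; field_simp; ring
    rw [hε₂'] at hterm
    have hlogN : 0 ≤ Real.log N := Real.log_natCast_nonneg _
    have hterm₁ : ∑ m ∈ Icc 1 N with (PS s B ∧ H ≤ m ∧ c / 4 * H * l₁ ≤ (D * q₀ : ℕ) *
        ∑ y ∈ Icc 1 H, TopS s A₁ F (fun _ => 1) l₁ (m + y)), (1 / (m : ℝ)) ≤
        ε / 3 * Real.log N := by
      by_cases hPS : PS s B
      · have h6 := term_density (D := D * q₀) (l := l₁) hH1 hHN (by omega) hl₁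
          (fun n => TopS s A₁ F (fun _ => 1) l₁ n)
          (fun n => W6x.TopS_nonneg _ _ _ _ _ _) (c := c / 2) (by positivity) hε₃0.le
          (hlow1 hPS (2 * N) (by omega))
        have h7 : 8 * ((D * q₀ : ℕ) : ℝ) / (c / 2) * ε₃ = ε / 3 := by
          rw [hε₃]; push_cast; field_simp; ring
        rw [h7] at h6
        refine le_trans (sum_le_sum_of_subset_of_nonneg ?_ fun _ _ _ => by positivity) h6
        intro m hm
        rw [mem_filter] at hm ⊢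
        refine ⟨hm.1, hm.2.2.1, ?_⟩
        have := hm.2.2.2
        rw [show c / 2 / 2 = c / 4 by ring]
        exact this
      · refine le_trans (le_of_eq ?_) (show (0 : ℝ) ≤ ε / 3 * Real.log N by positivity)
        refine Finset.sum_eq_zero fun m hm => ?_
        rw [mem_filter] at hm
        exact absurd hm.2.1 hPS
    have hcover : (Icc 1 N).filter (fun m => ClK t (s + 1) D B F Q c c₄ e K H m) ⊆
        ((Icc 1 N).filter fun m => ClK t s D' B F Q'' c c₄ e K H m) ∪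
        (((Icc 1 N).filter fun m => (H ≤ m ∧ c / 2 / 2 * H * l ≤ D * ∑ y ∈ Icc 1 H,
          TopS (s + 1) {x | x ∈ Nr T' ρ₄ ∧ x ∈ Mn Q₂ δ} F (fun _ => 1) l (m + y))) ∪
        ((Icc 1 N).filter fun m => (PS s B ∧ H ≤ m ∧ c / 4 * H * l₁ ≤ (D * q₀ : ℕ) *
          ∑ y ∈ Icc 1 H, TopS s A₁ F (fun _ => 1) l₁ (m + y)))) := by
      intro m hm
      rw [mem_filter] at hm
      rw [mem_union, mem_union, mem_filter, mem_filter, mem_filter]
      rcases hcases m hm.2 with h | h | h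
      · exact Or.inl ⟨hm.1, h⟩
      · refine Or.inr (Or.inl ⟨hm.1, h.1, ?_⟩)
        rw [show c / 2 / 2 = c / 4 by ring]
        exact h.2
      · exact Or.inr (Or.inr ⟨hm.1, h⟩)
    have hun : ∀ (S S' : Finset ℕ), ∑ m ∈ S ∪ S', (1 / (m : ℝ)) ≤
        ∑ m ∈ S, (1 / (m : ℝ)) + ∑ m ∈ S', (1 / (m : ℝ)) := by
      intro S S'
      rw [← sum_union_inter]
      have : (0 : ℝ) ≤ ∑ m ∈ S ∩ S', (1 / (m : ℝ)) := sum_nonneg fun m _ => by positivity
      linarith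
    have h9 := hHI H N (by omega) hHN
    refine (sum_le_sum_of_subset_of_nonneg hcover fun m _ _ => by positivity).trans ?_
    refine (hun _ _).trans ?_
    refine (add_le_add le_rfl (hun _ _)).trans ?_
    have h10 : ε * Real.log N = ε / 3 * Real.log N + (ε / 3 * Real.log N + ε / 3 * Real.log N) := by
      ring
    rw [h10]
    refine add_le_add (le_trans (le_of_eq ?_) h9) (add_le_add hterm hterm₁)
    congr 1

end Pool.Agent.TUK
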