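import Mathlib
import Pool.Agent.Lib.TUK.E6c
import Pool.Agent.Lib.TUK.NR

/-!
# Row E6b: the lowest level (MP_663568_nt)
-/

set_option autoImplicit false
open Finset Polynomial MeasureTheory

namespace Pool.Agent.TUK

open Pool.Agent.Lib.MP_663568_nt Pool.Agent.Lib.MP_663568_nt.Katai
  Pool.Agent.Lib.MP_663568_nt.Nul Pool.Agent.TU Pool.Agent.TU.HxK

namespace E6bx

/-- Without rational points. -/
lemma no_rat' {k t : ℕ} {B : Set (Fin t → ℝ)} (hk : 1 ≤ k) (hfree : Free k B)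
    (hPS : ¬ PS k B) : ∀ α ∈ B, ∃ i : Fin t, k ≤ i.val ∧ Irrational (α i) := by
  classical
  intro α hα
  by_contra hcon
  push Not at hcon
  have h1 : ∀ i : Fin t, ∃ r : ℚ, k ≤ i.val → (r : ℝ) = α i := by
    intro i
    by_cases hi : k ≤ i.val
    · have h2 := hcon i hi
      rw [Irrational, not_not] at h2
      obtain ⟨r, hr⟩ := h2
      exact ⟨r, fun _ => hr⟩
    · exact ⟨0, fun h => absurd h hi⟩
  choose r hr using h1
  have h3 : {y : Fin k → ℝ | glue k y (fun i => ((r i : ℚ) : ℝ)) ∈ B} = Set.univ := by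
    ext y
    simp only [Set.mem_ofPred_eq, Set.mem_univ, iff_true]
    refine hfree α hα _ fun i hi => ?_
    rw [glue, dif_neg (by omega)]
    exact hr i hi
  apply hPS
  refine ⟨r, ?_⟩
  rw [h3]
  exact (isOpen_univ.measure_pos volume Set.univ_nonempty).ne'

lemma nr' {k t : ℕ} (B : Set (Fin t → ℝ)) (hk : 1 ≤ k) (hB : IsClosed B) (hP : Per B)
    (hfree : Free k B) (hPS : ¬ PS k B) (D : ℕ) (hD : 1 ≤ D) :
    ∃ δ : ℝ, 0 < δ ∧ ∀ α ∈ Nb B δ, ¬ ∀ i : Fin t, k ≤ i.val → nd ((D : ℝ) * α i) ≤ δ := by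
  obtain ⟨δ, hδ, haway⟩ := away k B hB hP (no_rat' hk hfree hPS) D
  have hD0 : (0 : ℝ) ≤ D := Nat.cast_nonneg _
  refine ⟨δ / (2 * (D + 1)), by positivity, ?_⟩
  rintro α ⟨β, hβ, hαβ⟩ hcon
  obtain ⟨i, hi, hle⟩ := haway β hβ D hD le_rfl
  have h1 := nd_le_add_abs ((D : ℝ) * β i) ((D : ℝ) * α i)
  have h2 : |(D : ℝ) * β i - (D : ℝ) * α i| ≤ D * (δ / (2 * (D + 1))) := by
    rw [← mul_sub, abs_mul, Nat.abs_cast, abs_sub_comm]
    exact mul_le_mul_of_nonneg_left (hαβ i) hD0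
  have h3 := hcon i hi
  have h4 : δ / (2 * (D + 1)) + D * (δ / (2 * (D + 1))) = δ / 2 := by field_simp; ring
  linarith

/-- No cluster has all the coefficients of degree `> k` near rationals. -/
lemma base_empty' {k t : ℕ} (hk : 1 ≤ k) (B : Set (Fin t → ℝ))
    (hB : IsClosed B) (hP : Per B) (hFr : Free k B) (hPS : ¬ PS k B) (F : Set (ℕ → ℂ))
    (c c₄ : ℝ) (e : ℕ) (K : ℝ) (hc₄ : 0 < c₄) (hK : 0 < K) (D : ℕ) (Q : ℝ) (hD : 1 ≤ D)
    (hQ : 1 ≤ Q) : ∃ H₀ : ℕ, ∀ H : ℕ, H₀ ≤ H → ∀ m, ¬ ClK t k D B F Q c c₄ e K H m := by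
  obtain ⟨δ, hδ, hNR'⟩ := nr' B hk hB hP hFr hPS D hD
  have hD0 : (0 : ℝ) < D := by exact_mod_cast hD
  obtain ⟨Y, hY⟩ : ∃ Y : ℝ, Y = D * ((t + 1) * 2 ^ (2 * t) * Q) := ⟨_, rfl⟩
  have hY0 : 0 ≤ Y := by rw [hY]; positivity
  refine ⟨⌈K / δ⌉₊ + ⌈Y / δ⌉₊ + 1, fun H hH m hcl => ?_⟩
  have hH1 : 1 ≤ H := by omega
  have hH0 : (0 : ℝ) < H := by exact_mod_cast hH1
  have hKH : K / H ≤ δ := by
    rw [div_le_iff₀ hH0]
    have h4 : K / δ ≤ H := (Nat.le_ceil _).trans (by exact_mod_cast (by omega : ⌈K / δ⌉₊ ≤ H))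
    rw [div_le_iff₀ hδ] at h4
    linarith
  have hYH : Y / H ≤ δ := by
    rw [div_le_iff₀ hH0]
    have h4 : Y / δ ≤ H := (Nat.le_ceil _).trans (by exact_mod_cast (by omega : ⌈Y / δ⌉₊ ≤ H))
    rw [div_le_iff₀ hδ] at h4
    linarith
  obtain ⟨-, R, hR, hNear, -, hcard⟩ := hcl
  have hpos : (0 : ℝ) < Nat.card {k : ℕ // k ∈ Icc 1 (H / e) ∧ tv t R (k : ℝ) ∈ Nb B (K / H)} :=
    lt_of_lt_of_le (by positivity) hcard
  have hpos' : 0 < Nat.card {k : ℕ // k ∈ Icc 1 (H / e) ∧ tv t R (k : ℝ) ∈ Nb B (K / H)} := by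
    exact_mod_cast hpos
  rw [Nat.card_pos_iff] at hpos'
  obtain ⟨⟨k₀, hk₀, hk₀B⟩⟩ := hpos'.1
  rw [mem_Icc] at hk₀
  have hk₀H : k₀ ≤ H := hk₀.2.trans (Nat.div_le_self _ _)
  refine hNR' (tv t R (k₀ : ℝ)) (nb_mono' hKH hk₀B) fun i hi => ?_
  have hi2 := i.isLt
  obtain ⟨z, hz⟩ := upper_near (k := k₀) hD (by linarith) hH1 hNear hR (j := i.val + 1) (by omega)
    (by omega) hk₀H
  refine (nd_le_of_near hD (x := tv t R (k₀ : ℝ) i) hz).trans ?_
  have : (D : ℝ) * ((t + 1) * 2 ^ (2 * t) * Q / H) = Y / H := by rw [hY]; ring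
  rw [this]
  exact hYH

end E6bx

open E6x E6bx in
/-- **Row E6b.** -/
theorem rowE6b (h1 : E1_stmt) (hE : E_stmt) (h2 : E2_stmt) : E6b_stmt := by
  classical
  intro k F hCls hB1 t B hkt hB hP hFr hFU c c₄ e K hc hc1 hc₄ he hK D Q ε hD1 hQ1 hε
  have hDr : (1 : ℝ) ≤ D := by exact_mod_cast hD1
  have hD0 : (0 : ℝ) < D := by linarith
  have her : (1 : ℝ) ≤ e := by exact_mod_cast he
  have hQ0 : (0 : ℝ) ≤ Q := by linarith
  by_cases hPS : PS (max k 1) B
  · -- all the phases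
    obtain ⟨ε₂, hε₂⟩ : ∃ ε₂ : ℝ, ε₂ = c * ε / (8 * D) := ⟨_, rfl⟩
    have hε₂0 : 0 < ε₂ := by rw [hε₂]; positivity
    obtain ⟨l₀, hl₀⟩ := hFU hPS ε₂ hε₂0
    obtain ⟨l, hl⟩ : ∃ l : ℕ, l = max l₀ 1 := ⟨_, rfl⟩
    have hl1 : 1 ≤ l := by omega
    obtain ⟨HF, hFF⟩ := h2 t (max k 1) D l (le_max_right _ _) (by omega) hD1 hl1 Q c hQ1 hc hc1
    refine ⟨HF + l + 2, fun H N hH hHN W hW => ?_⟩
    have hterm := term_density (D := D) (l := l) (show 1 ≤ H by omega) hHN (by omega) hl1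
      (fun n => TopS (max k 1) Set.univ F (fun _ => 1) l n)
      (fun n => W6x.TopS_nonneg _ _ _ _ _ _) (c := c) hc hε₂0.le
      ((AT_univ_le hCls _ _ _).trans (hl₀ l (2 * N) (by omega) (by omega)))
    have hε₂' : 8 * D / c * ε₂ = ε := by
      rw [hε₂]; field_simp
    rw [hε₂'] at hterm
    refine le_trans (sum_le_sum_of_subset_of_nonneg ?_ fun _ _ _ => by positivity) hterm
    intro m hm
    obtain ⟨hmN, hHm, R, hR, hNear, ⟨u, hu, hcor⟩, -⟩ := hW m hm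
    rw [mem_filter]
    refine ⟨hmN, hHm, ?_⟩
    obtain ⟨P, hP, hsum⟩ := hFF H (by omega) (fun y => muC (m + y) * u y) (fun n => by
        rw [norm_mul]
        exact mul_le_one₀ (norm_muC _) (norm_nonneg _) (hCls.bdd u hu _)) R hR hNear (by
        refine hcor.trans (le_of_eq ?_)
        congr 1
        exact sum_congr rfl fun y _ => by ring)
    refine hsum.trans ?_
    gcongr with y hy
    refine le_trans (le_of_eq ?_) (le_TopS hCls (max k 1) Set.univ l (m + y) (P y) (hP y).1 trivial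
      (fun h => u (y + h)) (hCls.shift u hu y))
    congr 1
    refine sum_congr rfl fun h _ => ?_
    rw [← add_assoc]
    ring
  · rcases Nat.eq_zero_or_pos k with hk0 | hk
    · -- the first level, a null set
      subst hk0
      have hb : max 0 1 = 1 := rfl
      rw [hb] at hPS ⊢
      obtain ⟨κ, hκ⟩ : ∃ κ : ℝ, κ = min 1 (c₄ / 4) := ⟨_, rfl⟩
      have hκ0 : 0 < κ := by rw [hκ]; positivity
      have hκ1 : κ ≤ 1 := by rw [hκ]; exact min_le_left _ _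
      have hκc : κ ≤ c₄ / 4 := by rw [hκ]; exact min_le_right _ _
      obtain ⟨T, hTc, hTinv, hTv, -, hmaj⟩ := h1 t B hB hP 1 le_rfl (by omega) D hD1 κ hκ0 hκ1
      have hv := hTv hPS
      have hTint : ∀ x ∈ T, ∀ z : ℤ, x + (z : ℝ) ∈ T := by
        intro x hx z
        have := hTinv x hx (z * D)
        push_cast at this
        rwa [mul_div_assoc, div_self hD0.ne', mul_one] at this
      obtain ⟨ε₂, hε₂⟩ : ∃ ε₂ : ℝ, ε₂ = c * ε / (8 * D) := ⟨_, rfl⟩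
      have hε₂0 : 0 < ε₂ := by rw [hε₂]; positivity
      obtain ⟨ρ₄, hρ₄, l₀, hSl⟩ := hB1 rfl T hTc hv hTint ε₂ hε₂0
      obtain ⟨l, hl⟩ : ∃ l : ℕ, l = max l₀ 1 := ⟨_, rfl⟩
      have hl1 : 1 ≤ l := by omega
      have hll : l₀ ≤ l := by omega
      obtain ⟨U, hU⟩ : ∃ U : ℝ, U = (t + 1) * (2 * e) ^ t := ⟨_, rfl⟩
      have hU0 : 0 < U := by rw [hU]; positivity
      obtain ⟨ρ₃, hρ₃⟩ : ∃ ρ₃ : ℝ, ρ₃ = ρ₄ / (2 * U) := ⟨_, rfl⟩
      have hρ₃0 : 0 < ρ₃ := by rw [hρ₃]; positivity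
      obtain ⟨ρE, hρE, ME, hEE⟩ := hE T hTc hv hTint t (2 ^ (2 * t) * Q) (c₄ / 4) ρ₃
        (by positivity) (by positivity) hρ₃0
      obtain ⟨ρ, hρ⟩ : ∃ ρ : ℝ, ρ = min ρE (ρ₄ / 2) := ⟨_, rfl⟩
      have hρ0 : 0 < ρ := by rw [hρ]; positivity
      have hρρE : ρ ≤ ρE := by rw [hρ]; exact min_le_left _ _
      have hρρ₄ : ρ ≤ ρ₄ / 2 := by rw [hρ]; exact min_le_right _ _
      have hρρ : ρ + (t + 1) * (2 * e) ^ t * ρ₃ ≤ ρ₄ := by
        have : (t + 1) * (2 * (e : ℝ)) ^ t * ρ₃ = ρ₄ / 2 := by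
          rw [← hU, hρ₃]; field_simp
        rw [this]; linarith
      obtain ⟨ρ', hρ', Λ, w, hm0, hm1, hm2, hm3⟩ := hmaj ρ hρ0
      obtain ⟨HF, hFF⟩ := h2 t 1 D l le_rfl (by omega) hD1 hl1 Q c hQ1 hc hc1
      obtain ⟨Y, hY⟩ : ∃ Y : ℝ, Y = (t + 1) * 2 ^ (2 * t) * Q := ⟨_, rfl⟩
      have hY0 : 0 ≤ Y := by rw [hY]; positivity
      refine ⟨HF + e * (ME + 1) + l + 2 + ⌈K / ρ'⌉₊ + ⌈Y / ρ'⌉₊, fun H N hH hHN W hW => ?_⟩
      obtain ⟨M, hM⟩ : ∃ M : ℕ, M = H / e := ⟨_, rfl⟩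
      have hMe : ME + 1 ≤ M := by
        rw [hM, Nat.le_div_iff_mul_le (by omega)]
        calc (ME + 1) * e = e * (ME + 1) := by ring
          _ ≤ H := by omega
      have hMH : M ≤ H := by rw [hM]; exact Nat.div_le_self _ _
      have hHM : H ≤ 2 * e * M := by
        have h4 : H < e * (H / e) + e := by
          have := Nat.lt_mul_div_succ H (show 0 < e by omega)
          rw [mul_add, mul_one] at this
          exact this
        rw [← hM] at h4
        have h5 : e ≤ e * M := Nat.le_mul_of_pos_right _ (by omega)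
        calc H ≤ e * M + e := h4.le
          _ ≤ e * M + e * M := by omega
          _ = 2 * e * M := by ring
      have hH1 : 1 ≤ H := by omega
      have hH0 : (0 : ℝ) < H := by exact_mod_cast hH1
      have hM0 : (0 : ℝ) < M := by
        have : 0 < M := by omega
        exact_mod_cast this
      have hMHr : (M : ℝ) ≤ H := by exact_mod_cast hMH
      have hKH : K / H ≤ ρ' := by
        rw [div_le_iff₀ hH0]
        have h4 : K / ρ' ≤ H :=
          (Nat.le_ceil _).trans (by exact_mod_cast (by omega : ⌈K / ρ'⌉₊ ≤ H))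
        rw [div_le_iff₀ hρ'] at h4
        linarith
      have hYH : Y / H ≤ ρ' := by
        rw [div_le_iff₀ hH0]
        have h4 : Y / ρ' ≤ H :=
          (Nat.le_ceil _).trans (by exact_mod_cast (by omega : ⌈Y / ρ'⌉₊ ≤ H))
        rw [div_le_iff₀ hρ'] at h4
        linarith
      have hterm := term_density (D := D) (l := l) hH1 hHN (by omega) hl1
        (fun n => FFK F 1 T ρ₄ l n) (fun n => FFK_nonneg _ _ _ _ _ _) hc hε₂0.le
        (hSl l (2 * N) hll (by omega))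
      have hε₂' : 8 * D / c * ε₂ = ε := by
        rw [hε₂]; field_simp
      rw [hε₂'] at hterm
      refine le_trans (sum_le_sum_of_subset_of_nonneg ?_ fun _ _ _ => by positivity) hterm
      intro m hm
      obtain ⟨hmN, hHm, R, hR, hNear, ⟨u, hu, hcor⟩, hcard⟩ := hW m hm
      rw [mem_filter]
      refine ⟨hmN, hHm, ?_⟩
      have hup : ∀ k ∈ Icc 1 M, ∀ i : Fin t, 1 ≤ i.val →
          ∃ z : ℤ, |tv t R ((k : ℕ) : ℝ) i - (z : ℝ) / D| ≤ ρ' := by
        intro k hk i hi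
        rw [mem_Icc] at hk
        have hi2 := i.isLt
        obtain ⟨z, hz⟩ := upper_near (k := k) hD1 hQ0 hH1 hNear hR (j := i.val + 1) (by omega)
          (by omega) (hk.2.trans hMH)
        refine ⟨z, hz.trans ?_⟩
        rw [← hY]
        exact hYH
      have hlow : ∀ l' : Fin t → ℤ, Low 1 l' := fun l' i hi => absurd hi (by omega)
      have heq := equi_step B Λ w ρ' ρ κ 0 T hκ0.le hm0 hm1 hm2 hm3 M
        (fun k => tv t R ((k : ℕ) : ℝ)) hup (fun l' hl' h => absurd (hlow l') h) le_rfl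
        (by rw [mul_zero]; exact hκ0.le)
      have hcard2 : c₄ * H ≤ #{k ∈ Icc 1 M | tv t R ((k : ℕ) : ℝ) ∈ Nb B ρ'} := by
        refine hcard.trans ?_
        have h4 : Nat.card {k : ℕ // k ∈ Icc 1 (H / e) ∧ tv t R (k : ℝ) ∈ Nb B (K / H)} =
            #{k ∈ Icc 1 M | tv t R ((k : ℕ) : ℝ) ∈ Nb B (K / H)} := by
          rw [← hM]
          have h40 : (fun k : ℕ => k ∈ Icc 1 M ∧ tv t R (k : ℝ) ∈ Nb B (K / H)) =
              fun k : ℕ => k ∈ {k ∈ Icc 1 M | tv t R ((k : ℕ) : ℝ) ∈ Nb B (K / H)} := by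
            funext k
            rw [mem_filter]
          rw [show {k : ℕ // k ∈ Icc 1 M ∧ tv t R (k : ℝ) ∈ Nb B (K / H)} =
            {k : ℕ // k ∈ {k ∈ Icc 1 M | tv t R ((k : ℕ) : ℝ) ∈ Nb B (K / H)}} from
              congrArg Subtype h40, Nat.card_eq_fintype_card, Fintype.card_coe]
        rw [h4]
        have h5 : {k ∈ Icc 1 M | tv t R ((k : ℕ) : ℝ) ∈ Nb B (K / H)} ⊆
            {k ∈ Icc 1 M | tv t R ((k : ℕ) : ℝ) ∈ Nb B ρ'} := by
          intro k hk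
          rw [mem_filter] at hk ⊢
          refine ⟨hk.1, ?_⟩
          obtain ⟨β, hβ, hk2⟩ := hk.2
          exact ⟨β, hβ, fun i => (hk2 i).trans hKH⟩
        exact_mod_cast card_le_card h5
      have hmany : c₄ / 4 * M ≤ #{k ∈ Icc 1 M | ∃ i : Fin t, i.val + 1 = 1 ∧
          ∃ x ∈ T, |tv t R ((k : ℕ) : ℝ) i - x| ≤ ρ} := by
        have h6 := hcard2.trans heq
        have h7 : 2 * κ * M ≤ 2 * (c₄ / 4) * H := by gcongr
        have h8 : c₄ / 4 * M ≤ c₄ / 4 * H := by gcongr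
        linarith
      have hall := all_near (by omega) hD1 he hTinv hQ0 hρ₃0.le hρρ (by omega) hMH hHM
            (fun g hg1 hg2 hg3 => hEE M (by omega) g hg1 hg2 (hg3.trans (by
              have : {k ∈ Icc 1 M | ∃ x ∈ T, |g.eval ((k : ℕ) : ℝ) - x| ≤ ρ} ⊆
                  {k ∈ Icc 1 M | ∃ x ∈ T, |g.eval ((k : ℕ) : ℝ) - x| ≤ ρE} := by
                intro k hk
                rw [mem_filter] at hk ⊢
                obtain ⟨hk1, x, hx, hxk⟩ := hk
                exact ⟨hk1, x, hx, hxk.trans hρρE⟩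
              exact_mod_cast card_le_card this))) (by positivity) hR hNear hmany
      obtain ⟨P, hP, hsum⟩ := hFF H (by omega) (fun y => muC (m + y) * u y) (fun n => by
          rw [norm_mul]
          exact mul_le_one₀ (norm_muC _) (norm_nonneg _) (hCls.bdd u hu _)) R hR hNear (by
          refine hcor.trans (le_of_eq ?_)
          congr 1
          exact sum_congr rfl fun y _ => by ring)
      refine hsum.trans ?_
      gcongr with y hy
      have hfam : Fam 1 T ρ₄ (P y) := by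
        obtain ⟨w', hw'⟩ := (hP y).2 1 le_rfl le_rfl
        refine ⟨(hP y).1, ?_⟩
        rw [hw']
        exact hall y (mem_Icc.1 hy).2 w'
      refine le_trans (le_of_eq ?_) (le_FFK hCls 1 T ρ₄ l (m + y) (P y) hfam
        (fun h => u (y + h)) (hCls.shift u hu y))
      congr 1
      refine sum_congr rfl fun h _ => ?_
      rw [← add_assoc]
      ring
    · -- no clusters
      have hb : max k 1 = k := by omega
      rw [hb] at hPS ⊢
      obtain ⟨H₀, hH₀⟩ := base_empty' hk B hB hP hFr hPS F c c₄ e K hc₄ hK D Q hD1 hQ1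
      refine ⟨H₀, fun H N hH hHN W hW => ?_⟩
      have hlogN : 0 ≤ Real.log N := Real.log_natCast_nonneg _
      refine le_trans (le_of_eq ?_) (show (0 : ℝ) ≤ ε * Real.log N by positivity)
      exact Finset.sum_eq_zero fun m hm => absurd (hW m hm).2 (hH₀ H hH m)

end Pool.Agent.TUK
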