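import Pool.Agent.Lib.TU.RowB3
import Pool.Agent.Lib.TUK.Defs4

/-!
# Row E7: the rational translates, level by level (helper1)
-/

set_option autoImplicit false
open Finset Polynomial MeasureTheory

namespace Pool.Agent.TUK

open Pool.Agent.Lib.MP_663568_nt Pool.Agent.Lib.MP_663568_nt.Katai
  Pool.Agent.Lib.MP_663568_nt.Nul Pool.Agent.TU

open TU.B3 in
theorem rowE7 : E7_stmt := by
  intro t D hD B hC hP
  have hD0 : (D : ℝ) ≠ 0 := by
    have : (0 : ℝ) < D := by exact_mod_cast hD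
    exact this.ne'
  refine ⟨?_, ?_, ?_⟩
  · rw [sh_eq hD hP]
    refine isClosed_iUnion_of_finite fun r => ?_
    exact hC.preimage (by fun_prop)
  · rintro α ⟨β, hβ, z, hz⟩ m
    refine ⟨_, hP β hβ m, z, fun i => ?_⟩
    simp only []
    rw [hz i]
    ring
  · rintro s hst ⟨r, hr⟩
    by_contra hN
    apply hr
    rw [sh_eq hD hP]
    have e : {y : Fin s → ℝ | glue s y (fun i => ((r i : ℚ) : ℝ)) ∈ ⋃ ρ : Fin t → Fin D, Tr D B ρ} =
        ⋃ ρ : Fin t → Fin D, {y : Fin s → ℝ | glue s y (fun i => ((r i : ℚ) : ℝ)) ∈ Tr D B ρ} := by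
      ext y
      simp
    rw [e]
    refine measure_iUnion_null fun ρ => ?_
    have h : volume {y : Fin s → ℝ |
        glue s y (fun i => ((r i - ((ρ i : ℕ) : ℚ) / D : ℚ) : ℝ)) ∈ B} = 0 := by
      by_contra h
      exact hN ⟨fun i => r i - ((ρ i : ℕ) : ℚ) / D, h⟩
    have h2 := measure_preimage_add_right (volume : Measure (Fin s → ℝ))
      (fun i : Fin s => -(((ρ ⟨i.val, lt_of_lt_of_le i.isLt hst⟩ : Fin D) : ℕ) : ℝ) / D)
      {y : Fin s → ℝ | glue s y (fun i => ((r i - ((ρ i : ℕ) : ℚ) / D : ℚ) : ℝ)) ∈ B}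
    rw [h] at h2
    refine le_antisymm ((le_of_eq ?_).trans h2.le) bot_le
    congr 1
    ext y
    simp only [Tr, Set.mem_ofPred_eq, Set.mem_preimage]
    have : (fun i => glue s y (fun i => ((r i : ℚ) : ℝ)) i - (((ρ i : Fin D) : ℕ) : ℝ) / D) =
        glue s (y + fun i : Fin s => -(((ρ ⟨i.val, lt_of_lt_of_le i.isLt hst⟩ : Fin D) : ℕ) : ℝ) / D)
          (fun i => ((r i - ((ρ i : ℕ) : ℚ) / D : ℚ) : ℝ)) := by
      funext i
      unfold glue
      split_ifs with hi
      · simp only [Pi.add_apply]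
        ring
      · push_cast
        ring
    rw [this]

end Pool.Agent.TUK
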