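import Mathlib
import Pool.Agent.Lib.TUK.Defs4
import Pool.Agent.Lib.TUK.ZK

/-!
# Row E9: the assembly (MP_663568_nt)
-/

set_option autoImplicit false
open Finset Polynomial MeasureTheory

namespace Pool.Agent.TUK

open Pool.Agent.Lib.MP_663568_nt Pool.Agent.Lib.MP_663568_nt.Katai
  Pool.Agent.Lib.MP_663568_nt.Nul Pool.Agent.TU

open ZZ in
/-- **Row E9.** -/
theorem rowE9 (h6 : E6_stmt) (h7 : E7_stmt) (hB2 : B2K_stmt) : E9_stmt := by
  classical
  intro k₀ F hF hDu hSM hB1 t B ht hB hP hfree hLv hbeg ε hε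
  set ε₁ : ℝ := min ε 1 with hε1
  have hε1p : 0 < ε₁ := lt_min hε one_pos
  have hε1le : ε₁ ≤ ε := min_le_left _ _
  have hε11 : ε₁ ≤ 1 := min_le_right _ _
  set c : ℝ := ε₁ / 16 with hcd
  have hc : 0 < c := by positivity
  have hc1 : c ≤ 1 := by rw [hcd]; linarith
  set c₅ : ℝ := ε₁ / 8 with hc5d
  have hc5 : 0 < c₅ := by positivity
  obtain ⟨D, K, c₄, e, hD, hK, hc4, he, H₁, hcl⟩ :=
    cluster hB2 hF hDu ht hc hc1 hc5
  obtain ⟨hShc, hShP, hShS⟩ := h7 t D hD B hB hP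
  have hLv' : Lv k₀ (Sh D B) F := ⟨fun h => hLv.1 (hShS _ (by omega) h),
    fun s hs hst h => hLv.2 s hs hst (hShS s hst h)⟩
  obtain ⟨H₂, hG2⟩ := h6 k₀ F hF hSM hB1 t (Sh D B) ht hShc hShP (free_sh D hfree) hLv' c c₄ e K hc
    hc1 hc4 he hK t (by omega) le_rfl 1 1 (ε₁ / 8) le_rfl le_rfl (by positivity)
  obtain ⟨H₃, hst⟩ := hbeg (2 * c) (by positivity)
  refine ⟨max (max H₁ H₂) (max H₃ 3), fun H N hHH hHN => ?_⟩
  have hH1 : H₁ ≤ H := le_trans (le_trans (le_max_left _ _) (le_max_left _ _)) hHH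
  have hH2 : H₂ ≤ H := le_trans (le_trans (le_max_right _ _) (le_max_left _ _)) hHH
  have hH3 : H₃ ≤ H := le_trans (le_trans (le_max_left _ _) (le_max_right _ _)) hHH
  have hH4 : 3 ≤ H := le_trans (le_trans (le_max_right _ _) (le_max_right _ _)) hHH
  obtain ⟨hM1, hcl'⟩ := hcl H hH1
  have hN3 : (3 : ℝ) ≤ N := by exact_mod_cast le_trans hH4 hHN
  have hlog : 1 ≤ Real.log N := by
    rw [Real.le_log_iff_exp_le (by linarith)]
    linarith [Real.exp_one_lt_three]
  have hHp : (0 : ℝ) < H := by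
    have : 0 < H := by omega
    exact_mod_cast this
  set W : Finset ℕ := (Icc 1 N).filter (fun n => 2 * c * H < S B F H n) with hWd
  have hW : ∀ n ∈ W, 2 * H < n ∧ n ≤ N := by
    intro n hn
    rw [hWd, Finset.mem_filter, Finset.mem_Icc] at hn
    refine ⟨?_, hn.1.2⟩
    by_contra hle
    push Not at hle
    obtain ⟨α, hα, u, hu, hlt⟩ := exists_of_lt (by positivity) hn.2
    have := hst H hH3 n hle α hα u hu
    linarith
  -- the density of `W`
  have hden : ∑ n ∈ W, (1 / (n : ℝ)) ≤ c₅ * (1 + Real.log N) + ε₁ / 8 * Real.log N := by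
    have hMp : (0 : ℝ) < ((H / e : ℕ) : ℝ) := by exact_mod_cast hM1
    have h1 := TU.ZZ.dcount W N H (H / e) (Nat.div_le_self H e) hW
    have h2 : ∑ m ∈ (Icc 1 N).filter (fun m => H ≤ m),
        (1 / (m : ℝ)) * #{k ∈ Icc 1 (H / e) | m + k ∈ W} ≤
        ∑ m ∈ Icc 1 N, (1 / (m : ℝ)) * (c₅ * ((H / e : ℕ) : ℝ)) +
        ∑ m ∈ Icc 1 N with ClK t t 1 (Sh D B) F 1 c c₄ e K H m, (1 / (m : ℝ)) * ((H / e : ℕ) : ℝ) := by
      rw [Finset.sum_filter, Finset.sum_filter, ← Finset.sum_add_distrib]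
      refine Finset.sum_le_sum fun m hm => ?_
      have hm0 : (0 : ℝ) ≤ 1 / (m : ℝ) := by positivity
      by_cases hHm : H ≤ m
      · rw [if_pos hHm]
        by_cases hbig : c₅ * ((H / e : ℕ) : ℝ) < #{k ∈ Icc 1 (H / e) | m + k ∈ W}
        · have hC : ClK t t 1 (Sh D B) F 1 c c₄ e K H m := by
            refine hcl' B hfree m hHm _ (Finset.filter_subset _ _) (fun k hk => ?_) hbig
            have := (Finset.mem_filter.1 hk).2
            rw [hWd, Finset.mem_filter] at this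
            exact this.2
          rw [if_pos hC]
          have hle : ((#{k ∈ Icc 1 (H / e) | m + k ∈ W} : ℕ) : ℝ) ≤ ((H / e : ℕ) : ℝ) := by
            have := Finset.card_filter_le (Icc 1 (H / e)) (fun k => m + k ∈ W)
            rw [Nat.card_Icc, Nat.add_sub_cancel] at this
            exact_mod_cast this
          have h3 : 1 / (m : ℝ) * ((#{k ∈ Icc 1 (H / e) | m + k ∈ W} : ℕ) : ℝ) ≤
              1 / (m : ℝ) * ((H / e : ℕ) : ℝ) := by gcongr
          have h4 : 0 ≤ 1 / (m : ℝ) * (c₅ * ((H / e : ℕ) : ℝ)) := by positivity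
          linarith
        · push Not at hbig
          have h3 : 1 / (m : ℝ) * ((#{k ∈ Icc 1 (H / e) | m + k ∈ W} : ℕ) : ℝ) ≤
              1 / (m : ℝ) * (c₅ * ((H / e : ℕ) : ℝ)) := by gcongr
          have h4 : 0 ≤ (if ClK t t 1 (Sh D B) F 1 c c₄ e K H m then
              1 / (m : ℝ) * ((H / e : ℕ) : ℝ) else 0) := by
            split_ifs
            · positivity
            · exact le_rfl
          linarith
      · rw [if_neg hHm]
        have h4 : 0 ≤ (if ClK t t 1 (Sh D B) F 1 c c₄ e K H m then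
              1 / (m : ℝ) * ((H / e : ℕ) : ℝ) else 0) := by
            split_ifs
            · positivity
            · exact le_rfl
        have h5 : 0 ≤ 1 / (m : ℝ) * (c₅ * ((H / e : ℕ) : ℝ)) := by positivity
        linarith
    rw [← Finset.sum_mul, ← Finset.sum_mul] at h2
    have h3 := hG2 H N hH2 hHN
    have h4 := sum_inv_le_log N
    have h5 : ((H / e : ℕ) : ℝ) * ∑ n ∈ W, (1 / (n : ℝ)) ≤
        ((H / e : ℕ) : ℝ) * (c₅ * (1 + Real.log N) + ε₁ / 8 * Real.log N) := by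
      refine (h1.trans h2).trans ?_
      have h6 : (∑ m ∈ Icc 1 N, (1 / (m : ℝ))) * (c₅ * ((H / e : ℕ) : ℝ)) ≤
          (1 + Real.log N) * (c₅ * ((H / e : ℕ) : ℝ)) := by gcongr
      have h7 : (∑ m ∈ Icc 1 N with ClK t t 1 (Sh D B) F 1 c c₄ e K H m, (1 / (m : ℝ))) *
          ((H / e : ℕ) : ℝ) ≤ (ε₁ / 8 * Real.log N) * ((H / e : ℕ) : ℝ) := by gcongr
      nlinarith
    exact le_of_mul_le_mul_left h5 hMp
  -- the whole sum
  have hsplit : ∑ n ∈ Icc 1 N, (1 / (n : ℝ)) * S B F H n ≤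
      ∑ n ∈ Icc 1 N, (1 / (n : ℝ)) * (2 * c * H) + ∑ n ∈ W, (1 / (n : ℝ)) * H := by
    rw [hWd, Finset.sum_filter, ← Finset.sum_add_distrib]
    refine Finset.sum_le_sum fun n _ => ?_
    have hn0 : (0 : ℝ) ≤ 1 / (n : ℝ) := by positivity
    by_cases hb : 2 * c * H < S B F H n
    · rw [if_pos hb]
      have h1 : 1 / (n : ℝ) * S B F H n ≤ 1 / (n : ℝ) * H :=
        mul_le_mul_of_nonneg_left (S_le B hF H n) hn0
      have h2 : 0 ≤ 1 / (n : ℝ) * (2 * c * H) := by positivity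
      linarith
    · rw [if_neg hb, add_zero]
      exact mul_le_mul_of_nonneg_left (not_lt.1 hb) hn0
  rw [← Finset.sum_mul, ← Finset.sum_mul] at hsplit
  have h4 := sum_inv_le_log N
  refine le_trans (show _ ≤ _ from hsplit) ?_
  have h6 : (∑ n ∈ Icc 1 N, (1 / (n : ℝ))) * (2 * c * H) ≤ (1 + Real.log N) * (2 * c * H) := by
    gcongr
  have h7 : (∑ n ∈ W, (1 / (n : ℝ))) * H ≤
      (c₅ * (1 + Real.log N) + ε₁ / 8 * Real.log N) * H := by gcongr
  refine (add_le_add h6 h7).trans ?_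
  have h8 : (1 + Real.log N) ≤ 2 * Real.log N := by linarith
  have h9 : (1 + Real.log N) * (2 * c * H) ≤ (2 * Real.log N) * (2 * c * H) := by gcongr
  have h10 : (c₅ * (1 + Real.log N) + ε₁ / 8 * Real.log N) * H ≤
      (c₅ * (2 * Real.log N) + ε₁ / 8 * Real.log N) * H := by gcongr
  have h11 : ε₁ * H * Real.log N ≤ ε * H * Real.log N := by gcongr
  have h12 : (2 * Real.log N) * (2 * c * H) +
      (c₅ * (2 * Real.log N) + ε₁ / 8 * Real.log N) * H = 5 / 8 * (ε₁ * H * Real.log N) := by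
    rw [hcd, hc5d]; ring
  have h13 : 0 ≤ ε₁ * H * Real.log N := by positivity
  linarith

end Pool.Agent.TUK
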