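import Mathlib
import Pool.Agent.Lib.TUK.Defs4
import Pool.Agent.Lib.TUK.U2K

/-!
# The classification (MP_663568_nt): the combined statement and the neighbourhoods
-/

set_option autoImplicit false
open Finset Polynomial MeasureTheory

namespace Pool.Agent.TUK

open Pool.Agent.Lib.MP_663568_nt Pool.Agent.Lib.MP_663568_nt.Katai
  Pool.Agent.Lib.MP_663568_nt.Nul Pool.Agent.TU

/-- The beginning of the sum, for all the phases. -/
def Beg0 (F : Set (ℕ → ℂ)) : Prop := ∀ (t : ℕ) (c : ℝ), 0 < c → ∃ H₀ : ℕ, ∀ H : ℕ, H₀ ≤ H →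
  ∀ n : ℕ, n ≤ 2 * H → ∀ α : Fin t → ℝ, ∀ u ∈ F,
    ‖∑ h ∈ Icc 1 H, muC (n + h) * (u h * ee (ph α (h : ℝ)))‖ ≤ c * H

/-- The combined statement. -/
def EK_stmt : Prop := ∀ (k : ℕ) (F : Set (ℕ → ℂ)), Cls F → DualLaw (k + 1) F →
  SLawM k F → (k = 0 → Base1 F ∧ Beg0 F) → ∀ (t : ℕ) (B : Set (Fin t → ℝ)), k < t → IsClosed B →
  Per B → Free k B → Lv k B F →
  ∀ ε : ℝ, 0 < ε → ∃ H₀ : ℕ, ∀ H N : ℕ, H₀ ≤ H → H ≤ N → SBK B F N H ≤ ε * H * Real.log N

theorem rowEK (h8 : E8_stmt) (h9 : E9_stmt) : EK_stmt := by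
  intro k F hF hDu hSM hB1 t B hkt hB hP hfree hLv
  refine h9 k F hF hDu hSM (fun h => (hB1 h).1) t B hkt hB hP hfree hLv ?_
  rcases Nat.eq_zero_or_pos k with h0 | hk
  · intro c hc
    obtain ⟨H₀, h⟩ := (hB1 h0).2 t c hc
    exact ⟨H₀, fun H hH n hn α _ u hu => h H hH n hn α u hu⟩
  · refine h8 k F hk hF hDu t hkt B hB hP hfree fun hps => ?_
    have e : max k 1 = k := max_eq_left hk
    have := hLv.1 (by rw [e]; exact hps)
    rwa [e] at this

/-- The neighbourhoods of `B`. -/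
def EK2_stmt : Prop := ∀ (k : ℕ) (F : Set (ℕ → ℂ)), Cls F → DualLaw (k + 1) F →
  SLawM k F → (k = 0 → Base1 F ∧ Beg0 F) → ∀ (t : ℕ) (B : Set (Fin t → ℝ)), k < t → IsClosed B →
  Per B → Free k B → Lv k B F →
  ∀ ε : ℝ, 0 < ε → ∃ ρ : ℝ, 0 < ρ ∧ ∃ H₀ : ℕ, ∀ H N : ℕ, H₀ ≤ H → H ≤ N →
    SBK (Nb B ρ) F N H ≤ ε * H * Real.log N

open U2Kx in
theorem rowEK2 (hU : EK_stmt) : EK2_stmt := by
  intro k F hF hDual hS h0 t B hkt hB hP hFree hN ε hε
  by_contra hcon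
  push Not at hcon
  have ht : 0 < t := by omega
  -- the bad scales
  have hbad : ∀ j : ℕ, ∃ H N : ℕ, j + 3 ≤ H ∧ H ≤ N ∧
      ε * H * Real.log N < SBK (Nb B (1 / ((j : ℝ) + 1))) F N H := by
    intro j
    obtain ⟨H, N, h1, h2, h3⟩ := hcon (1 / ((j : ℝ) + 1)) (by positivity) (j + 3)
    exact ⟨H, N, h1, h2, h3⟩
  choose Hj Nj hH hN2 hlt using hbad
  have hHpos : ∀ j, (0 : ℝ) < Hj j := fun j => by
    have : 0 < Hj j := by have := hH j; omega
    exact_mod_cast this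
  have hlogpos : ∀ j, 1 ≤ Real.log (Nj j) := by
    intro j
    have h3 : (3 : ℝ) ≤ Nj j := by
      have : 3 ≤ Nj j := by have := hH j; have := hN2 j; omega
      exact_mod_cast this
    rw [Real.le_log_iff_exp_le (by linarith)]
    linarith [Real.exp_one_lt_three]
  -- nonempty sets
  have hne : ∀ j : ℕ, (Nb B (1 / ((j : ℝ) + 1))).Nonempty ∧ F.Nonempty := by
    intro j
    by_contra hemp
    have h0 : SBK (Nb B (1 / ((j : ℝ) + 1))) F (Nj j) (Hj j) = 0 := by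
      unfold SBK
      refine Finset.sum_eq_zero fun n _ => ?_
      have : IsEmpty {p : (Fin t → ℝ) × (ℕ → ℂ) //
          p.1 ∈ Nb B (1 / ((j : ℝ) + 1)) ∧ p.2 ∈ F} := by
        refine ⟨fun p => hemp ⟨⟨_, p.2.1⟩, ⟨_, p.2.2⟩⟩⟩
      rw [Real.iSup_of_isEmpty, mul_zero]
    have := hlt j
    rw [h0] at this
    have h1 := hHpos j
    have h2 := hlogpos j
    have h3 : 0 ≤ ε * Hj j * Real.log (Nj j) := by positivity
    linarith
  -- almost maximal phases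
  have hα : ∀ j n : ℕ, ∃ α ∈ Nb B (2 / ((j : ℝ) + 1)), ∃ u ∈ F,
      Irrational (α ⟨t - 1, by omega⟩) ∧
      FK (Nb B (1 / ((j : ℝ) + 1))) F (Hj j) n - ε / 8 * Hj j ≤
        ‖∑ h ∈ Icc 1 (Hj j), muC (n + h) * (u h * ee (ph α (h : ℝ)))‖ := by
    intro j n
    have h1 := hHpos j
    have h2 : 0 < ε / 16 * Hj j := by positivity
    have h3 : ∃ α ∈ Nb B (1 / ((j : ℝ) + 1)), ∃ u ∈ F,
        FK (Nb B (1 / ((j : ℝ) + 1))) F (Hj j) n - ε / 16 * Hj j ≤
          ‖∑ h ∈ Icc 1 (Hj j), muC (n + h) * (u h * ee (ph α (h : ℝ)))‖ := by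
      by_cases hc : 0 ≤ FK (Nb B (1 / ((j : ℝ) + 1))) F (Hj j) n - ε / 16 * Hj j
      · obtain ⟨α, hαm, u, hu, hαl⟩ := exists_of_lt (B := Nb B (1 / ((j : ℝ) + 1))) (F := F)
          (H := Hj j) (n := n) hc (by linarith)
        exact ⟨α, hαm, u, hu, hαl.le⟩
      · obtain ⟨⟨α, hαm⟩, ⟨u, hu⟩⟩ := hne j
        exact ⟨α, hαm, u, hu, (not_le.1 hc).le.trans (norm_nonneg _)⟩
    obtain ⟨α, hαm, u, hu, hαl⟩ := h3
    obtain ⟨α', hi, hd, hl⟩ := perturb ht u n (Hj j) α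
      (show (0 : ℝ) < 1 / ((j : ℝ) + 1) by positivity) h2
    refine ⟨α', ?_, u, hu, hi, ?_⟩
    · have h4 := nb_nb hαm hd
      have e : (1 : ℝ) / ((j : ℝ) + 1) + 1 / ((j : ℝ) + 1) = 2 / ((j : ℝ) + 1) := by ring
      rwa [e] at h4
    · linarith
  choose α hαm u hu hαi hαl using hα
  set A : ℕ → Set (Fin t → ℝ) := fun J => ⋃ j ∈ Finset.range J, ⋃ n ∈ Icc 1 (Nj j),
    Lat k (α j n) with hA
  set B1 : Set (Fin t → ℝ) := B ∪ ⋃ J, A J with hB1
  have hmemA : ∀ J x, x ∈ A J ↔ ∃ j < J, ∃ n, 1 ≤ n ∧ n ≤ Nj j ∧ x ∈ Lat k (α j n) := by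
    intro J x
    simp only [hA, Set.mem_iUnion, Finset.mem_range, Finset.mem_Icc, exists_prop]
    constructor
    · rintro ⟨j, hj, n, ⟨h1, h2⟩, hx⟩
      exact ⟨j, hj, n, h1, h2, hx⟩
    · rintro ⟨j, hj, n, h1, h2, hx⟩
      exact ⟨j, hj, n, ⟨h1, h2⟩, hx⟩
  have hAc : ∀ J, IsClosed (A J) := by
    intro J
    refine Set.Finite.isClosed_biUnion (Finset.finite_toSet _) fun j _ => ?_
    exact Set.Finite.isClosed_biUnion (Finset.finite_toSet _) fun n _ => lat_closed _ _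
  have hLat : ∀ j n, Lat k (α j n) ⊆ Nb B (2 / ((j : ℝ) + 1)) := by
    rintro j n x ⟨z, hz⟩
    have h1 := U2x.nb_per hP (2 / ((j : ℝ) + 1)) (α j n) (hαm j n) z
    exact nb_free hFree (by positivity) _ h1 x hz
  have hNbm : ∀ {J j : ℕ}, J ≤ j → (2 : ℝ) / ((j : ℝ) + 1) ≤ 2 / ((J : ℝ) + 1) := by
    intro J j h
    have : (J : ℝ) ≤ j := by exact_mod_cast h
    apply div_le_div_of_nonneg_left (by norm_num) (by positivity)
    linarith
  have hclosed : IsClosed B1 := by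
    have e : B1 = ⋂ J : ℕ, (Nb B (2 / ((J : ℝ) + 1)) ∪ A J) := by
      apply Set.eq_of_subset_of_subset
      · intro x hx
        rw [Set.mem_iInter]
        intro J
        rcases hx with hx | hx
        · exact Or.inl (U2x.nb_self (by positivity) hx)
        · rw [Set.mem_iUnion] at hx
          obtain ⟨J', hx⟩ := hx
          rw [hmemA] at hx
          obtain ⟨j, hj, n, h1, h2, hx⟩ := hx
          by_cases hjJ : j < J
          · right
            rw [hmemA]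
            exact ⟨j, hjJ, n, h1, h2, hx⟩
          · left
            exact U2x.nb_mono (hNbm (not_lt.1 hjJ)) (hLat j n hx)
      · intro x hx
        rw [Set.mem_iInter] at hx
        by_cases h : ∃ J, x ∈ A J
        · obtain ⟨J, hJ⟩ := h
          exact Or.inr (Set.mem_iUnion.2 ⟨J, hJ⟩)
        · push Not at h
          left
          refine U2x.mem_of_all hB fun j => ?_
          have h1 := (hx (2 * j + 1)).resolve_right (h _)
          refine U2x.nb_mono ?_ h1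
          push_cast
          have : (2 : ℝ) / (2 * (j : ℝ) + 1 + 1) = 1 / ((j : ℝ) + 1) := by
            field_simp
            ring
          rw [this]
    rw [e]
    exact isClosed_iInter fun J => (U2x.nb_closed hB (by positivity)).union (hAc J)
  have hper : Per B1 := by
    rintro x (hx | hx) z
    · exact Or.inl (hP x hx z)
    · right
      rw [Set.mem_iUnion] at hx ⊢
      obtain ⟨J, hx⟩ := hx
      refine ⟨J, ?_⟩
      rw [hmemA] at hx ⊢
      obtain ⟨j, hj, n, h1, h2, hx⟩ := hx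
      exact ⟨j, hj, n, h1, h2, lat_add hx z⟩
  have hfree : Free k B1 := by
    rintro x (hx | hx) y hy
    · exact Or.inl (hFree x hx y hy)
    · right
      rw [Set.mem_iUnion] at hx ⊢
      obtain ⟨J, hx⟩ := hx
      refine ⟨J, ?_⟩
      rw [hmemA] at hx ⊢
      obtain ⟨j, hj, n, h1, h2, hx⟩ := hx
      exact ⟨j, hj, n, h1, h2, lat_free k _ x hx y hy⟩
  have hnull : ∀ s : ℕ, 1 ≤ s → s ≤ t → PS s B1 → PS s B := by
    intro s hs hst hps
    by_contra hcon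
    obtain ⟨r, hr⟩ := hps
    refine hr ?_
    have hN0 : volume {y : Fin s → ℝ | glue s y (fun i => ((r i : ℚ) : ℝ)) ∈ B} = 0 := by
      by_contra h
      exact hcon ⟨r, h⟩
    have e : {y : Fin s → ℝ | glue s y (fun i => ((r i : ℚ) : ℝ)) ∈ B1} ⊆
        {y : Fin s → ℝ | glue s y (fun i => ((r i : ℚ) : ℝ)) ∈ B} ∪
          ⋃ j : ℕ, ⋃ n : ℕ, {y : Fin s → ℝ | glue s y (fun i => ((r i : ℚ) : ℝ)) ∈
            Lat k (α j n)} := by
      intro y hy
      rcases hy with hy | hy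
      · exact Or.inl hy
      · right
        rw [Set.mem_iUnion] at hy
        obtain ⟨J, hy⟩ := hy
        rw [hmemA] at hy
        obtain ⟨j, hj, n, h1, h2, hx⟩ := hy
        rw [Set.mem_iUnion]
        exact ⟨j, Set.mem_iUnion.2 ⟨n, hx⟩⟩
    refine measure_mono_null e (measure_union_null hN0 ?_)
    exact measure_iUnion_null fun j => measure_iUnion_null fun n =>
      lat_null hs hst hkt _ _ (hαi j n)
  have hLv1 : Lv k B1 F := ⟨fun h => hN.1 (hnull _ (le_max_right _ _) (max_le hkt.le (by omega)) h),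
    fun s hs hst h => hN.2 s hs hst (hnull s ((le_max_right _ _).trans hs.le) hst h)⟩
  obtain ⟨H₀, hH0⟩ := hU k F hF hDual hS h0 t B1 hkt hclosed hper hfree hLv1 (ε / 2)
    (by positivity)
  have hfin := hH0 (Hj H₀) (Nj H₀) (by have := hH H₀; omega) (hN2 H₀)
  set j := H₀ with hj
  have hle : ∀ n ∈ Icc 1 (Nj j), FK (Nb B (1 / ((j : ℝ) + 1))) F (Hj j) n - ε / 8 * Hj j ≤
      FK B1 F (Hj j) n := by
    intro n hn
    rw [Finset.mem_Icc] at hn
    refine (hαl j n).trans ?_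
    have hmem : α j n ∈ B1 := by
      right
      rw [Set.mem_iUnion]
      refine ⟨j + 1, ?_⟩
      rw [hmemA]
      exact ⟨j, Nat.lt_succ_self j, n, hn.1, hn.2, ⟨fun _ => 0, fun i _ => by simp⟩⟩
    exact le_ciSup (f := fun p : {p : (Fin t → ℝ) × (ℕ → ℂ) // p.1 ∈ B1 ∧ p.2 ∈ F} =>
      ‖∑ h ∈ Icc 1 (Hj j), muC (n + h) * (p.1.2 h * ee (ph p.1.1 (h : ℝ)))‖)
      ⟨(Hj j : ℝ), by
        rintro _ ⟨p, rfl⟩
        exact ZZ.norm_sum_le_card
          (g := fun h => muC (n + h) * (p.1.2 h * ee (ph p.1.1 (h : ℝ))))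
          (fun h => norm_term_le (hF.bdd _ p.2.2) _ _ _) (Hj j)⟩
      ⟨(α j n, u j n), hmem, hu j n⟩
  have hsum : SBK (Nb B (1 / ((j : ℝ) + 1))) F (Nj j) (Hj j) ≤
      ∑ n ∈ Icc 1 (Nj j), (1 / (n : ℝ)) * FK B1 F (Hj j) n +
        (∑ n ∈ Icc 1 (Nj j), (1 / (n : ℝ))) * (ε / 8 * Hj j) := by
    rw [Finset.sum_mul, ← Finset.sum_add_distrib]
    unfold SBK
    refine Finset.sum_le_sum fun n hn => ?_
    rw [← mul_add]
    refine mul_le_mul_of_nonneg_left ?_ (by positivity)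
    have := hle n hn
    have h2 : FK (Nb B (1 / ((j : ℝ) + 1))) F (Hj j) n ≤ FK B1 F (Hj j) n + ε / 8 * Hj j := by
      linarith
    exact h2
  have h5 : ∑ n ∈ Icc 1 (Nj j), (1 / (n : ℝ)) * FK B1 F (Hj j) n ≤
      ε / 2 * Hj j * Real.log (Nj j) := hfin
  have h6 := sum_inv_le_log (Nj j)
  have h7 := hHpos j
  have h8 := hlogpos j
  have h9 : (∑ n ∈ Icc 1 (Nj j), (1 / (n : ℝ))) * (ε / 8 * Hj j) ≤
      (2 * Real.log (Nj j)) * (ε / 8 * Hj j) := by
    refine mul_le_mul_of_nonneg_right (by linarith) (by positivity)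
  have h10 := hlt j
  have h11 : 0 < ε * Hj j * Real.log (Nj j) := by positivity
  nlinarith

end Pool.Agent.TUK
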