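import Mathlib
import Pool.Agent.Lib.TUK.Bridge3
import Pool.Agent.Lib.TUK.EK
import Pool.Agent.Lib.TUK.E1
import Pool.Agent.Lib.TUK.E2
import Pool.Agent.Lib.TUK.E3
import Pool.Agent.Lib.TUK.E6
import Pool.Agent.Lib.TUK.E6b
import Pool.Agent.Lib.TUK.E7
import Pool.Agent.Lib.TUK.E9
import Pool.Agent.Lib.TUK.E11
import Pool.Agent.Lib.TU.RowB2

/-!
# The classification (MP_663568_nt): the statement of the hand-in
-/

set_option autoImplicit false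
open Finset Polynomial MeasureTheory

namespace Pool.Agent.TUK

open Pool.Agent.Lib.MP_663568_nt Pool.Agent.Lib.MP_663568_nt.Katai
  Pool.Agent.Lib.MP_663568_nt.Nul Pool.Agent.TU

/-- The phases of level `s`: all of `ℝ^s` for `s ≤ b`, and the minor arcs for `s > b`. -/
def Mb (b s Q : ℕ) (δ : ℝ) : Set (Fin s → ℝ) :=
  {y | b < s → ∀ i : Fin s, i.val + 1 = s → ∀ q : ℕ, 1 ≤ q → q ≤ Q → ∀ b : ℤ,
    δ ≤ |(q : ℝ) * y i - b|}

lemma Mb_of_lt {b s : ℕ} (h : b < s) (Q : ℕ) (δ : ℝ) : Mb b s Q δ = Mr s Q δ := by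
  ext y
  exact ⟨fun hy => hy h, fun hy _ => hy⟩

lemma Mb_of_le {b s : ℕ} (h : s ≤ b) (Q : ℕ) (δ : ℝ) : Mb b s Q δ = Set.univ := by
  ext y
  exact ⟨fun _ => trivial, fun _ h' => absurd h' (not_lt.2 h)⟩

section

variable {G : Type} [Group G]

/-- The polynomials of degree at most `s` with top coefficient outside of the major arcs. -/
lemma AT_le_AvgN (Γ : Subgroup G) (f : G ⧸ Γ → ℂ) (hf : ∀ x, ‖f x‖ ≤ 1) (s : ℕ) (hs : 1 ≤ s)
    (Q : ℕ) (δ : ℝ) (N H : ℕ) :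
    AT s (Mn Q δ) (NS Γ f) (fun _ => 1) N H ≤ AvgN Γ f (Mr s Q δ) N H := by
  have hbd : ∀ u ∈ NS Γ f, ∀ m, ‖u m‖ ≤ 1 := by
    rintro u ⟨g, x, hu⟩ m
    rw [hu]
    exact hf _
  rw [AvgN_eq Γ f hf]
  unfold AT SBK
  refine sum_le_sum fun n _ => mul_le_mul_of_nonneg_left ?_ (by positivity)
  refine Real.iSup_le (fun p => ?_) (Real.iSup_nonneg fun _ => norm_nonneg _)
  obtain ⟨⟨P, u⟩, hP, hA, hu⟩ := p
  change P.natDegree ≤ s at hP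
  change P.coeff s ∈ Mn Q δ at hA
  have hb : BddAbove (Set.range fun p : {p : (Fin s → ℝ) × (ℕ → ℂ) // p.1 ∈ Mr s Q δ ∧
      p.2 ∈ NS Γ f} =>
      ‖∑ h ∈ Icc 1 H, muC (n + h) * (p.1.2 h * ee (ph p.1.1 (h : ℝ)))‖) := by
    refine ⟨H, ?_⟩
    rintro _ ⟨p, rfl⟩
    exact norm_sum_muC_mul_le H n p.1.2 (hbd _ p.2.2) fun h => ph p.1.1 (h : ℝ)
  have hmem : (fun i : Fin s => P.coeff (i.val + 1)) ∈ Mr s Q δ := by
    intro i hi q hq hqQ b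
    simp only [hi]
    exact hA q hq hqQ b
  refine le_trans (le_of_eq ?_) (le_ciSup hb ⟨((fun i => P.coeff (i.val + 1)), u), hmem, hu⟩)
  have h1 : ∀ x : ℝ, P.eval x = P.coeff 0 + ph (fun i : Fin s => P.coeff (i.val + 1)) x := by
    intro x
    rw [eval_eq_sum_range' (n := s + 1) (by omega), Finset.sum_range_succ']
    unfold TU.ph
    rw [Finset.sum_range]
    simp
    ring
  have h2 : ∑ h ∈ Icc 1 H, muC (n + h) * (u h * (1 * ee (P.eval (h : ℝ)))) =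
      ee (P.coeff 0) * ∑ h ∈ Icc 1 H, muC (n + h) *
        (u h * ee (ph (fun i : Fin s => P.coeff (i.val + 1)) (h : ℝ))) := by
    rw [mul_sum]
    refine sum_congr rfl fun h _ => ?_
    rw [h1, ee_add]
    ring
  change ‖∑ h ∈ Icc 1 H, muC (n + h) * (u h * (1 * ee (P.eval (h : ℝ))))‖ = _
  rw [h2, norm_mul, norm_ee, one_mul]

/-- The average for a subset. -/
lemma AvgN_mono (Γ : Subgroup G) (f : G ⧸ Γ → ℂ) (hf : ∀ x, ‖f x‖ ≤ 1) {t : ℕ}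
    {B B' : Set (Fin t → ℝ)} (h : B ⊆ B') (N H : ℕ) : AvgN Γ f B N H ≤ AvgN Γ f B' N H := by
  unfold AvgN
  refine sum_le_sum fun n _ => mul_le_mul_of_nonneg_left ?_ (by positivity)
  refine Real.iSup_le (fun i => ?_) (Real.iSup_nonneg fun _ => norm_nonneg _)
  have hb : BddAbove (Set.range fun i : {i : (G × G) × (Fin t → ℝ) // i.2 ∈ B'} =>
      wd Γ f H n i.1) := by
    refine ⟨(H : ℝ), ?_⟩
    rintro _ ⟨i, rfl⟩
    exact term_le_card (u := fun h => f (QuotientGroup.mk (i.1.1.1 ^ h * i.1.1.2)))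
      (fun m => hf _) H n fun h => ph i.1.2 (h : ℝ)
  exact le_ciSup hb ⟨i.1, h i.2⟩

/-- The beginning of the sum for the trivial group. -/
lemma beg0 (hH : H_stmt) (hG : ∀ x : G, x = 1) (Γ : Subgroup G) (f : G ⧸ Γ → ℂ)
    (hf : ∀ x, ‖f x‖ ≤ 1) : Beg0 (NS Γ f) := by
  intro t c hc
  obtain ⟨X₀, hX⟩ := hH t (c / 6) (by positivity)
  refine ⟨max 1 ⌈6 * X₀ / c⌉₊ + X₀, fun H hHH n hn α u hu => ?_⟩
  obtain ⟨g, x, hu⟩ := hu
  have hH1 : X₀ ≤ H := by omega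
  have hHc : ((⌈6 * X₀ / c⌉₊ : ℕ) : ℝ) ≤ H := by
    have : ⌈6 * X₀ / c⌉₊ ≤ H := by
      have := le_max_right 1 ⌈6 * X₀ / c⌉₊
      omega
    exact_mod_cast this
  have hXc : (X₀ : ℝ) ≤ c / 6 * H := by
    have h1 := (Nat.le_ceil (6 * (X₀ : ℝ) / c)).trans hHc
    rw [div_le_iff₀ hc] at h1
    linarith
  have hcon : ∀ h, u h = f (QuotientGroup.mk 1) := fun h => by
    rw [hu, hG (g ^ h * x)]
  have e1 : ∑ h ∈ Icc 1 H, muC (n + h) * (u h * ee (ph α (h : ℝ))) =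
      f (QuotientGroup.mk 1) * ∑ h ∈ Icc 1 H, muC (n + h) * ee (ph α (h : ℝ)) := by
    rw [mul_sum]
    refine sum_congr rfl fun h _ => ?_
    rw [hcon]
    ring
  rw [e1, norm_mul]
  refine (mul_le_of_le_one_left (norm_nonneg _) (hf _)).trans ?_
  obtain ⟨P, hPd⟩ : ∃ P : ℝ[X], P = taylor (-(n : ℝ)) (B2.phP α) := ⟨_, rfl⟩
  have hPt : P.natDegree ≤ t := by
    rw [hPd, natDegree_taylor]
    exact B2.phP_natDegree α
  have hPe : ∀ h : ℕ, P.eval ((n + h : ℕ) : ℝ) = ph α (h : ℝ) := by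
    intro h
    rw [hPd, taylor_eval, B2.phP_eval]
    congr 1
    push_cast
    ring
  have e2 : ∑ h ∈ Icc 1 H, muC (n + h) * ee (ph α (h : ℝ)) =
      ∑ x ∈ Icc 1 (n + H), muC x * ee (P.eval (x : ℝ)) -
        ∑ x ∈ Icc 1 n, muC x * ee (P.eval (x : ℝ)) := by
    have h1 : ∑ h ∈ Icc 1 H, muC (n + h) * ee (ph α (h : ℝ)) =
        ∑ x ∈ Ioc n (n + H), muC x * ee (P.eval (x : ℝ)) := by
      have h2 : Ioc n (n + H) = (Icc 1 H).image fun h => n + h := by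
        ext x
        simp only [mem_Ioc, mem_image, mem_Icc]
        constructor
        · rintro ⟨h1, h2⟩
          exact ⟨x - n, ⟨by omega, by omega⟩, by omega⟩
        · rintro ⟨h, ⟨h1, h2⟩, rfl⟩
          exact ⟨by omega, by omega⟩
      rw [h2, sum_image fun a _ b _ h => by simpa using h]
      exact sum_congr rfl fun h _ => by rw [hPe]
    have h3 : Icc 1 (n + H) = Ioc 0 (n + H) := rfl
    have h4 : Icc 1 n = Ioc 0 n := rfl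
    rw [h1, h3, h4, eq_sub_iff_add_eq, add_comm]
    exact sum_Ioc_consecutive _ (Nat.zero_le _) (by omega)
  rw [e2]
  refine (norm_sub_le _ _).trans ?_
  have h1 : ‖∑ x ∈ Icc 1 (n + H), muC x * ee (P.eval (x : ℝ))‖ ≤ c / 2 * H := by
    refine (hX (n + H) (by omega) P hPt).trans ?_
    have : ((n + H : ℕ) : ℝ) ≤ 3 * H := by
      have : n + H ≤ 3 * H := by omega
      exact_mod_cast this
    nlinarith
  have h2 : ‖∑ x ∈ Icc 1 n, muC x * ee (P.eval (x : ℝ))‖ ≤ c / 2 * H := by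
    rcases le_total X₀ n with hn' | hn'
    · refine (hX n hn' P hPt).trans ?_
      have : (n : ℝ) ≤ 2 * H := by exact_mod_cast hn
      nlinarith
    · have h5 : ‖∑ x ∈ Icc 1 n, muC x * ee (P.eval (x : ℝ))‖ ≤ n := by
        refine (norm_sum_le _ _).trans ?_
        refine (sum_le_card_nsmul _ _ 1 fun h _ => ?_).trans (by simp)
        rw [norm_mul, norm_ee, mul_one]
        exact norm_muC _
      have h6 : (n : ℝ) ≤ X₀ := by exact_mod_cast hn'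
      have h7 : (0 : ℝ) ≤ H := by positivity
      nlinarith
  linarith

end

section

variable {G : Type} [Group G]

/-- The average is small. -/
def SmA (Γ : Subgroup G) (f : G ⧸ Γ → ℂ) {t : ℕ} (B : Set (Fin t → ℝ)) : Prop :=
  ∀ ε : ℝ, 0 < ε → ∃ H₀ : ℕ, ∀ H N : ℕ, H₀ ≤ H → H ≤ N → AvgN Γ f B N H ≤ ε * H * Real.log N

/-- The average is small, also for a neighbourhood. -/
def SmN (Γ : Subgroup G) (f : G ⧸ Γ → ℂ) {t : ℕ} (B : Set (Fin t → ℝ)) : Prop :=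
  ∀ ε : ℝ, 0 < ε → ∃ ρ : ℝ, 0 < ρ ∧ ∃ H₀ : ℕ, ∀ H N : ℕ, H₀ ≤ H → H ≤ N →
    AvgN Γ f (Nb B ρ) N H ≤ ε * H * Real.log N

/-- The basic average of level `s` is small. -/
def SmU (Γ : Subgroup G) (f : G ⧸ Γ → ℂ) (b s : ℕ) : Prop :=
  ∀ ε : ℝ, 0 < ε → ∃ Q : ℕ, ∀ δ : ℝ, 0 < δ → ∃ H₀ : ℕ, ∀ H N : ℕ, H₀ ≤ H → H ≤ N →
    AvgN Γ f (Mb b s Q δ) N H ≤ ε * H * Real.log N

/-- The basic averages of the levels of `B` are small. -/
def SmL (Γ : Subgroup G) (f : G ⧸ Γ → ℂ) {t : ℕ} (b : ℕ) (B : Set (Fin t → ℝ)) : Prop :=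
  ∀ s : ℕ, b ≤ s → s ≤ t → (∃ r : Fin t → ℚ,
    volume {y : Fin s → ℝ | glue s y (fun i => ((r i : ℚ) : ℝ)) ∈ B} ≠ 0) → SmU Γ f b s

lemma le_of_mul_bound {C x y ε : ℝ} (hC : 0 < C) (H N : ℕ) (h : x ≤ C * y)
    (hy : y ≤ ε / C * H * Real.log N) : x ≤ ε * H * Real.log N := by
  refine h.trans ((mul_le_mul_of_nonneg_left hy hC.le).trans (le_of_eq ?_))
  field_simp

lemma SmA.trans (Γ : Subgroup G) {f f' : G ⧸ Γ → ℂ} {C : ℝ} (hC : 0 < C)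
    (h : ∀ (t : ℕ) (B : Set (Fin t → ℝ)) (N H : ℕ), AvgN Γ f B N H ≤ C * AvgN Γ f' B N H) {t : ℕ}
    {B : Set (Fin t → ℝ)} (hs : SmA Γ f' B) : SmA Γ f B := by
  intro ε hε
  obtain ⟨H₀, h1⟩ := hs (ε / C) (by positivity)
  exact ⟨H₀, fun H N hH hHN => le_of_mul_bound hC H N (h t B N H) (h1 H N hH hHN)⟩

lemma SmN.trans (Γ : Subgroup G) {f f' : G ⧸ Γ → ℂ} {C : ℝ} (hC : 0 < C)
    (h : ∀ (t : ℕ) (B : Set (Fin t → ℝ)) (N H : ℕ), AvgN Γ f B N H ≤ C * AvgN Γ f' B N H) {t : ℕ}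
    {B : Set (Fin t → ℝ)} (hs : SmN Γ f' B) : SmN Γ f B := by
  intro ε hε
  obtain ⟨ρ, hρ, H₀, h1⟩ := hs (ε / C) (by positivity)
  exact ⟨ρ, hρ, H₀, fun H N hH hHN => le_of_mul_bound hC H N (h t _ N H) (h1 H N hH hHN)⟩

lemma SmU.trans (Γ : Subgroup G) {f f' : G ⧸ Γ → ℂ} {C : ℝ} (hC : 0 < C)
    (h : ∀ (t : ℕ) (B : Set (Fin t → ℝ)) (N H : ℕ), AvgN Γ f B N H ≤ C * AvgN Γ f' B N H)
    {b s : ℕ} (hs : SmU Γ f' b s) : SmU Γ f b s := by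
  intro ε hε
  obtain ⟨Q, hQ⟩ := hs (ε / C) (by positivity)
  refine ⟨Q, fun δ hδ => ?_⟩
  obtain ⟨H₀, h1⟩ := hQ δ hδ
  exact ⟨H₀, fun H N hH hHN => le_of_mul_bound hC H N (h s _ N H) (h1 H N hH hHN)⟩

end

section

variable {G : Type} [Group G] [TopologicalSpace G] [IsTopologicalGroup G]

/-- The levels imply the smallness for a neighbourhood, for `|f| ≤ 1`. -/
theorem SmN_of_SmL (hEK : EK2_stmt)
    (k t : ℕ) (hkt : k < t)
    (A : ℕ → Subgroup G) (hanti : Antitone A) (hcomm : ∀ i j, ⁅A i, A j⁆ ≤ A (i + j))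
    (hA1 : A 1 = ⊤) (hAk : A (k + 1) = ⊥)
    (Γ : Subgroup G) (hΓ : IsClosed (Γ : Set G))
    (hcpt : ∀ i, ∃ C : Set G, IsCompact C ∧ (∀ c ∈ C, c ∈ A i) ∧
      ∀ x ∈ A i, ∃ c ∈ C, ∃ γ ∈ Γ, x = c * γ)
    (f : G ⧸ Γ → ℂ) (hf : Continuous f) (hf1 : ∀ x, ‖f x‖ ≤ 1)
    (B : Set (Fin t → ℝ)) (hB : IsClosed B)
    (hinv : ∀ α ∈ B, ∀ β : Fin t → ℝ,
      (∀ i : Fin t, k ≤ i.val → ∃ z : ℤ, β i = α i + (z : ℝ)) → β ∈ B)
    (hL : SmL Γ f (max k 1) B) : SmN Γ f B := by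
  have hP : Per B := fun α hα z => hinv α hα _ fun i _ => ⟨z i, rfl⟩
  have hFr : Free k B := fun α hα β hβ => hinv α hα β fun i hi => ⟨0, by rw [hβ i hi]; simp⟩
  obtain ⟨hCls, hDual, -⟩ := rowSK G k A hanti hcomm hA1 hAk Γ hΓ hcpt f hf hf1
  obtain ⟨hSM, hB1⟩ := rowE3 G k A hanti hcomm hA1 hAk Γ hΓ hcpt f hf hf1
  have h0 : k = 0 → Base1 (NS Γ f) ∧ Beg0 (NS Γ f) := by
    intro hk
    refine ⟨hB1 hk, beg0 (rowH rowA) (fun x => ?_) Γ f hf1⟩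
    subst hk
    have h1 : (⊤ : Subgroup G) = ⊥ := by
      rw [← hA1]
      simpa using hAk
    have h2 : x ∈ (⊤ : Subgroup G) := Subgroup.mem_top x
    rw [h1] at h2
    exact Subgroup.mem_bot.1 h2
  have hLv : Lv k B (NS Γ f) := by
    refine ⟨fun hps => ?_, fun s hs hst hps => ?_⟩
    · have h1 := hL (max k 1) le_rfl (max_le hkt.le (by omega)) hps
      intro ε hε
      obtain ⟨Q, hQ⟩ := h1 ε hε
      obtain ⟨H₀, h⟩ := hQ 1 one_pos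
      refine ⟨H₀, fun H N hH hHN => ?_⟩
      have h2 := h H N hH hHN
      rw [Mb_of_le le_rfl, AvgN_eq Γ f hf1] at h2
      exact h2
    · have h1 := hL s hs.le hst hps
      intro ε hε
      obtain ⟨Q, hQ⟩ := h1 ε hε
      refine ⟨Q, fun δ hδ => ?_⟩
      obtain ⟨H₀, h⟩ := hQ δ hδ
      refine ⟨H₀, fun H N hH hHN => ?_⟩
      have h2 := h H N hH hHN
      rw [Mb_of_lt hs] at h2
      exact (AT_le_AvgN Γ f hf1 s (by omega) Q δ N H).trans h2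
  intro ε hε
  obtain ⟨ρ, hρ, H₀, h⟩ := hEK k (NS Γ f) hCls hDual hSM h0 t B hkt hB hP hFr hLv ε hε
  refine ⟨ρ, hρ, H₀, fun H N hH hHN => ?_⟩
  rw [AvgN_eq Γ f hf1]
  exact h H N hH hHN

/-- The smallness for `B` implies the smallness for the levels, for `|f| ≤ 1`. -/
theorem SmL_of_SmA (h10 : E10_stmt)
    (k t : ℕ) (hkt : k < t)
    (A : ℕ → Subgroup G) (hanti : Antitone A) (hcomm : ∀ i j, ⁅A i, A j⁆ ≤ A (i + j))
    (hA1 : A 1 = ⊤) (hAk : A (k + 1) = ⊥)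
    (Γ : Subgroup G) (hΓ : IsClosed (Γ : Set G))
    (hcpt : ∀ i, ∃ C : Set G, IsCompact C ∧ (∀ c ∈ C, c ∈ A i) ∧
      ∀ x ∈ A i, ∃ c ∈ C, ∃ γ ∈ Γ, x = c * γ)
    (f : G ⧸ Γ → ℂ) (hf : Continuous f) (hf1 : ∀ x, ‖f x‖ ≤ 1)
    (B : Set (Fin t → ℝ)) (hB : IsClosed B)
    (hinv : ∀ α ∈ B, ∀ β : Fin t → ℝ,
      (∀ i : Fin t, k ≤ i.val → ∃ z : ℤ, β i = α i + (z : ℝ)) → β ∈ B)
    (hs : SmA Γ f B) : SmL Γ f (max k 1) B := by
  have hFr : Free k B := fun α hα β hβ => hinv α hα β fun i hi => ⟨0, by rw [hβ i hi]; simp⟩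
  intro s hbs hst ⟨r, hr⟩ ε hε
  rcases hbs.lt_or_eq with hlt | rfl
  · obtain ⟨Q, hQ⟩ := partIII k t A hanti hcomm hA1 hAk Γ hΓ hcpt f hf B hB hinv s
      (lt_of_le_of_lt (le_max_left _ _) hlt) (by have := le_max_right k 1; omega) hst r hr hs ε hε
    refine ⟨Q, fun δ hδ => ?_⟩
    obtain ⟨H₀, h⟩ := hQ δ hδ
    exact ⟨H₀, fun H N hH hHN => by rw [Mb_of_lt hlt]; exact h H N hH hHN⟩
  · refine ⟨1, fun δ _ => ?_⟩
    simp only [Mb_of_le (le_refl (max k 1))]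
    rcases Nat.eq_zero_or_pos k with rfl | hk
    · exact partII' 0 t hkt A hanti hA1 hAk Γ hcpt f hf B hinv 1 le_rfl le_rfl r hr hs ε hε
    · have hmk : max k 1 = k := max_eq_left hk
      rw [hmk] at hr ⊢
      have hrB : (fun i => ((r i : ℚ) : ℝ)) ∈ B := by
        have hne : {y : Fin k → ℝ | glue k y (fun i => ((r i : ℚ) : ℝ)) ∈ B}.Nonempty := by
          by_contra hcon
          rw [Set.not_nonempty_iff_eq_empty] at hcon
          rw [hcon] at hr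
          exact hr (measure_empty)
        obtain ⟨y, hy⟩ := hne
        refine hFr _ hy _ fun i hi => ?_
        unfold glue
        rw [dif_neg (by omega)]
      obtain ⟨C, hC, hE⟩ := h10 k t (NS Γ f) hk hkt (by
        rintro u ⟨g, x, hu⟩ m
        rw [hu]
        exact hf1 _) B hFr r hrB
      obtain ⟨H₀, h⟩ := hs (ε / C) (by positivity)
      refine ⟨H₀, fun H N hH hHN => ?_⟩
      have h1 := h H N hH hHN
      have h2 := hE N H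
      rw [AvgN_eq Γ f hf1] at h1 ⊢
      exact le_of_mul_bound hC H N h2 h1

/-- **The classification.** -/
theorem classification (hEK : EK2_stmt) (h10 : E10_stmt)
    (k t : ℕ) (hkt : k < t)
    (A : ℕ → Subgroup G) (hanti : Antitone A) (hcomm : ∀ i j, ⁅A i, A j⁆ ≤ A (i + j))
    (hA1 : A 1 = ⊤) (hAk : A (k + 1) = ⊥)
    (Γ : Subgroup G) (hΓ : IsClosed (Γ : Set G))
    (hcpt : ∀ i, ∃ C : Set G, IsCompact C ∧ (∀ c ∈ C, c ∈ A i) ∧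
      ∀ x ∈ A i, ∃ c ∈ C, ∃ γ ∈ Γ, x = c * γ)
    (f : G ⧸ Γ → ℂ) (hf : Continuous f) (B : Set (Fin t → ℝ)) (hB : IsClosed B)
    (hinv : ∀ α ∈ B, ∀ β : Fin t → ℝ,
      (∀ i : Fin t, k ≤ i.val → ∃ z : ℤ, β i = α i + (z : ℝ)) → β ∈ B) :
    List.TFAE [SmA Γ f B, SmN Γ f B, SmL Γ f (max k 1) B] := by
  obtain ⟨b, hb⟩ := exists_bound A hanti hA1 Γ hcpt f hf
  have hb0 : 0 ≤ b := (norm_nonneg _).trans (hb (QuotientGroup.mk 1))
  have hb1 : 0 < b + 1 := by linarith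
  obtain ⟨f', hf'⟩ : ∃ f' : G ⧸ Γ → ℂ, f' = fun x => ((b + 1 : ℝ) : ℂ)⁻¹ * f x := ⟨_, rfl⟩
  have hf'c : Continuous f' := by rw [hf']; fun_prop
  have hf'1 : ∀ x, ‖f' x‖ ≤ 1 := by
    intro x
    rw [hf']
    beta_reduce
    rw [norm_mul, norm_inv, Complex.norm_real, Real.norm_eq_abs, abs_of_pos hb1,
      inv_mul_le_iff₀ hb1, mul_one]
    linarith [hb x]
  have hff' : f = fun x => ((b + 1 : ℝ) : ℂ) * f' x := by
    rw [hf']
    funext x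
    have hne : ((b + 1 : ℝ) : ℂ) ≠ 0 := by exact_mod_cast hb1.ne'
    beta_reduce
    rw [mul_inv_cancel_left₀ hne]
  have hup : ∀ (t : ℕ) (B : Set (Fin t → ℝ)) (N H : ℕ),
      AvgN Γ f B N H ≤ (b + 1) * AvgN Γ f' B N H := by
    intro t B N H
    rw [hff', AvgN_scale, Complex.norm_real, Real.norm_eq_abs, abs_of_pos hb1]
  have hdn : ∀ (t : ℕ) (B : Set (Fin t → ℝ)) (N H : ℕ),
      AvgN Γ f' B N H ≤ (b + 1)⁻¹ * AvgN Γ f B N H := by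
    intro t B N H
    rw [hf', AvgN_scale, norm_inv, Complex.norm_real, Real.norm_eq_abs, abs_of_pos hb1]
  tfae_have 3 → 2 := by
    intro h
    refine SmN.trans Γ hb1 hup (SmN_of_SmL hEK k t hkt A hanti hcomm hA1 hAk Γ hΓ hcpt f' hf'c
      hf'1 B hB hinv fun s h1 h2 h3 => SmU.trans Γ (inv_pos.2 hb1) hdn (h s h1 h2 h3))
  tfae_have 2 → 1 := by
    intro h
    refine SmA.trans Γ hb1 hup fun ε hε => ?_
    obtain ⟨ρ, hρ, H₀, h1⟩ := SmN.trans Γ (inv_pos.2 hb1) hdn h ε hε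
    exact ⟨H₀, fun H N hH hHN => (AvgN_mono Γ f' hf'1 (U2x.nb_self hρ.le) N H).trans
      (h1 H N hH hHN)⟩
  tfae_have 1 → 3 := by
    intro h s h1 h2 h3
    exact SmU.trans Γ hb1 hup (SmL_of_SmA h10 k t hkt A hanti hcomm hA1 hAk Γ hΓ hcpt f' hf'c hf'1
      B hB hinv (SmA.trans Γ (inv_pos.2 hb1) hdn h) s h1 h2 h3)
  tfae_finish

end

end Pool.Agent.TUK
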