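import Mathlib
import Pool.Agent.Lib.TUK.FinalE

/-!
# The classification (MP_663568_nt): sets which are not closed
-/

set_option autoImplicit false
open Finset Polynomial MeasureTheory

namespace Pool.Agent.TUK

open Pool.Agent.Lib.MP_663568_nt Pool.Agent.Lib.MP_663568_nt.Katai
  Pool.Agent.Lib.MP_663568_nt.Nul Pool.Agent.TU

/-- The closure of `B + ℤ^t`. -/
def Hul {t : ℕ} (B : Set (Fin t → ℝ)) : Set (Fin t → ℝ) :=
  closure {β | ∃ α ∈ B, ∃ z : Fin t → ℤ, ∀ i, β i = α i + (z i : ℝ)}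

lemma subset_Hul {t : ℕ} (B : Set (Fin t → ℝ)) : B ⊆ Hul B := fun α hα =>
  subset_closure ⟨α, hα, 0, fun i => by simp⟩

lemma Hul_inv {t k : ℕ} {B : Set (Fin t → ℝ)} (hB : Free k B) : ∀ α ∈ Hul B,
    ∀ β : Fin t → ℝ, (∀ i : Fin t, k ≤ i.val → ∃ z : ℤ, β i = α i + (z : ℝ)) → β ∈ Hul B := by
  intro α hα β hβ
  have hc : Continuous fun x : Fin t → ℝ => fun i => x i + (β i - α i) := by fun_prop
  have h1 := map_mem_closure hc hα (t := {β | ∃ α ∈ B, ∃ z : Fin t → ℤ, ∀ i, β i = α i + (z i : ℝ)})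
    (by
      rintro x ⟨y, hy, z, hz⟩
      have h2 : ∀ i : Fin t, ∃ w : ℤ, k ≤ i.val → β i = α i + (w : ℝ) := by
        intro i
        by_cases hi : k ≤ i.val
        · obtain ⟨w, hw⟩ := hβ i hi
          exact ⟨w, fun _ => hw⟩
        · exact ⟨0, fun h => absurd h hi⟩
      choose w hw using h2
      refine ⟨fun i => if k ≤ i.val then y i else x i + (β i - α i),
        hB y hy _ fun i hi => if_pos hi, fun i => if k ≤ i.val then z i + w i else 0, fun i => ?_⟩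
      by_cases hi : k ≤ i.val
      · simp only [hi, if_true]
        rw [hz i, hw i hi]
        push_cast
        ring
      · simp only [hi, if_false]
        push_cast
        ring)
  have h3 : (fun i => α i + (β i - α i)) = β := by
    funext i
    ring
  rw [h3] at h1
  exact h1

section

variable {G : Type} [Group G]

lemma AvgN_Hul (Γ : Subgroup G) (f : G ⧸ Γ → ℂ) (hf : ∀ x, ‖f x‖ ≤ 1) {t : ℕ}
    (B : Set (Fin t → ℝ)) (N H : ℕ) : AvgN Γ f (Hul B) N H ≤ AvgN Γ f B N H := by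
  unfold AvgN
  refine sum_le_sum fun n _ => mul_le_mul_of_nonneg_left ?_ (by positivity)
  refine Real.iSup_le (fun i => ?_) (Real.iSup_nonneg fun _ => norm_nonneg _)
  have hb : BddAbove (Set.range fun i : {i : (G × G) × (Fin t → ℝ) // i.2 ∈ B} =>
      wd Γ f H n i.1) := by
    refine ⟨(H : ℝ), ?_⟩
    rintro _ ⟨i, rfl⟩
    exact term_le_card (u := fun h => f (QuotientGroup.mk (i.1.1.1 ^ h * i.1.1.2)))
      (fun m => hf _) H n fun h => ph i.1.2 (h : ℝ)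
  obtain ⟨⟨gx, β⟩, hβ⟩ := i
  set S : ℝ := ⨆ i : {i : (G × G) × (Fin t → ℝ) // i.2 ∈ B}, wd Γ f H n i.1 with hS
  have hcl : IsClosed {β : Fin t → ℝ | wd Γ f H n (gx, β) ≤ S} :=
    isClosed_le (U2Kx.cont_sum (fun h => f (QuotientGroup.mk (gx.1 ^ h * gx.2))) n H)
      continuous_const
  refine (closure_minimal ?_ hcl : Hul B ⊆ _) hβ
  rintro x ⟨α, hα, z, hz⟩
  have h1 : ∀ h : ℕ, ee (ph x (h : ℝ)) = ee (ph α (h : ℝ)) := by
    intro h
    have h2 : ph x (h : ℝ) = ph α (h : ℝ) + ((∑ i : Fin t, z i * (h : ℤ) ^ (i.val + 1) : ℤ) : ℝ) := by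
      unfold TU.ph
      push_cast
      rw [← sum_add_distrib]
      exact sum_congr rfl fun i _ => by rw [hz i]; ring
    rw [h2, ee_add, ee_int, mul_one]
  have h3 : wd Γ f H n (gx, x) = wd Γ f H n (gx, α) := by
    unfold wd
    congr 1
    exact sum_congr rfl fun h _ => by rw [h1]
  change wd Γ f H n (gx, x) ≤ S
  rw [h3]
  exact le_ciSup hb ⟨(gx, α), hα⟩

end

section

variable {G : Type} [Group G] [TopologicalSpace G] [IsTopologicalGroup G]

/-- **The classification, for all sets.** -/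
theorem classification2 (hEK : EK2_stmt) (h10 : E10_stmt)
    (k t : ℕ) (hkt : k < t)
    (A : ℕ → Subgroup G) (hanti : Antitone A) (hcomm : ∀ i j, ⁅A i, A j⁆ ≤ A (i + j))
    (hA1 : A 1 = ⊤) (hAk : A (k + 1) = ⊥)
    (Γ : Subgroup G) (hΓ : IsClosed (Γ : Set G))
    (hcpt : ∀ i, ∃ C : Set G, IsCompact C ∧ (∀ c ∈ C, c ∈ A i) ∧
      ∀ x ∈ A i, ∃ c ∈ C, ∃ γ ∈ Γ, x = c * γ)
    (f : G ⧸ Γ → ℂ) (hf : Continuous f) (B : Set (Fin t → ℝ)) (hB : Free k B) :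
    List.TFAE [SmA Γ f B, SmN Γ f B, SmL Γ f (max k 1) (Hul B)] := by
  obtain ⟨b, hb⟩ := exists_bound A hanti hA1 Γ hcpt f hf
  have hb0 : 0 ≤ b := (norm_nonneg _).trans (hb (QuotientGroup.mk 1))
  have hb1 : 0 < b + 1 := by linarith
  obtain ⟨f', hf'⟩ : ∃ f' : G ⧸ Γ → ℂ, f' = fun x => ((b + 1 : ℝ) : ℂ)⁻¹ * f x := ⟨_, rfl⟩
  have hf'1 : ∀ x, ‖f' x‖ ≤ 1 := by
    intro x
    rw [hf']
    beta_reduce
    rw [norm_mul, norm_inv, Complex.norm_real, Real.norm_eq_abs, abs_of_pos hb1,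
      inv_mul_le_iff₀ hb1, mul_one]
    linarith [hb x]
  have hff' : f = fun x => ((b + 1 : ℝ) : ℂ) * f' x := by
    rw [hf']
    funext x
    have hne : ((b + 1 : ℝ) : ℂ) ≠ 0 := by exact_mod_cast hb1.ne'
    beta_reduce
    rw [mul_inv_cancel_left₀ hne]
  have hsc : ∀ (B : Set (Fin t → ℝ)) (N H : ℕ),
      AvgN Γ f B N H = (b + 1) * AvgN Γ f' B N H := by
    intro B N H
    rw [hff', AvgN_scale, Complex.norm_real, Real.norm_eq_abs, abs_of_pos hb1]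
  have hmono : ∀ {B B' : Set (Fin t → ℝ)}, B ⊆ B' → ∀ N H : ℕ, AvgN Γ f B N H ≤ AvgN Γ f B' N H :=
    fun h N H => by
      rw [hsc, hsc]
      exact mul_le_mul_of_nonneg_left (AvgN_mono Γ f' hf'1 h N H) hb1.le
  have hH : ∀ N H : ℕ, AvgN Γ f (Hul B) N H ≤ AvgN Γ f B N H := fun N H => by
    rw [hsc, hsc]
    exact mul_le_mul_of_nonneg_left (AvgN_Hul Γ f' hf'1 B N H) hb1.le
  have key := classification hEK h10 k t hkt A hanti hcomm hA1 hAk Γ hΓ hcpt f hf (Hul B)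
    isClosed_closure (Hul_inv hB)
  tfae_have 3 → 2 := by
    intro h ε hε
    have h0 : SmN Γ f (Hul B) := (key.out 2 1).1 h
    obtain ⟨ρ, hρ, H₀, h1⟩ := h0 ε hε
    refine ⟨ρ, hρ, H₀, fun H N hH' hHN => (hmono ?_ N H).trans (h1 H N hH' hHN)⟩
    rintro α ⟨β, hβ, hb⟩
    exact ⟨β, subset_Hul B hβ, hb⟩
  tfae_have 2 → 1 := by
    intro h ε hε
    obtain ⟨ρ, hρ, H₀, h1⟩ := h ε hε
    exact ⟨H₀, fun H N hH' hHN => (hmono (U2x.nb_self hρ.le) N H).trans (h1 H N hH' hHN)⟩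
  tfae_have 1 → 3 := by
    intro h
    have h0 : SmA Γ f (Hul B) → SmL Γ f (max k 1) (Hul B) := (key.out 0 2).1
    refine h0 fun ε hε => ?_
    obtain ⟨H₀, h1⟩ := h ε hε
    exact ⟨H₀, fun H N hH' hHN => (hH N H).trans (h1 H N hH' hHN)⟩
  tfae_finish

end

end Pool.Agent.TUK
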